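import Pool.Agent.Work.MP_701abf_gt.TwT.Stmts
import Pool.Agent.Work.MP_701abf_gt.SN.AllB
import Pool.Agent.Work.MP_701abf_gt.SN.Fin

/-!
# The two-thirds law, half A: the operations of half B, and the statement `SN.StA`
-/

open MvPolynomial
open Pool.Agent.Work.MP_701abf_gt.Stab Pool.Agent.Work.MP_701abf_gt.Cob
open Pool.Agent.Work.MP_701abf_gt.Sq2

namespace Pool.Agent.Work.MP_701abf_gt.TwT

lemma mem_of_zero {s : ℕ} {t : ℤ} {F : RR Empty} (h : F = 0) : F ∈ BR s t := h ▸ Submodule.zero_mem _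

/-- The operations of half B. -/
theorem ops_qn : Ops SN.qn where
  zr n s t F hF := SN.tQZ n s t F hF
  br n s t F hF := SN.tQB n s t F hF
  add n s t F hF G hG := SN.tQA n s t F hF G hG
  zero s t F _ := mem_of_zero (by rw [SN.tQ01.1 s F]; exact add_self2 _)
  one s t F hF := mem_of_zero (by rw [SN.tQ01.2.1 s t F hF]; exact add_self2 _)
  top n s t h F hF := mem_of_zero (SN.tQ01.2.2.2 n s t h F hF)
  mul n i j a b F hF G hG := mem_of_zero (by
    rw [SN.tQC n i j a b F hF G hG]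
    exact add_self2 _)

lemma few_mono {U U' k t : ℕ} (hU : U ≤ U') (h : Few U k t) : Few U' k t := by
  obtain ⟨a, u, h1, h2⟩ := h
  exact ⟨a, u, fun i => (h1 i).trans hU, h2⟩

/-- The input of the assembly in SN/Fin.lean. -/
theorem stA_of (hFi : StFi) (hFe : StFe) : SN.StA := by
  intro s k e he
  obtain ⟨U1, J1, h1⟩ := hFi SN.qn ops_qn s k e he
  obtain ⟨U2, J2, h2⟩ := hFe SN.qn ops_qn s e (by rw [he]; exact le_max_left _ _)
  refine ⟨max U1 U2, max J1 J2, fun t hF J hJ X hX hXB => ⟨?_, fun hd => ?_⟩⟩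
  · exact h1 t (fun h => hF (few_mono (le_max_left _ _) h)) J ((le_max_left _ _).trans hJ) X hX hXB
  · exact h2 t (fun h => hF (few_mono (le_max_right _ _) h)) J ((le_max_right _ _).trans hJ) X hX hd

end Pool.Agent.Work.MP_701abf_gt.TwT
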