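import Pool.Agent.Work.MP_701abf_gt.TwT.Stmts

set_option autoImplicit false

open MvPolynomial
open Pool.Agent.Work.MP_701abf_gt.Stab Pool.Agent.Work.MP_701abf_gt.Cob
open Pool.Agent.Work.MP_701abf_gt.Sq2

namespace Pool.Agent.Work.MP_701abf_gt.TwT

namespace IBi

/-- Lucas for a high power of two -/
theorem ch : ∀ i r : ℕ, r < 2 ^ i → (((r + 2 ^ i).choose r : ℕ) : ZMod 2) = 1 := by
  intro i
  induction i with
  | zero =>
    intro r hr
    have : r = 0 := by omega
    subst this
    simp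
  | succ i ih =>
    intro r hr
    have h1 := @Choose.choose_modEq_choose_mod_mul_choose_div_nat (r + 2 ^ (i + 1)) r 2 ⟨Nat.prime_two⟩
    have h2 : (r + 2 ^ (i + 1)) % 2 = r % 2 := by
      rw [pow_succ]
      omega
    have h3 : (r + 2 ^ (i + 1)) / 2 = r / 2 + 2 ^ i := by
      rw [pow_succ]
      omega
    rw [h2, h3, Nat.choose_self, one_mul] at h1
    have h4 := (ZMod.natCast_eq_natCast_iff _ _ _).2 h1
    rw [h4]
    apply ih
    rw [pow_succ] at hr
    omega

end IBi

theorem pr_Bi : StBi := by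
  intro V hV k a ha n hn hnk
  set i := Nat.log 2 n with hi
  have h1 : 2 ^ i ≤ n := Nat.pow_log_le_self 2 (by omega)
  have h2 : n < 2 ^ (i + 1) := Nat.lt_pow_succ_log_self (by norm_num) n
  have hik : i < k := by
    by_contra h
    have : 2 ^ k ≤ 2 ^ i := Nat.pow_le_pow_right (by norm_num) (not_lt.1 h)
    omega
  obtain ⟨r, hr⟩ := Nat.exists_eq_add_of_le h1
  have hr2 : r < 2 ^ i := by
    rw [pow_succ] at h2
    omega
  have h3 := hV r (2 ^ i) a
  rw [ha i hik, map_zero, IBi.ch i r hr2, one_smul] at h3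
  rw [hr, add_comm]
  exact h3.symm

end Pool.Agent.Work.MP_701abf_gt.TwT
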