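import Pool.Agent.Work.MP_701abf_gt.TwT.Stmts

/-!
# The two-thirds law, item Ch: bases along chains
-/

open MvPolynomial
open Pool.Agent.Work.MP_701abf_gt.Stab Pool.Agent.Work.MP_701abf_gt.Cob
open Pool.Agent.Work.MP_701abf_gt.Sq2

namespace Pool.Agent.Work.MP_701abf_gt.TwT

theorem pr_Ch (hOk : StOk) (hFa : StFa) (hLe : StLe) (hCl : StCl) (hTb : StTb) (hOb : StOb) :
    StCh := by
  intro q hq n hn P hP
  obtain ⟨J2, hP⟩ := hP
  obtain ⟨J1, L, hF⟩ := hFa q hq n hn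
  refine ⟨J1 + J2 + 2, L, fun b hb c m t h => ?_⟩
  have get : ∀ x : ℕ, 0 < x → ∃ (W : Sys) (w : W.I → RR Empty), W.Ok ∧ P W ∧
      BQ q n ((2 ^ b * x : ℕ) : ℤ) W w ∧
      (∀ (a : ℕ) (N : ℤ), ((2 ^ b * x : ℕ) : ℤ) < 2 ^ a → 0 < N → (2 : ℤ) ^ (a + L) ∣ N →
        KU n N ((2 ^ b * x : ℕ) : ℤ) W w) ∧
      ((∃ a : ℕ, x = 2 ^ a) → ∃ l0 m0, W.Let l0 m0) ∧ ((¬ ∃ a : ℕ, x = 2 ^ a) → W.Cl) := by
    intro x hx
    have h0 : (0 : ℤ) < ((2 ^ b * x : ℕ) : ℤ) := by positivity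
    have h1 : (2 : ℤ) ^ J1 ∣ ((2 ^ b * x : ℕ) : ℤ) := by
      have : 2 ^ J1 ∣ 2 ^ b * x := Dvd.dvd.mul_right (pow_dvd_pow 2 (by omega)) x
      exact_mod_cast this
    have h2 : (2 : ℤ) ^ J2 ∣ ((2 ^ b * x : ℕ) : ℤ) := by
      have : 2 ^ J2 ∣ 2 ^ b * x := Dvd.dvd.mul_right (pow_dvd_pow 2 (by omega)) x
      exact_mod_cast this
    obtain ⟨W, w, ok, pos, tr, bq, ku⟩ := hF _ h0 h1
    refine ⟨W, w, ok, hP _ h0 h2 W w ok tr bq, bq, ku, ?_, ?_⟩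
    · rintro ⟨a, rfl⟩
      have e : ((2 ^ b * 2 ^ a : ℕ) : ℤ) = 2 ^ (b + a) := by
        push_cast
        rw [pow_add]
      rw [e] at bq
      obtain ⟨l0, m0, hl, -, -⟩ := hLe q hq n hn (b + a) (by omega) W w ok pos tr bq
      exact ⟨l0, m0, hl⟩
    · intro h3
      exact hCl q n hn _ h0 (not_pow_mul h3) W w ok pos bq
  induction h with
  | sg a =>
    obtain ⟨W, w, ok, hPW, bq, -, hsg, -⟩ := get (2 ^ a) (by positivity)
    obtain ⟨l0, m0, hl⟩ := hsg ⟨a, rfl⟩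
    exact ⟨_, _, TP.sg W l0 m0 hPW hl TP.one, hOb q n _ W w bq⟩
  | cl t h0 h =>
    obtain ⟨W, w, ok, hPW, bq, -, -, hcl⟩ := get t h0
    exact ⟨_, _, TP.cl W hPW (hcl h) TP.one, hOb q n _ W w bq⟩
  | @addsg c m t a h hd ih =>
    obtain ⟨V, v, hTP, bqv⟩ := ih
    obtain ⟨W, w, ok, hPW, bq, ku, hsg, -⟩ := get (2 ^ a) (by positivity)
    obtain ⟨l0, m0, hl⟩ := hsg ⟨a, rfl⟩
    have ht := h.pos
    have K := ku (a + b + 1) ((2 ^ b * t : ℕ) : ℤ) (by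
        have : 2 ^ b * 2 ^ a < 2 ^ (a + b + 1) := by
          rw [← pow_add, add_comm b a]
          exact Nat.pow_lt_pow_right (by norm_num) (by omega)
        exact_mod_cast this) (by positivity) (by
        have : 2 ^ (a + b + 1 + L) ∣ 2 ^ b * t := by
          rw [show a + b + 1 + L = b + (a + 1 + L) by ring, pow_add]
          exact Nat.mul_dvd_mul_left _ hd
        exact_mod_cast this)
    have e : ((2 ^ b * (t + 2 ^ a) : ℕ) : ℤ) = ((2 ^ b * t : ℕ) : ℤ) + ((2 ^ b * 2 ^ a : ℕ) : ℤ) := by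
      push_cast
      ring
    rw [e]
    exact ⟨_, _, TP.sg W l0 m0 hPW hl hTP,
      hTb q hq n _ _ V W v w (hOk.1 P _ _ V hTP).1 ok bqv bq K⟩
  | @addcl c m t a M h h0 hM h2 hd ih =>
    obtain ⟨V, v, hTP, bqv⟩ := ih
    obtain ⟨W, w, ok, hPW, bq, ku, -, hcl⟩ := get M h0
    have ht := h.pos
    have K := ku (a + b) ((2 ^ b * t : ℕ) : ℤ) (by
        have : 2 ^ b * M < 2 ^ (a + b) := by
          rw [pow_add, mul_comm (2 ^ a)]
          exact Nat.mul_lt_mul_of_pos_left hM (by positivity)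
        exact_mod_cast this) (by positivity) (by
        have : 2 ^ (a + b + L) ∣ 2 ^ b * t := by
          rw [show a + b + L = b + (a + L) by ring, pow_add]
          exact Nat.mul_dvd_mul_left _ hd
        exact_mod_cast this)
    have e : ((2 ^ b * (t + M) : ℕ) : ℤ) = ((2 ^ b * t : ℕ) : ℤ) + ((2 ^ b * M : ℕ) : ℤ) := by
      push_cast
      ring
    rw [e]
    exact ⟨_, _, TP.cl W hPW (hcl h2) hTP,
      hTb q hq n _ _ V W v w (hOk.1 P _ _ V hTP).1 ok bqv bq K⟩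

end Pool.Agent.Work.MP_701abf_gt.TwT
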