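import Pool.Agent.Work.MP_701abf_gt.TwT.Stmts

/-!
# The two-thirds law, half A, item Cl: the basis for clusters which are not powers of two
-/

open MvPolynomial
open Pool.Agent.Work.MP_701abf_gt.Stab Pool.Agent.Work.MP_701abf_gt.Cob
open Pool.Agent.Work.MP_701abf_gt.Sq2

namespace Pool.Agent.Work.MP_701abf_gt.TwT

theorem pr_Cl : StCl := by
  classical
  intro q n hn M hM h2 W w hok hpos hB
  refine ⟨hok, fun l => ?_⟩
  by_contra hlt
  have h1 : W.d l = 1 := by
    have := hpos l
    omega
  have hw : w l ∈ ZR 1 M := by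
    have := hB.w_mem l
    rwa [h1] at this
  have hw0 : w l = 0 := ZR_one' hM h2 hw
  have hDg : W.Dg 1 (Pi.single l (1 : ZMod 2)) := by
    intro m hm
    by_cases hml : m = l
    · rw [hml, h1]
    · exact absurd (by rw [Pi.single_eq_of_ne hml]) hm
  have hsum : ∑ m, (Pi.single l (1 : ZMod 2) : W.I → ZMod 2) m • w m ^ 2 ∈ BR 1 (2 * M) := by
    rw [Finset.sum_eq_zero]
    · exact Submodule.zero_mem _
    · intro m _
      by_cases hml : m = l
      · rw [hml, hw0]
        simp
      · rw [Pi.single_eq_of_ne hml, zero_smul]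
  have h0 := hB.indep 1 (by omega) _ hDg hsum
  have := congrFun h0 l
  rw [Pi.single_eq_same] at this
  exact one_ne_zero this

end Pool.Agent.Work.MP_701abf_gt.TwT
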