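import Pool.Agent.Work.MP_701abf_gt.TwT.Stmts

/-!
# Block TwT, item DD: the square of the first operation is zero

Written by helper62.  Witt vectors of length three, as in Stab/SqOne.lean.
-/

open MvPolynomial
open Pool.Agent.Work.MP_701abf_gt.Stab Pool.Agent.Work.MP_701abf_gt.Cob
open Pool.Agent.Work.MP_701abf_gt.Sq2

namespace Pool.Agent.Work.MP_701abf_gt.TwT

namespace IDD

/-- Length three Witt vectors. -/
@[ext] structure W3 (S : Type*) where
  a : S
  b : S
  c : S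

namespace W3

variable {S : Type*} [CommRing S]

/-- The correction term of the last component. -/
def kc (a b a' b' : S) : S :=
  b * b' + (b + b') * (a * a') + (a * a) * (a * a') +
    ((a * a) * (a' * a') + (a * a) * (a' * a')) + (a * a') * (a' * a')

instance : Add (W3 S) :=
  ⟨fun x y => ⟨x.a + y.a, x.b + y.b + x.a * y.a, x.c + y.c + kc x.a x.b y.a y.b⟩⟩
instance : Zero (W3 S) := ⟨⟨0, 0, 0⟩⟩
instance : Neg (W3 S) :=
  ⟨fun x => ⟨-x.a, -x.b + x.a * x.a, -x.c + x.b * x.b - (x.a * x.a) * x.b +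
    (x.a * x.a) * (x.a * x.a)⟩⟩

@[simp] lemma add_a (x y : W3 S) : (x + y).a = x.a + y.a := rfl
@[simp] lemma add_b (x y : W3 S) : (x + y).b = x.b + y.b + x.a * y.a := rfl
@[simp] lemma add_c (x y : W3 S) : (x + y).c = x.c + y.c + kc x.a x.b y.a y.b := rfl
@[simp] lemma zero_a : (0 : W3 S).a = 0 := rfl
@[simp] lemma zero_b : (0 : W3 S).b = 0 := rfl
@[simp] lemma zero_c : (0 : W3 S).c = 0 := rfl
@[simp] lemma neg_a (x : W3 S) : (-x).a = -x.a := rfl
@[simp] lemma neg_b (x : W3 S) : (-x).b = -x.b + x.a * x.a := rfl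
@[simp] lemma neg_c (x : W3 S) : (-x).c = -x.c + x.b * x.b - (x.a * x.a) * x.b +
    (x.a * x.a) * (x.a * x.a) := rfl

instance : AddCommGroup (W3 S) where
  add_assoc x y z := by
    ext
    · simp only [add_a]; ring
    · simp only [add_a, add_b]; ring
    · simp only [add_a, add_b, add_c, kc]; ring
  zero_add x := by
    ext
    · simp only [add_a, zero_a]; ring
    · simp only [add_b, zero_a, zero_b]; ring
    · simp only [add_c, zero_a, zero_b, zero_c, kc]; ring
  add_zero x := by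
    ext
    · simp only [add_a, zero_a]; ring
    · simp only [add_b, zero_a, zero_b]; ring
    · simp only [add_c, zero_a, zero_b, zero_c, kc]; ring
  neg_add_cancel x := by
    ext
    · simp only [add_a, neg_a, zero_a]; ring
    · simp only [add_b, neg_a, neg_b, zero_b]; ring
    · simp only [add_c, neg_a, neg_b, neg_c, zero_c, kc]; ring
  add_comm x y := by
    ext
    · simp only [add_a]; ring
    · simp only [add_b]; ring
    · simp only [add_c, kc]; ring
  nsmul := nsmulRec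
  zsmul := zsmulRec

/-- Functoriality. -/
def map {S' : Type*} [CommRing S'] (φ : S →+* S') : W3 S →+ W3 S' where
  toFun x := ⟨φ x.a, φ x.b, φ x.c⟩
  map_zero' := by
    ext
    · exact map_zero φ
    · exact map_zero φ
    · exact map_zero φ
  map_add' x y := by
    ext
    · simp only [add_a, map_add]
    · simp only [add_b, map_add, map_mul]
    · simp only [add_c, kc, map_add, map_mul]

/-- The Teichmueller element. -/
def te (x : S) : W3 S := ⟨x, 0, 0⟩

/-- The Verschiebung. -/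
def V : WW S →+ W3 S where
  toFun x := ⟨0, x.a, x.b⟩
  map_zero' := rfl
  map_add' x y := by
    ext
    · simp
    · simp
    · simp [kc]

lemma V_inj {x y : WW S} (h : V x = V y) : x = y := by
  ext
  · exact congrArg W3.b h
  · exact congrArg W3.c h

/-- Truncation. -/
def tr : W3 S →+ WW S where
  toFun x := ⟨x.a, x.b⟩
  map_zero' := rfl
  map_add' x y := by
    ext
    · simp
    · simp

end W3

variable {ι : Type*}

/-- The faces of Witt vectors. -/
noncomputable def face3 (τ : ι → ℕ) (j : ℕ) : W3 (RR ι) →+ W3 (RR ι) :=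
  W3.map (face τ j).toRingHom

lemma face3_face3 (τ : ι → ℕ) (i j : ℕ) (h : i < j) (x : W3 (RR ι)) :
    face3 τ j (face3 τ i x) = face3 τ i (face3 τ (j - 1) x) := by
  ext1
  · exact face_face τ h _
  · exact face_face τ h _
  · exact face_face τ h _

lemma tr_alt (τ : ι → ℕ) (n : ℕ) (x : W3 (RR ι)) :
    W3.tr (alt (face3 τ) n x) = alt (faceW τ) n (W3.tr x) := by
  unfold alt
  rw [map_sum]
  refine Finset.sum_congr rfl fun j _ => ?_
  rw [map_zsmul]
  rfl

lemma alt_V3 (τ : ι → ℕ) (n : ℕ) (x : WW (RR ι)) :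
    alt (face3 τ) n (W3.V x) = W3.V (alt (faceW τ) n x) := by
  unfold alt
  rw [map_sum]
  refine Finset.sum_congr rfl fun j _ => ?_
  have h : face3 τ j (W3.V x) = W3.V (faceW τ j x) := by
    ext1
    · exact map_zero _
    · rfl
    · rfl
  rw [map_zsmul, h]

/-- The signed differential of a Teichmueller element. -/
lemma alt_te3 (τ : ι → ℕ) (n : ℕ) {F : RR ι} (hF : dR τ n F = 0) :
    alt (face3 τ) n (W3.te F) = W3.V ⟨sq1 τ n F, (alt (face3 τ) n (W3.te F)).c⟩ := by
  have h := tr_alt τ n (W3.te F)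
  have h1 : W3.tr (W3.te F) = WW.te F := rfl
  rw [h1, alt_te τ n hF] at h
  ext1
  · exact congrArg WW.a h
  · exact congrArg WW.b h
  · rfl

lemma sq1_sq1 (τ : ι → ℕ) (n : ℕ) {F : RR ι} (hF : dR τ n F = 0) :
    dR τ (n + 1) (alt (face3 τ) n (W3.te F)).c = sq1 τ (n + 1) (sq1 τ n F) := by
  have h := alt_alt (face3 τ) (fun i j h x => face3_face3 τ i j h x) n (W3.te F)
  rw [alt_te3 τ n hF, alt_V3] at h
  have h1 : alt (faceW τ) (n + 1) ⟨sq1 τ n F, (alt (face3 τ) n (W3.te F)).c⟩ = 0 :=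
    W3.V_inj (h.trans (map_zero W3.V).symm)
  have e : (⟨sq1 τ n F, (alt (face3 τ) n (W3.te F)).c⟩ : WW (RR ι)) =
      WW.te (sq1 τ n F) + WW.V (alt (face3 τ) n (W3.te F)).c := by
    ext
    · simp
    · simp
  rw [e, alt_add, alt_te τ (n + 1) (sq1_d τ n hF), alt_V, ← V_add] at h1
  have h2 : sq1 τ (n + 1) (sq1 τ n F) + dR τ (n + 1) (alt (face3 τ) n (W3.te F)).c = 0 :=
    congrArg WW.b h1
  rw [← sub_eq2] at h2
  exact (sub_eq_zero.1 h2).symm

/-- Witt vectors whose components have given level and weight. -/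
def Wp3 (n : ℕ) (N : ℤ) : AddSubgroup (W3 (RR Empty)) where
  carrier := {x | LW n N x.a ∧ LW n (2 * N) x.b ∧ LW n (2 * (2 * N)) x.c}
  zero_mem' := ⟨LW.zero _ _, LW.zero _ _, LW.zero _ _⟩
  add_mem' := by
    rintro x y ⟨hx1, hx2, hx3⟩ ⟨hy1, hy2, hy3⟩
    refine ⟨hx1.add hy1, (hx2.add hy2).add (hx1.mul hy1), (hx3.add hy3).add ?_⟩
    exact ((((hx2.mul hy2).add ((hx2.add hy2).mul (hx1.mul hy1))).add
      ((hx1.mul hx1).mul (hx1.mul hy1))).add
      (((hx1.mul hx1).mul (hy1.mul hy1)).add ((hx1.mul hx1).mul (hy1.mul hy1)))).add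
      ((hx1.mul hy1).mul (hy1.mul hy1))
  neg_mem' := by
    rintro x ⟨hx1, hx2, hx3⟩
    refine ⟨?_, ?_, ?_⟩
    · rw [W3.neg_a, neg_eq2]; exact hx1
    · rw [W3.neg_b, neg_eq2]
      exact hx2.add (hx1.mul hx1)
    · rw [W3.neg_c, neg_eq2, sub_eq2]
      exact ((hx3.add (hx2.mul hx2)).add ((hx1.mul hx1).mul hx2)).add
        ((hx1.mul hx1).mul (hx1.mul hx1))

lemma alt_Wp3 {n m : ℕ} {N : ℤ} {x : W3 (RR Empty)} (hx : x ∈ Wp3 n N) :
    alt (face3 (fun _ => 0)) m x ∈ Wp3 (n + 1) N := by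
  unfold alt
  refine AddSubgroup.sum_mem _ fun j _ => AddSubgroup.zsmul_mem _ ?_ _
  obtain ⟨hx1, hx2, hx3⟩ := hx
  exact ⟨hx1.fc j, hx2.fc j, hx3.fc j⟩

end IDD

open IDD

theorem pr_DD : StDD := by
  intro s t F hF
  obtain ⟨h1, h2, h3⟩ := hF
  have hm : W3.te F ∈ Wp3 (s + 1) t := ⟨⟨h1, h2⟩, LW.zero _ _, LW.zero _ _⟩
  have h4 := alt_Wp3 (m := s + 1) hm
  have h5 := sq1_sq1 (fun _ : Empty => 0) (s + 1) (F := F) h3
  exact ⟨_, h4.2.2.1, h4.2.2.2, h5⟩

end Pool.Agent.Work.MP_701abf_gt.TwT
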