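import Pool.Agent.Work.MP_701abf_gt.TwT.Stmts

/-!
# The two-thirds law, half A: item Ec
-/

namespace Pool.Agent.Work.MP_701abf_gt.TwT

namespace IEc

theorem step (hTn : StTn) (V W : Sys) (hV : V.Ok) (hW : W.Ok)
    (h11 : ∀ y : W.I × V.I → ZMod 2, (Sys.ten V W).e 1 ((Sys.ten V W).e 1 y) = 0) (D₀ s : ℕ)
    (H : ∀ D, D₀ ≤ D → D ≤ s → ∀ x : V.I → ZMod 2, V.Dg (s - D) x → V.e 1 x = 0 →
      ∃ y : V.I → ZMod 2, (∀ l, y l ≠ 0 → V.d l + 1 = s - D) ∧ V.e 1 y = x) :
    ∀ n D₁ : ℕ, s + 1 - D₁ = n → D₀ ≤ D₁ → ∀ x : W.I × V.I → ZMod 2, (Sys.ten V W).Dg s x →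
      (∀ l v, W.d l < D₁ → x (l, v) = 0) → (Sys.ten V W).e 1 x = 0 →
      ∃ y : W.I × V.I → ZMod 2, (∀ p, y p ≠ 0 → (Sys.ten V W).d p + 1 = s) ∧
        (Sys.ten V W).e 1 y = x := by
  obtain ⟨hOk, -, h3, h4, h5, -⟩ := hTn
  have hT : (Sys.ten V W).Ok := hOk V W hV hW
  intro n
  induction n with
  | zero =>
    intro D₁ hn hD x hx hx0 _
    have hx' : x = 0 := by
      funext p
      obtain ⟨l, v⟩ := p
      by_cases hl : W.d l < D₁
      · exact hx0 l v hl
      · exact (h4 V W s x hx l).2 (by omega) v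
    refine ⟨0, fun p hp => absurd rfl hp, ?_⟩
    rw [hx']
    exact map_zero _
  | succ n ih =>
    intro D₁ hn hD x hx hx0 hex
    have hDs : D₁ ≤ s := by omega
    have hz : ∀ l : W.I, ∃ z : V.I → ZMod 2,
        (W.d l = D₁ → (∀ v, z v ≠ 0 → V.d v + 1 = s - D₁) ∧ V.e 1 z = fun v => x (l, v)) ∧
        (W.d l ≠ D₁ → z = 0) := by
      intro l
      by_cases hl : W.d l = D₁
      · have hdg : V.Dg (s - D₁) fun v => x (l, v) := by
          have := (h4 V W s x hx l).1 (by omega)
          rwa [hl] at this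
        have he : V.e 1 (fun v => x (l, v)) = 0 := by
          funext v
          have h := h3 V W hW x l (fun l' hl' v' => hx0 l' v' (by omega)) 1 v
          rw [hex] at h
          exact h.symm
        obtain ⟨z, hz1, hz2⟩ := H D₁ hD hDs _ hdg he
        exact ⟨z, fun _ => ⟨hz1, hz2⟩, fun h => absurd hl h⟩
      · exact ⟨0, fun h => absurd h hl, fun _ => rfl⟩
    choose z hz1 hz2 using hz
    let y : W.I × V.I → ZMod 2 := fun p => z p.1 p.2
    have hyd : ∀ p, y p ≠ 0 → (Sys.ten V W).d p + 1 = s := by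
      rintro ⟨l, v⟩ hp
      have hl : W.d l = D₁ := by
        by_contra hl
        apply hp
        show z l v = 0
        rw [hz2 l hl]
        rfl
      have h := (hz1 l hl).1 v hp
      show W.d l + V.d v + 1 = s
      omega
    have hy0 : ∀ l, W.d l < D₁ → ∀ v, y (l, v) = 0 := by
      intro l hl v
      show z l v = 0
      rw [hz2 l (by omega)]
      rfl
    have hey : (Sys.ten V W).Dg s ((Sys.ten V W).e 1 y) := by
      by_cases hs : s = 0
      · have hy : y = 0 := by
          funext p
          by_contra hp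
          have := hyd p hp
          omega
        rw [hy]
        intro p hp
        exact absurd (congrFun (map_zero ((Sys.ten V W).e 1)) p) hp
      · have h1 : (Sys.ten V W).Dg (s - 1) y := by
          intro p hp
          have := hyd p hp
          omega
        have h2 := (h5 (Sys.ten V W) hT y).2 1 (s - 1) h1
        rwa [Nat.sub_add_cancel (by omega)] at h2
    let w : W.I × V.I → ZMod 2 := (Sys.ten V W).e 1 y
    have hx'dg : (Sys.ten V W).Dg s (x + w) := by
      intro p hp
      by_cases h1 : x p = 0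
      · refine hey p ?_
        intro h2
        apply hp
        show x p + (Sys.ten V W).e 1 y p = 0
        rw [h1, h2, add_zero]
      · exact hx p h1
    have hx'0 : ∀ l v, W.d l < D₁ + 1 → (x + w) (l, v) = 0 := by
      intro m v hm
      show x (m, v) + (Sys.ten V W).e 1 y (m, v) = 0
      rw [h3 V W hW y m (fun l hl v' => hy0 l (by omega) v') 1 v]
      by_cases hmD : W.d m = D₁
      · have h1 : (fun v' => y (m, v')) = z m := rfl
        rw [h1, (hz1 m hmD).2]
        exact CharTwo.add_self_eq_zero _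
      · have h1 : (fun v' => y (m, v')) = (0 : V.I → ZMod 2) := by
          funext v'
          exact hy0 m (by omega) v'
        rw [h1, map_zero, hx0 m v (by omega)]
        simp
    have hx'e : (Sys.ten V W).e 1 (x + w) = 0 := by
      have h1 := map_add ((Sys.ten V W).e 1) x ((Sys.ten V W).e 1 y)
      exact h1.trans ((congrArg₂ (· + ·) hex (h11 y)).trans (add_zero _))
    obtain ⟨y', hy'1, hy'2⟩ := ih (D₁ + 1) (by omega) (by omega) _ hx'dg hx'0 hx'e
    refine ⟨y + y', ?_, ?_⟩
    · intro p hp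
      by_cases h1 : y p = 0
      · refine hy'1 p ?_
        intro h2
        apply hp
        show y p + y' p = 0
        rw [h1, h2, add_zero]
      · exact hyd p h1
    · have h1 := map_add ((Sys.ten V W).e 1) y y'
      refine h1.trans ?_
      funext p
      have h2 : (Sys.ten V W).e 1 y' p = x p + (Sys.ten V W).e 1 y p := congrFun hy'2 p
      have h3 : ∀ a b : ZMod 2, a + (b + a) = b := by decide
      exact (congrArg (fun t : ZMod 2 => (Sys.ten V W).e 1 y p + t) h2).trans (h3 _ _)

end IEc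

theorem pr_Ec (hTn : StTn) : StEc := by
  intro V W hV hW h11 D₀ s H x hx hx0 hex
  exact IEc.step hTn V W hV hW h11 D₀ s H (s + 1 - D₀) D₀ rfl le_rfl x hx hx0 hex

end Pool.Agent.Work.MP_701abf_gt.TwT
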