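import Pool.Agent.Work.MP_701abf_gt.TwT.Stmts

/-!
# The two-thirds law, half A, item Ee: the square of the first operation.  Author helper78.
-/

open MvPolynomial
open Pool.Agent.Work.MP_701abf_gt.Stab Pool.Agent.Work.MP_701abf_gt.Cob
open Pool.Agent.Work.MP_701abf_gt.Sq2

namespace Pool.Agent.Work.MP_701abf_gt.TwT

namespace IEe

variable {q : ℕ → ℕ → RR Empty → RR Empty} {n : ℕ} {T : ℤ} {W : Sys} {w : W.I → RR Empty}

lemma dl_w (hq : Ops q) (hB : BQ q n T W w) (l : W.I) (hl : W.d l + 1 ≤ n) :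
    Sq2.dl (W.d l) (w l) + ∑ m, W.c 1 l m • w m ^ 2 ∈ BR (W.d l + 1) (2 * T) := by
  have h1 := hq.one (W.d l) T (w l) (hB.w_mem l)
  have h2 := hB.c_w 1 l hl
  have h3 := Submodule.add_mem _ h1 h2
  have e : q 1 (W.d l) (w l) + Sq2.dl (W.d l) (w l) +
      (q 1 (W.d l) (w l) + ∑ m, W.c 1 l m • w m ^ 2) =
      Sq2.dl (W.d l) (w l) + ∑ m, W.c 1 l m • w m ^ 2 +
        (q 1 (W.d l) (w l) + q 1 (W.d l) (w l)) := by abel
  rwa [e, add_self2, add_zero] at h3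

lemma smul_w_mem (hW : W.Ok) (hB : BQ q n T W w) {l : W.I} {d : ℕ} (hd : W.d l = d) (m : W.I) :
    W.c 1 l m • w m ^ 2 ∈ ZR (d + 1) (2 * T) := by
  by_cases h : W.c 1 l m = 0
  · rw [h, zero_smul]
    exact Submodule.zero_mem _
  · have h1 := hW.deg 1 l m h
    have h2 := sq_ZR (hB.w_mem m)
    rw [h1, hd] at h2
    exact Submodule.smul_mem _ _ h2

lemma main (hq : Ops q) (hDD : StDD) (hG : Gi n (2 * T)) (hW : W.Ok) (hB : BQ q n T W w)
    (l : W.I) {d : ℕ} (hd : W.d l = d) (hl : d + 2 ≤ n) (m : W.I) :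
    ∑ i, W.c 1 l i * W.c 1 i m = 0 := by
  have hcD' : ∀ m : W.I, W.d m = d + 1 →
      Sq2.dl (d + 1) (w m) + ∑ ν, W.c 1 m ν • w ν ^ 2 ∈ BR (d + 2) (2 * T) := by
    intro m hm
    have h := dl_w hq hB m (by omega)
    rwa [hm] at h
  have hwl : w l ∈ ZR d T := by
    have := hB.w_mem l
    rwa [hd] at this
  have hdl : Sq2.dl d (w l) + ∑ m, W.c 1 l m • w m ^ 2 ∈ BR (d + 1) (2 * T) := by
    have h := dl_w hq hB l (by omega)
    rwa [hd] at h
  have hDg : W.Dg (d + 2) (fun m => ∑ i, W.c 1 l i * W.c 1 i m) := by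
    intro m hm
    obtain ⟨i, -, hi⟩ := Finset.exists_ne_zero_of_sum_ne_zero hm
    have h1 := hW.deg 1 l i (left_ne_zero_of_mul hi)
    have h2 := hW.deg 1 i m (right_ne_zero_of_mul hi)
    omega
  -- the square of the operation of degree one vanishes on the class
  have h6 := (dlOp (d + 1) (2 * T)).congr (dl_ZR hwl) hdl
  have h7 := hDD d T (w l) hwl
  have h8 : Sq2.dl (d + 1) (∑ m, W.c 1 l m • w m ^ 2) ∈ BR (d + 2) (2 * (2 * T)) :=
    BR_cancel' h6 h7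
  have hmem : ∀ m ∈ Finset.univ, W.c 1 l m • w m ^ 2 ∈ ZR (d + 1) (2 * T) := by
    intro m _
    exact smul_w_mem hW hB hd m
  have h9 := (dlOp (d + 1) (2 * T)).sum Finset.univ _ hmem
  have h10 : ∑ m, Sq2.dl (d + 1) (W.c 1 l m • w m ^ 2) ∈ BR (d + 2) (2 * (2 * T)) :=
    BR_cancel' h9 h8
  have h11 : ∑ m, W.c 1 l m • (∑ ν, W.c 1 m ν • w ν ^ 2) ^ 2 ∈ BR (d + 2) (2 * (2 * T)) := by
    have e1 : ∑ m, W.c 1 l m • (∑ ν, W.c 1 m ν • w ν ^ 2) ^ 2 =
        ∑ m, Sq2.dl (d + 1) (W.c 1 l m • w m ^ 2) +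
        ∑ m, W.c 1 l m • (Sq2.dl (d + 1) (w m) + ∑ ν, W.c 1 m ν • w ν ^ 2) ^ 2 := by
      rw [← Finset.sum_add_distrib]
      refine Finset.sum_congr rfl fun m _ => ?_
      rw [(dlOp (d + 1) (2 * T)).smul, dl_sq, sq_add, smul_add, ← add_assoc, add_self2,
        zero_add]
    rw [e1]
    refine Submodule.add_mem _ h10 (Submodule.sum_mem _ fun m _ => ?_)
    by_cases h : W.c 1 l m = 0
    · rw [h, zero_smul]
      exact Submodule.zero_mem _
    · have h12 := hW.deg 1 l m h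
      have h13 := hcD' m (by omega)
      exact Submodule.smul_mem _ _ (sq_BR h13)
  have e2 : (∑ ν, (∑ m, W.c 1 l m * W.c 1 m ν) • w ν ^ 2) ^ 2 =
      ∑ m, W.c 1 l m • (∑ ν, W.c 1 m ν • w ν ^ 2) ^ 2 := by
    rw [sum_sq]
    have e3 : ∀ m, W.c 1 l m • (∑ ν, W.c 1 m ν • w ν ^ 2) ^ 2 =
        ∑ ν, (W.c 1 l m * W.c 1 m ν) • (w ν ^ 2) ^ 2 := by
      intro m
      rw [sum_sq, Finset.smul_sum]
      refine Finset.sum_congr rfl fun ν _ => ?_
      rw [smul_sq, smul_smul]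
    rw [Finset.sum_congr rfl fun m _ => e3 m, Finset.sum_comm]
    refine Finset.sum_congr rfl fun ν _ => ?_
    rw [smul_sq, Finset.sum_smul]
  rw [← e2] at h11
  have hu : ∑ ν, (∑ m, W.c 1 l m * W.c 1 m ν) • w ν ^ 2 ∈ ZR (d + 2) (2 * T) := by
    refine Submodule.sum_mem _ fun ν _ => ?_
    by_cases h : (∑ m, W.c 1 l m * W.c 1 m ν) = 0
    · rw [h, zero_smul]
      exact Submodule.zero_mem _
    · have h1 := hDg ν h
      have h2 := sq_ZR (hB.w_mem ν)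
      rw [h1] at h2
      exact Submodule.smul_mem _ _ h2
  have h14 := hG (d + 2) hl _ hu h11
  have h15 := hB.indep (d + 2) hl _ hDg h14
  exact congrFun h15 m

end IEe

theorem pr_Ee (hDD : StDD) : StEe := by
  intro q hq n
  obtain ⟨J, hJ⟩ := exists_Gi n
  refine ⟨J, fun T _ hT W w hW hTr hB l m => ?_⟩
  by_cases hl : W.d l + 2 ≤ n
  · exact IEe.main hq hDD (hJ (2 * T) (Dvd.dvd.mul_left hT 2)) hW hB l rfl hl m
  · refine Finset.sum_eq_zero fun i _ => ?_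
    by_cases h : W.c 1 l i = 0
    · rw [h, zero_mul]
    · have h1 := hW.deg 1 l i h
      rw [hTr 1 i m le_rfl (by omega), mul_zero]

end Pool.Agent.Work.MP_701abf_gt.TwT
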