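import Pool.Agent.Work.MP_701abf_gt.TwT.Stmts

/-!
# The two-thirds law, half A, item Ex (helper83): exactness
-/

open MvPolynomial
open Pool.Agent.Work.MP_701abf_gt.Stab Pool.Agent.Work.MP_701abf_gt.Cob
open Pool.Agent.Work.MP_701abf_gt.Sq2

namespace Pool.Agent.Work.MP_701abf_gt.TwT

namespace IEx

lemma self (a : ZMod 2) : a + a = 0 := CharTwo.add_self_eq_zero a

lemma eq_of_add {a b : ZMod 2} (h : a + b = 0) : a = b := by
  have h1 : a + b + b = b := by rw [h, zero_add]
  rwa [add_assoc, self, add_zero] at h1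

end IEx

theorem pr_Ex (hTn : StTn) (hOk : StOk) (hLt : StLt) (hZz : StZz) (hEc : StEc) : StEx := by
  classical
  intro c m V hV
  induction hV with
  | one => intro s hs; omega
  | @sg c m V W l0 m0 hP hW h ih =>
    intro s hs x hx hex
    have hVok : V.Ok := (hOk.1 _ c m V h).1
    have hTok : (Sys.ten V W).Ok := hTn.1 V W hVok hW.ok
    have hlm : m0 ≠ l0 := by
      intro hh
      have h1 := hW.dl0
      have h2 := hW.dm0
      rw [hh] at h2
      omega
    have hzz := hZz (c + 1) m (Sys.ten V W) (TP.sg W l0 m0 hP hW h)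
    set y0 : W.I × V.I → ZMod 2 := fun p => if p.1 = l0 then x (m0, p.2) else 0 with hy0
    have hy0l : (fun v' => y0 (l0, v')) = fun v' => x (m0, v') := by
      funext v
      simp [hy0]
    have hy0m : (fun v' => y0 (m0, v')) = (0 : V.I → ZMod 2) := by
      funext v
      simp [hy0, hlm]
    obtain ⟨hL1, hL2, -, -⟩ := hLt V W l0 m0 hVok hW x
    obtain ⟨hY1, hY2, -, -⟩ := hLt V W l0 m0 hVok hW y0
    obtain ⟨-, -, hZ3, -⟩ := hLt V W l0 m0 hVok hW (0 : W.I × V.I → ZMod 2)
    have he0 : ∀ a : V.I → ZMod 2, V.e 0 a = a := fun a => (hTn.2.2.2.2.1 V hVok a).1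
    have hx1 : ∀ v, x (l0, v) = V.e 1 (fun v' => x (m0, v')) v := by
      intro v
      have h1 := hL2 0 v
      rw [zero_add, hex, he0] at h1
      exact (IEx.eq_of_add h1.symm).symm
    have hl : ∀ v, (Sys.ten V W).e 1 y0 (l0, v) = x (l0, v) := by
      intro v
      rw [hY1, hy0l, hx1]
    have hm : ∀ v, (Sys.ten V W).e 1 y0 (m0, v) = x (m0, v) := by
      intro v
      have h1 := hY2 0 v
      rw [zero_add] at h1
      rw [h1, hy0m, hy0l, he0, map_zero]
      simp
    have hd0 : ∀ p : W.I × V.I, y0 p ≠ 0 → (Sys.ten V W).d p + 1 = s := by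
      rintro ⟨l, v⟩ hp
      have h1 : l = l0 := by
        by_contra hne
        exact hp (by simp [hy0, hne])
      subst h1
      have h2 : x (m0, v) ≠ 0 := by
        intro h3
        apply hp
        simp [hy0, h3]
      have h3 : W.d m0 + V.d v = s := hx (m0, v) h2
      have h4 : W.d l = 1 := hW.dl0
      have h5 := hW.dm0
      change W.d l + V.d v + 1 = s
      omega
    have hde : (Sys.ten V W).Dg s ((Sys.ten V W).e 1 y0) := by
      rcases s with - | s
      · have h1 : y0 = 0 := by
          funext p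
          by_contra hne
          have := hd0 p hne
          omega
        have h2 : (Sys.ten V W).e 1 y0 = 0 :=
          (congrArg (fun z => (Sys.ten V W).e 1 z) h1).trans (map_zero ((Sys.ten V W).e 1))
        intro l hl
        exact absurd (congrFun h2 l) hl
      · have h1 : (Sys.ten V W).Dg s y0 := by
          intro p hp
          have := hd0 p hp
          omega
        exact (hTn.2.2.2.2.1 (Sys.ten V W) hTok y0).2 1 s h1
    set x' : W.I × V.I → ZMod 2 := x + (Sys.ten V W).e 1 y0 with hx'
    have hx'd : (Sys.ten V W).Dg s x' := by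
      intro p hp
      by_cases h1 : x p = 0
      · apply hde p
        intro h2
        apply hp
        change x p + (Sys.ten V W).e 1 y0 p = 0
        rw [h1, h2, add_zero]
      · exact hx p h1
    have hx'z : ∀ (l : W.I) (v : V.I), W.d l < 3 → x' (l, v) = 0 := by
      intro l v hl3
      have h1 := hW.pos l
      have h2 : W.d l = 1 ∨ W.d l = 2 := by omega
      change x (l, v) + (Sys.ten V W).e 1 y0 (l, v) = 0
      rcases h2 with h2 | h2
      · rw [hW.ul0 l h2, hl, IEx.self]
      · rw [hW.um0 l h2, hm, IEx.self]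
    have hx'e : (Sys.ten V W).e 1 x' = 0 := by
      have h1 : (Sys.ten V W).e 1 x' = (Sys.ten V W).e 1 x +
          (Sys.ten V W).e 1 ((Sys.ten V W).e 1 y0) := map_add ((Sys.ten V W).e 1) x _
      have h2 : (Sys.ten V W).e 1 ((Sys.ten V W).e 1 y0) = 0 := hzz y0
      rw [h1, hex, h2, add_zero]
    obtain ⟨y', hy'd, hy'⟩ := hEc V W hVok hW.ok hzz 3 s
      (fun D hD hDs z hz hez => ih (s - D) (by omega) z hz hez) x' hx'd hx'z hx'e
    refine ⟨y0 + y', fun p hp => ?_, ?_⟩
    · by_cases h1 : y0 p = 0
      · apply hy'd p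
        intro h2
        apply hp
        change y0 p + y' p = 0
        rw [h1, h2, add_zero]
      · exact hd0 p h1
    · have h1 : (Sys.ten V W).e 1 (y0 + y') = (Sys.ten V W).e 1 y0 + (Sys.ten V W).e 1 y' :=
        map_add ((Sys.ten V W).e 1) _ _
      rw [h1, hy', hx']
      funext p
      change (Sys.ten V W).e 1 y0 p + (x p + (Sys.ten V W).e 1 y0 p) = x p
      rw [add_comm (x p), ← add_assoc, IEx.self, zero_add]
  | @cl c m V W hP hW h ih =>
    intro s hs x hx hex
    have hVok : V.Ok := (hOk.1 _ c m V h).1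
    exact hEc V W hVok hW.ok (hZz c (m + 1) (Sys.ten V W) (TP.cl W hP hW h)) 2 s
      (fun D hD hDs z hz hez => ih (s - D) (by omega) z hz hez) x hx
      (fun l v hl => by have := hW.two l; omega) hex

end Pool.Agent.Work.MP_701abf_gt.TwT
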