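import Pool.Agent.Work.MP_701abf_gt.TwT.Stmts

/-!
# The two-thirds law, half A: item Fi
-/

open MvPolynomial
open Pool.Agent.Work.MP_701abf_gt.Stab Pool.Agent.Work.MP_701abf_gt.Cob
open Pool.Agent.Work.MP_701abf_gt.Sq2

namespace Pool.Agent.Work.MP_701abf_gt.TwT

theorem pr_Fi (hOk : StOk) (hLw : StLw) (hCh : StCh) (hTr : StTr) (hHf : StHf) : StFi := by
  intro q hq s k e he
  have h2k : 0 < 2 ^ k := by positivity
  obtain ⟨n, hn⟩ : ∃ n, n = s + 2 ^ k + 6 := ⟨_, rfl⟩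
  obtain ⟨J1, L, hch⟩ := hCh q hq n (by omega) (fun _ => True)
    ⟨0, fun _ _ _ _ _ _ _ _ => trivial⟩
  obtain ⟨U', hU⟩ := degrees (s + 1) (by omega) L
  refine ⟨(s + 1) * U' + U', J1, fun t hF J hJ X hX hXB => ?_⟩
  have hne : dm (s + 1) (2 ^ J * t) ≠ 0 := by
    intro h
    obtain ⟨p, hp, hpX⟩ := exists_th hX
    apply hXB
    rw [← hpX]
    exact th_mem_BR.2 (dm_zero_iff.1 h hp)
  obtain ⟨c, m, e', h1, h2, h3, h4⟩ := hU _ hne
  have hcm : e < c + m := by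
    by_contra hcon
    apply hF
    have h5 := hHf.2 U' (c + m) J t (clus_iff_few.1 h3)
    have h6 : (c + m) * U' + U' ≤ (s + 1) * U' + U' :=
      Nat.add_le_add_right (Nat.mul_le_mul_right _ (by omega)) _
    exact clus_iff_few.1 ((clus_iff_few.2 h5).mono h6 (not_lt.1 hcon))
  have h7 : 2 * (s + 1) / 3 ≤ e := by rw [he]; exact le_max_left _ _
  have h8 : s + 2 - 2 ^ k ≤ e := by rw [he]; exact le_max_right _ _
  have hJe : 2 ^ J * t = 2 ^ J1 * (2 ^ (J - J1) * t) := by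
    rw [← mul_assoc, ← pow_add, Nat.add_sub_cancel' hJ]
  have h9 : Ch L c m (2 ^ (J - J1) * t) := by
    rw [hJe] at h4
    exact hHf.1 L c m J1 _ h4
  obtain ⟨V, w, hTP, hBQ⟩ := hch J1 le_rfl c m _ h9
  rw [← hJe] at hBQ
  obtain ⟨hVok, -⟩ := hOk.1 _ c m V hTP
  obtain ⟨a, ha, haX⟩ := hBQ.span (s + 1) (by omega) X hX
  obtain ⟨hT1, hT2⟩ := hTr q hq n _ V w hVok hBQ (s + 1) (by omega) X hX a ha haX
  by_contra hcon
  push Not at hcon
  apply hXB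
  rw [hT1]
  obtain ⟨ee, hee⟩ : ∃ ee, c + 2 * m + ee = s + 1 := ⟨s + 1 - (c + 2 * m), by omega⟩
  refine hLw _ c m V hTP ee k (by omega) (by omega) a (by rw [hee]; exact ha) fun i hi => ?_
  have h10 : 2 ^ i ≤ 2 ^ k := Nat.pow_le_pow_right (by norm_num) hi.le
  exact ((hT2 (2 ^ i) (by omega)).2).1 (hcon i hi)

end Pool.Agent.Work.MP_701abf_gt.TwT
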