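import Pool.Agent.Work.MP_701abf_gt.TwT.Stmts

/-!
# The two-thirds law, half A, item H2: the 2-line in the degrees `2 ^ b`
-/

set_option autoImplicit false

open MvPolynomial
open Pool.Agent.Work.MP_701abf_gt.Stab Pool.Agent.Work.MP_701abf_gt.Cob
open Pool.Agent.Work.MP_701abf_gt.Sq2

namespace Pool.Agent.Work.MP_701abf_gt.TwT

theorem IH2.kap_sq {b : ℕ} (hb : 1 ≤ b) : kap b ^ 2 = kap (b + 1) := by
  have h1 : ha (b - 1) ^ 2 = ha b := by
    unfold ha
    rw [← pow_mul, ← pow_succ, Nat.sub_add_cancel hb]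
  unfold kap
  rw [mul_pow, ← map_pow, h1, Nat.add_sub_cancel]

theorem pr_H2 (h2a : StH2a) (h2b : StH2b) : StH2 := by
  intro b hb
  induction b, hb using Nat.le_induction with
  | base =>
    intro x hx
    rw [pow_one] at hx
    rcases h2b x hx with h | h
    · left
      rw [h]
      exact Submodule.zero_mem _
    · right
      rw [h]
      have h1 : kap 1 = ha 0 * sh 1 (ha 0) := rfl
      rw [h1, add_self2]
      exact Submodule.zero_mem _
  | succ b hb ih =>
    intro x hx
    obtain ⟨y, hy, hxy⟩ := h2a b hb x hx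
    have h0 : y ^ 2 + y ^ 2 = 0 := add_self2 _
    rcases ih y hy with h | h
    · left
      have h1 := sq_BR h
      rw [← pow_succ' (2 : ℤ) b] at h1
      have h2 := Submodule.add_mem _ hxy h1
      rwa [add_assoc, h0, add_zero] at h2
    · right
      have h1 := sq_BR h
      rw [← pow_succ' (2 : ℤ) b, sq_add, IH2.kap_sq hb] at h1
      have h2 := Submodule.add_mem _ hxy h1
      rwa [add_assoc, ← add_assoc (y ^ 2), h0, zero_add] at h2

end Pool.Agent.Work.MP_701abf_gt.TwT
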