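import Pool.Agent.Work.MP_701abf_gt.TwT.Stmts
import Pool.Agent.Work.MP_701abf_gt.FL.Inv
import Pool.Agent.Work.MP_701abf_gt.FL.MonB

/-!
# The two-thirds law, half A, item H2a: `Sq^0` is onto on `Ext^2` in the degrees `2 ^ (b + 1)`
-/

set_option autoImplicit false

open MvPolynomial
open Pool.Agent.Work.MP_701abf_gt.Stab Pool.Agent.Work.MP_701abf_gt.Cob
open Pool.Agent.Work.MP_701abf_gt.Sq2

namespace Pool.Agent.Work.MP_701abf_gt.TwT

theorem IH2a.surj {N : ℤ} (hN : 1 < N) : Surj0 2 N := by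
  intro F hF hFw hd
  have h3 := edge_surj (ι := Empty) (k := 0) (m := 2 * N) (m' := N) rfl (p := 2)
    (fun q hq1 hq m' hm' => by
      have hq' : q = 1 ∨ q = 2 := by omega
      rcases hq' with rfl | rfl
      · exfalso
        push_cast at hm'
        omega
      · have e1 : m' = N + 1 := by
          push_cast at hm'
          omega
        subst e1
        intro x hx hdx
        refine ⟨0, Submodule.zero_mem _, ?_⟩
        rw [map_zero]
        refine (FL.pr_Inv' FL.pr_MonB (1, 0) (by decide) (N + 1) (by omega) x hx.1 ?_ hdx).symm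
        exact hx.2) (F := F) hF (by rw [wE_eq]; exact hFw) (by rw [dE_eq]; exact hd)
  obtain ⟨y, hy, hyw, hyd, G, hG, hGw, e⟩ := h3
  rw [wE_eq] at hyw hGw
  rw [infl_empty, dE_eq] at e
  exact ⟨y, hy, hyw, hyd, G, hG, hGw, e⟩

theorem pr_H2a : StH2a := by
  intro b hb x hx
  obtain ⟨h1, h2, h3⟩ := mem_ZR.1 hx
  have hN : (1 : ℤ) < 2 ^ b := one_lt_pow₀ (by norm_num) (by omega)
  have e : (2 : ℤ) ^ (b + 1) = 2 * 2 ^ b := pow_succ' _ _
  rw [e] at h2
  obtain ⟨y, hy, hyw, hyd, G, hG, hGw, e1⟩ := IH2a.surj hN x h1 h2 h3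
  refine ⟨y, mem_ZR.2 ⟨hy, hyw, hyd⟩, mem_BR.2 ⟨G, hG, ?_, ?_⟩⟩
  · rw [e]
    exact hGw
  · rw [e1, add_comm (y ^ 2), add_assoc, add_self2, add_zero]

end Pool.Agent.Work.MP_701abf_gt.TwT
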