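import Pool.Agent.Work.MP_701abf_gt.TwT.Stmts
import Pool.Agent.Work.MP_701abf_gt.Sq2.HZ

/-!
# The two-thirds law, half A: item H2b (cocycles with two factors of internal degree two)
-/

open MvPolynomial
open Pool.Agent.Work.MP_701abf_gt.Stab Pool.Agent.Work.MP_701abf_gt.Cob
open Pool.Agent.Work.MP_701abf_gt.Sq2

namespace Pool.Agent.Work.MP_701abf_gt.TwT

namespace IH2b

lemma wN_two {s : ℕ} {v : Fin s × ℕ} (h : wN s v ≤ 2) : v.2 = 0 ∧ wN s v = 1 := by
  have h0 : v.2 = 0 := by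
    by_contra hne
    have h1 : 2 ≤ v.2 + 1 := by omega
    have h2 : 2 ^ 2 ≤ 2 ^ (v.2 + 1) := Nat.pow_le_pow_right (by norm_num) h1
    change 2 ^ (v.2 + 1) - 1 ≤ 2 at h
    omega
  refine ⟨h0, ?_⟩
  change 2 ^ (v.2 + 1) - 1 = 1
  rw [h0]
  norm_num

/-- Splitting off a variable. -/
lemma split {s : ℕ} {m : Fin s × ℕ →₀ ℕ} (h : Finsupp.weight (wN s) m ≠ 0) :
    ∃ v m', m = Finsupp.single v 1 + m' ∧
      Finsupp.weight (wN s) m = wN s v + Finsupp.weight (wN s) m' := by
  have h2 : m ≠ 0 := by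
    rintro rfl
    rw [map_zero] at h
    exact h rfl
  obtain ⟨v, hv⟩ := Finsupp.ne_iff.1 h2
  rw [Finsupp.coe_zero, Pi.zero_apply] at hv
  refine ⟨v, m - Finsupp.single v 1, ?_, ?_⟩
  · rw [add_tsub_cancel_of_le]
    rw [Finsupp.single_le_iff]
    omega
  · have e : m = Finsupp.single v 1 + (m - Finsupp.single v 1) := by
      rw [add_tsub_cancel_of_le]
      rw [Finsupp.single_le_iff]
      omega
    conv_lhs => rw [e, map_add, Finsupp.weight_single, one_smul]

lemma zero_of {s : ℕ} {m : Fin s × ℕ →₀ ℕ} (h : Finsupp.weight (wN s) m = 0) : m = 0 := by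
  ext u
  have h7 := Finsupp.le_weight (wN s) (wN_pos u) m
  rw [h] at h7
  exact Nat.le_zero.1 h7

/-- Cochains of degree two. -/
lemma hom_two {s : ℕ} {p : Cobar s} (h : p ∈ Hom s 2) :
    p ∈ Submodule.span (ZMod 2) (Set.range fun i : Fin s × Fin s =>
      (X (i.1, 0) * X (i.2, 0) : Cobar s)) := by
  classical
  rw [p.as_sum]
  refine Submodule.sum_mem _ fun m hm => ?_
  have h1 : Finsupp.weight (wN s) m = 2 := h (mem_support_iff.1 hm)
  obtain ⟨v, m', hv, hw⟩ := split (m := m) (by omega)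
  obtain ⟨hv0, hv1⟩ := wN_two (v := v) (by omega)
  obtain ⟨u, m'', hu, hw'⟩ := split (m := m') (by omega)
  obtain ⟨hu0, hu1⟩ := wN_two (v := u) (by omega)
  have h6 : m'' = 0 := zero_of (by omega)
  have h8 : (monomial m (coeff m p) : Cobar s) = coeff m p • (X v * X u) := by
    conv_lhs => rw [hv, hu, h6, add_zero]
    rw [X, X, monomial_mul, smul_monomial, smul_eq_mul, mul_one, mul_one, hv, hu, h6, add_zero]
  rw [h8]
  refine Submodule.smul_mem _ _ (Submodule.subset_span ⟨(v.1, u.1), ?_⟩)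
  have ev : v = (v.1, 0) := Prod.ext rfl hv0
  have eu : u = (u.1, 0) := Prod.ext rfl hu0
  change X (v.1, 0) * X (u.1, 0) = X v * X u
  rw [← ev, ← eu]

/-- The two variables of degree one. -/
noncomputable abbrev A : RR Empty := X (Sum.inl (0, 0))
/-- The two variables of degree one. -/
noncomputable abbrev B : RR Empty := X (Sum.inl (1, 0))

lemma wh2_span {F : RR Empty} (hF : F ∈ lev Empty 3) (hw : WH wE F (0, 2)) :
    ∃ a b c : ZMod 2, F = a • A ^ 2 + b • (A * B) + c • B ^ 2 := by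
  have h1 := hom_two (ps_Hom (s := 2) (t := 2) hw)
  have h2 := Submodule.mem_map_of_mem (f := (th 2).toLinearMap) h1
  rw [AlgHom.toLinearMap_apply, th_surj hF, Submodule.map_span] at h2
  have h3 : F ∈ Submodule.span (ZMod 2) ({A ^ 2, A * B, B ^ 2} : Set (RR Empty)) := by
    refine Submodule.span_mono ?_ h2
    rintro _ ⟨_, ⟨⟨i, j⟩, rfl⟩, rfl⟩
    rw [AlgHom.toLinearMap_apply, map_mul, th_X, th_X]
    fin_cases i <;> fin_cases j
    · right; right
      exact (pow_two _).symm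
    · right; left
      exact mul_comm _ _
    · right; left
      rfl
    · left
      exact (pow_two _).symm
  rw [Submodule.mem_span_triple] at h3
  obtain ⟨a, b, c, h⟩ := h3
  exact ⟨a, b, c, h.symm⟩

lemma sq_eq_zero {a : ZMod 2} {v : (ℕ × ℕ) ⊕ (Empty × ℕ)}
    (h : a • (X v : RR Empty) ^ 2 = 0) : a = 0 := by
  rcases smul_eq_zero.1 h with h1 | h1
  · exact h1
  · exact absurd h1 (pow_ne_zero 2 (X_ne_zero _))

end IH2b

open IH2b in
theorem pr_H2b : StH2b := by
  intro x hx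
  obtain ⟨a, b, c, h⟩ := wh2_span hx.1 hx.2.1
  -- the first coefficient
  have h1 := prj_cocycle (n := 1) hx.1 hx.2.2
  have h2 : prj 1 x = a • A ^ 2 := by
    rw [h, map_add, map_add, map_smul, map_smul, map_smul, map_pow, map_mul, map_pow,
      prj_inl_lt (by simp only; omega), prj_inl_ge (by simp only; omega), mul_zero, smul_zero,
      zero_pow two_ne_zero, smul_zero, add_zero, add_zero]
  have hA : dE 2 (A ^ 2) = 0 := by
    have h3 := dR_pow (fun _ : Empty => 0) 2 A 1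
    rw [pow_one] at h3
    change dR _ _ _ = 0
    rw [h3]
    have h4 := dE_w1 0
    change (dE 2 A) ^ 2 = 0
    have h5 : ((0 + 2 : ℕ) : ZMod 2) = 0 := rfl
    rw [h5, zero_smul] at h4
    rw [h4, zero_pow two_ne_zero]
  have ha0 : a = 0 := by
    rw [h2, map_smul, hA, smul_zero] at h1
    exact sq_eq_zero h1.symm
  -- the product
  have hAB : A * B = ha 0 * sh 1 (ha 0) := by
    have h3 : Sq2.ha 0 = A := by
      unfold Sq2.ha
      rw [pow_zero, pow_one]
      rfl
    rw [h3, sh_inl]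
  have hABd : dE 3 (A * B) = 0 := by
    have h3 : ha 0 * sh 1 (ha 0) ∈ ZR (1 + 1) (2 ^ 0 + 2 ^ 0) := mul_ZR (ha_ZR 0) (ha_ZR 0)
    rw [hAB]
    exact (mem_ZR.1 h3).2.2
  have hB : dE 3 (B ^ 2) = (X (Sum.inl (2, 0)) : RR Empty) ^ 2 := by
    have h3 := dR_pow (fun _ : Empty => 0) 3 B 1
    rw [pow_one] at h3
    change dR _ _ _ = _
    rw [h3]
    have h4 := dE_w1 1
    have h5 : ((1 + 2 : ℕ) : ZMod 2) = 1 := rfl
    rw [h5, one_smul] at h4
    change (dE 3 B) ^ 2 = _
    rw [h4]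
  have hc : c = 0 := by
    have h3 := hx.2.2
    rw [h, ha0, zero_smul, zero_add, map_add, map_smul, map_smul] at h3
    have h4 : dE (2 + 1) (A * B) = 0 := hABd
    have h5 : dE (2 + 1) (B ^ 2) = (X (Sum.inl (2, 0)) : RR Empty) ^ 2 := hB
    rw [h4, h5, smul_zero, zero_add] at h3
    exact sq_eq_zero h3
  rw [ha0, hc, zero_smul, zero_smul, zero_add, add_zero] at h
  have hb : b = 0 ∨ b = 1 := (by decide : ∀ c : ZMod 2, c = 0 ∨ c = 1) b
  rcases hb with hb | hb
  · left
    rw [h, hb, zero_smul]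
  · right
    rw [h, hb, one_smul, hAB]

end Pool.Agent.Work.MP_701abf_gt.TwT
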