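import Pool.Agent.Work.MP_701abf_gt.TwT.Stmts

/-!
# The two-thirds law, half A, item Hf: dividing degrees by powers of two
-/

open MvPolynomial
open Pool.Agent.Work.MP_701abf_gt.Stab Pool.Agent.Work.MP_701abf_gt.Cob
open Pool.Agent.Work.MP_701abf_gt.Sq2

namespace Pool.Agent.Work.MP_701abf_gt.TwT

namespace IHf

theorem pow_split {a i : ℕ} (h : i ≤ a) (e : ℕ) : 2 ^ (a + e) = 2 ^ i * 2 ^ (a - i + e) := by
  rw [← pow_add]
  congr 1
  omega

theorem cancel {i x y : ℕ} (h : 2 ^ i * x = 2 ^ i * y) : x = y :=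
  Nat.eq_of_mul_eq_mul_left (by positivity) h

theorem ch (L c m T : ℕ) (h : Ch L c m T) : ∀ i t : ℕ, T = 2 ^ i * t → Ch L c m t := by
  induction h with
  | sg a =>
    intro i t ht
    have h1 : t ∣ 2 ^ a := ⟨2 ^ i, by rw [ht, mul_comm]⟩
    obtain ⟨k, -, rfl⟩ := (Nat.dvd_prime_pow Nat.prime_two).1 h1
    exact Ch.sg k
  | cl T h0 h =>
    intro i t ht
    refine Ch.cl t ?_ ?_
    · rcases Nat.eq_zero_or_pos t with h1 | h1
      · rw [h1, mul_zero] at ht
        omega
      · exact h1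
    · rintro ⟨b, rfl⟩
      exact h ⟨i + b, by rw [ht, pow_add]⟩
  | @addsg c m t' a h hd ih =>
    intro i t ht
    have hia : i ≤ a := by
      by_contra hlt
      have h1 : 2 ^ (a + 1) ∣ t' := (pow_dvd_pow 2 (by omega)).trans hd
      have h2 : 2 ^ (a + 1) ∣ t' + 2 ^ a := by
        rw [ht]
        exact (pow_dvd_pow 2 (by omega)).trans (dvd_mul_right _ _)
      have h3 : 2 ^ (a + 1) ∣ 2 ^ a := (Nat.dvd_add_right h1).mp h2
      have h4 := (Nat.pow_dvd_pow_iff_le_right (by norm_num : 1 < 2)).mp h3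
      omega
    have h5 : 2 ^ i ∣ t' := (pow_dvd_pow 2 (by omega)).trans hd
    obtain ⟨t'', rfl⟩ := h5
    have h6 : 2 ^ a = 2 ^ i * 2 ^ (a - i) := pow_split hia 0
    rw [h6, ← mul_add] at ht
    rw [← cancel ht]
    refine Ch.addsg (a - i) (ih i t'' rfl) ?_
    have h7 : 2 ^ (a + 1 + L) = 2 ^ i * 2 ^ (a - i + 1 + L) := by
      have := pow_split hia (1 + L)
      rwa [← add_assoc, ← add_assoc] at this
    rw [h7] at hd
    exact Nat.dvd_of_mul_dvd_mul_left (by positivity) hd
  | @addcl c m t' a M h h0 hM h2 hd ih =>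
    intro i t ht
    have hia : i ≤ a + L := by
      by_contra hlt
      have h3 : 2 ^ (a + L) ∣ t' + M := by
        rw [ht]
        exact (pow_dvd_pow 2 (by omega)).trans (dvd_mul_right _ _)
      have h4 : 2 ^ (a + L) ∣ M := (Nat.dvd_add_right hd).mp h3
      have h5 := Nat.le_of_dvd h0 h4
      have h6 : 2 ^ a ≤ 2 ^ (a + L) := Nat.pow_le_pow_right (by norm_num) (by omega)
      omega
    have h5 : 2 ^ i ∣ t' := (pow_dvd_pow 2 hia).trans hd
    have h6 : 2 ^ i ∣ M := by
      have h7 : 2 ^ i ∣ t' + M := by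
        rw [ht]
        exact dvd_mul_right _ _
      exact (Nat.dvd_add_right h5).mp h7
    obtain ⟨t'', rfl⟩ := h5
    obtain ⟨M', rfl⟩ := h6
    have hM0 : 0 < M' := Nat.pos_of_mul_pos_left h0
    have hi : i < a := by
      by_contra hlt
      have h8 : 2 ^ a ≤ 2 ^ i := Nat.pow_le_pow_right (by norm_num) (by omega)
      have h9 : 2 ^ i * 1 ≤ 2 ^ i * M' := Nat.mul_le_mul_left _ hM0
      omega
    rw [← mul_add] at ht
    rw [← cancel ht]
    refine Ch.addcl (a - i) M' (ih i t'' rfl) hM0 ?_ ?_ ?_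
    · rw [show 2 ^ a = 2 ^ i * 2 ^ (a - i) from pow_split hi.le 0] at hM
      exact Nat.lt_of_mul_lt_mul_left hM
    · rintro ⟨b, rfl⟩
      exact h2 ⟨i + b, by rw [pow_add]⟩
    · rw [pow_split hi.le L] at hd
      exact Nat.dvd_of_mul_dvd_mul_left (by positivity) hd

theorem few (U k i t : ℕ) (h : Few U k (2 ^ i * t)) : Few (k * U + U) k t := by
  classical
  obtain ⟨a, u, hu, hs⟩ := h
  have h1 : ∀ j, 2 ^ a j * u j = 2 ^ i * (if i ≤ a j then 2 ^ (a j - i) * u j else 0) +
      (if i ≤ a j then 0 else 2 ^ a j * u j) := by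
    intro j
    by_cases hj : i ≤ a j
    · rw [if_pos hj, if_pos hj, add_zero, ← mul_assoc]
      congr 1
      exact pow_split hj 0
    · rw [if_neg hj, if_neg hj, mul_zero, zero_add]
  rw [Finset.sum_congr rfl (fun j _ => h1 j), Finset.sum_add_distrib, ← Finset.mul_sum] at hs
  have h2 : 2 ^ i ∣ ∑ j, (if i ≤ a j then 0 else 2 ^ a j * u j) := by
    have h3 : 2 ^ i ∣ 2 ^ i * ∑ j, (if i ≤ a j then 2 ^ (a j - i) * u j else 0) +
        ∑ j, (if i ≤ a j then 0 else 2 ^ a j * u j) := by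
      rw [← hs]
      exact dvd_mul_right _ _
    exact (Nat.dvd_add_right (dvd_mul_right _ _)).mp h3
  obtain ⟨u', hu'⟩ := h2
  have hle : u' ≤ k * U := by
    have h3 : ∑ j, (if i ≤ a j then 0 else 2 ^ a j * u j) ≤ ∑ _j : Fin k, 2 ^ i * U := by
      refine Finset.sum_le_sum fun j _ => ?_
      split_ifs with hj
      · exact Nat.zero_le _
      · exact Nat.mul_le_mul (Nat.pow_le_pow_right (by norm_num) (by omega)) (hu j)
    rw [hu', Finset.sum_const, Finset.card_univ, Fintype.card_fin, smul_eq_mul] at h3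
    have h4 : 2 ^ i * u' ≤ 2 ^ i * (k * U) := by
      calc 2 ^ i * u' ≤ k * (2 ^ i * U) := h3
        _ = _ := by ring
    exact Nat.le_of_mul_le_mul_left h4 (by positivity)
  rw [hu', ← mul_add] at hs
  have ht := cancel hs
  by_cases hex : ∃ j0, ¬ i ≤ a j0
  · obtain ⟨j0, hj0⟩ := hex
    refine ⟨fun j => a j - i, fun j => if i ≤ a j then u j else if j = j0 then u' else 0, ?_, ?_⟩
    · intro j
      show (if i ≤ a j then u j else if j = j0 then u' else 0) ≤ k * U + U
      have := hu j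
      split_ifs <;> omega
    · rw [ht]
      have h5 : ∀ j, 2 ^ (a j - i) * (if i ≤ a j then u j else if j = j0 then u' else 0) =
          (if i ≤ a j then 2 ^ (a j - i) * u j else 0) + (if j = j0 then u' else 0) := by
        intro j
        by_cases hj : i ≤ a j
        · have hne : j ≠ j0 := fun h => hj0 (h ▸ hj)
          rw [if_pos hj, if_pos hj, if_neg hne, add_zero]
        · rw [if_neg hj, if_neg hj, zero_add]
          have h6 : a j - i = 0 := by omega
          rw [h6, pow_zero, one_mul]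
      show _ = ∑ j, 2 ^ (a j - i) * (if i ≤ a j then u j else if j = j0 then u' else 0)
      rw [Finset.sum_congr rfl (fun j _ => h5 j), Finset.sum_add_distrib, Finset.sum_ite_eq']
      simp
  · push Not at hex
    have h7 : ∑ j, (if i ≤ a j then 0 else 2 ^ a j * u j) = 0 :=
      Finset.sum_eq_zero fun j _ => if_pos (hex j)
    rw [h7] at hu'
    have h8 : u' = 0 := by
      rcases Nat.eq_zero_or_pos u' with h | h
      · exact h
      · have : 0 < 2 ^ i * u' := Nat.mul_pos (by positivity) h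
        omega
    rw [h8, add_zero] at ht
    refine ⟨fun j => a j - i, u, fun j => (hu j).trans (Nat.le_add_left _ _), ?_⟩
    rw [ht]
    exact Finset.sum_congr rfl fun j _ => if_pos (hex j)

end IHf

theorem pr_Hf : StHf :=
  ⟨fun L c m i t h => IHf.ch L c m _ h i t rfl, fun U k i t h => IHf.few U k i t h⟩

end Pool.Agent.Work.MP_701abf_gt.TwT
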