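import Pool.Agent.Work.MP_701abf_gt.TwT.Stmts

/-!
# The two-thirds law, half A: item Kp, the operations on the classes `kap b`
-/

open MvPolynomial
open Pool.Agent.Work.MP_701abf_gt.Stab Pool.Agent.Work.MP_701abf_gt.Cob
open Pool.Agent.Work.MP_701abf_gt.Sq2

namespace Pool.Agent.Work.MP_701abf_gt.TwT

noncomputable section

namespace IKp

lemma ha_succ (ν : ℕ) : ha (ν + 1) = ha ν ^ 2 := by
  unfold ha
  rw [← pow_mul, pow_succ]

lemma castBR {s s' : ℕ} {t t' : ℤ} {F F' : RR Empty} (h : F ∈ BR s t) (hs : s = s')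
    (ht : t = t') (hF : F = F') : F' ∈ BR s' t' := by
  subst hs ht hF
  exact h

lemma sh11 (z : RR Empty) : sh (ι := Empty) 1 (sh 1 z) = sh 2 z := sh_sh 1 1 z

lemma sh21 (z : RR Empty) : sh (ι := Empty) 2 (sh 1 z) = sh 3 z := sh_sh 2 1 z

lemma sh12 (z : RR Empty) : sh (ι := Empty) 1 (sh 2 z) = sh 3 z := sh_sh 1 2 z

/-- Products of congruent cocycles. -/
lemma congr_mul {i j : ℕ} {a b : ℤ} {F F' G G' : RR Empty} (hF : F ∈ ZR i a)
    (hFF : F + F' ∈ BR i a) (hG' : G' ∈ ZR j b) (hGG : G + G' ∈ BR j b) :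
    G * sh j F + G' * sh j F' ∈ BR (i + j) (a + b) := by
  have h1 := mul_BR_right hF hGG
  have h2 := mul_BR_left hFF hG'
  refine castBR (Submodule.add_mem _ h1 h2) rfl rfl ?_
  have h3 : (2 : RR Empty) = 0 := two_zero
  rw [map_add]
  linear_combination G' * sh j F * h3

lemma comm3 (hRe : StRe) (c : ℕ) : ha (c + 1) * sh 1 (ha c * sh 1 (ha c)) +
    ha c * sh 1 (ha c) * sh 2 (ha (c + 1)) ∈ BR 3 (2 * 2 ^ (c + 1)) := by
  have h := hRe.2 (c + 1) c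
  have h1 := mul_BR_right (ha_ZR c) h
  have h2 := mul_BR_left h (ha_ZR c)
  have h2' := castBR h2 (show 2 + 1 = 1 + 2 from rfl)
    (show (2 : ℤ) ^ (c + 1) + 2 ^ c + 2 ^ c = 2 ^ c + (2 ^ (c + 1) + 2 ^ c) by ring) rfl
  refine castBR (Submodule.add_mem _ h1 h2') rfl (by ring) ?_
  have h3 : (2 : RR Empty) = 0 := two_zero
  simp only [map_add, map_mul, sh11]
  linear_combination ha c * sh 1 (ha (c + 1)) * sh 2 (ha c) * h3

lemma four (hRe : StRe) (i : ℕ) : (ha (i + 1) * sh 1 (ha (i + 1))) *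
    sh 2 (ha (i + 1) * sh 1 (ha (i + 1))) ∈ BR 4 (4 * 2 ^ (i + 1)) := by
  have h1 := dl_BR (hRe.1 i).1
  have h2 := dl_mul (ha_ZR (i + 1)) (ha_ZR i)
  rw [show (1 + 1 : ℕ) = 2 from rfl, dl_one (ha_ZR i).1, dl_one (ha_ZR (i + 1)).1,
    ← ha_succ, ← ha_succ] at h2
  rw [h2] at h1
  have h3 := mul_BR_right (ha_ZR (i + 1)) h1
  have h4 := mul_BR_left (hRe.1 (i + 1)).2 (mul_ZR (ha_ZR i) (ha_ZR i))
  have h4' := castBR h4 (show 2 + (1 + 1) = 1 + (2 + 1) from rfl)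
    (show (3 : ℤ) * 2 ^ (i + 1) + (2 ^ i + 2 ^ i) = 2 ^ (i + 1) + 2 * (3 * 2 ^ i) by ring) rfl
  refine castBR (Submodule.add_mem _ h3 h4') rfl (by ring) ?_
  have h5 : (2 : RR Empty) = 0 := two_zero
  simp only [show (1 + 1 : ℕ) = 2 from rfl, show (2 + 1 : ℕ) = 3 from rfl, map_mul, sh11, sh21]
  linear_combination ha i * sh 1 (ha i) * sh 2 (ha (i + 1 + 1)) * sh 3 (ha (i + 1)) * h5

end IKp

open IKp

theorem pr_Kp (hRe : StRe) : StKp := by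
  intro q hq b hb
  obtain ⟨c, rfl⟩ : ∃ c, b = c + 1 := ⟨b - 1, by omega⟩
  have hkap : kap (c + 1) = ha c * sh 1 (ha c) := rfl
  have hx := ha_ZR c
  have hy : ha c ^ 2 = ha (c + 1) := (ha_succ c).symm
  have e2 : (2 : ℤ) * 2 ^ c = 2 ^ (c + 1) := by ring
  have hK : kap (c + 1) ∈ ZR 2 (2 ^ (c + 1)) := by
    have h := mul_ZR hx hx
    rw [show (2 : ℤ) ^ c + 2 ^ c = 2 ^ (c + 1) by ring] at h
    exact h
  have hsq : kap (c + 1) ^ 2 = kap (c + 1 + 1) := by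
    rw [hkap, mul_pow, ← map_pow, hy]
    rfl
  refine ⟨hK, hsq, ?_, ?_⟩
  · have h := hq.one 1 (2 ^ (c + 1)) (ha (c + 1)) (ha_ZR (c + 1))
    rw [dl_one (ha_ZR (c + 1)).1] at h
    rw [hsq]
    exact h
  intro hc k hk
  have h0 := hq.zero 1 (2 ^ c) (ha c) hx
  rw [hy, e2] at h0
  have h1 := hq.one 1 (2 ^ c) (ha c) hx
  rw [dl_one hx.1, ← hkap, e2] at h1
  have z0 := hq.zr 0 1 (2 ^ c) (ha c) hx
  have z1 := hq.zr 1 1 (2 ^ c) (ha c) hx
  rw [e2] at z0 z1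
  rcases (show k = 1 ∨ k = 2 ∨ 3 ≤ k by omega) with rfl | rfl | hk3
  · -- the operation of degree one
    have hm := hq.mul 1 1 1 (2 ^ c) (2 ^ c) (ha c) hx (ha c) hx
    rw [← hkap, Finset.sum_range_succ, Finset.sum_range_one] at hm
    have t0 : q 0 1 (ha c) * sh 1 (q 1 1 (ha c)) + ha (c + 1) * sh 1 (kap (c + 1)) ∈
        BR (2 + 1) (2 ^ (c + 1) + 2 ^ (c + 1)) := congr_mul z1 h1 (ha_ZR (c + 1)) h0
    have t1 : q 1 1 (ha c) * sh 2 (q 0 1 (ha c)) + kap (c + 1) * sh 2 (ha (c + 1)) ∈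
        BR (1 + 2) (2 ^ (c + 1) + 2 ^ (c + 1)) := congr_mul z0 h0 hK h1
    have t2 := comm3 hRe c
    rw [← hkap] at t2
    have e3 : (2 : ℤ) ^ (c + 1) + 2 ^ (c + 1) = 2 * 2 ^ (c + 1) := by ring
    have hm' := castBR hm (show 1 + 1 + 1 = 3 from rfl)
      (show (2 : ℤ) * (2 ^ c + 2 ^ c) = 2 * 2 ^ (c + 1) by ring) rfl
    have t0' := castBR t0 (show 2 + 1 = 3 from rfl) e3 rfl
    have t1' := castBR t1 (show 1 + 2 = 3 from rfl) e3 rfl
    refine castBR (Submodule.add_mem _ (Submodule.add_mem _ hm' t0') (Submodule.add_mem _ t1' t2))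
      rfl rfl ?_
    have h5 : (2 : RR Empty) = 0 := two_zero
    simp only [show (1 + 1 : ℕ) = 2 from rfl, Nat.add_zero, Nat.sub_zero, Nat.sub_self]
    linear_combination (q 0 1 (ha c) * sh 1 (q 1 1 (ha c)) + ha (c + 1) * sh 1 (kap (c + 1)) +
      q 1 1 (ha c) * sh 2 (q 0 1 (ha c)) + kap (c + 1) * sh 2 (ha (c + 1))) * h5
  · -- the operation of degree two
    have hm := hq.mul 2 1 1 (2 ^ c) (2 ^ c) (ha c) hx (ha c) hx
    rw [← hkap, Finset.sum_range_succ, Finset.sum_range_succ, Finset.sum_range_one] at hm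
    have b2 := hq.top 2 1 (2 ^ c) (by norm_num) (ha c) hx
    rw [e2] at b2
    have t0 : q 0 1 (ha c) * sh 1 (q 2 1 (ha c)) ∈
        BR (3 + 1) (2 ^ (c + 1) + 2 ^ (c + 1)) := mul_BR_left b2 z0
    have t1 : q 1 1 (ha c) * sh 2 (q 1 1 (ha c)) + kap (c + 1) * sh 2 (kap (c + 1)) ∈
        BR (2 + 2) (2 ^ (c + 1) + 2 ^ (c + 1)) := congr_mul z1 h1 hK h1
    have t2 : q 2 1 (ha c) * sh 3 (q 0 1 (ha c)) ∈
        BR (1 + 3) (2 ^ (c + 1) + 2 ^ (c + 1)) := mul_BR_right z0 b2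
    obtain ⟨i, rfl⟩ : ∃ i, c = i + 1 := ⟨c - 1, by omega⟩
    have t3 := four hRe i
    rw [← hkap] at t3
    have e3 : (2 : ℤ) ^ (i + 1 + 1) + 2 ^ (i + 1 + 1) = 2 * 2 ^ (i + 1 + 1) := by ring
    have hm' := castBR hm (show 1 + 1 + 2 = 4 from rfl)
      (show (2 : ℤ) * (2 ^ (i + 1) + 2 ^ (i + 1)) = 2 * 2 ^ (i + 1 + 1) by ring) rfl
    have t0' := castBR t0 (show 3 + 1 = 4 from rfl) e3 rfl
    have t1' := castBR t1 (show 2 + 2 = 4 from rfl) e3 rfl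
    have t2' := castBR t2 (show 1 + 3 = 4 from rfl) e3 rfl
    have t3' := castBR t3 (show 4 = 4 from rfl)
      (show (4 : ℤ) * 2 ^ (i + 1) = 2 * 2 ^ (i + 1 + 1) by ring) rfl
    refine castBR (Submodule.add_mem _ (Submodule.add_mem _ hm' t0')
      (Submodule.add_mem _ (Submodule.add_mem _ t1' t2') t3')) rfl rfl ?_
    have h5 : (2 : RR Empty) = 0 := two_zero
    simp only [show (1 + 1 : ℕ) = 2 from rfl, show (1 + 2 : ℕ) = 3 from rfl, Nat.add_zero,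
      Nat.sub_zero, Nat.sub_self, show (2 - 1 : ℕ) = 1 from rfl]
    linear_combination (q 0 1 (ha (i + 1)) * sh 1 (q 2 1 (ha (i + 1))) +
      q 1 1 (ha (i + 1)) * sh 2 (q 1 1 (ha (i + 1))) +
      q 2 1 (ha (i + 1)) * sh 3 (q 0 1 (ha (i + 1))) +
      kap (i + 1 + 1) * sh 2 (kap (i + 1 + 1))) * h5
  · exact hq.top k 2 (2 ^ (c + 1)) (by omega) (kap (c + 1)) hK

end

end Pool.Agent.Work.MP_701abf_gt.TwT
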