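import Pool.Agent.Work.MP_701abf_gt.TwT.Stmts

/-!
# The two-thirds law, half A, item Le: the basis for a power of two
-/

open MvPolynomial
open Pool.Agent.Work.MP_701abf_gt.Stab Pool.Agent.Work.MP_701abf_gt.Cob
open Pool.Agent.Work.MP_701abf_gt.Sq2

namespace Pool.Agent.Work.MP_701abf_gt.TwT

namespace ILe

variable {q : ℕ → ℕ → RR Empty → RR Empty} {n : ℕ} {T : ℤ} {W : Sys} {w : W.I → RR Empty}

lemma smul_sq' (c : ZMod 2) (x : RR Empty) : (c • x) ^ 2 = c • x ^ 2 := by
  have hc : c = 0 ∨ c = 1 := by revert c; decide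
  rcases hc with rfl | rfl
  · rw [zero_smul, zero_smul, zero_pow two_ne_zero]
  · rw [one_smul, one_smul]

lemma sum_sq' {α : Type} (A : Finset α) (g : α → RR Empty) :
    (∑ i ∈ A, g i) ^ 2 = ∑ i ∈ A, g i ^ 2 := by
  classical
  induction A using Finset.induction_on with
  | empty => simp
  | @insert a S ha ih => rw [Finset.sum_insert ha, Finset.sum_insert ha, sq_add, ih]

/-- the cocycles `w l` are independent -/
lemma ind (h : BQ q n T W w) {s : ℕ} (hs : s ≤ n) {a : W.I → ZMod 2} (ha : W.Dg s a)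
    (hB : ∑ l, a l • w l ∈ BR s T) : a = 0 := by
  refine h.indep s hs a ha ?_
  have h1 := sq_BR hB
  rw [sum_sq'] at h1
  have e : ∑ l, a l • w l ^ 2 = ∑ l, (a l • w l) ^ 2 :=
    Finset.sum_congr rfl fun l _ => (smul_sq' _ _).symm
  rw [e]
  exact h1

lemma not_BR (h : BQ q n T W w) {l : W.I} (hl : W.d l ≤ n) : w l ∉ BR (W.d l) T := by
  classical
  intro hB
  have h1 := ind h hl (a := fun m => if m = l then 1 else 0) (fun m hm => by
    by_cases h2 : m = l
    · rw [h2]
    · exact absurd (if_neg h2) hm) (by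
    have e : ∑ m, (if m = l then (1 : ZMod 2) else 0) • w m = w l := by
      rw [Finset.sum_eq_single l]
      · rw [if_pos rfl, one_smul]
      · intro m _ hm
        rw [if_neg hm, zero_smul]
      · intro h2
        exact absurd (Finset.mem_univ l) h2
    rw [e]
    exact hB)
  have h2 := congrFun h1 l
  rw [if_pos rfl] at h2
  exact one_ne_zero h2

lemma not_BR2 (h : BQ q n T W w) {s : ℕ} (hs : s ≤ n) {l l' : W.I} (hne : l ≠ l')
    (hl : W.d l = s) (hl' : W.d l' = s) : w l + w l' ∉ BR s T := by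
  classical
  intro hB
  have h1 := ind h hs (a := fun m => (if m = l then 1 else 0) + (if m = l' then 1 else 0))
    (fun m hm => by
      by_cases h2 : m = l
      · rw [h2, hl]
      · by_cases h3 : m = l'
        · rw [h3, hl']
        · exfalso
          apply hm
          show (if m = l then (1 : ZMod 2) else 0) + (if m = l' then 1 else 0) = 0
          rw [if_neg h2, if_neg h3, add_zero]) (by
    have e : ∀ l : W.I, ∑ m, (if m = l then (1 : ZMod 2) else 0) • w m = w l := by
      intro l
      rw [Finset.sum_eq_single l]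
      · rw [if_pos rfl, one_smul]
      · intro m _ hm
        rw [if_neg hm, zero_smul]
      · intro h2
        exact absurd (Finset.mem_univ l) h2
    have e2 : ∑ m, ((if m = l then (1 : ZMod 2) else 0) + (if m = l' then 1 else 0)) • w m =
        w l + w l' := by
      rw [Finset.sum_congr rfl fun m _ => add_smul _ _ (w m), Finset.sum_add_distrib, e, e]
    rw [e2]
    exact hB)
  have h2 := congrFun h1 l
  have h3 : (if l = l then (1 : ZMod 2) else 0) + (if l = l' then 1 else 0) = 0 := h2
  rw [if_pos rfl, if_neg hne, add_zero] at h3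
  exact one_ne_zero h3

/-- a row of the matrix of the operation `k` is zero, if the operation is zero on the class -/
lemma row (hok : W.Ok) (hTr : W.Tr n) (h : BQ q n T W w) {k : ℕ} (hk : 1 ≤ k) {l : W.I}
    (hq : q k (W.d l) (w l) ∈ BR (W.d l + k) (2 * T)) (m : W.I) : W.c k l m = 0 := by
  by_cases hn : W.d l + k ≤ n
  · have h1 := h.c_w k l hn
    have h2 := Submodule.add_mem _ hq h1
    rw [← add_assoc, add_self2, zero_add] at h2
    exact congrFun (h.indep _ hn (W.c k l) (fun m hm => hok.deg k l m hm) h2) m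
  · exact hTr k l m hk (by omega)

end ILe

/-- Le. -/
theorem pr_Le (hSu : StSu) (hKp : StKp) (hH2 : StH2) : StLe := by
  intro q hq n hn b hb W w hok hpos hTr hB
  obtain ⟨hk1, -, -, hk4⟩ := hKp q hq b (by omega)
  -- degree one
  have h1 : ∀ l, W.d l = 1 → w l = ha b := by
    intro l hl
    have h2 := hB.w_mem l
    rw [hl] at h2
    refine (ZR_one h2).resolve_left fun h3 => ?_
    refine ILe.not_BR hB (l := l) (by omega) ?_
    rw [h3]
    exact Submodule.zero_mem _
  obtain ⟨a, ha1, ha2⟩ := hB.span 1 (by omega) (ha b) (ha_ZR b)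
  have h2 : ∃ l0, a l0 ≠ 0 := by
    by_contra h
    push Not at h
    rw [Finset.sum_eq_zero fun l _ => by rw [h l, zero_smul], add_zero] at ha2
    exact ha_ne b (BR_one (by positivity) ha2)
  obtain ⟨l0, hl0⟩ := h2
  have hd0 : W.d l0 = 1 := ha1 l0 hl0
  have hw0 := h1 l0 hd0
  have hu0 : ∀ l, W.d l = 1 → l = l0 := by
    intro l hl
    by_contra hne
    refine ILe.not_BR2 hB (s := 1) (by omega) hne hl hd0 ?_
    rw [h1 l hl, hw0, add_self2]
    exact Submodule.zero_mem _
  -- the operation of degree one on `l0`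
  have h3 := hB.c_w 1 l0 (by omega)
  rw [hd0, hw0] at h3
  have h4 : ∃ m0, W.c 1 l0 m0 ≠ 0 := by
    by_contra h
    push Not at h
    rw [Finset.sum_eq_zero fun l _ => by rw [h l, zero_smul], add_zero] at h3
    have h5 := Submodule.add_mem _ h3 (hq.one 1 _ _ (ha_ZR b))
    rw [← add_assoc, add_self2, zero_add] at h5
    exact dl_ha b h5
  obtain ⟨m0, hm0⟩ := h4
  have hdm : W.d m0 = 2 := by
    have := hok.deg 1 l0 m0 hm0
    omega
  -- degree two
  have h5 : ∀ m, W.d m = 2 → w m + kap b ∈ BR 2 (2 ^ b) := by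
    intro m hm
    have h6 := hB.w_mem m
    rw [hm] at h6
    refine (hH2 b (by omega) _ h6).resolve_left fun h7 => ?_
    refine ILe.not_BR hB (l := m) (by omega) ?_
    rw [hm]
    exact h7
  have hum : ∀ m, W.d m = 2 → m = m0 := by
    intro m hm
    by_contra hne
    refine ILe.not_BR2 hB (s := 2) (by omega) hne hm hdm ?_
    have h6 := Submodule.add_mem _ (h5 m hm) (h5 m0 hdm)
    have e : w m + kap b + (w m0 + kap b) = w m + w m0 + (kap b + kap b) := by abel
    rwa [e, add_self2, add_zero] at h6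
  refine ⟨l0, m0, ⟨hok, hpos, hd0, hu0, hdm, hum, ?_, ?_, ?_⟩, hw0, h5 m0 hdm⟩
  · have : ∀ c : ZMod 2, c ≠ 0 → c = 1 := by decide
    exact this _ hm0
  · intro k m hk
    refine ILe.row hok hTr hB (by omega) ?_ m
    rw [hd0, hw0]
    exact hq.top k 1 _ (by omega) _ (ha_ZR b)
  · intro k m hk
    refine ILe.row hok hTr hB hk ?_ m
    rw [hdm]
    have h6 := hB.w_mem m0
    rw [hdm] at h6
    have h7 := (hSu q hq k 2 (2 ^ b)).2.1 _ h6 _ hk1 (h5 m0 hdm)
    have h8 := Submodule.add_mem _ h7 (hk4 hb k hk)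
    rwa [add_assoc, add_self2, add_zero] at h8

end Pool.Agent.Work.MP_701abf_gt.TwT
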