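import Pool.Agent.Work.MP_701abf_gt.TwT.Stmts

/-!
# The two-thirds law, half A, item Lp
-/

set_option autoImplicit false

open Pool.Agent.Work.MP_701abf_gt.Stab Pool.Agent.Work.MP_701abf_gt.Cob
open Pool.Agent.Work.MP_701abf_gt.Sq2

namespace Pool.Agent.Work.MP_701abf_gt.TwT

namespace ILp

open Finset

/-- the sum with only the diagonal term -/
theorem sum_diag (W : Sys) (hW : W.Ok) (m : W.I) (n : ℕ) (F : ℕ → W.I → ZMod 2)
    (hF : ∀ j l, W.d l < W.d m → F j l = 0) :
    ∑ i ∈ range (n + 1), ∑ l, W.c i l m * F (n - i) l = F n m := by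
  rw [Finset.sum_eq_single 0]
  · rw [Finset.sum_eq_single m]
    · rw [hW.one, one_mul, Nat.sub_zero]
    · intro l _ hl
      rw [hW.ne l m hl, zero_mul]
    · intro h
      exact absurd (Finset.mem_univ m) h
  · intro i _ hi
    refine Finset.sum_eq_zero fun l _ => ?_
    by_cases hc : W.c i l m = 0
    · rw [hc, zero_mul]
    · have := hW.deg i l m hc
      rw [hF _ l (by omega), mul_zero]
  · intro h
    exact absurd (Finset.mem_range.2 (Nat.succ_pos n)) h

theorem sum_l0 (W : Sys) (l0 m0 : W.I) (hW : W.Let l0 m0) (n : ℕ) (F : ℕ → W.I → ZMod 2) :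
    ∑ i ∈ range (n + 1), ∑ l, W.c i l l0 * F (n - i) l = F n l0 := by
  classical
  have hF : ∀ i ∈ range (n + 1), ∑ l, W.c i l l0 * F (n - i) l =
      ∑ l, W.c i l l0 * (fun j l => if l = l0 then F j l else 0) (n - i) l := by
    intro i _
    refine Finset.sum_congr rfl fun l _ => ?_
    by_cases hl : l = l0
    · subst hl
      simp
    · by_cases hc : W.c i l l0 = 0
      · rw [hc, zero_mul, zero_mul]
      · exfalso
        have h1 := hW.ok.deg i l l0 hc
        have h2 := hW.pos l
        have h3 := hW.dl0
        have h4 : i = 0 := by omega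
        subst h4
        exact hc (hW.ok.ne l l0 hl)
  rw [Finset.sum_congr rfl hF]
  refine (sum_diag W hW.ok l0 n (fun j l => if l = l0 then F j l else 0) ?_).trans ?_
  · intro j l hl
    have : l ≠ l0 := by
      rintro rfl
      exact lt_irrefl _ hl
    simp [this]
  · simp

theorem sum_m0 (W : Sys) (l0 m0 : W.I) (hW : W.Let l0 m0) (n : ℕ) (F : ℕ → W.I → ZMod 2) :
    ∑ i ∈ range (n + 1), ∑ l, W.c i l m0 * F (n - i) l =
      F n m0 + if 1 ≤ n then F (n - 1) l0 else 0 := by
  have hlm : l0 ≠ m0 := by
    rintro h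
    have h1 := hW.dl0
    have h2 := hW.dm0
    rw [h] at h1
    omega
  have hF : ∀ i ∈ range (n + 1), ∑ l, W.c i l m0 * F (n - i) l =
      (if i = 0 then F n m0 else 0) + (if i = 1 then F (n - 1) l0 else 0) := by
    intro i _
    rcases Nat.lt_or_ge i 2 with hi | hi
    · rcases Nat.lt_or_ge i 1 with hi1 | hi1
      · have h0 : i = 0 := by omega
        subst h0
        rw [Finset.sum_eq_single m0]
        · rw [hW.ok.one, one_mul, Nat.sub_zero]
          simp
        · intro l _ hl
          rw [hW.ok.ne l m0 hl, zero_mul]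
        · intro h
          exact absurd (Finset.mem_univ m0) h
      · have h0 : i = 1 := by omega
        subst h0
        rw [Finset.sum_eq_single l0]
        · rw [hW.cc, one_mul]
          simp
        · intro l _ hl
          by_cases hc : W.c 1 l m0 = 0
          · rw [hc, zero_mul]
          · exfalso
            have h1 := hW.ok.deg 1 l m0 hc
            have h3 := hW.dm0
            exact hl (hW.ul0 l (by omega))
        · intro h
          exact absurd (Finset.mem_univ l0) h
    · rw [if_neg (by omega), if_neg (by omega), add_zero]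
      refine Finset.sum_eq_zero fun l _ => ?_
      by_cases hc : W.c i l m0 = 0
      · rw [hc, zero_mul]
      · exfalso
        have h1 := hW.ok.deg i l m0 hc
        have h2 := hW.pos l
        have h3 := hW.dm0
        omega
  rw [Finset.sum_congr rfl hF, Finset.sum_add_distrib]
  congr 1
  · rw [Finset.sum_ite_eq' (range (n + 1)) 0]
    simp
  · rw [Finset.sum_ite_eq' (range (n + 1)) 1]
    simp only [Finset.mem_range]
    by_cases hn : 1 ≤ n
    · rw [if_pos (by omega), if_pos hn]
    · rw [if_neg (by omega), if_neg hn]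

/-- the strong induction over the elements of `W` -/
theorem strong (hSw : StSw) (V W : Sys) (a c m E D₀ k : ℕ) (hW : W.Ok)
    (hlow : ∀ S v, a + c + 2 * m ≤ (Ex a).d S + V.d v)
    (ih : ∀ e : ℕ, 2 * e + 1 ≤ a + c → e + 1 < 2 ^ k → ∀ y : (Ex a).I × V.I → ZMod 2,
      (Sys.ten V (Ex a)).Dg (a + c + 2 * m + e) y →
      (∀ i, i < k → (Sys.ten V (Ex a)).e (2 ^ i) y = 0) → y = 0)
    (y : (Ex a).I × (W.I × V.I) → ZMod 2)
    (hd : (Sys.ten (Sys.ten V W) (Ex a)).Dg (a + c + 2 * m + E) y)
    (he : ∀ i, i < k → (Sys.ten (Sys.ten V W) (Ex a)).e (2 ^ i) y = 0)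
    (hD : D₀ ≤ E → 2 * (E - D₀) + 1 ≤ a + c ∧ (E - D₀) + 1 < 2 ^ k)
    (h0 : ∀ l, W.d l < D₀ → ∀ S v, y (S, (l, v)) = 0) : y = 0 := by
  have key : ∀ N : ℕ, ∀ l, W.d l = N →
      (fun p : (Ex a).I × V.I => y (p.1, (l, p.2))) = 0 := by
    intro N
    induction N using Nat.strong_induction_on with
    | _ N IH =>
      intro l hl
      by_cases hlt : W.d l < D₀
      · funext p
        exact h0 l hlt p.1 p.2
      · have hdeg : ∀ p : (Ex a).I × V.I, y (p.1, (l, p.2)) ≠ 0 →
            (Ex a).d p.1 + V.d p.2 + W.d l = a + c + 2 * m + E := by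
          intro p hp
          have h1 : (Ex a).d p.1 + (W.d l + V.d p.2) = a + c + 2 * m + E := hd (p.1, (l, p.2)) hp
          omega
        by_cases hE : W.d l ≤ E
        · obtain ⟨hD1, hD2⟩ := hD (by omega)
          refine ih (E - W.d l) (by omega) (by omega) _ ?_ ?_
          · intro p hp
            have h1 := hdeg p hp
            change (Ex a).d p.1 + V.d p.2 = _
            omega
          · intro i hi
            funext q
            obtain ⟨S, v⟩ := q
            have h1 := congrFun (he i hi) (S, (l, v))
            rw [hSw.1 (Ex a) V W (2 ^ i) y S l v] at h1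
            rw [sum_diag W hW l (2 ^ i) (fun j l' =>
              (Sys.ten V (Ex a)).e j (fun p => y (p.1, (l', p.2))) (S, v))] at h1
            · exact h1
            · intro j l' hl'
              have h2 := IH (W.d l') (by omega) l' rfl
              change (Sys.ten V (Ex a)).e j (fun p => y (p.1, (l', p.2))) (S, v) = 0
              have h3 : (Sys.ten V (Ex a)).e j (fun p => y (p.1, (l', p.2))) = 0 := by
                refine (congrArg ((Sys.ten V (Ex a)).e j) h2).trans ?_
                exact map_zero _
              rw [h3]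
              rfl
        · funext p
          by_contra hp
          have h1 := hdeg p hp
          have h2 := hlow p.1 p.2
          omega
  funext p
  obtain ⟨S, l, v⟩ := p
  exact congrFun (key _ l rfl) (S, v)

end ILp

theorem pr_Lp (hTn : StTn) (hOk : StOk) (hMu : StMu) (hBi : StBi) (hLr : StLr) (hSw : StSw) :
    StLp := by
  intro P c m V h
  have hlowEx : ∀ (a : ℕ) (S : (Ex a).I), a ≤ (Ex a).d S := by
    intro a S
    have h1 := (hOk.1 _ _ _ _ (hOk.2.2 a)).2 S
    omega
  induction h with
  | one =>
    intro a e k h1 h2 y hd he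
    have hz : ∀ n, 1 ≤ n → ∀ S, (Ex a).e n (fun S => y (S, ())) S =
        (Sys.ten Sys.one (Ex a)).e n y (S, ()) := by
      intro n hn S
      rw [hTn.2.1 Sys.one (Ex a) n y S ()]
      rw [Finset.sum_eq_single n]
      · rw [Sys.e_apply]
        refine Finset.sum_congr rfl fun l _ => ?_
        rw [Nat.sub_self, mul_comm]
        congr 1
        have h3 := (hTn.2.2.2.2.1 Sys.one hTn.2.2.2.2.2.1 (fun v' => y (l, v'))).1
        exact (congrFun h3 ()).symm
      · intro i hi hin
        refine Finset.sum_eq_zero fun l _ => ?_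
        have h3 : 1 ≤ n - i := by
          have := Finset.mem_range.1 hi
          omega
        have h4 := hTn.2.2.2.2.2.2 (n - i) (fun v' => y (l, v')) h3
        have h5 := congrFun h4 ()
        refine mul_eq_zero_of_right _ ?_
        exact h5
      · intro h
        exact absurd (Finset.mem_range.2 (Nat.lt_succ_self n)) h
    have hzz : ∀ i, i < k → (Ex a).e (2 ^ i) (fun S => y (S, ())) = 0 := by
      intro i hi
      funext S
      rw [hz (2 ^ i) Nat.one_le_two_pow S]
      exact congrFun (he i hi) (S, ())
    have hall := hBi (Ex a) (hMu a) k _ hzz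
    have h3 := hLr _ a 0 (Ex a) (hOk.2.2 a) e 1 (2 ^ k) le_rfl (by omega) h2
      (fun S => y (S, ())) ?_ hall
    · funext p
      obtain ⟨S, u⟩ := p
      exact congrFun h3 S
    · intro S hS
      have h4 : (Ex a).d S + 0 = a + 0 + 2 * 0 + e := hd (S, ()) hS
      omega
  | @sg c m V W l0 m0 hP hW hTP ih =>
    intro a e k h1 h2 y hd he
    have hlow : ∀ S v, a + c + 2 * m ≤ (Ex a).d S + V.d v := by
      intro S v
      have h3 := (hOk.1 _ _ _ _ hTP).2 v
      have h4 := hlowEx a S
      omega
    have hlm : ∀ b : Bool, E1.d b = W.d (if b then m0 else l0) := by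
      intro b
      cases b
      · have := hW.dl0
        simp [E1, this]
      · have := hW.dm0
        simp [E1, this]
    let y' : (Bool × (Ex a).I) × V.I → ZMod 2 := fun p =>
      y (p.1.2, ((if p.1.1 then m0 else l0), p.2))
    have hE1 := hOk.2.1
    have hy' : ∀ (n : ℕ) (b : Bool) (S : (Ex a).I) (v : V.I),
        (Sys.ten V (Ex (a + 1))).e n y' ((b, S), v) =
        (Sys.ten (Sys.ten V W) (Ex a)).e n y (S, ((if b then m0 else l0), v)) := by
      intro n b S v
      have e1 := hSw.2 (Ex a) V E1 n y' S b v
      have e2 := hSw.1 (Ex a) V W n y S (if b then m0 else l0) v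
      refine Eq.trans e1 (Eq.trans ?_ e2.symm)
      cases b
      · have f1 := ILp.sum_l0 E1 false true hE1 n (fun j b' =>
          (Sys.ten V (Ex a)).e j (fun p => y' ((b', p.1), p.2)) (S, v))
        have f2 := ILp.sum_l0 W l0 m0 hW n (fun j l =>
          (Sys.ten V (Ex a)).e j (fun p => y (p.1, (l, p.2))) (S, v))
        exact f1.trans f2.symm
      · have f1 := ILp.sum_m0 E1 false true hE1 n (fun j b' =>
          (Sys.ten V (Ex a)).e j (fun p => y' ((b', p.1), p.2)) (S, v))
        have f2 := ILp.sum_m0 W l0 m0 hW n (fun j l =>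
          (Sys.ten V (Ex a)).e j (fun p => y (p.1, (l, p.2))) (S, v))
        exact f1.trans f2.symm
    have hy0 : y' = 0 := by
      refine ih (a + 1) e k (by omega) h2 y' ?_ ?_
      · have h3' : ∀ (b : Bool) (S : (Ex a).I) (v : V.I), y' ((b, S), v) ≠ 0 →
            (E1.d b + (Ex a).d S) + V.d v = a + 1 + c + 2 * m + e := by
          intro b S v hp
          have h3 : (Ex a).d S + (W.d (if b then m0 else l0) + V.d v) = a + (c + 1) + 2 * m + e :=
            hd (S, ((if b then m0 else l0), v)) hp
          rw [hlm b]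
          omega
        intro p hp
        exact h3' p.1.1 p.1.2 p.2 hp
      · intro i hi
        have h3' : ∀ (b : Bool) (S : (Ex a).I) (v : V.I),
            (Sys.ten V (Ex (a + 1))).e (2 ^ i) y' ((b, S), v) = 0 := by
          intro b S v
          rw [hy' (2 ^ i) b S v]
          exact congrFun (he i hi) (S, ((if b then m0 else l0), v))
        funext q
        exact h3' q.1.1 q.1.2 q.2
    refine ILp.strong hSw V W a c m (e + 1) 3 k hW.ok hlow
      (fun e' h3 h4 y'' h5 h6 => ih a e' k h3 h4 y'' h5 h6) y ?_ he (by omega) ?_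
    · intro p hp
      have h3 := hd p hp
      omega
    · intro l hl S v
      have h3 := hW.pos l
      rcases Nat.lt_or_ge (W.d l) 2 with h4 | h4
      · have h5 := hW.ul0 l (by omega)
        subst h5
        exact congrFun hy0 ((false, S), v)
      · have h5 := hW.um0 l (by omega)
        subst h5
        exact congrFun hy0 ((true, S), v)
  | @cl c m V W hP hW hTP ih =>
    intro a e k h1 h2 y hd he
    have hlow : ∀ S v, a + c + 2 * m ≤ (Ex a).d S + V.d v := by
      intro S v
      have h3 := (hOk.1 _ _ _ _ hTP).2 v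
      have h4 := hlowEx a S
      omega
    refine ILp.strong hSw V W a c m (e + 2) 2 k hW.ok hlow
      (fun e' h3 h4 y'' h5 h6 => ih a e' k h3 h4 y'' h5 h6) y ?_ he ?_ ?_
    · intro p hp
      have h3 := hd p hp
      omega
    · intro _
      constructor
      · omega
      · omega
    · intro l hl S v
      have h3 := hW.two l
      omega

end Pool.Agent.Work.MP_701abf_gt.TwT
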