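import Pool.Agent.Work.MP_701abf_gt.TwT.Stmts

/-!
# Item Lr: the law for intervals of operations
-/

open Pool.Agent.Work.MP_701abf_gt.Stab Pool.Agent.Work.MP_701abf_gt.Cob
open Pool.Agent.Work.MP_701abf_gt.Sq2

namespace Pool.Agent.Work.MP_701abf_gt.TwT

namespace ILr

/-- a vector of too small degree is zero -/
theorem zero_of_deg (V : Sys) {b s : ℕ} (hb : ∀ l, b ≤ V.d l) (a : V.I → ZMod 2)
    (ha : V.Dg s a) (hs : s < b) : a = 0 := by
  funext l
  by_contra h
  have h1 := ha l h
  have h2 := hb l
  omega

end ILr

open ILr in
theorem pr_Lr (hTn : StTn) (hOk : StOk) (hLt : StLt) : StLr := by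
  intro P c m V h
  obtain ⟨-, -, h3, h4, h5, -, -⟩ := hTn
  induction h with
  | one =>
    intro e k K hk h1
    omega
  | @sg c m V W l0 m0 hP hW h ih =>
    intro e k K hk h1 h2 y hy hz
    obtain ⟨hVok, hVd⟩ := hOk.1 P c m V h
    obtain ⟨g1, g2, -, g4⟩ := hLt V W l0 m0 hVok hW y
    have hdeg := h4 V W (c + 1 + 2 * m + e) y hy
    have a1 : ∀ n, k ≤ n → n < K → V.e n (fun v => y (l0, v)) = 0 := by
      intro n hn hn'
      funext v
      rw [← g1 n v, hz n hn hn']
      rfl
    have b1 : ∀ n, k ≤ n + 1 → n + 1 < K → ∀ v,
        V.e (n + 1) (fun v => y (m0, v)) v + V.e n (fun v => y (l0, v)) v = 0 := by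
      intro n hn hn' v
      rw [← g2 n v, hz (n + 1) hn hn']
      rfl
    have hy2 : (fun v => y (m0, v)) = (0 : V.I → ZMod 2) := by
      by_cases hs : W.d m0 ≤ c + 1 + 2 * m + e
      · have hD := (hdeg m0).1 hs
        rw [hW.dm0] at hD hs
        rcases Nat.eq_zero_or_pos e with he | he
        · exact zero_of_deg V hVd _ hD (by omega)
        · refine ih (e - 1) (k + 1) K (by omega) (by omega) (by omega) _ ?_ ?_
          · have : c + 1 + 2 * m + e - 2 = c + 2 * m + (e - 1) := by omega
            rwa [this] at hD
          · intro n hn hn'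
            obtain ⟨n', rfl⟩ : ∃ n', n = n' + 1 := ⟨n - 1, by omega⟩
            funext v
            have h6 := b1 n' (by omega) hn' v
            rw [a1 n' (by omega) (by omega)] at h6
            simpa using h6
      · funext v
        exact (hdeg m0).2 (by omega) v
    have hy1 : (fun v => y (l0, v)) = (0 : V.I → ZMod 2) := by
      have hD := (hdeg l0).1 (by rw [hW.dl0]; omega)
      rw [hW.dl0] at hD
      have hD' : V.Dg (c + 2 * m + e) fun v => y (l0, v) := by
        have : c + 1 + 2 * m + e - 1 = c + 2 * m + e := by omega
        rwa [this] at hD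
      have h7 : V.e (k - 1) (fun v => y (l0, v)) = 0 := by
        funext v
        have h6 := b1 (k - 1) (by omega) (by omega) v
        rw [hy2, map_zero] at h6
        simpa using h6
      rcases Nat.lt_or_ge k 2 with hk2 | hk2
      · have hk1 : k = 1 := by omega
        subst hk1
        rwa [Nat.sub_self, (h5 V hVok _).1] at h7
      · refine ih e (k - 1) K (by omega) (by omega) (by omega) _ hD' ?_
        intro n hn hn'
        rcases Nat.lt_or_ge n k with h8 | h8
        · have : n = k - 1 := by omega
          rw [this]
          exact h7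
        · exact a1 n h8 hn'
    have hy3 : ∀ D : ℕ, ∀ l, W.d l = D → 3 ≤ D → (fun v => y (l, v)) = (0 : V.I → ZMod 2) := by
      intro D
      induction D using Nat.strong_induction_on with
      | _ D ihD =>
        intro l hl hD3
        have h8 : ∀ k v, (Sys.ten V W).e k y (l, v) = V.e k (fun v' => y (l, v')) v := by
          refine g4 l (by omega) ?_
          intro l' hl' hll' v
          have := ihD (W.d l') (by omega) l' rfl hl'
          exact congrFun this v
        by_cases hs : W.d l ≤ c + 1 + 2 * m + e
        · have hDl := (hdeg l).1 hs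
          rw [hl] at hDl hs
          rcases Nat.lt_or_ge (c + 1 + 2 * m + e - D) (c + 2 * m) with h9 | h9
          · exact zero_of_deg V hVd _ hDl h9
          · refine ih (e + 1 - D) k K hk (by omega) (by omega) _ ?_ ?_
            · have : c + 1 + 2 * m + e - D = c + 2 * m + (e + 1 - D) := by omega
              rwa [this] at hDl
            · intro n hn hn'
              funext v
              rw [← h8 n v, hz n hn hn']
              rfl
        · funext v
          exact (hdeg l).2 (by omega) v
    funext p
    obtain ⟨l, v⟩ := p
    have hpos := hW.pos l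
    rcases Nat.lt_or_ge (W.d l) 3 with h8 | h8
    · rcases Nat.lt_or_ge (W.d l) 2 with h9 | h9
      · have : l = l0 := hW.ul0 l (by omega)
        subst this
        exact congrFun hy1 v
      · have : l = m0 := hW.um0 l (by omega)
        subst this
        exact congrFun hy2 v
    · exact congrFun (hy3 (W.d l) l rfl h8) v
  | @cl c m V W hP hW h ih =>
    intro e k K hk h1 h2 y hy hz
    obtain ⟨hVok, hVd⟩ := hOk.1 P c m V h
    have hdeg := h4 V W (c + 2 * (m + 1) + e) y hy
    have hy3 : ∀ D : ℕ, ∀ l, W.d l = D → (fun v => y (l, v)) = (0 : V.I → ZMod 2) := by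
      intro D
      induction D using Nat.strong_induction_on with
      | _ D ihD =>
        intro l hl
        have hD2 := hW.two l
        have h8 : ∀ k v, (Sys.ten V W).e k y (l, v) = V.e k (fun v' => y (l, v')) v := by
          refine h3 V W hW.ok y l ?_
          intro l' hll' v
          have := ihD (W.d l') (by omega) l' rfl
          exact congrFun this v
        by_cases hs : W.d l ≤ c + 2 * (m + 1) + e
        · have hDl := (hdeg l).1 hs
          rw [hl] at hDl hs
          rcases Nat.lt_or_ge (c + 2 * (m + 1) + e - D) (c + 2 * m) with h9 | h9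
          · exact zero_of_deg V hVd _ hDl h9
          · refine ih (e + 2 - D) k K hk (by omega) (by omega) _ ?_ ?_
            · have : c + 2 * (m + 1) + e - D = c + 2 * m + (e + 2 - D) := by omega
              rwa [this] at hDl
            · intro n hn hn'
              funext v
              rw [← h8 n v, hz n hn hn']
              rfl
        · funext v
          exact (hdeg l).2 (by omega) v
    funext p
    obtain ⟨l, v⟩ := p
    exact congrFun (hy3 (W.d l) l rfl) v

end Pool.Agent.Work.MP_701abf_gt.TwT
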