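import Pool.Agent.Work.MP_701abf_gt.TwT.Stmts

/-!
# The two-thirds law, half A, item Lt: the product with a power of two
-/

open MvPolynomial
open Pool.Agent.Work.MP_701abf_gt.Stab Pool.Agent.Work.MP_701abf_gt.Cob
open Pool.Agent.Work.MP_701abf_gt.Sq2

namespace Pool.Agent.Work.MP_701abf_gt.TwT

namespace ILt

theorem l0_zero (W : Sys) (l0 m0 : W.I) (hW : W.Let l0 m0) (m : W.I) (h1 : m ≠ l0) (h2 : m ≠ m0)
    (i : ℕ) : W.c i l0 m = 0 := by
  rcases Nat.lt_or_ge i 2 with hi | hi
  · interval_cases i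
    · exact hW.ok.ne l0 m h1.symm
    · by_contra h
      have := hW.ok.deg 1 l0 m h
      rw [hW.dl0] at this
      exact h2 (hW.um0 m this)
  · exact hW.l0c i m hi

theorem m0_zero (W : Sys) (l0 m0 : W.I) (hW : W.Let l0 m0) (m : W.I) (h2 : m ≠ m0)
    (i : ℕ) : W.c i m0 m = 0 := by
  rcases Nat.eq_zero_or_pos i with hi | hi
  · subst hi
    exact hW.ok.ne m0 m h2.symm
  · exact hW.m0c i m hi

theorem to_l0 (W : Sys) (l0 m0 : W.I) (hW : W.Let l0 m0) (i : ℕ) (l : W.I)
    (h : W.c i l l0 ≠ 0) : i = 0 ∧ l = l0 := by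
  have h1 := hW.ok.deg i l l0 h
  have h2 := hW.pos l
  rw [hW.dl0] at h1
  exact ⟨by omega, hW.ul0 l (by omega)⟩

theorem to_m0 (W : Sys) (l0 m0 : W.I) (hW : W.Let l0 m0) (i : ℕ) (l : W.I)
    (h : W.c i l m0 ≠ 0) : (i = 0 ∧ l = m0) ∨ (i = 1 ∧ l = l0) := by
  have h1 := hW.ok.deg i l m0 h
  have h2 := hW.pos l
  rw [hW.dm0] at h1
  rcases Nat.eq_zero_or_pos i with hi | hi
  · exact Or.inl ⟨hi, hW.um0 l (by omega)⟩
  · exact Or.inr ⟨by omega, hW.ul0 l (by omega)⟩

/-- the only contribution is the one of the operation `0` and the element `m` -/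
theorem single (V W : Sys) (hF : ∀ (k : ℕ) (y : W.I × V.I → ZMod 2) (m : W.I) (v : V.I),
      (Sys.ten V W).e k y (m, v) =
    ∑ i ∈ Finset.range (k + 1), ∑ l, W.c i l m * V.e (k - i) (fun v' => y (l, v')) v)
    (y : W.I × V.I → ZMod 2) (m : W.I) (v : V.I) (k : ℕ) (h1 : W.c 0 m m = 1)
    (h : ∀ i l, ¬ (i = 0 ∧ l = m) → W.c i l m = 0 ∨ ∀ v', y (l, v') = 0) :
    (Sys.ten V W).e k y (m, v) = V.e k (fun v' => y (m, v')) v := by
  have h0 : ∀ i l, ¬ (i = 0 ∧ l = m) → W.c i l m * V.e (k - i) (fun v' => y (l, v')) v = 0 := by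
    intro i l hil
    rcases h i l hil with h3 | h3
    · rw [h3, zero_mul]
    · have h4 : (fun v' => y (l, v')) = (0 : V.I → ZMod 2) := by
        funext v'
        exact h3 v'
      rw [h4, map_zero, Pi.zero_apply, mul_zero]
  rw [hF, Finset.sum_eq_single_of_mem 0 (Finset.mem_range.2 (Nat.succ_pos k)),
    Finset.sum_eq_single_of_mem m (Finset.mem_univ m), h1, one_mul, Nat.sub_zero]
  · intro l _ hl
    exact h0 0 l (fun h5 => hl h5.2)
  · intro i _ hi
    exact Finset.sum_eq_zero fun l _ => h0 i l (fun h5 => hi h5.1)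

end ILt

open ILt in
theorem pr_Lt (hTn : StTn) : StLt := by
  intro V W l0 m0 _ hW y
  have hF := hTn.2.1 V W
  refine ⟨?_, ?_, ?_, ?_⟩
  · intro k v
    apply single V W hF y l0 v k (hW.ok.one l0)
    intro i l hil
    left
    by_contra h
    exact hil (to_l0 W l0 m0 hW i l h)
  · intro k v
    have hsum : ∀ i ∈ Finset.range (k + 1 + 1), i ≠ 0 ∧ i ≠ 1 →
        ∑ l, W.c i l m0 * V.e (k + 1 - i) (fun v' => y (l, v')) v = 0 := by
      intro i _ hi
      refine Finset.sum_eq_zero fun l _ => ?_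
      have : W.c i l m0 = 0 := by
        by_contra h
        rcases to_m0 W l0 m0 hW i l h with h1 | h1
        · exact hi.1 h1.1
        · exact hi.2 h1.1
      rw [this, zero_mul]
    rw [hF, Finset.sum_eq_add_of_mem 0 1 (Finset.mem_range.2 (by omega))
      (Finset.mem_range.2 (by omega)) (by norm_num) hsum,
      Finset.sum_eq_single_of_mem m0 (Finset.mem_univ m0),
      Finset.sum_eq_single_of_mem l0 (Finset.mem_univ l0), hW.ok.one, hW.cc, one_mul, one_mul,
      Nat.sub_zero, Nat.add_sub_cancel]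
    · intro l _ hl
      have : W.c 1 l m0 = 0 := by
        by_contra h
        rcases to_m0 W l0 m0 hW 1 l h with h1 | h1
        · exact one_ne_zero h1.1
        · exact hl h1.2
      rw [this, zero_mul]
    · intro l _ hl
      rw [hW.ok.ne l m0 hl, zero_mul]
  · intro y' hy' k m v hm1 hm2
    rw [hF, hF]
    refine Finset.sum_congr rfl fun i _ => Finset.sum_congr rfl fun l _ => ?_
    by_cases h1 : l = l0
    · rw [h1, l0_zero W l0 m0 hW m hm1 hm2 i, zero_mul, zero_mul]
    · by_cases h2 : l = m0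
      · rw [h2, m0_zero W l0 m0 hW m hm2 i, zero_mul, zero_mul]
      · have : (fun v' => y' (l, v')) = fun v' => y (l, v') := by
          funext v'
          exact hy' l v' h1 h2
        rw [this]
  · intro m hm hy k v
    have hm1 : m ≠ l0 := by
      intro h
      rw [h, hW.dl0] at hm
      omega
    have hm2 : m ≠ m0 := by
      intro h
      rw [h, hW.dm0] at hm
      omega
    apply single V W hF y m v k (hW.ok.one m)
    intro i l hil
    by_cases hc : W.c i l m = 0
    · exact Or.inl hc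
    · right
      have hd := hW.ok.deg i l m hc
      have hpos := hW.pos l
      have hi : i ≠ 0 := by
        intro h0
        subst h0
        by_cases hlm : l = m
        · exact hil ⟨rfl, hlm⟩
        · exact hc (hW.ok.ne l m hlm)
      have hl3 : 3 ≤ W.d l := by
        by_contra h3
        have h4 : W.d l = 1 ∨ W.d l = 2 := by omega
        rcases h4 with h4 | h4
        · have := hW.ul0 l h4
          subst this
          exact hc (l0_zero W l m0 hW m hm1 hm2 i)
        · have := hW.um0 l h4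
          subst this
          exact hc (m0_zero W l0 l hW m hm2 i)
      exact hy l hl3 (by omega)

end Pool.Agent.Work.MP_701abf_gt.TwT
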