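import Pool.Agent.Work.MP_701abf_gt.TwT.Stmts

/-!
# The two-thirds law: item Lw (the law, from the version with auxiliary factors)
-/

namespace Pool.Agent.Work.MP_701abf_gt.TwT

/-- Item Lw. -/
theorem pr_Lw (hTn : StTn) (hLp : StLp) : StLw := by
  intro P c m V h e k he hk a ha h2
  obtain ⟨-, -, h3, -, -, hone, -⟩ := hTn
  have key : (fun p : (Ex 0).I × V.I => a p.2) = 0 := by
    refine hLp P c m V h 0 e k (by omega) hk (fun p => a p.2) ?_ ?_
    · intro l hl
      have h4 := ha l.2 hl
      have h5 : (Sys.ten V (Ex 0)).d l = 0 + V.d l.2 := rfl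
      rw [h5, h4]
      omega
    · intro i hi
      funext p
      obtain ⟨u, v⟩ := p
      have h4 : (Sys.ten V Sys.one).e (2 ^ i) (fun p : Sys.one.I × V.I => a p.2) (u, v) =
          V.e (2 ^ i) (fun v' => a v') v :=
        h3 V Sys.one hone (fun p : Sys.one.I × V.I => a p.2) u
          (fun l hl => absurd hl (lt_irrefl 0)) (2 ^ i) v
      have h5 := congrFun (h2 i hi) v
      exact h4.trans h5
  funext v
  exact congrFun key ((), v)

end Pool.Agent.Work.MP_701abf_gt.TwT
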