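import Pool.Agent.Work.MP_701abf_gt.TwT.Stmts

/-!
# Item Mu: the operations of `Ex a` form a divided power algebra
-/

namespace Pool.Agent.Work.MP_701abf_gt.TwT

namespace IMu

theorem c_tf (i : ℕ) : E1.c i true false = 0 := by
  change (if (i = 0 ∧ true = false) ∨ (i = 1 ∧ true = false ∧ false = true) then (1 : ZMod 2)
    else 0) = 0
  simp

theorem c_ff (i : ℕ) : E1.c i false false = if i = 0 then 1 else 0 := by
  change (if (i = 0 ∧ false = false) ∨ (i = 1 ∧ false = false ∧ false = true) then (1 : ZMod 2)
    else 0) = _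
  simp

theorem c_tt (i : ℕ) : E1.c i true true = if i = 0 then 1 else 0 := by
  change (if (i = 0 ∧ true = true) ∨ (i = 1 ∧ true = false ∧ true = true) then (1 : ZMod 2)
    else 0) = _
  simp

theorem c_ft (i : ℕ) : E1.c i false true = if i = 1 then 1 else 0 := by
  change (if (i = 0 ∧ false = true) ∨ (i = 1 ∧ false = false ∧ true = true) then (1 : ZMod 2)
    else 0) = _
  simp

/-- the operation of `Sys.ten V E1` -/
noncomputable def TT (V : Sys) (n : ℕ) (y : Bool × V.I → ZMod 2) : Bool × V.I → ZMod 2 :=
  (Sys.ten V E1).e n y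

theorem e_ten (V : Sys) (n : ℕ) (y : Bool × V.I → ZMod 2) (b : Bool) (v : V.I) :
    TT V n y (b, v) =
      (∑ v' : V.I, y (true, v') *
        ∑ i ∈ Finset.range (n + 1), E1.c i true b * V.c (n - i) v' v) +
      ∑ v' : V.I, y (false, v') *
        ∑ i ∈ Finset.range (n + 1), E1.c i false b * V.c (n - i) v' v := by
  have h : TT V n y (b, v) = ∑ p : Bool × V.I, y p *
      ∑ i ∈ Finset.range (n + 1), E1.c i p.1 b * V.c (n - i) p.2 v := rfl
  rw [h, Fintype.sum_prod_type, Fintype.sum_bool]

theorem sum_zero (V : Sys) (n : ℕ) (v' v : V.I) :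
    ∑ i ∈ Finset.range (n + 1), (if i = 0 then (1 : ZMod 2) else 0) * V.c (n - i) v' v =
      V.c n v' v := by
  rw [Finset.sum_range_succ']
  simp

theorem e_false (V : Sys) (n : ℕ) (y : Bool × V.I → ZMod 2) (v : V.I) :
    TT V n y (false, v) = V.e n (fun v' => y (false, v')) v := by
  rw [e_ten, Sys.e_apply]
  simp only [c_tf, c_ff, sum_zero, zero_mul, Finset.sum_const_zero, mul_zero, zero_add]

theorem e_true_zero (V : Sys) (y : Bool × V.I → ZMod 2) (v : V.I) :
    TT V 0 y (true, v) = V.e 0 (fun v' => y (true, v')) v := by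
  rw [e_ten, Sys.e_apply]
  have h : ∀ v' : V.I, ∑ i ∈ Finset.range (0 + 1), (if i = 1 then (1 : ZMod 2) else 0) *
      V.c (0 - i) v' v = 0 := fun v' => by simp
  simp only [c_tt, c_ft, sum_zero, h, mul_zero, Finset.sum_const_zero, add_zero]

theorem sum_one (V : Sys) (n : ℕ) (v' v : V.I) :
    ∑ i ∈ Finset.range (n + 1 + 1), (if i = 1 then (1 : ZMod 2) else 0) * V.c (n + 1 - i) v' v =
      V.c n v' v := by
  rw [Finset.sum_range_succ', Finset.sum_range_succ']
  simp

theorem e_true_succ (V : Sys) (n : ℕ) (y : Bool × V.I → ZMod 2) (v : V.I) :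
    TT V (n + 1) y (true, v) =
      V.e (n + 1) (fun v' => y (true, v')) v + V.e n (fun v' => y (false, v')) v := by
  rw [e_ten, Sys.e_apply, Sys.e_apply]
  simp only [c_tt, c_ft, sum_zero, sum_one]

theorem TT_mul (V : Sys) (hV : V.Mul) (i j : ℕ) (y : Bool × V.I → ZMod 2) (b : Bool) (v : V.I) :
    TT V i (TT V j y) (b, v) = ((i + j).choose i : ZMod 2) * TT V (i + j) y (b, v) := by
  have hM : ∀ (i j : ℕ) (a : V.I → ZMod 2) (v : V.I), V.e i (V.e j a) v =
      ((i + j).choose i : ZMod 2) * V.e (i + j) a v := fun i j a v => congrFun (hV i j a) v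
  have hf : ∀ (n : ℕ) (z : Bool × V.I → ZMod 2),
      (fun v' => TT V n z (false, v')) = V.e n (fun v' => z (false, v')) :=
    fun n z => funext fun v' => e_false V n z v'
  have ht0 : ∀ (z : Bool × V.I → ZMod 2),
      (fun v' => TT V 0 z (true, v')) = V.e 0 (fun v' => z (true, v')) :=
    fun z => funext fun v' => e_true_zero V z v'
  have ht : ∀ (n : ℕ) (z : Bool × V.I → ZMod 2),
      (fun v' => TT V (n + 1) z (true, v')) =
        V.e (n + 1) (fun v' => z (true, v')) + V.e n (fun v' => z (false, v')) :=
    fun n z => funext fun v' => e_true_succ V n z v'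
  cases b with
  | false => rw [e_false, e_false, hf, hM]
  | true =>
    cases i with
    | zero =>
      rw [e_true_zero]
      cases j with
      | zero => rw [ht0, e_true_zero, hM]
      | succ j =>
        rw [ht, map_add, Pi.add_apply, hM, hM]
        have e1 : 0 + (j + 1) = j + 1 := by omega
        have e2 : 0 + j = j := by omega
        rw [e1, e2, e_true_succ, Nat.choose_zero_right, Nat.choose_zero_right]
        push_cast
        ring
    | succ i =>
      rw [e_true_succ, hf]
      cases j with
      | zero =>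
        rw [ht0, hM, hM]
        have e1 : i + 1 + 0 = i + 1 := by omega
        have e2 : i + 0 = i := by omega
        rw [e1, e2, e_true_succ, Nat.choose_self, Nat.choose_self]
        push_cast
        ring
      | succ j =>
        rw [ht, map_add, Pi.add_apply, hM, hM, hM]
        have e1 : i + 1 + (j + 1) = (i + j + 1) + 1 := by omega
        have e2 : i + 1 + j = i + j + 1 := by omega
        have e3 : i + (j + 1) = i + j + 1 := by omega
        rw [e1, e2, e3, e_true_succ, Nat.choose_succ_succ (i + j + 1) i]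
        push_cast
        ring

end IMu

theorem pr_Mu : StMu := by
  intro a
  induction a with
  | zero =>
    intro i j y
    funext m
    have h : ∀ (k : ℕ) (z : Unit → ZMod 2) (u : Unit),
        Sys.one.e k z u = z () * (if k = 0 then 1 else 0) := by
      intro k z u
      have h1 : Sys.one.e k z u = ∑ l : Unit, z l * (if k = 0 then (1 : ZMod 2) else 0) := rfl
      rw [h1, Fintype.sum_unique]
    change Sys.one.e i (Sys.one.e j y) m = ((i + j).choose i : ZMod 2) * Sys.one.e (i + j) y m
    rw [h, h, h]
    by_cases hi : i = 0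
    · by_cases hj : j = 0
      · subst hi hj
        simp
      · have h2 : i + j ≠ 0 := by omega
        rw [if_neg hj, if_neg h2]
        simp
    · have h2 : i + j ≠ 0 := by omega
      rw [if_neg hi, if_neg h2]
      simp
  | succ a ih =>
    intro i j y
    funext p
    exact IMu.TT_mul (Ex a) ih i j y p.1 p.2

end Pool.Agent.Work.MP_701abf_gt.TwT
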