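import Pool.Agent.Work.MP_701abf_gt.TwT.Stmts

/-! The two-thirds law, item Ob: product with the unit. -/

open MvPolynomial
open Pool.Agent.Work.MP_701abf_gt.Stab Pool.Agent.Work.MP_701abf_gt.Cob
open Pool.Agent.Work.MP_701abf_gt.Sq2

namespace Pool.Agent.Work.MP_701abf_gt.TwT

namespace IOb

lemma sum_ob {M : Type*} [AddCommMonoid M] (W : Sys) (f : (Sys.ten Sys.one W).I → M) :
    ∑ p, f p = ∑ l : W.I, f (l, ()) := by
  refine (Fintype.sum_prod_type (α₁ := W.I) (α₂ := Unit) f).trans ?_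
  exact Finset.sum_congr rfl fun l _ => Fintype.sum_unique (fun u : Unit => f (l, u))

lemma c_ob (W : Sys) (k : ℕ) (l m : W.I) :
    (Sys.ten Sys.one W).c k (l, ()) (m, ()) = W.c k l m := by
  change ∑ i ∈ Finset.range (k + 1), W.c i l m * (if k - i = 0 then 1 else 0) = _
  rw [Finset.sum_eq_single k]
  · rw [Nat.sub_self, if_pos rfl, mul_one]
  · intro i hi hik
    have := Finset.mem_range.1 hi
    rw [if_neg (by omega), mul_zero]
  · intro h
    exact absurd (Finset.mem_range.2 (Nat.lt_succ_self k)) h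

lemma d_ob (W : Sys) (l : W.I) : (Sys.ten Sys.one W).d (l, ()) = W.d l := rfl

end IOb

open IOb

theorem pr_Ob : StOb := by
  intro q n T W w h
  refine ⟨?_, ?_, ?_, ?_⟩
  · rintro ⟨l, ⟨⟩⟩
    rw [d_ob]
    exact h.w_mem l
  · rintro k ⟨l, ⟨⟩⟩ hk
    rw [d_ob] at hk ⊢
    rw [sum_ob]
    simp only [c_ob]
    exact h.c_w k l hk
  · intro s hs x hx
    obtain ⟨a, ha, h1⟩ := h.span s hs x hx
    refine ⟨fun p => a p.1, ?_, ?_⟩
    · rintro ⟨l, ⟨⟩⟩ hl
      rw [d_ob]
      exact ha l hl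
    · rw [sum_ob]
      exact h1
  · intro s hs a ha h1
    rw [sum_ob] at h1
    have h2 := h.indep s hs (fun l => a (l, ())) (fun l hl => ha (l, ()) hl) h1
    funext p
    obtain ⟨l, ⟨⟩⟩ := p
    exact congrFun h2 l

end Pool.Agent.Work.MP_701abf_gt.TwT
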