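import Pool.Agent.Work.MP_701abf_gt.TwT.Stmts

/-!
# The two-thirds law, half A: item Ok
-/

open MvPolynomial
open Pool.Agent.Work.MP_701abf_gt.Stab Pool.Agent.Work.MP_701abf_gt.Cob
open Pool.Agent.Work.MP_701abf_gt.Sq2

namespace Pool.Agent.Work.MP_701abf_gt.TwT

namespace IOk

theorem cE1 (k : ℕ) (l m : Bool) : E1.c k l m =
    if (k = 0 ∧ l = m) ∨ (k = 1 ∧ l = false ∧ m = true) then 1 else 0 := rfl

theorem dE1 (b : Bool) : E1.d b = if b then 2 else 1 := rfl

theorem deg (k : ℕ) (l m : Bool) (h : E1.c k l m ≠ 0) : E1.d m = E1.d l + k := by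
  have h' : (k = 0 ∧ l = m) ∨ (k = 1 ∧ l = false ∧ m = true) := by
    by_contra hc
    exact h ((cE1 k l m).trans (if_neg hc))
  rcases h' with ⟨rfl, rfl⟩ | ⟨rfl, rfl, rfl⟩
  · rfl
  · rfl

theorem one (l : Bool) : E1.c 0 l l = 1 := (cE1 0 l l).trans (if_pos (Or.inl ⟨rfl, rfl⟩))

theorem ne (l m : Bool) (h : l ≠ m) : E1.c 0 l m = 0 := by
  refine (cE1 0 l m).trans (if_neg ?_)
  rintro (⟨_, h2⟩ | ⟨h1, _⟩)
  · exact h h2
  · exact absurd h1 (by norm_num)

theorem pos (l : Bool) : 1 ≤ E1.d l := by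
  rw [dE1]
  cases l <;> simp

theorem ul (l : Bool) (h : E1.d l = 1) : l = false := by
  rw [dE1] at h
  cases l with
  | false => rfl
  | true => simp at h

theorem um (l : Bool) (h : E1.d l = 2) : l = true := by
  rw [dE1] at h
  cases l with
  | false => simp at h
  | true => rfl

theorem l0c (k : ℕ) (m : Bool) (hk : 2 ≤ k) : E1.c k false m = 0 := by
  refine (cE1 k false m).trans (if_neg ?_)
  rintro (⟨h2, _⟩ | ⟨h1, _⟩) <;> omega

theorem m0c (k : ℕ) (m : Bool) (hk : 1 ≤ k) : E1.c k true m = 0 := by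
  refine (cE1 k true m).trans (if_neg ?_)
  rintro (⟨h2, _⟩ | ⟨_, h1, _⟩)
  · omega
  · exact Bool.noConfusion h1

theorem e1let : E1.Let false true where
  ok := ⟨deg, one, ne⟩
  pos := pos
  dl0 := rfl
  ul0 := ul
  dm0 := rfl
  um0 := um
  cc := (cE1 1 false true).trans (if_pos (Or.inr ⟨rfl, rfl, rfl⟩))
  l0c := l0c
  m0c := m0c

end IOk

theorem pr_Ok (hTn : StTn) : StOk := by
  refine ⟨?_, IOk.e1let, ?_⟩
  · intro P c m V h
    induction h with
    | one => exact ⟨hTn.2.2.2.2.2.1, fun _ => le_refl _⟩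
    | sg W l0 m0 hP hW h ih =>
      refine ⟨hTn.1 _ _ ih.1 hW.ok, ?_⟩
      rintro ⟨w, v⟩
      have h1 := hW.pos w
      have h2 := ih.2 v
      change _ ≤ W.d w + Sys.d _ v
      omega
    | cl W hP hW h ih =>
      refine ⟨hTn.1 _ _ ih.1 hW.ok, ?_⟩
      rintro ⟨w, v⟩
      have h1 := hW.two w
      have h2 := ih.2 v
      change _ ≤ W.d w + Sys.d _ v
      omega
  · intro a
    induction a with
    | zero => exact TP.one
    | succ a ih => exact TP.sg E1 false true trivial IOk.e1let ih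

end Pool.Agent.Work.MP_701abf_gt.TwT
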