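import Pool.Agent.Work.MP_701abf_gt.TwT.Stmts
import Pool.Agent.Work.MP_701abf_gt.FL.Comm

/-!
# The two-thirds law, half A, item Re: relations between the classes of the powers of two
-/

open MvPolynomial
open Pool.Agent.Work.MP_701abf_gt.Stab Pool.Agent.Work.MP_701abf_gt.Cob
open Pool.Agent.Work.MP_701abf_gt.Sq2

namespace Pool.Agent.Work.MP_701abf_gt.TwT

namespace IRe

theorem ha_succ (a : ℕ) : ha (a + 1) = ha a ^ 2 := by
  unfold ha
  rw [pow_succ, pow_mul]

end IRe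

theorem pr_Re : StRe := by
  refine ⟨fun a => ⟨?_, ?_⟩, fun a b => ?_⟩
  · rw [IRe.ha_succ, mul_comm (3 : ℤ)]
    exact cons1 a
  · rw [IRe.ha_succ, mul_comm (3 : ℤ)]
    exact cons2 a
  · exact FL.pr_Comm 1 a (2 ^ b) (ha b) (ha_ZR b)

end Pool.Agent.Work.MP_701abf_gt.TwT
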