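import Pool.Agent.Work.MP_701abf_gt.TwT.Stmts

/-!
# The two-thirds law, half A, item Su: finite sums
-/

open MvPolynomial
open Pool.Agent.Work.MP_701abf_gt.Stab Pool.Agent.Work.MP_701abf_gt.Cob
open Pool.Agent.Work.MP_701abf_gt.Sq2

namespace Pool.Agent.Work.MP_701abf_gt.TwT

namespace ISu

lemma qzero {q : ℕ → ℕ → RR Empty → RR Empty} (hq : Ops q) (n s : ℕ) (t : ℤ) :
    q n s 0 ∈ BR (s + n) (2 * t) := hq.br n s t 0 (Submodule.zero_mem _)

lemma qsum {q : ℕ → ℕ → RR Empty → RR Empty} (hq : Ops q) (n s : ℕ) (t : ℤ) {α : Type}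
    (A : Finset α) (g : α → RR Empty) (hg : ∀ i ∈ A, g i ∈ ZR s t) :
    q n s (∑ i ∈ A, g i) + ∑ i ∈ A, q n s (g i) ∈ BR (s + n) (2 * t) := by
  classical
  induction A using Finset.induction_on with
  | empty =>
    rw [Finset.sum_empty, Finset.sum_empty, add_zero]
    exact qzero hq n s t
  | @insert a S ha ih =>
    have ih' := ih fun b hb => hg b (Finset.mem_insert_of_mem hb)
    have h1 := hq.add n s t (g a) (hg a (Finset.mem_insert_self _ _)) (∑ b ∈ S, g b)
      (Submodule.sum_mem _ fun b hb => hg b (Finset.mem_insert_of_mem hb))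
    rw [Finset.sum_insert ha, Finset.sum_insert ha]
    have h2 := Submodule.add_mem _ h1 ih'
    have h3 := add_self2 (q n s (∑ b ∈ S, g b))
    have e : q n s (g a + ∑ b ∈ S, g b) + (q n s (g a) + q n s (∑ b ∈ S, g b)) +
        (q n s (∑ b ∈ S, g b) + ∑ b ∈ S, q n s (g b)) =
        q n s (g a + ∑ b ∈ S, g b) + (q n s (g a) + ∑ b ∈ S, q n s (g b)) := by
      calc _ = q n s (g a + ∑ b ∈ S, g b) + (q n s (g a) + ∑ b ∈ S, q n s (g b)) +
            (q n s (∑ b ∈ S, g b) + q n s (∑ b ∈ S, g b)) := by abel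
        _ = _ := by rw [h3, add_zero]
    rwa [e] at h2

end ISu

/-- Su. -/
theorem pr_Su : StSu := by
  intro q hq n s t
  refine ⟨fun α A g hg => ISu.qsum hq n s t A g hg, ?_, ?_⟩
  · intro x hx y hy hxy
    have h1 := hq.add n s t x hx (x + y) (Submodule.add_mem _ hx hy)
    have h2 := hq.br n s t _ hxy
    have e : x + (x + y) = y := by rw [← add_assoc, add_self2, zero_add]
    rw [e] at h1
    have h3 := Submodule.add_mem _ h1 h2
    rwa [add_assoc, add_assoc, add_self2, add_zero, add_comm (q n s y)] at h3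
  · intro c x hx
    have hc : c = 0 ∨ c = 1 := by revert c; decide
    rcases hc with rfl | rfl
    · rw [zero_smul, zero_smul, add_zero]
      exact ISu.qzero hq n s t
    · rw [one_smul, one_smul, add_self2]
      exact Submodule.zero_mem _

end Pool.Agent.Work.MP_701abf_gt.TwT
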