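import Pool.Agent.Work.MP_701abf_gt.TwT.Stmts

/-!
Block TwT (MP_701abf_gt), item Sw: three factors.
-/

namespace Pool.Agent.Work.MP_701abf_gt.TwT

namespace ISw

theorem exch (n : ℕ) (F : ℕ → ℕ → ZMod 2) :
    ∑ j ∈ Finset.range (n + 1), ∑ i ∈ Finset.range (n - j + 1), F j i =
      ∑ i ∈ Finset.range (n + 1), ∑ j ∈ Finset.range (n - i + 1), F j i := by
  refine Finset.sum_comm' ?_
  intro x y
  simp only [Finset.mem_range]
  omega

theorem exch' (n : ℕ) (f g h : ℕ → ZMod 2) :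
    ∑ j ∈ Finset.range (n + 1), f j * ∑ i ∈ Finset.range (n - j + 1), g i * h (n - j - i) =
      ∑ i ∈ Finset.range (n + 1), g i * ∑ j ∈ Finset.range (n - i + 1), f j * h (n - i - j) := by
  simp only [Finset.mul_sum]
  rw [exch n fun j i => f j * (g i * h (n - j - i))]
  refine Finset.sum_congr rfl fun i _ => Finset.sum_congr rfl fun j _ => ?_
  rw [Nat.sub_right_comm n j i]
  ring

theorem four {α β γ : Type} [Fintype α] [Fintype β] [Fintype γ] (s : Finset ℕ)
    (T : α → β → γ → ℕ → ZMod 2) :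
    ∑ i ∈ s, ∑ l : β, ∑ S : α, ∑ v : γ, T S l v i = ∑ S : α, ∑ l : β, ∑ v : γ, ∑ i ∈ s, T S l v i := by
  rw [Finset.sum_comm]
  rw [Finset.sum_comm (s := (Finset.univ : Finset α))]
  refine Finset.sum_congr rfl fun l _ => ?_
  rw [Finset.sum_comm]
  refine Finset.sum_congr rfl fun S _ => ?_
  rw [Finset.sum_comm]

theorem assoc (n : ℕ) (g f h : ℕ → ZMod 2) :
    ∑ k ∈ Finset.range (n + 1), (∑ i ∈ Finset.range (k + 1), g i * f (k - i)) * h (n - k) =
      ∑ i ∈ Finset.range (n + 1), g i * ∑ j ∈ Finset.range (n - i + 1), f j * h (n - i - j) := by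
  have h1 : ∑ k ∈ Finset.range (n + 1), (∑ i ∈ Finset.range (k + 1), g i * f (k - i)) * h (n - k) =
      ∑ k ∈ Finset.range (n + 1), ∑ i ∈ Finset.range (k + 1), g i * (f (k - i) * h (n - k)) := by
    refine Finset.sum_congr rfl fun k _ => ?_
    rw [Finset.sum_mul]
    exact Finset.sum_congr rfl fun i _ => by ring
  rw [h1, Finset.sum_comm' (t' := Finset.range (n + 1)) (s' := fun i => Finset.Ico i (n + 1))
    (by intro x y; simp only [Finset.mem_range, Finset.mem_Ico]; omega)]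
  refine Finset.sum_congr rfl fun i hi => ?_
  rw [Finset.mul_sum, Finset.sum_Ico_eq_sum_range]
  have hi' := Finset.mem_range.1 hi
  rw [show n + 1 - i = n - i + 1 by omega]
  refine Finset.sum_congr rfl fun j _ => ?_
  rw [show i + j - i = j by omega, show n - (i + j) = n - i - j by omega]

theorem fst (U V W : Sys) (n : ℕ) (y : U.I × (W.I × V.I) → ZMod 2) (S : U.I) (m : W.I) (v : V.I) :
    (Sys.ten (Sys.ten V W) U).e n y (S, (m, v)) = ∑ i ∈ Finset.range (n + 1), ∑ l, W.c i l m *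
      (Sys.ten V U).e (n - i) (fun p => y (p.1, (l, p.2))) (S, v) := by
  set T : U.I → W.I → V.I → ℕ → ZMod 2 := fun S' l v' i =>
    y (S', (l, v')) * (W.c i l m * ∑ j ∈ Finset.range (n - i + 1), U.c j S' S *
      V.c (n - i - j) v' v) with hT
  have h1 : (Sys.ten (Sys.ten V W) U).e n y (S, (m, v)) =
      ∑ p : U.I × (W.I × V.I), y p * ∑ j ∈ Finset.range (n + 1), U.c j p.1 S *
        ∑ i ∈ Finset.range (n - j + 1), W.c i p.2.1 m * V.c (n - j - i) p.2.2 v := rfl
  have h2 : ∀ (i : ℕ) (l : W.I), (Sys.ten V U).e (n - i) (fun p => y (p.1, (l, p.2))) (S, v) =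
      ∑ p : U.I × V.I, y (p.1, (l, p.2)) * ∑ j ∈ Finset.range (n - i + 1), U.c j p.1 S *
        V.c (n - i - j) p.2 v := fun i l => rfl
  have h3 : (Sys.ten (Sys.ten V W) U).e n y (S, (m, v)) =
      ∑ S' : U.I, ∑ l : W.I, ∑ v' : V.I, ∑ i ∈ Finset.range (n + 1), T S' l v' i := by
    rw [h1, Fintype.sum_prod_type]
    refine Finset.sum_congr rfl fun S' _ => ?_
    rw [Fintype.sum_prod_type]
    refine Finset.sum_congr rfl fun l _ => Finset.sum_congr rfl fun v' _ => ?_
    rw [hT, ← Finset.mul_sum]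
    exact congrArg (y (S', (l, v')) * ·) (exch' n (fun j => U.c j S' S) (fun i => W.c i l m)
      (fun k => V.c k v' v))
  rw [h3, ← four]
  refine Finset.sum_congr rfl fun i _ => Finset.sum_congr rfl fun l _ => ?_
  rw [h2, Fintype.sum_prod_type, Finset.mul_sum]
  refine Finset.sum_congr rfl fun S' _ => ?_
  rw [Finset.mul_sum]
  refine Finset.sum_congr rfl fun v' _ => ?_
  rw [hT]
  ring

theorem snd (U V W : Sys) (n : ℕ) (y : (W.I × U.I) × V.I → ZMod 2) (S : U.I) (m : W.I) (v : V.I) :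
    (Sys.ten V (Sys.ten U W)).e n y ((m, S), v) = ∑ i ∈ Finset.range (n + 1), ∑ l, W.c i l m *
      (Sys.ten V U).e (n - i) (fun p => y ((l, p.1), p.2)) (S, v) := by
  set T : U.I → W.I → V.I → ℕ → ZMod 2 := fun S' l v' i =>
    y ((l, S'), v') * (W.c i l m * ∑ j ∈ Finset.range (n - i + 1), U.c j S' S *
      V.c (n - i - j) v' v) with hT
  have h1 : (Sys.ten V (Sys.ten U W)).e n y ((m, S), v) =
      ∑ p : (W.I × U.I) × V.I, y p * ∑ k ∈ Finset.range (n + 1),
        (∑ i ∈ Finset.range (k + 1), W.c i p.1.1 m * U.c (k - i) p.1.2 S) *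
          V.c (n - k) p.2 v := rfl
  have h2 : ∀ (i : ℕ) (l : W.I), (Sys.ten V U).e (n - i) (fun p => y ((l, p.1), p.2)) (S, v) =
      ∑ p : U.I × V.I, y ((l, p.1), p.2) * ∑ j ∈ Finset.range (n - i + 1), U.c j p.1 S *
        V.c (n - i - j) p.2 v := fun i l => rfl
  have h3 : (Sys.ten V (Sys.ten U W)).e n y ((m, S), v) =
      ∑ S' : U.I, ∑ l : W.I, ∑ v' : V.I, ∑ i ∈ Finset.range (n + 1), T S' l v' i := by
    rw [h1, Fintype.sum_prod_type, Fintype.sum_prod_type, Finset.sum_comm]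
    refine Finset.sum_congr rfl fun S' _ => Finset.sum_congr rfl fun l _ =>
      Finset.sum_congr rfl fun v' _ => ?_
    rw [hT, ← Finset.mul_sum]
    exact congrArg (y ((l, S'), v') * ·) (assoc n (fun i => W.c i l m) (fun j => U.c j S' S)
      (fun k => V.c k v' v))
  rw [h3, ← four]
  refine Finset.sum_congr rfl fun i _ => Finset.sum_congr rfl fun l _ => ?_
  rw [h2, Fintype.sum_prod_type, Finset.mul_sum]
  refine Finset.sum_congr rfl fun S' _ => ?_
  rw [Finset.mul_sum]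
  refine Finset.sum_congr rfl fun v' _ => ?_
  rw [hT]
  ring

end ISw

theorem pr_Sw : StSw := ⟨ISw.fst, ISw.snd⟩

end Pool.Agent.Work.MP_701abf_gt.TwT
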