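import Pool.Agent.Work.MP_701abf_gt.TwT.Stmts

/-!
# The two-thirds law, half A, item Tb: the basis of the product
-/

open MvPolynomial
open Pool.Agent.Work.MP_701abf_gt.Stab Pool.Agent.Work.MP_701abf_gt.Cob
open Pool.Agent.Work.MP_701abf_gt.Sq2

namespace Pool.Agent.Work.MP_701abf_gt.TwT

namespace ITb

lemma trn {s : ℕ} {t : ℤ} {x y z : RR Empty} (h1 : x + y ∈ BR s t) (h2 : y + z ∈ BR s t) :
    x + z ∈ BR s t := by
  have h3 := Submodule.add_mem _ h1 h2
  have e : x + y + (y + z) = x + z := by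
    have h4 := add_self2 y
    calc x + y + (y + z) = x + z + (y + y) := by abel
      _ = _ := by rw [h4, add_zero]
  rwa [e] at h3

/-- A sum with coefficients of cocycles of the right degree. -/
lemma sum_ZR {I : Type} [Fintype I] {s : ℕ} {t : ℤ} (a : I → ZMod 2) (x : I → RR Empty)
    (h : ∀ l, a l ≠ 0 → x l ∈ ZR s t) : ∑ l, a l • x l ∈ ZR s t := by
  refine Submodule.sum_mem _ fun l _ => ?_
  by_cases h0 : a l = 0
  · rw [h0, zero_smul]
    exact Submodule.zero_mem _
  · exact Submodule.smul_mem _ _ (h l h0)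

/-- The product of two relations. -/
lemma mulrel {i j s : ℕ} (h : i + j = s) {a b : ℤ} {A A' B B' : RR Empty}
    (hB : B ∈ ZR i a) (hBB : B + B' ∈ BR i a) (hA' : A' ∈ ZR j b) (hAA : A + A' ∈ BR j b) :
    A * sh j B + A' * sh j B' ∈ BR s (a + b) := by
  have h1 := mul_BR_right' h hB hAA
  have h2 := mul_BR_left' h hBB hA'
  have h3 := Submodule.add_mem _ h1 h2
  have e : (A + A') * sh j B + A' * sh j (B + B') = A * sh j B + A' * sh j B' := by
    have h4 := add_self2 (A' * sh j B)
    rw [map_add]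
    calc (A + A') * sh j B + A' * (sh j B + sh j B') =
        A * sh j B + A' * sh j B' + (A' * sh j B + A' * sh j B) := by ring
      _ = _ := by rw [h4, add_zero]
  rwa [e] at h3

end ITb

open ITb in
/-- Tb. -/
theorem pr_Tb : StTb := by
  intro q hq n N M V W v w hVok hWok hV hW hKU
  refine ⟨?_, ?_, ?_, ?_⟩
  · rintro ⟨l, l'⟩
    exact mul_ZR' (add_comm _ _) (hV.w_mem l') (hW.w_mem l)
  · rintro k ⟨l, l'⟩ hk
    have hk' : W.d l + V.d l' + k ≤ n := hk
    have h1 := hq.mul k (V.d l') (W.d l) N M (v l') (hV.w_mem l') (w l) (hW.w_mem l)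
    have hdeg : V.d l' + W.d l = (Sys.ten V W).d (l, l') := add_comm _ _
    have hT : 2 * (N + M) = 2 * N + 2 * M := by ring
    rw [hdeg] at h1
    refine trn h1 ?_
    have h2 : ∑ p : W.I × V.I, (Sys.ten V W).c k (l, l') p • (w p.1 * sh (W.d p.1) (v p.2)) ^ 2 =
        ∑ i ∈ Finset.range (k + 1), (∑ m, W.c i l m • w m ^ 2) *
          sh (W.d l + i) (∑ m', V.c (k - i) l' m' • v m' ^ 2) := by
      have h3 : ∀ i, (∑ m, W.c i l m • w m ^ 2) *
          sh (W.d l + i) (∑ m', V.c (k - i) l' m' • v m' ^ 2) =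
          ∑ p : W.I × V.I, (W.c i l p.1 * V.c (k - i) l' p.2) •
            (w p.1 * sh (W.d p.1) (v p.2)) ^ 2 := by
        intro i
        rw [map_sum, Finset.sum_mul_sum, ← Finset.univ_product_univ, Finset.sum_product]
        refine Finset.sum_congr rfl fun m _ => Finset.sum_congr rfl fun m' _ => ?_
        by_cases h0 : W.c i l m = 0
        · rw [h0, zero_smul, zero_mul, zero_mul, zero_smul]
        · rw [hWok.deg i l m h0, map_smul, map_pow, mul_pow, smul_mul_smul_comm]
      simp only [h3]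
      rw [Finset.sum_comm]
      refine Finset.sum_congr rfl fun p _ => ?_
      rw [← Finset.sum_smul]
      rfl
    suffices hh : (∑ i ∈ Finset.range (k + 1), q i (W.d l) (w l) *
        sh (W.d l + i) (q (k - i) (V.d l') (v l'))) +
        ∑ i ∈ Finset.range (k + 1), (∑ m, W.c i l m • w m ^ 2) *
          sh (W.d l + i) (∑ m', V.c (k - i) l' m' • v m' ^ 2) ∈
        BR (W.d l + V.d l' + k) (2 * (N + M)) by
      rw [← h2] at hh
      exact hh
    rw [← Finset.sum_add_distrib]
    refine Submodule.sum_mem _ fun i hi => ?_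
    have hi' : i ≤ k := Nat.lt_succ_iff.1 (Finset.mem_range.1 hi)
    have hA := hW.c_w i l (by omega)
    have hB := hV.c_w (k - i) l' (by omega)
    have hBz := hq.zr (k - i) (V.d l') N (v l') (hV.w_mem l')
    have hA' : ∑ m, W.c i l m • w m ^ 2 ∈ ZR (W.d l + i) (2 * M) := by
      refine sum_ZR _ _ fun m hm => ?_
      rw [← hWok.deg i l m hm]
      exact sq_ZR (hW.w_mem m)
    rw [hT]
    refine mulrel ?_ hBz hB hA' hA
    omega
  · intro s hs x hx
    obtain ⟨u, hu1, hu2, hu3⟩ := hKU.surj s hs x hx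
    have hex : ∀ l : W.I, ∃ a : V.I → ZMod 2, (W.d l ≤ s → V.Dg (s - W.d l) a ∧
        u l + ∑ l', a l' • v l' ∈ BR (s - W.d l) N) ∧ (s < W.d l → a = 0) := by
      intro l
      by_cases h : W.d l ≤ s
      · obtain ⟨a, ha1, ha2⟩ := hV.span (s - W.d l) (by omega) (u l) (hu1 l h)
        exact ⟨a, fun _ => ⟨ha1, ha2⟩, fun h' => absurd h (by omega)⟩
      · exact ⟨0, fun h' => absurd h' h, fun _ => rfl⟩
    choose a ha using hex
    refine ⟨fun p => a p.1 p.2, ?_, ?_⟩
    · rintro ⟨l, l'⟩ hne
      have h1 : a l l' ≠ 0 := hne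
      show W.d l + V.d l' = s
      by_cases h : W.d l ≤ s
      · have h2 := ((ha l).1 h).1 l' h1
        omega
      · have h3 := (ha l).2 (by omega)
        rw [h3] at h1
        exact absurd rfl h1
    · have h1 : ∑ p : W.I × V.I, a p.1 p.2 • (w p.1 * sh (W.d p.1) (v p.2)) =
          ∑ l, w l * sh (W.d l) (∑ l', a l l' • v l') := by
        rw [← Finset.univ_product_univ, Finset.sum_product]
        refine Finset.sum_congr rfl fun l _ => ?_
        rw [map_sum, Finset.mul_sum]
        refine Finset.sum_congr rfl fun l' _ => ?_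
        rw [map_smul, mul_smul_comm]
      show x + ∑ p : W.I × V.I, a p.1 p.2 • (w p.1 * sh (W.d p.1) (v p.2)) ∈ BR s (N + M)
      rw [h1]
      refine trn hu3 ?_
      rw [← Finset.sum_add_distrib]
      refine Submodule.sum_mem _ fun l _ => ?_
      rw [← mul_add, ← map_add]
      by_cases h : W.d l ≤ s
      · exact mul_BR_left' (by omega) ((ha l).1 h).2 (hW.w_mem l)
      · rw [hu2 l (by omega), (ha l).2 (by omega)]
        simp only [Pi.zero_apply, zero_smul, Finset.sum_const_zero, add_zero, map_zero, mul_zero]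
        exact Submodule.zero_mem _
  · intro s hs a ha hsum
    have h1 : ∑ p : W.I × V.I, a p • (w p.1 * sh (W.d p.1) (v p.2)) ^ 2 =
        ∑ l, w l ^ 2 * sh (W.d l) (∑ l', a (l, l') • v l' ^ 2) := by
      rw [← Finset.univ_product_univ, Finset.sum_product]
      refine Finset.sum_congr rfl fun l _ => ?_
      rw [map_sum, Finset.mul_sum]
      refine Finset.sum_congr rfl fun l' _ => ?_
      rw [map_smul, mul_smul_comm, mul_pow, map_pow]
    have hdg : ∀ l l', a (l, l') ≠ 0 → W.d l + V.d l' = s := fun l l' h => ha (l, l') h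
    have h2 : ∑ l, w l ^ 2 * sh (W.d l) (∑ l', a (l, l') • v l' ^ 2) ∈ BR s (2 * N + 2 * M) := by
      have hT : 2 * N + 2 * M = 2 * (N + M) := by ring
      rw [← h1, hT]
      exact hsum
    have h3 := hKU.inj s hs (fun l => ∑ l', a (l, l') • v l' ^ 2)
      (fun l hl => sum_ZR _ _ fun l' hne => by
        have h4 := hdg l l' hne
        have h5 : s - W.d l = V.d l' := by omega
        rw [h5]
        exact sq_ZR (hV.w_mem l'))
      (fun l hl => Finset.sum_eq_zero fun l' _ => by
        have h4 : a (l, l') = 0 := by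
          by_contra hne
          have := hdg l l' hne
          omega
        rw [h4, zero_smul]) h2
    funext p
    obtain ⟨l, l'⟩ := p
    by_contra hne
    have hne' : a (l, l') ≠ 0 := hne
    have h4 := hdg l l' hne'
    have h5 := hV.indep (s - W.d l) (by omega) (fun l' => a (l, l')) (fun m hm => by
      have := hdg l m hm
      omega) (h3 l (by omega))
    exact hne' (congrFun h5 l')

end Pool.Agent.Work.MP_701abf_gt.TwT
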