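import Pool.Agent.Work.MP_701abf_gt.TwT.Stmts

/-!
# The two-thirds law, half A, item Tr: transfer
-/

open MvPolynomial
open Pool.Agent.Work.MP_701abf_gt.Stab Pool.Agent.Work.MP_701abf_gt.Cob
open Pool.Agent.Work.MP_701abf_gt.Sq2

namespace Pool.Agent.Work.MP_701abf_gt.TwT

namespace ITr

lemma tr {s : ℕ} {t : ℤ} {x y z : RR Empty} (h1 : x + y ∈ BR s t) (h2 : y + z ∈ BR s t) :
    x + z ∈ BR s t := by
  have h3 := Submodule.add_mem _ h1 h2
  have e : x + y + (y + z) = x + z := by
    have h4 := add_self2 y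
    calc x + y + (y + z) = x + z + (y + y) := by abel
      _ = _ := by rw [h4, add_zero]
  rwa [e] at h3

lemma iff_of {s : ℕ} {t : ℤ} {x y : RR Empty} (h : x + y ∈ BR s t) :
    x ∈ BR s t ↔ y ∈ BR s t := by
  constructor
  · intro hx
    have h1 := Submodule.add_mem _ hx h
    rwa [← add_assoc, add_self2, zero_add] at h1
  · intro hy
    have h1 := Submodule.add_mem _ h hy
    rwa [add_assoc, add_self2, add_zero] at h1

lemma sum_smul_sq {I : Type} (S : Finset I) (a : I → ZMod 2) (w : I → RR Empty) :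
    (∑ l ∈ S, a l • w l) ^ 2 = ∑ l ∈ S, a l • w l ^ 2 := by
  rw [sum_sq]
  exact Finset.sum_congr rfl fun l _ => smul_sq _ _

end ITr

/-- Tr. -/
theorem pr_Tr (hSu : StSu) : StTr := by
  intro q hq n T V w hok hB s hs x hx a ha hxa
  have key : ∀ s' ≤ n, ∀ b : V.I → ZMod 2, V.Dg s' b →
      (∑ l, b l • w l ^ 2 ∈ BR s' (2 * T) ↔ b = 0) := by
    intro s' hs' b hb
    constructor
    · exact fun h => hB.indep s' hs' b hb h
    · rintro rfl
      simp only [Pi.zero_apply, zero_smul, Finset.sum_const_zero]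
      exact Submodule.zero_mem _
  have hmem : ∀ l, a l • w l ∈ ZR s T := by
    intro l
    by_cases h0 : a l = 0
    · rw [h0, zero_smul]
      exact Submodule.zero_mem _
    · have h1 := hB.w_mem l
      rw [ha l h0] at h1
      exact Submodule.smul_mem _ _ h1
  have hsum : ∑ l, a l • w l ∈ ZR s T := Submodule.sum_mem _ fun l _ => hmem l
  refine ⟨?_, ?_⟩
  · rw [ITr.iff_of hxa]
    constructor
    · intro h
      have h1 := sq_BR h
      rw [ITr.sum_smul_sq] at h1
      exact (key s hs a ha).1 h1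
    · rintro rfl
      simp only [Pi.zero_apply, zero_smul, Finset.sum_const_zero]
      exact Submodule.zero_mem _
  · intro k hk
    obtain ⟨u1, u2, u3⟩ := hSu q hq k s T
    have h1 := u2 x hx _ hsum hxa
    have h2 := u1 V.I Finset.univ (fun l => a l • w l) fun l _ => hmem l
    have h3 : ∑ l, q k s (a l • w l) + ∑ l, a l • ∑ m, V.c k l m • w m ^ 2 ∈
        BR (s + k) (2 * T) := by
      rw [← Finset.sum_add_distrib]
      refine Submodule.sum_mem _ fun l _ => ?_
      by_cases h0 : a l = 0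
      · rw [h0, zero_smul, zero_smul, add_zero]
        exact hq.br k s T 0 (Submodule.zero_mem _)
      · have h4 := hB.w_mem l
        have h5 := hB.c_w k l (by rw [ha l h0]; exact hk)
        rw [ha l h0] at h4 h5
        refine ITr.tr (u3 (a l) (w l) h4) ?_
        rw [← smul_add]
        exact Submodule.smul_mem _ _ h5
    have h6 : ∑ l, a l • ∑ m, V.c k l m • w m ^ 2 = ∑ m, V.e k a m • w m ^ 2 := by
      simp only [Finset.smul_sum, smul_smul]
      rw [Finset.sum_comm]
      refine Finset.sum_congr rfl fun m _ => ?_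
      rw [Sys.e_apply, Finset.sum_smul]
    rw [h6] at h3
    have h7 := ITr.tr h1 (ITr.tr h2 h3)
    refine ⟨h7, ?_⟩
    rw [ITr.iff_of h7]
    refine key (s + k) hk _ ?_
    intro m hm
    rw [Sys.e_apply] at hm
    obtain ⟨l, _, hl⟩ := Finset.exists_ne_zero_of_sum_ne_zero hm
    have hl1 : a l ≠ 0 := left_ne_zero_of_mul hl
    have hl2 : V.c k l m ≠ 0 := right_ne_zero_of_mul hl
    rw [hok.deg k l m hl2, ha l hl1]

end Pool.Agent.Work.MP_701abf_gt.TwT
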