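import Pool.Agent.Work.MP_701abf_gt.TwT.I_Tn
import Pool.Agent.Work.MP_701abf_gt.TwT.I_Ok
import Pool.Agent.Work.MP_701abf_gt.TwT.I_Lt
import Pool.Agent.Work.MP_701abf_gt.TwT.I_Mu
import Pool.Agent.Work.MP_701abf_gt.TwT.I_Bi
import Pool.Agent.Work.MP_701abf_gt.TwT.I_Lr
import Pool.Agent.Work.MP_701abf_gt.TwT.I_Sw
import Pool.Agent.Work.MP_701abf_gt.TwT.I_Lp
import Pool.Agent.Work.MP_701abf_gt.TwT.I_Lw
import Pool.Agent.Work.MP_701abf_gt.TwT.I_Zz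
import Pool.Agent.Work.MP_701abf_gt.TwT.I_Ec
import Pool.Agent.Work.MP_701abf_gt.TwT.I_Ex
import Pool.Agent.Work.MP_701abf_gt.TwT.I_Su
import Pool.Agent.Work.MP_701abf_gt.TwT.I_Re
import Pool.Agent.Work.MP_701abf_gt.TwT.I_Kp
import Pool.Agent.Work.MP_701abf_gt.TwT.I_H2a
import Pool.Agent.Work.MP_701abf_gt.TwT.I_H2b
import Pool.Agent.Work.MP_701abf_gt.TwT.I_H2
import Pool.Agent.Work.MP_701abf_gt.TwT.I_DD
import Pool.Agent.Work.MP_701abf_gt.TwT.I_Fa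
import Pool.Agent.Work.MP_701abf_gt.TwT.I_Le
import Pool.Agent.Work.MP_701abf_gt.TwT.I_Cl
import Pool.Agent.Work.MP_701abf_gt.TwT.I_Tb
import Pool.Agent.Work.MP_701abf_gt.TwT.I_Ob
import Pool.Agent.Work.MP_701abf_gt.TwT.I_Ch
import Pool.Agent.Work.MP_701abf_gt.TwT.I_Ee
import Pool.Agent.Work.MP_701abf_gt.TwT.I_Tr
import Pool.Agent.Work.MP_701abf_gt.TwT.I_Hf
import Pool.Agent.Work.MP_701abf_gt.TwT.I_Fi
import Pool.Agent.Work.MP_701abf_gt.TwT.I_Fe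
import Pool.Agent.Work.MP_701abf_gt.TwT.Glue

/-!
# Half A: all items, and the input `SN.StA` of the assembly
-/

namespace Pool.Agent.Work.MP_701abf_gt.TwT

theorem tTn : StTn := pr_Tn
theorem tOk : StOk := pr_Ok tTn
theorem tLt : StLt := pr_Lt tTn
theorem tMu : StMu := pr_Mu
theorem tBi : StBi := pr_Bi
theorem tLr : StLr := pr_Lr tTn tOk tLt
theorem tSw : StSw := pr_Sw
theorem tLp : StLp := pr_Lp tTn tOk tMu tBi tLr tSw
theorem tLw : StLw := pr_Lw tTn tLp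
theorem tZz : StZz := pr_Zz tTn
theorem tEc : StEc := pr_Ec tTn
theorem tEx : StEx := pr_Ex tTn tOk tLt tZz tEc
theorem tSu : StSu := pr_Su
theorem tRe : StRe := pr_Re
theorem tKp : StKp := pr_Kp tRe
theorem tH2a : StH2a := pr_H2a
theorem tH2b : StH2b := pr_H2b
theorem tH2 : StH2 := pr_H2 tH2a tH2b
theorem tDD : StDD := pr_DD
theorem tFa : StFa := pr_Fa
theorem tLe : StLe := pr_Le tSu tKp tH2
theorem tCl : StCl := pr_Cl
theorem tTb : StTb := pr_Tb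
theorem tOb : StOb := pr_Ob
theorem tCh : StCh := pr_Ch tOk tFa tLe tCl tTb tOb
theorem tEe : StEe := pr_Ee tDD
theorem tTr : StTr := pr_Tr tSu
theorem tHf : StHf := pr_Hf
theorem tFi : StFi := pr_Fi tOk tLw tCh tTr tHf
theorem tFe : StFe := pr_Fe tOk tEx tCh tEe tTr tHf

/-- Half A. -/
theorem stA : SN.StA := stA_of tFi tFe

end Pool.Agent.Work.MP_701abf_gt.TwT
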