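import Pool.Agent.Work.MP_701abf_gt.TwT.Stmts
import Pool.Agent.Work.MP_701abf_gt.FL.Defs

/-!
# The half law (helper51)

`ker Sq^1 = im Sq^1` on the stable `s`-line in all degrees which are not sums of `s / 3` numbers
`2 ^ a * u`, `u ≤ U`: with the injectivity of `Sq^1` on the 2-line of the clusters which are not
powers of two (`FL.TwoInj`) no cluster has homology on the lines `0`, `1`, `2`.
-/

open MvPolynomial
open Pool.Agent.Work.MP_701abf_gt.Stab Pool.Agent.Work.MP_701abf_gt.Cob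
open Pool.Agent.Work.MP_701abf_gt.Sq2

namespace Pool.Agent.Work.MP_701abf_gt.TwT

/-- `Sq^1 Sq^1 = 0`, and `Sq^1` is injective in degree two if there is nothing in degree one. -/
def P3 (W : Sys) : Prop :=
  W.Z1 ∧ (W.Cl → ∀ a : W.I → ZMod 2, W.Dg 2 a → W.e 1 a = 0 → a = 0)

/-- Exactness below three times the number of the clusters. -/
def StEx3 : Prop := ∀ c m V, TP P3 c m V → ∀ s, s < 3 * (c + m) → ∀ x : V.I → ZMod 2, V.Dg s x →
  V.e 1 x = 0 → ∃ y : V.I → ZMod 2, (∀ l, y l ≠ 0 → V.d l + 1 = s) ∧ V.e 1 y = x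

/-- The half law. -/
def StA2 : Prop := ∀ q, Ops q → ∀ s e : ℕ, (s + 1) / 3 ≤ e →
  ∃ U J0 : ℕ, ∀ t : ℕ, ¬ Few U e t → ∀ J, J0 ≤ J → ∀ X ∈ ZR (s + 1) ((2 ^ J * t : ℕ) : ℤ),
    Sq2.dl (s + 1) X ∈ BR (s + 2) (2 * ((2 ^ J * t : ℕ) : ℤ)) →
      ∃ v ∈ ZR s ((2 ^ J * t : ℕ) : ℤ), Sq2.dl s v + X ^ 2 ∈ BR (s + 1) (2 * ((2 ^ J * t : ℕ) : ℤ))

namespace Half

lemma self (a : ZMod 2) : a + a = 0 := CharTwo.add_self_eq_zero a

lemma eq_of_add {a b : ZMod 2} (h : a + b = 0) : a = b := by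
  have h1 : a + b + b = b := by rw [h, zero_add]
  rwa [add_assoc, self, add_zero] at h1

lemma tp_mono {P P' : Sys → Prop} (h : ∀ W, P W → P' W) {c m : ℕ} {V : Sys} (hV : TP P c m V) :
    TP P' c m V := by
  induction hV with
  | one => exact TP.one
  | sg W l0 m0 hP hW _ ih => exact TP.sg W l0 m0 (h W hP) hW ih
  | cl W hP hW _ ih => exact TP.cl W (h W hP) hW ih

/-- A left inverse of the first operation in degree two. -/
lemma left_inv (W : Sys) (hinj : ∀ a : W.I → ZMod 2, W.Dg 2 a → W.e 1 a = 0 → a = 0) :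
    ∃ r : W.I → W.I → ZMod 2, ∀ l l', W.d l = 2 →
      (l = l' → ∑ m, W.c 1 l m * r m l' = 1) ∧ (l ≠ l' → ∑ m, W.c 1 l m * r m l' = 0) := by
  classical
  let S : Submodule (ZMod 2) (W.I → ZMod 2) :=
    { carrier := {a | W.Dg 2 a}
      zero_mem' := fun l hl => absurd rfl hl
      add_mem' := fun {a b} ha hb l hl => by
        by_cases h : a l = 0
        · refine hb l fun h' => hl ?_
          rw [Pi.add_apply, h, h', add_zero]
        · exact ha l h
      smul_mem' := fun c a ha l hl => ha l fun h => hl (by rw [Pi.smul_apply, h, smul_zero]) }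
  have hker : LinearMap.ker ((W.e 1).comp S.subtype) = ⊥ := by
    rw [LinearMap.ker_eq_bot']
    rintro ⟨a, ha⟩ h
    exact Subtype.ext (hinj a ha h)
  obtain ⟨g, hg⟩ := LinearMap.exists_leftInverse_of_injective _ hker
  refine ⟨fun m l' => (g (Pi.single m 1) : W.I → ZMod 2) l', fun l l' hl => ?_⟩
  have hS : (Pi.single l 1 : W.I → ZMod 2) ∈ S := by
    intro k hk
    by_cases h : k = l
    · rw [h]; exact hl
    · exact absurd (Pi.single_eq_of_ne h 1) hk
  have h1 : g (W.e 1 (Pi.single l 1)) = ⟨Pi.single l 1, hS⟩ :=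
    congrArg (fun φ => φ ⟨Pi.single l 1, hS⟩) hg
  have h2 : W.e 1 (Pi.single l 1) = ∑ m, W.c 1 l m • (Pi.single m 1 : W.I → ZMod 2) := by
    funext k
    rw [Sys.e_apply, Finset.sum_apply]
    rw [Finset.sum_eq_single l (fun b _ hb => by rw [Pi.single_eq_of_ne hb, zero_mul])
      (fun h => absurd (Finset.mem_univ _) h), Pi.single_eq_same, one_mul]
    rw [Finset.sum_eq_single k (fun b _ hb => by
      rw [Pi.smul_apply, Pi.single_eq_of_ne hb.symm, smul_zero])
      (fun h => absurd (Finset.mem_univ _) h), Pi.smul_apply, Pi.single_eq_same, smul_eq_mul,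
      mul_one]
  have h3 : ∑ m, W.c 1 l m * (g (Pi.single m 1) : W.I → ZMod 2) l' =
      (Pi.single l 1 : W.I → ZMod 2) l' := by
    have h4 := congrArg (fun z : S => (z : W.I → ZMod 2) l') h1
    simp only [h2, map_sum, map_smul] at h4
    rw [← h4]
    simp only [Submodule.coe_sum, Submodule.coe_smul, Finset.sum_apply, Pi.smul_apply, smul_eq_mul]
  refine ⟨fun h => ?_, fun h => ?_⟩
  · rw [h3, ← h, Pi.single_eq_same]
  · rw [h3, Pi.single_eq_of_ne (fun h' => h h'.symm)]

/-- The end of the induction step. -/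
lemma fin (V W : Sys) (hTn : StTn) (hVok : V.Ok) (hWok : W.Ok)
    (hzz : ∀ y : W.I × V.I → ZMod 2, (Sys.ten V W).e 1 ((Sys.ten V W).e 1 y) = 0) (hEc : StEc)
    {s : ℕ} (ih : ∀ D, 3 ≤ D → D ≤ s → ∀ x : V.I → ZMod 2, V.Dg (s - D) x → V.e 1 x = 0 →
      ∃ y : V.I → ZMod 2, (∀ l, y l ≠ 0 → V.d l + 1 = s - D) ∧ V.e 1 y = x)
    (hTok : (Sys.ten V W).Ok) {x y0 : (Sys.ten V W).I → ZMod 2} (hx : (Sys.ten V W).Dg s x)
    (hex : (Sys.ten V W).e 1 x = 0) (hd0 : ∀ p, y0 p ≠ 0 → (Sys.ten V W).d p + 1 = s)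
    (hv : ∀ l v, W.d l < 3 → (Sys.ten V W).e 1 y0 (l, v) = x (l, v)) :
    ∃ y : W.I × V.I → ZMod 2, (∀ p, y p ≠ 0 → (Sys.ten V W).d p + 1 = s) ∧
      (Sys.ten V W).e 1 y = x := by
  classical
  have hde : (Sys.ten V W).Dg s ((Sys.ten V W).e 1 y0) := by
    rcases s with - | s
    · have h1 : y0 = 0 := by
        funext p
        by_contra hne
        have := hd0 p hne
        omega
      have h2 : (Sys.ten V W).e 1 y0 = 0 :=
        (congrArg (fun z => (Sys.ten V W).e 1 z) h1).trans (map_zero ((Sys.ten V W).e 1))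
      intro l hl
      exact absurd (congrFun h2 l) hl
    · have h1 : (Sys.ten V W).Dg s y0 := by
        intro p hp
        have := hd0 p hp
        omega
      exact (hTn.2.2.2.2.1 (Sys.ten V W) hTok y0).2 1 s h1
  set x' : (Sys.ten V W).I → ZMod 2 := x + (Sys.ten V W).e 1 y0 with hx'
  have hx'd : (Sys.ten V W).Dg s x' := by
    intro p hp
    by_cases h1 : x p = 0
    · apply hde p
      intro h2
      apply hp
      change x p + (Sys.ten V W).e 1 y0 p = 0
      rw [h1, h2, add_zero]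
    · exact hx p h1
  have hx'z : ∀ (l : W.I) (v : V.I), W.d l < 3 → x' (l, v) = 0 := by
    intro l v hl3
    change x (l, v) + (Sys.ten V W).e 1 y0 (l, v) = 0
    rw [hv l v hl3, self]
  have hx'e : (Sys.ten V W).e 1 x' = 0 := by
    have h1 : (Sys.ten V W).e 1 x' = (Sys.ten V W).e 1 x +
        (Sys.ten V W).e 1 ((Sys.ten V W).e 1 y0) := map_add ((Sys.ten V W).e 1) x _
    have h2 : (Sys.ten V W).e 1 ((Sys.ten V W).e 1 y0) = 0 := hzz y0
    rw [h1, hex, h2, add_zero]
  obtain ⟨y', hy'd, hy'⟩ : ∃ y' : (Sys.ten V W).I → ZMod 2,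
      (∀ p, y' p ≠ 0 → (Sys.ten V W).d p + 1 = s) ∧ (Sys.ten V W).e 1 y' = x' :=
    hEc V W hVok hWok hzz 3 s ih x' hx'd hx'z hx'e
  refine ⟨y0 + y', fun p hp => ?_, ?_⟩
  · by_cases h1 : y0 p = 0
    · apply hy'd p
      intro h2
      apply hp
      change y0 p + y' p = 0
      rw [h1, h2, add_zero]
    · exact hd0 p h1
  · have h1 : (Sys.ten V W).e 1 (y0 + y') = (Sys.ten V W).e 1 y0 + (Sys.ten V W).e 1 y' :=
      map_add ((Sys.ten V W).e 1) _ _
    rw [h1, hy', hx']
    funext p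
    change (Sys.ten V W).e 1 y0 p + (x p + (Sys.ten V W).e 1 y0 p) = x p
    rw [add_comm (x p), ← add_assoc, self, zero_add]

/-- The preparation for a cluster which is not a power of two. -/
lemma prep (hTn : StTn) {V W : Sys} (hV : V.Ok) (hW : W.Ok) (h2 : ∀ l, 2 ≤ W.d l)
    (hinj : ∀ a : W.I → ZMod 2, W.Dg 2 a → W.e 1 a = 0 → a = 0) {s : ℕ}
    (x : W.I × V.I → ZMod 2) (hx : (Sys.ten V W).Dg s x) (hex : (Sys.ten V W).e 1 x = 0) :
    ∃ y0 : W.I × V.I → ZMod 2, (∀ p, y0 p ≠ 0 → (Sys.ten V W).d p + 1 = s) ∧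
      ∀ l v, W.d l < 3 → (Sys.ten V W).e 1 y0 (l, v) = x (l, v) := by
  classical
  obtain ⟨r, hr⟩ := left_inv W hinj
  set y0 : W.I × V.I → ZMod 2 := fun p => if W.d p.1 = 2 then
    ∑ m, (if W.d m = 3 then r m p.1 * x (m, p.2) else 0) else 0 with hy0
  refine ⟨y0, ?_, ?_⟩
  · rintro ⟨l, v⟩ hp
    have h1 : W.d l = 2 := by
      by_contra h
      exact hp (by simp only [hy0]; rw [if_neg h])
    have h3 : ∑ m, (if W.d m = 3 then r m l * x (m, v) else 0) ≠ 0 := by
      intro h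
      exact hp (by simp only [hy0]; rw [if_pos h1, h])
    obtain ⟨m, -, hm⟩ := Finset.exists_ne_zero_of_sum_ne_zero h3
    have h4 : W.d m = 3 := by
      by_contra h
      exact hm (if_neg h)
    rw [if_pos h4] at hm
    have h5 : W.d m + V.d v = s := hx (m, v) (right_ne_zero_of_mul hm)
    change W.d l + V.d v + 1 = s
    omega
  · intro l v hl
    have hl2 : W.d l = 2 := by
      have := h2 l
      omega
    have e1 := hTn.2.2.1 V W hW y0 l (fun l' hl' v' => by
      have := h2 l'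
      omega) 1 v
    rw [e1]
    have e2 : (fun v' => y0 (l, v')) =
        ∑ m, (if W.d m = 3 then r m l • (fun v' => x (m, v')) else (0 : V.I → ZMod 2)) := by
      funext v'
      simp only [hy0]
      rw [if_pos hl2, Finset.sum_apply]
      refine Finset.sum_congr rfl fun m _ => ?_
      split_ifs
      · rfl
      · rfl
    rw [e2, map_sum, Finset.sum_apply]
    -- the relation at the elements of degree three
    have hrel : ∀ m, W.d m = 3 → V.e 1 (fun v' => x (m, v')) v = ∑ l', W.c 1 l' m * x (l', v) := by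
      intro m _
      have h3 := hTn.2.1 V W 1 x m v
      rw [hex] at h3
      rw [Finset.sum_range_succ, Finset.sum_range_succ, Finset.sum_range_zero, zero_add] at h3
      have h4 : ∑ l', W.c 0 l' m * V.e (1 - 0) (fun v' => x (l', v')) v =
          V.e 1 (fun v' => x (m, v')) v := by
        rw [Finset.sum_eq_single m (fun b _ hb => by rw [hW.ne b m hb, zero_mul])
          (fun h => absurd (Finset.mem_univ _) h), hW.one, one_mul]
      have h5 : ∑ l', W.c 1 l' m * V.e (1 - 1) (fun v' => x (l', v')) v =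
          ∑ l', W.c 1 l' m * x (l', v) := by
        refine Finset.sum_congr rfl fun l' _ => ?_
        rw [Nat.sub_self, (hTn.2.2.2.2.1 V hV _).1]
      rw [h4, h5] at h3
      exact eq_of_add h3.symm
    have e3 : ∀ m, (V.e 1) (if W.d m = 3 then r m l • (fun v' => x (m, v'))
        else (0 : V.I → ZMod 2)) v =
        ∑ l', if W.d l' = 2 then (W.c 1 l' m * r m l) * x (l', v) else 0 := by
      intro m
      have e4 : ∀ l', (if W.d l' = 2 then (W.c 1 l' m * r m l) * x (l', v) else 0) =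
          if W.d m = 3 then (W.c 1 l' m * r m l) * x (l', v) else 0 := by
        intro l'
        by_cases hc : W.c 1 l' m = 0
        · rw [hc, zero_mul, zero_mul, ite_self, ite_self]
        · have h6 := hW.deg 1 l' m hc
          by_cases h7 : W.d l' = 2
          · rw [if_pos h7, if_pos (by omega)]
          · rw [if_neg h7, if_neg (by omega)]
      rw [Finset.sum_congr rfl fun l' _ => e4 l']
      by_cases hm : W.d m = 3
      · rw [if_pos hm, map_smul, Pi.smul_apply, hrel m hm, smul_eq_mul, Finset.mul_sum]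
        refine Finset.sum_congr rfl fun l' _ => ?_
        rw [if_pos hm]
        ring
      · rw [if_neg hm, map_zero, Pi.zero_apply]
        symm
        exact Finset.sum_eq_zero fun l' _ => if_neg hm
    rw [Finset.sum_congr rfl fun m _ => e3 m, Finset.sum_comm]
    have e5 : ∀ l', ∑ m, (if W.d l' = 2 then (W.c 1 l' m * r m l) * x (l', v) else 0) =
        if l' = l then x (l, v) else 0 := by
      intro l'
      by_cases h7 : W.d l' = 2
      · have e6 : ∑ m, (if W.d l' = 2 then (W.c 1 l' m * r m l) * x (l', v) else 0) =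
            (∑ m, W.c 1 l' m * r m l) * x (l', v) := by
          rw [Finset.sum_mul]
          exact Finset.sum_congr rfl fun m _ => if_pos h7
        rw [e6]
        by_cases h8 : l' = l
        · rw [if_pos h8, (hr l' l h7).1 h8, one_mul, h8]
        · rw [if_neg h8, (hr l' l h7).2 h8, zero_mul]
      · rw [if_neg (fun h => h7 (by rw [h]; exact hl2))]
        exact Finset.sum_eq_zero fun m _ => if_neg h7
    rw [Finset.sum_congr rfl fun l' _ => e5 l', Finset.sum_ite_eq' Finset.univ l,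
      if_pos (Finset.mem_univ l)]

end Half

open Half in
/-- Exactness below three times the number of the clusters. -/
theorem pr_Ex3 (hTn : StTn) (hOk : StOk) (hLt : StLt) (hZz : StZz) (hEc : StEc) : StEx3 := by
  classical
  intro c m V hV
  induction hV with
  | one => intro s hs; omega
  | @sg c m V W l0 m0 hP hW h ih =>
    intro s hs x hx hex
    have hVok : V.Ok := (hOk.1 _ c m V h).1
    have hTok : (Sys.ten V W).Ok := hTn.1 V W hVok hW.ok
    have hlm : m0 ≠ l0 := by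
      intro hh
      have h1 := hW.dl0
      have h2 := hW.dm0
      rw [hh] at h2
      omega
    have hzz := hZz (c + 1) m (Sys.ten V W) (TP.sg W l0 m0 hP.1 hW (tp_mono (fun _ h => h.1) h))
    set y0 : W.I × V.I → ZMod 2 := fun p => if p.1 = l0 then x (m0, p.2) else 0 with hy0
    have hy0l : (fun v' => y0 (l0, v')) = fun v' => x (m0, v') := by
      funext v
      simp [hy0]
    have hy0m : (fun v' => y0 (m0, v')) = (0 : V.I → ZMod 2) := by
      funext v
      simp [hy0, hlm]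
    obtain ⟨hL1, hL2, -, -⟩ := hLt V W l0 m0 hVok hW x
    obtain ⟨hY1, hY2, -, -⟩ := hLt V W l0 m0 hVok hW y0
    have he0 : ∀ a : V.I → ZMod 2, V.e 0 a = a := fun a => (hTn.2.2.2.2.1 V hVok a).1
    have hx1 : ∀ v, x (l0, v) = V.e 1 (fun v' => x (m0, v')) v := by
      intro v
      have h1 := hL2 0 v
      rw [zero_add, hex, he0] at h1
      exact (eq_of_add h1.symm).symm
    have hl : ∀ v, (Sys.ten V W).e 1 y0 (l0, v) = x (l0, v) := by
      intro v
      rw [hY1, hy0l, hx1]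
    have hm : ∀ v, (Sys.ten V W).e 1 y0 (m0, v) = x (m0, v) := by
      intro v
      have h1 := hY2 0 v
      rw [zero_add] at h1
      rw [h1, hy0m, hy0l, he0, map_zero]
      simp
    have hd0 : ∀ p : W.I × V.I, y0 p ≠ 0 → (Sys.ten V W).d p + 1 = s := by
      rintro ⟨l, v⟩ hp
      have h1 : l = l0 := by
        by_contra hne
        exact hp (by simp [hy0, hne])
      subst h1
      have h2 : x (m0, v) ≠ 0 := by
        intro h3
        apply hp
        simp [hy0, h3]
      have h3 : W.d m0 + V.d v = s := hx (m0, v) h2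
      have h4 : W.d l = 1 := hW.dl0
      have h5 := hW.dm0
      change W.d l + V.d v + 1 = s
      omega
    refine fin V W hTn hVok hW.ok hzz hEc (fun D hD hDs z hz hez => ih (s - D) (by omega) z hz hez)
      hTok hx hex hd0 fun l v hl3 => ?_
    have h1 := hW.pos l
    have h2 : W.d l = 1 ∨ W.d l = 2 := by omega
    rcases h2 with h2 | h2
    · rw [hW.ul0 l h2, hl]
    · rw [hW.um0 l h2, hm]
  | @cl c m V W hP hW h ih =>
    intro s hs x hx hex
    have hVok : V.Ok := (hOk.1 _ c m V h).1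
    have hTok : (Sys.ten V W).Ok := hTn.1 V W hVok hW.ok
    have hzz := hZz c (m + 1) (Sys.ten V W) (TP.cl W hP.1 hW (tp_mono (fun _ h => h.1) h))
    obtain ⟨y0, h1, h2⟩ := prep hTn hVok hW.ok hW.two (hP.2 hW) x hx hex
    exact fin V W hTn hVok hW.ok hzz hEc (fun D hD hDs z hz hez => ih (s - D) (by omega) z hz hez)
      hTok hx hex h1 fun l v hl3 => h2 l v hl3

namespace Half

/-- `Few` is monotone in both parameters. -/
lemma few_mono {U U' k k' t : ℕ} (hU : U ≤ U') (hk : k ≤ k') (h : Few U k t) : Few U' k' t :=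
  clus_iff_few.1 ((clus_iff_few.2 h).mono hU hk)

/-- The numerical inequality. -/
lemma num {s e c m : ℕ} (he : (s + 1) / 3 ≤ e) (h3 : e < c + m) : s + 1 < 3 * (c + m) := by
  omega

/-- A combination of cocycles of degree `s`. -/
lemma comb_mem {T : ℤ} {V : Sys} {w : V.I → RR Empty} (hw : ∀ l, w l ∈ ZR (V.d l) T) {s : ℕ}
    {y : V.I → ZMod 2} (hy : V.Dg s y) : ∑ l, y l • w l ∈ ZR s T := by
  refine Submodule.sum_mem _ fun l _ => ?_
  by_cases h : y l = 0
  · rw [h, zero_smul]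
    exact Submodule.zero_mem _
  · refine Submodule.smul_mem _ _ ?_
    have := hw l
    rw [hy l h] at this
    exact this

/-- The square of a combination. -/
lemma comb_sq (V : Sys) (w : V.I → RR Empty) (a : V.I → ZMod 2) :
    (∑ l, a l • w l) ^ 2 = ∑ l, a l • w l ^ 2 := by
  rw [sum_sq]
  exact Finset.sum_congr rfl fun l _ => smul_sq _ _

/-- The property `P3` of the clusters. -/
lemma p3_of (hEe : StEe) (hTr : StTr) (h2 : FL.TwoInj) {q : ℕ → ℕ → RR Empty → RR Empty}
    (hq : Ops q) {n : ℕ} (hn : 4 ≤ n) : ∃ J : ℕ, ∀ T : ℤ, 0 < T → (2 : ℤ) ^ J ∣ T →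
    ∀ (W : Sys) (w : W.I → RR Empty), W.Ok → W.Tr n → BQ q n T W w → P3 W := by
  obtain ⟨J, hJ⟩ := hEe q hq n
  refine ⟨J, fun T hT hd W w hok htr hB => ⟨hJ T hT hd W w hok htr hB, fun hcl a had hea => ?_⟩⟩
  have hnp : ¬ ∃ b : ℕ, T = 2 ^ b := by
    rintro ⟨b, rfl⟩
    obtain ⟨a', ha', hab⟩ := hB.span 1 (by omega) (ha b) (ha_ZR b)
    have h0 : ∀ l, a' l = 0 := fun l => by
      by_contra h
      have h3 := ha' l h
      have h4 := hcl.two l
      omega
    have h5 : ∑ l, a' l • w l = 0 := Finset.sum_eq_zero fun l _ => by rw [h0 l, zero_smul]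
    rw [h5, add_zero] at hab
    exact ha_ne b (BR_one hT.ne' hab)
  have hx : ∑ l, a l • w l ∈ ZR 2 T := comb_mem hB.w_mem had
  have h3 := hTr q hq n T W w hok hB 2 (by omega) _ hx a had (by
    rw [add_self2]
    exact Submodule.zero_mem _)
  refine h3.1.1 (h2 T hT hnp _ hx ?_)
  have h4 := ((h3.2 1 (by omega)).2).2 hea
  have h5 := Submodule.add_mem _ h4 (hq.one 2 T _ hx)
  rw [← add_assoc, add_self2, zero_add] at h5
  exact h5

end Half

open Half in
/-- The half law. -/
theorem pr_A2 (hOk : StOk) (hEx : StEx3) (hCh : StCh) (hEe : StEe) (hTr : StTr) (hHf : StHf)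
    (h2 : FL.TwoInj) : StA2 := by
  intro q hq s e he
  obtain ⟨J1, L, hch⟩ := hCh q hq (s + 6) (by omega) P3 (p3_of hEe hTr h2 hq (by omega))
  obtain ⟨U', hU⟩ := degrees (s + 1) (by omega) L
  refine ⟨(s + 1) * U' + U', J1, fun t hF J hJ X hX hdl => ?_⟩
  by_cases hXB : X ∈ BR (s + 1) ((2 ^ J * t : ℕ) : ℤ)
  · refine ⟨0, Submodule.zero_mem _, ?_⟩
    rw [dl_zero, zero_add]
    exact sq_BR hXB
  -- the structure of `t`
  have hne : dm (s + 1) (2 ^ J * t) ≠ 0 := by
    intro h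
    obtain ⟨p, hp, hpX⟩ := exists_th hX
    refine hXB ?_
    rw [← hpX]
    exact th_mem_BR.2 (dm_zero_iff.1 h hp)
  obtain ⟨c, m, e', h1, h2', h3, h4⟩ := hU _ hne
  have h5 := hHf.2 _ _ _ _ (clus_iff_few.1 h3)
  have h6 : e < c + m := by
    by_contra hcon
    refine hF (few_mono ?_ (by omega) h5)
    exact Nat.add_le_add_right (Nat.mul_le_mul_right _ (by omega)) _
  have h7 : s + 1 < 3 * (c + m) := num he h6
  have eT : 2 ^ J * t = 2 ^ J1 * (2 ^ (J - J1) * t) := by
    rw [← mul_assoc, ← pow_add, Nat.add_sub_cancel' hJ]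
  have h8 : Ch L c m (2 ^ (J - J1) * t) := by
    refine hHf.1 L c m J1 _ ?_
    rw [← eT]
    exact h4
  obtain ⟨V, w, hTP, hB⟩ := hch J1 le_rfl c m _ h8
  rw [← eT] at hB
  obtain ⟨T, hT⟩ : ∃ T : ℤ, T = ((2 ^ J * t : ℕ) : ℤ) := ⟨_, rfl⟩
  rw [← hT] at hB hX hdl ⊢
  have hV : V.Ok := (hOk.1 _ _ _ _ hTP).1
  obtain ⟨a, ha, hXa⟩ := hB.span (s + 1) (by omega) X hX
  have hq1 : q 1 (s + 1) X ∈ BR (s + 1 + 1) (2 * T) := by
    have h9 := Submodule.add_mem _ (hq.one (s + 1) T X hX) hdl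
    rw [add_assoc (q 1 (s + 1) X), add_self2, add_zero] at h9
    exact h9
  have hea : V.e 1 a = 0 :=
    (((hTr q hq _ T V w hV hB (s + 1) (by omega) X hX a ha hXa).2 1 (by omega)).2).1 hq1
  obtain ⟨y, hy, hya⟩ := hEx c m V hTP (s + 1) h7 a ha hea
  have hyD : V.Dg s y := fun l hl => by
    have := hy l hl
    omega
  have hv : ∑ l, y l • w l ∈ ZR s T := comb_mem hB.w_mem hyD
  refine ⟨∑ l, y l • w l, hv, ?_⟩
  have k1 := ((hTr q hq _ T V w hV hB s (by omega) _ hv y hyD (by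
    rw [add_self2]
    exact Submodule.zero_mem _)).2 1 (by omega)).1
  rw [hya] at k1
  have k2 := hq.one s T _ hv
  have k3 := sq_BR hXa
  rw [sq_add, comb_sq] at k3
  have k4 := Submodule.add_mem _ (Submodule.add_mem _ k2 k1) k3
  have e1 := add_self2 (q 1 s (∑ l, y l • w l))
  have e2 := add_self2 (∑ m, a m • w m ^ 2)
  have e3 : q 1 s (∑ l, y l • w l) + Sq2.dl s (∑ l, y l • w l) +
      (q 1 s (∑ l, y l • w l) + ∑ m, a m • w m ^ 2) + (X ^ 2 + ∑ m, a m • w m ^ 2) =
      Sq2.dl s (∑ l, y l • w l) + X ^ 2 := by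
    calc _ = Sq2.dl s (∑ l, y l • w l) + X ^ 2 +
          (q 1 s (∑ l, y l • w l) + q 1 s (∑ l, y l • w l)) +
          ((∑ m, a m • w m ^ 2) + ∑ m, a m • w m ^ 2) := by abel
      _ = _ := by rw [e1, e2, add_zero, add_zero]
  rw [e3] at k4
  exact k4

end Pool.Agent.Work.MP_701abf_gt.TwT
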