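import Pool.Agent.Work.MP_701abf_gt.TwT.Stmts6

/-!
# Undetected classes, item Bs: a basis of involutions
-/

open MvPolynomial
open Pool.Agent.Work.MP_701abf_gt.Stab Pool.Agent.Work.MP_701abf_gt.Cob
open Pool.Agent.Work.MP_701abf_gt.Sq2

namespace Pool.Agent.Work.MP_701abf_gt.TwT

namespace IBs

lemma count {r m : ℕ} (π : Equiv.Perm (Fin r)) (hπ : π * π = 1) (S : Finset (Fin r))
    (hc : S.card = m) (h : ∀ i, (i ∈ S ∨ π i ∈ S) ∧ (π i = i ∨ ¬(i ∈ S ∧ π i ∈ S))) :
    r + (Finset.univ.filter fun x => π x = x).card = 2 * m := by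
  have hinv : ∀ i, π (π i) = i := fun i => by
    have := congrArg (fun σ : Equiv.Perm (Fin r) => σ i) hπ
    simpa using this
  have hmem : ∀ i, i ∈ S.map π.toEmbedding ↔ π i ∈ S := by
    intro i
    rw [Finset.mem_map]
    constructor
    · rintro ⟨j, hj, e⟩
      have e' : π j = i := e
      rw [← e', hinv]
      exact hj
    · intro hi
      exact ⟨π i, hi, hinv i⟩
  have h1 : S ∪ S.map π.toEmbedding = Finset.univ := by
    ext i
    rw [Finset.mem_union, hmem]
    exact ⟨fun _ => Finset.mem_univ _, fun _ => (h i).1⟩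
  have h2 : S ∩ S.map π.toEmbedding = Finset.univ.filter fun x => π x = x := by
    ext i
    rw [Finset.mem_inter, hmem, Finset.mem_filter]
    constructor
    · intro hi
      exact ⟨Finset.mem_univ _, (h i).2.resolve_right fun hn => hn hi⟩
    · rintro ⟨-, hi⟩
      rcases (h i).1 with h3 | h3
      · exact ⟨h3, by rw [hi]; exact h3⟩
      · exact ⟨by rw [hi] at h3; exact h3, h3⟩
  have h3 := Finset.card_union_add_card_inter S (S.map π.toEmbedding)
  rw [h1, h2, Finset.card_univ, Fintype.card_fin, Finset.card_map, hc] at h3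
  omega

lemma ne_zero {r m : ℕ} (π : Equiv.Perm (Fin r)) (hπ : π * π = 1) (h : InvP r m π ≠ 0) :
    r + (Finset.univ.filter fun x => π x = x).card = 2 * m := by
  unfold InvP at h
  obtain ⟨S, hS, -⟩ := Finset.exists_ne_zero_of_sum_ne_zero h
  have h1 := (Finset.mem_filter.1 hS).2
  exact count π hπ S h1.1 h1.2

lemma zmod2 (c : ZMod 2) : c = 0 ∨ c = 1 := by
  revert c
  decide

end IBs

open IBs

/-- Bs. -/
theorem pr_Bs (hPb : StPb) : StBs := by
  classical
  intro r m N hN
  let G : Set Lam := {x | ∃ π : Equiv.Perm (Fin r), π * π = 1 ∧ InvP r m π = x}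
  have hfin : G.Finite := (Set.toFinite (Set.range (InvP r m))).subset (by
    rintro x ⟨π, -, e⟩
    exact ⟨π, e⟩)
  have hspan : KS 1 r m = Submodule.span (ZMod 2) G := by
    apply le_antisymm
    · intro f hf
      obtain ⟨C, hC, rfl⟩ := hPb.2.1 r m f hf
      exact Submodule.sum_mem _ fun π hπ => Submodule.subset_span ⟨π, hC π hπ, rfl⟩
    · rw [Submodule.span_le]
      rintro x ⟨π, hπ, rfl⟩
      exact hPb.1 r m π hπ
  have : Module.Finite (ZMod 2) (Submodule.span (ZMod 2) G) :=
    FiniteDimensional.span_of_finite _ hfin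
  have hN' : Module.finrank (ZMod 2) (Submodule.span (ZMod 2) G) = N := by
    rw [← hspan]
    exact hN
  subst hN'
  obtain ⟨f, hfG, hfs, hfi⟩ := Submodule.exists_fun_fin_finrank_span_eq (ZMod 2) G
  choose π hπ hπf using hfG
  refine ⟨π, fun i => ⟨hπ i, ?_⟩, fun C hC => ?_, fun x hx => ?_⟩
  · apply ne_zero (π i) (hπ i)
    rw [hπf i]
    exact hfi.ne_zero i
  · intro h
    rw [Finset.sum_congr rfl fun i _ => hπf i] at h
    obtain ⟨i, hi⟩ := hC
    have h1 := linearIndependent_iff'.1 hfi C (fun _ => 1) (by simpa using h) i hi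
    exact one_ne_zero h1
  · rw [hspan, ← hfs] at hx
    obtain ⟨c, rfl⟩ := (Submodule.mem_span_range_iff_exists_fun _).1 hx
    refine ⟨Finset.univ.filter fun i => c i = 1, ?_⟩
    rw [Finset.sum_filter]
    refine Finset.sum_congr rfl fun i _ => ?_
    rcases zmod2 (c i) with h | h
    · rw [h, if_neg (by decide), zero_smul]
    · rw [h, if_pos rfl, one_smul, hπf i]

end Pool.Agent.Work.MP_701abf_gt.TwT
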