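import Pool.Agent.Work.MP_701abf_gt.TwT.Stmts3

/-!
# The two-thirds law, item Ct: chains without other clusters
-/

open MvPolynomial
open Pool.Agent.Work.MP_701abf_gt.Stab Pool.Agent.Work.MP_701abf_gt.Cob
open Pool.Agent.Work.MP_701abf_gt.Sq2

namespace Pool.Agent.Work.MP_701abf_gt.TwT

namespace ICt

/-- Separated letters decrease. -/
lemma sep_lt {L : ℕ} {a : ℕ → ℕ} {k : ℕ} (h : Sep (L + 1) 0 a (k + 1)) :
    ∀ j, ∀ i, i + j = k → 0 < j → a k + 1 ≤ a i := by
  intro j
  induction j with
  | zero => intro i _ h0; omega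
  | succ j ih =>
    intro i hi _
    have h1 := h.1 i (by omega)
    rcases Nat.eq_zero_or_pos j with h0 | h0
    · subst h0
      have : i + 1 = k := by omega
      rw [this] at h1
      omega
    · have := ih (i + 1) (by omega) h0
      omega

/-- The exact power of two which divides the degree. -/
lemma le_last {L n : ℕ} {a : ℕ → ℕ} {k : ℕ} (h : Sep (L + 1) 0 a (k + 1))
    (hd : 2 ^ n ∣ dg a (k + 1)) : n ≤ a k := by
  by_contra hn
  push Not at hn
  have h1 : 2 ^ (a k + 1) ∣ dg a (k + 1) := (pow_dvd_pow 2 (by omega)).trans hd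
  have h2 : 2 ^ (a k + 1) ∣ dg a k := by
    apply Finset.dvd_sum
    intro i hi
    rw [Finset.mem_range] at hi
    exact pow_dvd_pow 2 (sep_lt h (k - i) i (by omega) (by omega))
  have h3 : dg a (k + 1) = dg a k + 2 ^ a k := Finset.sum_range_succ _ _
  rw [h3] at h1
  have h4 : 2 ^ (a k + 1) ∣ 2 ^ a k := (Nat.dvd_add_right h2).1 h1
  have h5 := (Nat.pow_dvd_pow_iff_le_right (by norm_num : 1 < 2)).1 h4
  omega

lemma main (L : ℕ) {c m t : ℕ} (h : Ch L c m t) : m = 0 →
    1 ≤ c ∧ ∃ a : ℕ → ℕ, Sep (L + 1) 0 a c ∧ t = dg a c := by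
  induction h with
  | sg b =>
    intro _
    refine ⟨le_refl 1, fun _ => b, ⟨fun i hi => by omega, fun _ _ => Nat.zero_le _⟩, ?_⟩
    simp [dg]
  | cl t h0 h => intro h1; exact absurd h1 one_ne_zero
  | @addsg c m t b h hd ih =>
    intro hm
    obtain ⟨hc, a, ha, ht⟩ := ih hm
    obtain ⟨k, rfl⟩ : ∃ k, c = k + 1 := ⟨c - 1, by omega⟩
    rw [ht] at hd
    have hl := le_last ha hd
    refine ⟨by omega, fun i => if i = k + 1 then b else a i,
      ⟨fun i hi => ?_, fun _ _ => Nat.zero_le _⟩, ?_⟩
    · rcases Nat.lt_or_ge i k with h1 | h1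
      · have := ha.1 i (by omega)
        simp only [if_neg (show ¬ i + 1 = k + 1 by omega), if_neg (show ¬ i = k + 1 by omega)]
        exact this
      · have h2 : i = k := by omega
        subst h2
        simp only [if_true, if_neg (show ¬ i = i + 1 by omega)]
        omega
    · have h1 : dg (fun i => if i = k + 1 then b else a i) (k + 1 + 1) =
          dg (fun i => if i = k + 1 then b else a i) (k + 1) + 2 ^ b := by
        have := Finset.sum_range_succ (fun i => 2 ^ ((fun i => if i = k + 1 then b else a i) i))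
          (k + 1)
        simpa [dg] using this
      have h2 : dg (fun i => if i = k + 1 then b else a i) (k + 1) = dg a (k + 1) := by
        apply Finset.sum_congr rfl
        intro i hi
        rw [Finset.mem_range] at hi
        simp only [if_neg (show ¬ i = k + 1 by omega)]
      rw [h1, h2, ht]
  | addcl a M _ _ _ _ _ _ => intro h1; omega

end ICt

theorem pr_Ct : StCt := fun L _ _ h => ICt.main L h rfl

end Pool.Agent.Work.MP_701abf_gt.TwT
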