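import Pool.Agent.Work.MP_701abf_gt.TwT.Stmts6

/-!
# Item Dm: the dimensions of the spaces `KS j r m`
-/

set_option autoImplicit false

open MvPolynomial
open Pool.Agent.Work.MP_701abf_gt.Stab Pool.Agent.Work.MP_701abf_gt.Cob
open Pool.Agent.Work.MP_701abf_gt.Sq2

namespace Pool.Agent.Work.MP_701abf_gt.TwT

namespace IDm

open Classical in
/-- the component of the letter `r` -/
noncomputable def lm (r : ℕ) : Lam →ₗ[ZMod 2] Lam :=
  Finsupp.linearCombination (ZMod 2) fun S : Finset ℕ =>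
    if r ∈ S then Finsupp.single (S.erase r) 1 else (0 : Lam)

theorem Ho_apply {r m : ℕ} {f : Lam} (hf : f ∈ Ho r m) (S : Finset ℕ) (hS : f S ≠ 0) :
    S ⊆ Finset.range r ∧ S.card = m :=
  (Finsupp.mem_supported (ZMod 2) f).1 hf (Finsupp.mem_support_iff.2 hS)

theorem not_mem {r : ℕ} {S : Finset ℕ} (h : S ⊆ Finset.range r) : r ∉ S := fun h1 => by
  have := Finset.mem_range.1 (h h1)
  omega

theorem lm_Ho {r m : ℕ} {f : Lam} (hf : f ∈ Ho r m) : lm r f = 0 := by
  classical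
  unfold lm
  rw [Finsupp.linearCombination_apply, Finsupp.sum]
  refine Finset.sum_eq_zero fun S hS => ?_
  have h1 := Ho_apply hf S (Finsupp.mem_support_iff.1 hS)
  rw [if_neg (not_mem h1.1), smul_zero]

theorem lm_del {r m : ℕ} {f : Lam} (hf : f ∈ Ho r m) : lm r (del r f) = f := by
  classical
  conv_rhs => rw [← Finsupp.sum_single f]
  unfold del
  rw [Finsupp.linearCombination_apply, Finsupp.sum, map_sum, Finsupp.sum]
  refine Finset.sum_congr rfl fun S hS => ?_
  have h1 := Ho_apply hf S (Finsupp.mem_support_iff.1 hS)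
  have h2 : r ∉ S := not_mem h1.1
  rw [if_neg h2, map_smul]
  unfold lm
  rw [Finsupp.linearCombination_single, one_smul, if_pos (Finset.mem_insert_self r S),
    Finset.erase_insert h2, Finsupp.smul_single, smul_eq_mul, mul_one]

instance Ho_fin (r m : ℕ) : FiniteDimensional (ZMod 2) (Ho r m) := by
  have hfin : ({S : Finset ℕ | S ⊆ Finset.range r ∧ S.card = m} : Set (Finset ℕ)).Finite := by
    refine Set.Finite.subset (Finset.finite_toSet (Finset.range r).powerset) ?_
    intro S hS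
    exact Finset.mem_coe.2 (Finset.mem_powerset.2 hS.1)
  have h : Ho r m = Submodule.span (ZMod 2) ((fun i : Finset ℕ => Finsupp.single i (1 : ZMod 2)) ''
      {S : Finset ℕ | S ⊆ Finset.range r ∧ S.card = m}) := Finsupp.supported_eq_span_single _ _
  rw [h]
  exact FiniteDimensional.span_of_finite (ZMod 2) (hfin.image _)

theorem KS_iff (hKl : StKl) (hLk : StLk) {j r m : ℕ} {f : Lam} :
    f ∈ KS j r m ↔ f ∈ Ho r m ∧ ∀ n, j ≤ n → el n r f = 0 :=
  ⟨fun h => hKl.2.2 j r m f h, fun h => hLk r m j f h.1 h.2⟩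

theorem el_succ (n r : ℕ) (f : Lam) :
    el (n + 1) (r + 1) f = el (n + 1) r f + del r (el n r f) := rfl

theorem dec (hEl : StEl) {r m j : ℕ} {f : Lam} (hf : f ∈ Ho (r + 1) (m + 1))
    (h : ∀ n, j + 1 ≤ n → el n (r + 1) f = 0) :
    ∃ f₀ ∈ Ho r (m + 1), ∃ f₁ ∈ Ho r m, f = f₀ + del r f₁ ∧
      ∀ n, j ≤ n → el (n + 1) r f₀ = 0 ∧ el (n + 1) r f₁ + el n r f₀ = 0 := by
  obtain ⟨f₀, hf₀, -, h1⟩ := hEl.2.2.2.2.2.1 r (m + 1) f hf
  obtain ⟨f₁, hf₁, e⟩ := h1 (by omega)
  rw [Nat.add_sub_cancel] at hf₁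
  refine ⟨f₀, hf₀, f₁, hf₁, e, ?_⟩
  intro n hn
  have h2 := h (n + 1) (by omega)
  rw [el_succ, e, map_add, map_add, map_add, hEl.2.2.1, hEl.2.2.1, hEl.1, add_zero,
    add_assoc, ← map_add] at h2
  have h3 : el (n + 1) r f₀ ∈ Ho r (m + 1 + (n + 1)) := hEl.2.2.2.1 _ _ _ f₀ hf₀
  have h4 : el (n + 1) r f₁ ∈ Ho r (m + (n + 1)) := hEl.2.2.2.1 _ _ _ f₁ hf₁
  have h5 : el n r f₀ ∈ Ho r (m + (n + 1)) := by
    have h6 := hEl.2.2.2.1 n r (m + 1) f₀ hf₀
    have h7 : m + 1 + n = m + (n + 1) := by omega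
    rw [h7] at h6
    exact h6
  exact hEl.2.2.2.2.2.2.1 r _ _ _ h3 _ (Submodule.add_mem _ h4 h5) h2

theorem dec0 (hEl : StEl) {r j : ℕ} {f : Lam} (hf : f ∈ Ho (r + 1) 0)
    (h : ∀ n, j + 1 ≤ n → el n (r + 1) f = 0) :
    f ∈ Ho r 0 ∧ ∀ n, j ≤ n → el n r f = 0 := by
  obtain ⟨f₀, hf₀, h0, -⟩ := hEl.2.2.2.2.2.1 r 0 f hf
  have e := h0 rfl
  subst e
  refine ⟨hf₀, ?_⟩
  intro n hn
  have h2 := h (n + 1) (by omega)
  rw [el_succ] at h2
  exact (hEl.2.2.2.2.2.2.1 r _ _ _ (hEl.2.2.2.1 (n + 1) r 0 f hf₀) _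
    (hEl.2.2.2.1 n r 0 f hf₀) h2).2

theorem KS_zero (r m : ℕ) : KS 0 r m = ⊥ := by
  unfold KS
  have h : {P : Lam | ∃ F : Finset ℕ, F.card < 0 ∧ KP r m F P} = ∅ := by
    ext P
    simp
  rw [h, Submodule.span_empty]

theorem KS_nil (hKl : StKl) (hLk : StLk) (j : ℕ) :
    KS (j + 1) 0 0 = Submodule.span (ZMod 2) {(Finsupp.single ∅ 1 : Lam)} := by
  classical
  apply le_antisymm
  · intro f hf
    have hf' := ((KS_iff hKl hLk).1 hf).1
    have e : f = f ∅ • (Finsupp.single ∅ 1 : Lam) := by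
      ext S
      by_cases hS : S = ∅
      · subst hS
        simp
      · have h0 : f S = 0 := by
          by_contra h
          exact hS (Finset.card_eq_zero.1 (Ho_apply hf' S h).2)
        rw [h0]
        simp [Ne.symm hS]
    rw [e]
    exact Submodule.smul_mem _ _ (Submodule.mem_span_singleton_self _)
  · rw [Submodule.span_singleton_le_iff_mem]
    exact Submodule.subset_span ⟨∅, by simp, KP.nil⟩

theorem map_eq (hEl : StEl) (hKl : StKl) (hLk : StLk) (j r m : ℕ) :
    (KS (j + 1) (r + 1) (m + 1)).map (lm r) = KS (j + 2) r m := by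
  apply le_antisymm
  · rintro _ ⟨f, hf, rfl⟩
    obtain ⟨h1, h2⟩ := (KS_iff hKl hLk).1 hf
    obtain ⟨f₀, hf₀, f₁, hf₁, e, h3⟩ := dec hEl h1 h2
    rw [e, map_add, lm_Ho hf₀, lm_del hf₁, zero_add, KS_iff hKl hLk]
    refine ⟨hf₁, ?_⟩
    intro n hn
    obtain ⟨k, rfl⟩ : ∃ k, n = k + 1 + 1 := ⟨n - 2, by omega⟩
    have h4 := (h3 (k + 1) (by omega)).2
    rw [(h3 k (by omega)).1, add_zero] at h4
    exact h4
  · intro g hg
    obtain ⟨G₀, hG₀, h1⟩ := hKl.1 (j + 1) r m (by omega) g hg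
    have hg' := ((KS_iff hKl hLk).1 hg).1
    refine ⟨G₀ + del r g, h1, ?_⟩
    rw [map_add, lm_Ho hG₀, lm_del hg', zero_add]

theorem ker_eq (hEl : StEl) (hKl : StKl) (hLk : StLk) (j r m : ℕ) (f : Lam) :
    (f ∈ KS (j + 1) (r + 1) (m + 1) ∧ lm r f = 0) ↔ f ∈ KS j r (m + 1) := by
  constructor
  · rintro ⟨hf, h0⟩
    obtain ⟨h1, h2⟩ := (KS_iff hKl hLk).1 hf
    obtain ⟨f₀, hf₀, f₁, hf₁, e, h3⟩ := dec hEl h1 h2
    rw [e, map_add, lm_Ho hf₀, lm_del hf₁, zero_add] at h0
    rw [h0, map_zero, add_zero] at e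
    subst e
    rw [KS_iff hKl hLk]
    refine ⟨hf₀, ?_⟩
    intro n hn
    have h4 := (h3 n hn).2
    rw [h0, map_zero, zero_add] at h4
    exact h4
  · intro hf
    exact ⟨hKl.2.1 j r (m + 1) f hf, lm_Ho ((KS_iff hKl hLk).1 hf).1⟩

theorem finrank_eq (hEl : StEl) (hKl : StKl) (hLk : StLk) (j r m : ℕ) :
    Module.finrank (ZMod 2) (KS (j + 1) (r + 1) (m + 1)) =
      Module.finrank (ZMod 2) (KS (j + 2) r m) + Module.finrank (ZMod 2) (KS j r (m + 1)) := by
  have hle : KS (j + 1) (r + 1) (m + 1) ≤ Ho (r + 1) (m + 1) := fun f hf =>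
    ((KS_iff hKl hLk).1 hf).1
  have : FiniteDimensional (ZMod 2) (KS (j + 1) (r + 1) (m + 1)) :=
    Submodule.finiteDimensional_of_le hle
  have h1 := LinearMap.finrank_range_add_finrank_ker (K := ZMod 2)
    (V := KS (j + 1) (r + 1) (m + 1)) (V₂ := Lam)
    ((lm r).domRestrict (KS (j + 1) (r + 1) (m + 1)))
  have h2 : LinearMap.range ((lm r).domRestrict (KS (j + 1) (r + 1) (m + 1))) =
      KS (j + 2) r m := by
    rw [LinearMap.range_domRestrict]
    exact map_eq hEl hKl hLk j r m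
  have hC : KS j r (m + 1) ≤ KS (j + 1) (r + 1) (m + 1) := fun f hf =>
    ((ker_eq hEl hKl hLk j r m f).2 hf).1
  have h3 : LinearMap.ker ((lm r).domRestrict (KS (j + 1) (r + 1) (m + 1))) =
      (KS j r (m + 1)).comap (KS (j + 1) (r + 1) (m + 1)).subtype := by
    ext f
    rw [LinearMap.mem_ker, LinearMap.domRestrict_apply, Submodule.mem_comap,
      Submodule.subtype_apply, ← ker_eq hEl hKl hLk j r m]
    exact ⟨fun h => ⟨f.2, h⟩, fun h => h.2⟩
  rw [h2, h3, (Submodule.comapSubtypeEquivOfLe hC).finrank_eq] at h1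
  exact h1.symm

end IDm

open IDm

theorem pr_Dm (hEl : StEl) (hKl : StKl) (hLk : StLk) : StDm := by
  intro r
  induction r with
  | zero =>
    intro m j _
    rcases j with _ | j
    · rw [KS_zero, finrank_bot, zero_add, add_zero]
    · rcases m with _ | m
      · rw [KS_nil hKl hLk, finrank_span_singleton (by simp)]
        rw [Nat.choose_eq_zero_of_lt (by omega), add_zero, Nat.choose_zero_right]
      · have h : KS (j + 1) 0 (m + 1) = ⊥ := by
          rw [eq_bot_iff]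
          intro f hf
          exact (Submodule.mem_bot _).2
            (hEl.2.2.2.2.2.2.2 0 (m + 1) (by omega) f ((KS_iff hKl hLk).1 hf).1)
        rw [h, finrank_bot, Nat.choose_eq_zero_of_lt (by omega),
          Nat.choose_eq_zero_of_lt (by omega)]
  | succ r ih =>
    intro m j hr
    rcases j with _ | j
    · rw [KS_zero, finrank_bot, zero_add, add_zero]
    · rcases m with _ | m
      · have h : KS (j + 1) (r + 1) 0 = KS j r 0 := by
          ext f
          constructor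
          · intro hf
            obtain ⟨h1, h2⟩ := (KS_iff hKl hLk).1 hf
            obtain ⟨h3, h4⟩ := dec0 hEl h1 h2
            exact (KS_iff hKl hLk).2 ⟨h3, h4⟩
          · intro hf
            exact hKl.2.1 j r 0 f hf
        have h1 := ih 0 j (by omega)
        rw [h, Nat.choose_zero_right]
        rw [Nat.choose_zero_right] at h1
        have h2 : (r + 1).choose (0 + (j + 1)) = r.choose (0 + j) + r.choose (0 + j + 1) := by
          rw [← add_assoc, Nat.choose_succ_succ]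
        rw [h2, Nat.choose_eq_zero_of_lt (show r < 0 + j + 1 by omega), add_zero]
        exact h1
      · have h1 := ih m (j + 2) (by omega)
        have h2 := ih (m + 1) j (by omega)
        rw [finrank_eq hEl hKl hLk]
        have h3 : (r + 1).choose (m + 1 + (j + 1)) = r.choose (m + 1 + j) + r.choose (m + (j + 2)) := by
          have e1 : m + 1 + (j + 1) = m + 1 + j + 1 := by omega
          have e2 : m + (j + 2) = m + 1 + j + 1 := by omega
          rw [e1, e2, Nat.choose_succ_succ]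
        have h4 : (r + 1).choose (m + 1) = r.choose m + r.choose (m + 1) :=
          Nat.choose_succ_succ r m
        rw [h3, h4]
        omega

end Pool.Agent.Work.MP_701abf_gt.TwT
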