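import Pool.Agent.Work.MP_701abf_gt.TwT.Stmts2

/-! The two-thirds law, item El: the algebra `Lam`. -/

open MvPolynomial
open Pool.Agent.Work.MP_701abf_gt.Stab Pool.Agent.Work.MP_701abf_gt.Cob
open Pool.Agent.Work.MP_701abf_gt.Sq2

namespace Pool.Agent.Work.MP_701abf_gt.TwT

namespace IEl

lemma del_single (i : ℕ) (S : Finset ℕ) (b : ZMod 2) :
    del i (Finsupp.single S b) = if i ∈ S then 0 else Finsupp.single (insert i S) b := by
  unfold del
  rw [Finsupp.linearCombination_single]
  split_ifs
  · rw [smul_zero]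
  · rw [Finsupp.smul_single, smul_eq_mul, mul_one]

lemma del_apply (i : ℕ) (f : Lam) (T : Finset ℕ) :
    del i f T = if i ∈ T then f (T.erase i) else 0 := by
  induction f using Finsupp.induction_linear with
  | zero => rw [map_zero]; simp
  | add f g hf hg =>
    rw [map_add, Finsupp.add_apply, hf, hg]
    split_ifs
    · rw [Finsupp.add_apply]
    · rw [add_zero]
  | single S b =>
    rw [del_single]
    by_cases h1 : i ∈ S
    · rw [if_pos h1]
      by_cases h2 : i ∈ T
      · rw [if_pos h2, Finsupp.single_eq_of_ne, Finsupp.zero_apply]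
        rintro h3
        rw [← h3] at h1
        exact Finset.notMem_erase i T h1
      · rw [if_neg h2, Finsupp.zero_apply]
    · rw [if_neg h1]
      by_cases h2 : i ∈ T
      · rw [if_pos h2]
        by_cases h3 : T.erase i = S
        · have h4 : insert i S = T := by rw [← h3, Finset.insert_erase h2]
          rw [h4, h3, Finsupp.single_eq_same, Finsupp.single_eq_same]
        · rw [Finsupp.single_eq_of_ne h3, Finsupp.single_eq_of_ne]
          intro h4
          apply h3
          rw [h4, Finset.erase_insert h1]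
      · rw [if_neg h2, Finsupp.single_eq_of_ne]
        intro h4
        apply h2
        rw [h4]
        exact Finset.mem_insert_self _ _

lemma mem_Ho {r m : ℕ} {f : Lam} :
    f ∈ Ho r m ↔ ∀ S, f S ≠ 0 → S ⊆ Finset.range r ∧ S.card = m := by
  unfold Ho
  rw [Finsupp.mem_supported']
  constructor
  · intro h S hS
    by_contra h1
    exact hS (h S h1)
  · intro h S hS
    by_contra h1
    exact hS (h S h1)

lemma Ho_le (r m : ℕ) : Ho r m ≤ Ho (r + 1) m := by
  intro f hf
  rw [mem_Ho] at hf ⊢
  intro S hS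
  exact ⟨(hf S hS).1.trans (Finset.range_mono (Nat.le_succ r)), (hf S hS).2⟩

lemma del_del (i : ℕ) (f : Lam) : del i (del i f) = 0 := by
  ext T
  rw [del_apply, del_apply, if_neg (Finset.notMem_erase i T), ite_self, Finsupp.zero_apply]

lemma del_comm (i j : ℕ) (f : Lam) : del i (del j f) = del j (del i f) := by
  rcases eq_or_ne i j with rfl | hij
  · rfl
  ext T
  rw [del_apply, del_apply, del_apply, del_apply]
  by_cases h1 : i ∈ T
  · by_cases h2 : j ∈ T
    · rw [if_pos h1, if_pos h2, if_pos (Finset.mem_erase.2 ⟨hij.symm, h2⟩),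
        if_pos (Finset.mem_erase.2 ⟨hij, h1⟩), Finset.erase_right_comm]
    · rw [if_pos h1, if_neg h2, if_neg fun h => h2 (Finset.mem_of_mem_erase h)]
  · by_cases h2 : j ∈ T
    · rw [if_neg h1, if_pos h2, if_neg fun h => h1 (Finset.mem_of_mem_erase h)]
    · rw [if_neg h1, if_neg h2]

lemma el_zero (r : ℕ) (f : Lam) : el 0 r f = f := by
  cases r <;> rfl

lemma el_succ_zero (n : ℕ) (f : Lam) : el (n + 1) 0 f = 0 := rfl

lemma el_succ (n r : ℕ) (f : Lam) : el (n + 1) (r + 1) f = el (n + 1) r f + del r (el n r f) := rfl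

lemma el_del (r : ℕ) : ∀ n i f, el n r (del i f) = del i (el n r f) := by
  induction r with
  | zero =>
    intro n i f
    cases n with
    | zero => rw [el_zero, el_zero]
    | succ n => rw [el_succ_zero, el_succ_zero, map_zero]
  | succ r ih =>
    intro n i f
    cases n with
    | zero => rw [el_zero, el_zero]
    | succ n => rw [el_succ, el_succ, ih, ih, map_add, del_comm r i]

lemma del_Ho {r m : ℕ} {f : Lam} (hf : f ∈ Ho r m) : del r f ∈ Ho (r + 1) (m + 1) := by
  rw [mem_Ho] at hf ⊢
  intro T hT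
  rw [del_apply] at hT
  split_ifs at hT with h1
  · obtain ⟨h2, h3⟩ := hf _ hT
    constructor
    · intro x hx
      rcases eq_or_ne x r with rfl | hxr
      · exact Finset.self_mem_range_succ x
      · have := Finset.mem_range.1 (h2 (Finset.mem_erase.2 ⟨hxr, hx⟩))
        exact Finset.mem_range.2 (by omega)
    · rw [← h3, Finset.card_erase_add_one h1]
  · exact absurd rfl hT

lemma Ho_split {r m : ℕ} (hm : 1 ≤ m) :
    Ho (r + 1) m ≤ Ho r m ⊔ (Ho r (m - 1)).map (del r) := by
  unfold Ho
  rw [Finsupp.supported_eq_span_single, Submodule.span_le]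
  rintro _ ⟨S, ⟨hS, hc⟩, rfl⟩
  by_cases h : r ∈ S
  · refine Submodule.mem_sup_right ⟨Finsupp.single (S.erase r) 1, ?_, ?_⟩
    · refine Finsupp.single_mem_supported _ _ ⟨?_, ?_⟩
      · intro x hx
        have h1 := Finset.mem_range.1 (hS (Finset.mem_of_mem_erase hx))
        have h2 := Finset.ne_of_mem_erase hx
        exact Finset.mem_range.2 (by omega)
      · rw [Finset.card_erase_of_mem h, hc]
    · rw [del_single, if_neg (Finset.notMem_erase r S), Finset.insert_erase h]
  · refine Submodule.mem_sup_left (Finsupp.single_mem_supported _ _ ⟨?_, hc⟩)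
    intro x hx
    have h1 := Finset.mem_range.1 (hS hx)
    have h2 : x ≠ r := fun h3 => h (h3 ▸ hx)
    exact Finset.mem_range.2 (by omega)

lemma split {r m : ℕ} {f : Lam} (hf : f ∈ Ho (r + 1) m) : ∃ f₀ ∈ Ho r m, (m = 0 → f = f₀) ∧
    (1 ≤ m → ∃ f₁ ∈ Ho r (m - 1), f = f₀ + del r f₁) := by
  rcases Nat.eq_zero_or_pos m with rfl | hm
  · refine ⟨f, ?_, fun _ => rfl, fun h => absurd h (by omega)⟩
    rw [mem_Ho] at hf ⊢
    intro S hS
    have h1 := (hf S hS).2
    refine ⟨?_, h1⟩
    rw [Finset.card_eq_zero.1 h1]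
    exact Finset.empty_subset _
  · obtain ⟨f₀, h0, g, ⟨f₁, h1, rfl⟩, rfl⟩ := Submodule.mem_sup.1 (Ho_split hm hf)
    exact ⟨f₀, h0, fun h => absurd h (by omega), fun _ => ⟨f₁, h1, rfl⟩⟩

lemma el_Ho (r : ℕ) : ∀ n m, ∀ f ∈ Ho r m, el n r f ∈ Ho r (m + n) := by
  induction r with
  | zero =>
    intro n m f hf
    cases n with
    | zero => rw [el_zero]; exact hf
    | succ n => rw [el_succ_zero]; exact Submodule.zero_mem _
  | succ r ih =>
    intro n m f hf
    cases n with
    | zero => rw [el_zero]; exact hf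
    | succ n =>
      rw [el_succ]
      obtain ⟨f₀, h0, h1, h2⟩ := split hf
      have a1 : el (n + 1) r f₀ ∈ Ho (r + 1) (m + (n + 1)) := Ho_le _ _ (ih _ _ _ h0)
      have a2 : del r (el n r f₀) ∈ Ho (r + 1) (m + (n + 1)) := del_Ho (ih _ _ _ h0)
      rcases Nat.eq_zero_or_pos m with hm | hm
      · rw [h1 hm]
        exact Submodule.add_mem _ a1 a2
      · obtain ⟨f₁, h3, h4⟩ := h2 hm
        have a3 : del r (el (n + 1) r f₁) ∈ Ho (r + 1) (m + (n + 1)) := by
          have := del_Ho (ih (n + 1) _ _ h3)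
          rwa [show m - 1 + (n + 1) + 1 = m + (n + 1) by omega] at this
        rw [h4, map_add, map_add, map_add, el_del, el_del, del_del, add_zero]
        exact Submodule.add_mem _ (Submodule.add_mem _ a1 a3) a2

lemma indep {r m m' : ℕ} {g₀ g₁ : Lam} (h0 : g₀ ∈ Ho r m) (h1 : g₁ ∈ Ho r m')
    (h : g₀ + del r g₁ = 0) : g₀ = 0 ∧ g₁ = 0 := by
  rw [mem_Ho] at h0 h1
  constructor
  · ext S
    by_contra hS
    have h2 := (h0 S hS).1
    have h3 : r ∉ S := fun h3 => absurd (Finset.mem_range.1 (h2 h3)) (lt_irrefl r)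
    have h4 := DFunLike.congr_fun h S
    rw [Finsupp.add_apply, del_apply, if_neg h3, add_zero] at h4
    exact hS h4
  · ext S
    by_contra hS
    have h2 := (h1 S hS).1
    have h3 : r ∉ S := fun h3 => absurd (Finset.mem_range.1 (h2 h3)) (lt_irrefl r)
    have h4 := DFunLike.congr_fun h (insert r S)
    rw [Finsupp.add_apply, del_apply, if_pos (Finset.mem_insert_self r S),
      Finset.erase_insert h3] at h4
    have h5 : g₀ (insert r S) = 0 := by
      by_contra h5
      exact absurd (Finset.mem_range.1 ((h0 _ h5).1 (Finset.mem_insert_self r S))) (lt_irrefl r)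
    rw [h5, zero_add] at h4
    exact hS h4

end IEl

open IEl

theorem pr_El : StEl := by
  refine ⟨del_del, del_comm, fun n r i f => el_del r n i f, fun n r m f hf => el_Ho r n m f hf,
    fun r m f hf => del_Ho hf, fun r m f hf => IEl.split hf,
    fun r m m' g₀ h0 g₁ h1 h => IEl.indep h0 h1 h, ?_⟩
  intro r m hrm f hf
  rw [mem_Ho] at hf
  ext S
  by_contra hS
  obtain ⟨h1, h2⟩ := hf S hS
  have h3 := Finset.card_le_card h1
  rw [Finset.card_range] at h3
  omega

end Pool.Agent.Work.MP_701abf_gt.TwT
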