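import Pool.Agent.Work.MP_701abf_gt.TwT.Stmts4

/-!
# Undetected classes, item Es: the class `esum`
-/

open MvPolynomial
open Pool.Agent.Work.MP_701abf_gt.Stab Pool.Agent.Work.MP_701abf_gt.Cob
open Pool.Agent.Work.MP_701abf_gt.Sq2

namespace Pool.Agent.Work.MP_701abf_gt.TwT

namespace IEs

lemma letters_map {r : ℕ} (a : ℕ → ℕ) (j : ℕ) (ha : ∀ i, i < r → 1 ≤ a i) (S : Finset (Fin r)) :
    letters (fun i => a i + j) S = (letters a S).map (· + j) := by
  unfold letters
  rw [List.map_flatMap]
  refine List.flatMap_congr fun i _ => ?_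
  have h := ha i i.2
  by_cases hi : i ∈ S
  · rw [if_pos hi, if_pos hi]
    have e : a i + j - 1 = a i - 1 + j := by omega
    simp only [List.map_cons, List.map_nil, e]
  · rw [if_neg hi, if_neg hi]
    rfl

lemma length_letters {r : ℕ} (a : ℕ → ℕ) (S : Finset (Fin r)) :
    (letters a S).length = r + S.card := by
  unfold letters
  rw [List.length_flatMap, ← Fin.sum_univ_def]
  have h : ∀ i : Fin r, (if i ∈ S then [a i - 1, a i - 1] else [a i]).length =
      1 + if i ∈ S then 1 else 0 := by
    intro i
    by_cases hi : i ∈ S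
    · rw [if_pos hi, if_pos hi]
      rfl
    · rw [if_neg hi, if_neg hi]
      rfl
  rw [Finset.sum_congr rfl fun i _ => h i, Finset.sum_add_distrib, Finset.sum_ite_mem,
    Finset.univ_inter]
  simp

lemma word_map (s : ℕ) (l : List ℕ) (j : ℕ) (hl : l.length = s) :
    word s (l.map (· + j)) = word s l ^ 2 ^ j := by
  unfold word
  rw [← Finset.prod_pow]
  refine Finset.prod_congr rfl fun v _ => ?_
  have h : (l.map (· + j)).getD v 0 = l.getD v 0 + j := by
    have hv : (v : ℕ) < l.length := by rw [hl]; exact v.2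
    rw [List.getD_eq_getElem _ _ (by rw [List.length_map]; exact hv), List.getD_eq_getElem _ _ hv,
      List.getElem_map]
  rw [h, ← pow_mul, ← pow_add]

lemma sum_map {M : Type*} [AddCommMonoid M] (r d : ℕ) (F : Finset ℕ → M) :
    ∑ S : Finset (Fin r) with S.card = d, F (S.map Fin.valEmbedding) =
      ∑ S ∈ (Finset.range r).powersetCard d, F S := by
  refine Finset.sum_bij (fun S _ => S.map Fin.valEmbedding) ?_ ?_ ?_ fun _ _ => rfl
  · intro S hS
    have hc := (Finset.mem_filter.1 hS).2
    rw [Finset.mem_powersetCard, Finset.card_map]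
    refine ⟨fun x hx => ?_, hc⟩
    obtain ⟨y, _, rfl⟩ := Finset.mem_map.1 hx
    exact Finset.mem_range.2 y.2
  · intro S _ T _ h
    exact Finset.map_injective _ h
  · intro T hT
    obtain ⟨hs, hc⟩ := Finset.mem_powersetCard.1 hT
    have e : (Finset.univ.filter fun i : Fin r => (i : ℕ) ∈ T).map Fin.valEmbedding = T := by
      ext x
      rw [Finset.mem_map]
      constructor
      · rintro ⟨y, hy, rfl⟩
        exact (Finset.mem_filter.1 hy).2
      · intro hx
        exact ⟨⟨x, Finset.mem_range.1 (hs hx)⟩, Finset.mem_filter.2 ⟨Finset.mem_univ _, hx⟩, rfl⟩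
    refine ⟨Finset.univ.filter fun i : Fin r => (i : ℕ) ∈ T, Finset.mem_filter.2
      ⟨Finset.mem_univ _, ?_⟩, e⟩
    rw [← hc]
    conv_rhs => rw [← e, Finset.card_map]

end IEs

open IEs

/-- Es. -/
theorem pr_Es (hWo : StWo) (hMl : StMl) : StEs := by
  refine ⟨fun r d a => ?_, fun r d j a ha => ?_⟩
  · unfold esum
    rw [map_sum, hMl.2.2.1, map_sum]
    have h1 : ∀ S ∈ Finset.univ.filter (fun S : Finset (Fin r) => S.card = d),
        th (r + d) (word (r + d) (letters a S)) = wd a (S.map Fin.valEmbedding) r := by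
      intro S hS
      have hc := (Finset.mem_filter.1 hS).2
      subst hc
      exact hWo r a S
    rw [Finset.sum_congr rfl h1, sum_map r d fun S => wd a S r]
    refine Finset.sum_congr rfl fun S _ => ?_
    unfold Ph
    rw [Finsupp.linearCombination_single, one_smul]
  · unfold esum
    rw [sum_pow_char_pow 2]
    refine Finset.sum_congr rfl fun S hS => ?_
    have hc := (Finset.mem_filter.1 hS).2
    rw [letters_map a j ha, word_map _ _ _ (by rw [length_letters, hc])]

end Pool.Agent.Work.MP_701abf_gt.TwT
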