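import Pool.Agent.Work.MP_701abf_gt.TwT.Stmts2

/-!
# The two-thirds law, half A, item Fr: the Frobenius map on words
-/

open MvPolynomial
open Pool.Agent.Work.MP_701abf_gt.Stab Pool.Agent.Work.MP_701abf_gt.Cob
open Pool.Agent.Work.MP_701abf_gt.Sq2

namespace Pool.Agent.Work.MP_701abf_gt.TwT

namespace IFr

lemma ha_add (b i : ℕ) : ha (b + i) = ha b ^ 2 ^ i := by
  unfold ha
  rw [← pow_mul, ← pow_add]

lemma kap_add {b : ℕ} (hb : 1 ≤ b) (i : ℕ) : kap (b + i) = kap b ^ 2 ^ i := by
  unfold kap
  have e : b + i - 1 = (b - 1) + i := by omega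
  rw [e, ha_add, map_pow, mul_pow]

lemma wd_add (i : ℕ) (a : ℕ → ℕ) (S : Finset ℕ) : ∀ r : ℕ, (∀ k, k < r → 1 ≤ a k) →
    wd (fun k => a k + i) S r = wd a S r ^ 2 ^ i := by
  intro r
  induction r with
  | zero =>
    intro _
    simp only [wd, one_pow]
  | succ r ih =>
    intro h
    have h1 := ih fun k hk => h k (by omega)
    simp only [wd]
    split_ifs
    · rw [h1, kap_add (h r (by omega)), map_pow, mul_pow]
    · rw [h1, ha_add, map_pow, mul_pow]

end IFr

theorem pr_Fr : StFr := by
  intro i r a f h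
  unfold Ph
  induction f using Finsupp.induction_linear with
  | zero =>
    rw [map_zero, map_zero, zero_pow (by positivity)]
  | add f g hf hg =>
    rw [map_add, map_add, hf, hg]
    exact (add_pow_char_pow (R := RR Empty) (p := 2) _ _ i).symm
  | single S c =>
    rw [Finsupp.linearCombination_single, Finsupp.linearCombination_single, IFr.wd_add i a S r h,
      smul_pow]
    congr 1
    have hc : c = 0 ∨ c = 1 := by
      revert c
      decide
    rcases hc with rfl | rfl
    · rw [zero_pow (by positivity)]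
    · rw [one_pow]

end Pool.Agent.Work.MP_701abf_gt.TwT
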