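import Pool.Agent.Work.MP_701abf_gt.TwT.Stmts2

/-! Item Iv (helper32): the products are the sums over the sets which satisfy a condition. -/

namespace Pool.Agent.Work.MP_701abf_gt.TwT

namespace IIv

open Classical in
/-- The sets of the condition. -/
noncomputable def A (r : ℕ) (F : Finset ℕ) (μ : ℕ → ℕ) : Finset (Finset ℕ) :=
  (Finset.range r).powerset.filter (Cnd r F μ)

theorem Inv_eq (r : ℕ) (F : Finset ℕ) (μ : ℕ → ℕ) :
    Inv r F μ = ∑ S ∈ A r F μ, Finsupp.single S 1 := by
  unfold Inv A
  rfl

theorem mem_A {r : ℕ} {F : Finset ℕ} {μ : ℕ → ℕ} {S : Finset ℕ} :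
    S ∈ A r F μ ↔ S ⊆ Finset.range r ∧ Cnd r F μ S := by
  unfold A
  simp only [Finset.mem_filter, Finset.mem_powerset]

theorem del_single (i : ℕ) (S : Finset ℕ) (h : i ∉ S) :
    del i (Finsupp.single S 1) = Finsupp.single (insert i S) 1 := by
  unfold del
  rw [Finsupp.linearCombination_single, if_neg h, one_smul]

theorem del_sum (i : ℕ) (B : Finset (Finset ℕ)) (h : ∀ S ∈ B, i ∉ S) :
    del i (∑ S ∈ B, Finsupp.single S 1) = ∑ T ∈ B.image (insert i), Finsupp.single T 1 := by
  rw [map_sum, Finset.sum_image]
  · exact Finset.sum_congr rfl fun S hS => del_single i S (h S hS)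
  · intro S hS T hT hST
    have hS' := h S hS
    have hT' := h T hT
    have := congrArg (fun X : Finset ℕ => X.erase i) hST
    simpa [Finset.erase_insert hS', Finset.erase_insert hT'] using this

theorem free_eq (r : ℕ) (F : Finset ℕ) (μ ν : ℕ → ℕ) (hF : F ⊆ Finset.range r)
    (h : ∀ i, i < r → ν i = μ i) : A (r + 1) (insert r F) ν = A r F μ := by
  ext S
  rw [mem_A, mem_A]
  constructor
  · rintro ⟨hS, hC⟩
    have hrS : r ∉ S := by
      have := hC r (Nat.lt_succ_self r)
      rwa [if_pos (Finset.mem_insert_self r F)] at this
    refine ⟨?_, ?_⟩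
    · intro i hi
      have := Finset.mem_range.1 (hS hi)
      have hne : i ≠ r := fun e => hrS (e ▸ hi)
      exact Finset.mem_range.2 (by omega)
    · intro i hi
      have := hC i (by omega)
      have e : (i ∈ insert r F) = (i ∈ F) := by
        rw [Finset.mem_insert]
        exact propext ⟨fun o => o.resolve_left (by omega), Or.inr⟩
      simp only [e, h i hi] at this
      exact this
  · rintro ⟨hS, hC⟩
    have hrS : r ∉ S := fun hh => by
      have := Finset.mem_range.1 (hS hh)
      omega
    refine ⟨hS.trans (Finset.range_mono (Nat.le_succ r)), ?_⟩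
    intro i hi
    rcases Nat.lt_succ_iff_lt_or_eq.1 hi with hi | hi
    · have := hC i hi
      have e : (i ∈ insert r F) = (i ∈ F) := by
        rw [Finset.mem_insert]
        exact propext ⟨fun o => o.resolve_left (by omega), Or.inr⟩
      simp only [e, h i hi]
      exact this
    · subst hi
      rw [if_pos (Finset.mem_insert_self i F)]
      exact hrS

theorem one_eq (r : ℕ) (F : Finset ℕ) (μ ν : ℕ → ℕ) (hF : F ⊆ Finset.range r)
    (h : ∀ i, i < r → ν i = μ i) (hμ : ∀ i, i < r → μ i < r) (hr : ν r = r) :
    A (r + 1) F ν = (A r F μ).image (insert r) := by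
  have hrF : r ∉ F := fun hh => by
    have := Finset.mem_range.1 (hF hh)
    omega
  ext T
  rw [mem_A, Finset.mem_image]
  constructor
  · rintro ⟨hT, hC⟩
    have hrT : r ∈ T := by
      have := hC r (Nat.lt_succ_self r)
      rwa [if_neg hrF, if_pos hr] at this
    refine ⟨T.erase r, mem_A.2 ⟨?_, ?_⟩, Finset.insert_erase hrT⟩
    · intro i hi
      have h1 := Finset.mem_range.1 (hT (Finset.mem_of_mem_erase hi))
      have h2 := Finset.ne_of_mem_erase hi
      exact Finset.mem_range.2 (by omega)
    · intro i hi
      have := hC i (by omega)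
      have hμi := hμ i hi
      have e1 : (i ∈ T.erase r) = (i ∈ T) := by
        rw [Finset.mem_erase]
        exact propext ⟨fun o => o.2, fun o => ⟨by omega, o⟩⟩
      have e2 : (μ i ∈ T.erase r) = (μ i ∈ T) := by
        rw [Finset.mem_erase]
        exact propext ⟨fun o => o.2, fun o => ⟨by omega, o⟩⟩
      rw [e1, e2]
      rw [h i hi] at this
      exact this
  · rintro ⟨S, hS, rfl⟩
    obtain ⟨hS, hC⟩ := mem_A.1 hS
    have hrS : r ∉ S := fun hh => by
      have := Finset.mem_range.1 (hS hh)
      omega
    refine ⟨?_, ?_⟩
    · intro i hi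
      rcases Finset.mem_insert.1 hi with hi | hi
      · exact Finset.mem_range.2 (by omega)
      · have := Finset.mem_range.1 (hS hi)
        exact Finset.mem_range.2 (by omega)
    · intro i hi
      rcases Nat.lt_succ_iff_lt_or_eq.1 hi with hi | hi
      · have := hC i hi
        have hμi := hμ i hi
        have e1 : (i ∈ insert r S) = (i ∈ S) := by
          rw [Finset.mem_insert]
          exact propext ⟨fun o => o.resolve_left (by omega), Or.inr⟩
        have e2 : (μ i ∈ insert r S) = (μ i ∈ S) := by
          rw [Finset.mem_insert]
          exact propext ⟨fun o => o.resolve_left (by omega), Or.inr⟩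
        rw [h i hi, e1, e2]
        exact this
      · subst hi
        rw [if_neg hrF, if_pos hr]
        exact Finset.mem_insert_self i S

theorem two_eq (r : ℕ) (F : Finset ℕ) (μ ν : ℕ → ℕ) (φ : ℕ) (hF : F ⊆ Finset.range r)
    (hφF : φ ∈ F) (hμ : ∀ i, i < r → μ i < r ∧ μ (μ i) = i) (hφ : μ φ = φ)
    (h : ∀ i, i < r → i ≠ φ → ν i = μ i) (hr : ν r = φ) (hνφ : ν φ = r) :
    A (r + 1) (F.erase φ) ν = (A r F μ).image (insert φ) ∪ (A r F μ).image (insert r) := by
  have hφr : φ < r := Finset.mem_range.1 (hF hφF)
  have hrF : r ∉ F := fun hh => by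
    have := Finset.mem_range.1 (hF hh)
    omega
  have hrF' : r ∉ F.erase φ := fun hh => hrF (Finset.mem_of_mem_erase hh)
  have hμφ : ∀ i, i < r → i ≠ φ → μ i ≠ φ := by
    intro i hi hne he
    have := (hμ i hi).2
    rw [he, hφ] at this
    exact hne this.symm
  ext T
  rw [mem_A, Finset.mem_union, Finset.mem_image, Finset.mem_image]
  constructor
  · rintro ⟨hT, hC⟩
    have hcond : (φ ∈ T ↔ r ∉ T) := by
      have := hC φ (by omega)
      rw [if_neg (Finset.notMem_erase φ F), hνφ, if_neg (by omega)] at this
      exact this
    by_cases hrT : r ∈ T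
    · right
      have hφT : φ ∉ T := fun hh => (hcond.1 hh) hrT
      refine ⟨T.erase r, mem_A.2 ⟨?_, ?_⟩, Finset.insert_erase hrT⟩
      · intro i hi
        have h1 := Finset.mem_range.1 (hT (Finset.mem_of_mem_erase hi))
        have h2 := Finset.ne_of_mem_erase hi
        exact Finset.mem_range.2 (by omega)
      · intro i hi
        have hμi := (hμ i hi).1
        have e1 : (i ∈ T.erase r) = (i ∈ T) := by
          rw [Finset.mem_erase]
          exact propext ⟨fun o => o.2, fun o => ⟨by omega, o⟩⟩
        have e2 : (μ i ∈ T.erase r) = (μ i ∈ T) := by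
          rw [Finset.mem_erase]
          exact propext ⟨fun o => o.2, fun o => ⟨by omega, o⟩⟩
        rw [e1, e2]
        by_cases hiφ : i = φ
        · subst hiφ
          rw [if_pos hφF]
          exact hφT
        · have := hC i (by omega)
          have e3 : (i ∈ F.erase φ) = (i ∈ F) := by
            rw [Finset.mem_erase]
            exact propext ⟨fun o => o.2, fun o => ⟨hiφ, o⟩⟩
          simp only [h i hi hiφ, e3] at this
          exact this
    · left
      have hφT : φ ∈ T := hcond.2 hrT
      refine ⟨T.erase φ, mem_A.2 ⟨?_, ?_⟩, Finset.insert_erase hφT⟩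
      · intro i hi
        have h1 := Finset.mem_range.1 (hT (Finset.mem_of_mem_erase hi))
        have h2 : i ≠ r := fun e => hrT (e ▸ Finset.mem_of_mem_erase hi)
        exact Finset.mem_range.2 (by omega)
      · intro i hi
        by_cases hiφ : i = φ
        · subst hiφ
          rw [if_pos hφF]
          exact Finset.notMem_erase i T
        · have hμi := hμφ i hi hiφ
          have e1 : (i ∈ T.erase φ) = (i ∈ T) := by
            rw [Finset.mem_erase]
            exact propext ⟨fun o => o.2, fun o => ⟨hiφ, o⟩⟩
          have e2 : (μ i ∈ T.erase φ) = (μ i ∈ T) := by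
            rw [Finset.mem_erase]
            exact propext ⟨fun o => o.2, fun o => ⟨hμi, o⟩⟩
          rw [e1, e2]
          have := hC i (by omega)
          have e3 : (i ∈ F.erase φ) = (i ∈ F) := by
            rw [Finset.mem_erase]
            exact propext ⟨fun o => o.2, fun o => ⟨hiφ, o⟩⟩
          simp only [h i hi hiφ, e3] at this
          exact this
  · intro hcase
    have main : ∀ S ∈ A r F μ, ∀ x, (x = φ ∨ x = r) →
        insert x S ⊆ Finset.range (r + 1) ∧ Cnd (r + 1) (F.erase φ) ν (insert x S) := by
      intro S hS x hx
      obtain ⟨hS, hC⟩ := mem_A.1 hS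
      have hrS : r ∉ S := fun hh => by
        have := Finset.mem_range.1 (hS hh)
        omega
      have hφS : φ ∉ S := by
        have := hC φ hφr
        rwa [if_pos hφF] at this
      have hxr : x ≤ r := by
        rcases hx with hx | hx <;> omega
      refine ⟨?_, ?_⟩
      · intro i hi
        rcases Finset.mem_insert.1 hi with hi | hi
        · exact Finset.mem_range.2 (by omega)
        · have := Finset.mem_range.1 (hS hi)
          exact Finset.mem_range.2 (by omega)
      · intro i hi
        rcases Nat.lt_succ_iff_lt_or_eq.1 hi with hi | hi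
        · by_cases hiφ : i = φ
          · subst hiφ
            rw [if_neg (Finset.notMem_erase i F), hνφ, if_neg (by omega)]
            rcases hx with hx | hx
            · subst hx
              constructor
              · intro _ hh
                rcases Finset.mem_insert.1 hh with hh | hh
                · omega
                · exact hrS hh
              · intro _
                exact Finset.mem_insert_self x S
            · subst hx
              constructor
              · intro hh
                rcases Finset.mem_insert.1 hh with hh | hh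
                · omega
                · exact absurd hh hφS
              · intro hh
                exact absurd (Finset.mem_insert_self x S) hh
          · have hμi := hμφ i hi hiφ
            have hμi' := (hμ i hi).1
            have hix : i ≠ x := by
              rcases hx with hx | hx <;> omega
            have hμx : μ i ≠ x := by
              rcases hx with hx | hx
              · rw [hx]
                exact hμi
              · omega
            have e1 : (i ∈ insert x S) = (i ∈ S) := by
              rw [Finset.mem_insert]
              exact propext ⟨fun o => o.resolve_left hix, Or.inr⟩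
            have e2 : (μ i ∈ insert x S) = (μ i ∈ S) := by
              rw [Finset.mem_insert]
              exact propext ⟨fun o => o.resolve_left hμx, Or.inr⟩
            have e3 : (i ∈ F.erase φ) = (i ∈ F) := by
              rw [Finset.mem_erase]
              exact propext ⟨fun o => o.2, fun o => ⟨hiφ, o⟩⟩
            have := hC i hi
            simp only [h i hi hiφ, e1, e2, e3]
            exact this
        · subst hi
          rw [if_neg hrF', hr, if_neg (by omega)]
          rcases hx with hx | hx
          · subst hx
            constructor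
            · intro hh
              rcases Finset.mem_insert.1 hh with hh | hh
              · omega
              · exact absurd hh hrS
            · intro hh
              exact absurd (Finset.mem_insert_self x S) hh
          · subst hx
            constructor
            · intro _ hh
              rcases Finset.mem_insert.1 hh with hh | hh
              · omega
              · exact hφS hh
            · intro _
              exact Finset.mem_insert_self x S
    rcases hcase with ⟨S, hS, rfl⟩ | ⟨S, hS, rfl⟩
    · exact main S hS φ (Or.inl rfl)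
    · exact main S hS r (Or.inr rfl)

theorem notMem_of_mem_A {r : ℕ} {F : Finset ℕ} {μ : ℕ → ℕ} {S : Finset ℕ} (hS : S ∈ A r F μ) :
    r ∉ S := fun hh => by
  have := Finset.mem_range.1 ((mem_A.1 hS).1 hh)
  omega

theorem free_Inv (r : ℕ) (F : Finset ℕ) (μ ν : ℕ → ℕ) (hF : F ⊆ Finset.range r)
    (h : ∀ i, i < r → ν i = μ i) : Inv (r + 1) (insert r F) ν = Inv r F μ := by
  rw [Inv_eq, Inv_eq, free_eq r F μ ν hF h]

theorem one_Inv (r : ℕ) (F : Finset ℕ) (μ ν : ℕ → ℕ) (hF : F ⊆ Finset.range r)
    (h : ∀ i, i < r → ν i = μ i) (hμ : ∀ i, i < r → μ i < r) (hr : ν r = r) :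
    Inv (r + 1) F ν = del r (Inv r F μ) := by
  rw [Inv_eq, Inv_eq, one_eq r F μ ν hF h hμ hr, del_sum]
  intro S hS
  exact notMem_of_mem_A hS

theorem two_Inv (r : ℕ) (F : Finset ℕ) (μ ν : ℕ → ℕ) (φ : ℕ) (hF : F ⊆ Finset.range r)
    (hφF : φ ∈ F) (hμ : ∀ i, i < r → μ i < r ∧ μ (μ i) = i) (hφ : μ φ = φ)
    (h : ∀ i, i < r → i ≠ φ → ν i = μ i) (hr : ν r = φ) (hνφ : ν φ = r) :
    Inv (r + 1) (F.erase φ) ν = del φ (Inv r F μ) + del r (Inv r F μ) := by
  have hφr : φ < r := Finset.mem_range.1 (hF hφF)
  rw [Inv_eq, Inv_eq, two_eq r F μ ν φ hF hφF hμ hφ h hr hνφ, del_sum, del_sum,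
    Finset.sum_union]
  · rw [Finset.disjoint_left]
    intro T hT hT'
    obtain ⟨S, hS, rfl⟩ := Finset.mem_image.1 hT
    obtain ⟨S', hS', e⟩ := Finset.mem_image.1 hT'
    have : r ∈ insert φ S := by
      rw [← e]
      exact Finset.mem_insert_self r S'
    rcases Finset.mem_insert.1 this with hh | hh
    · omega
    · exact notMem_of_mem_A hS hh
  · intro S hS
    exact notMem_of_mem_A hS
  · intro S hS
    have := (mem_A.1 hS).2 φ hφr
    rwa [if_pos hφF] at this

theorem zero_Inv (μ : ℕ → ℕ) : Inv 0 ∅ μ = Finsupp.single ∅ 1 := by
  rw [Inv_eq]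
  have : A 0 ∅ μ = {∅} := by
    ext S
    rw [mem_A, Finset.range_zero, Finset.subset_empty, Finset.mem_singleton]
    constructor
    · exact fun o => o.1
    · intro o
      refine ⟨o, ?_⟩
      intro i hi
      omega
  rw [this, Finset.sum_singleton]

theorem part1 {r m : ℕ} {F : Finset ℕ} {P : Lam} (hK : KP r m F P) :
    F ⊆ Finset.range r ∧ ∃ μ : ℕ → ℕ, (∀ i, i < r → μ i < r ∧ μ (μ i) = i) ∧
      (∀ i ∈ F, μ i = i) ∧ P = Inv r F μ := by
  induction hK with
  | nil =>
    refine ⟨Finset.empty_subset _, fun i => i, ?_, ?_, ?_⟩
    · intro i hi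
      omega
    · intro i hi
      rfl
    · exact (zero_Inv _).symm
  | @free r m F P hK ih =>
    obtain ⟨hF, μ, hμ, hμF, hP⟩ := ih
    have hsub : insert r F ⊆ Finset.range (r + 1) := by
      intro i hi
      rcases Finset.mem_insert.1 hi with hi | hi
      · exact Finset.mem_range.2 (by omega)
      · have := Finset.mem_range.1 (hF hi)
        exact Finset.mem_range.2 (by omega)
    have hag : ∀ i, i < r → Function.update μ r r i = μ i := by
      intro i hi
      rw [Function.update_of_ne (by omega)]
    refine ⟨hsub, Function.update μ r r, ?_, ?_, ?_⟩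
    · intro i hi
      rcases Nat.lt_succ_iff_lt_or_eq.1 hi with hi | hi
      · rw [hag i hi, hag _ (hμ i hi).1]
        exact ⟨by have := (hμ i hi).1; omega, (hμ i hi).2⟩
      · subst hi
        rw [Function.update_self, Function.update_self]
        exact ⟨by omega, rfl⟩
    · intro i hi
      rcases Finset.mem_insert.1 hi with hi | hi
      · subst hi
        rw [Function.update_self]
      · rw [hag i (Finset.mem_range.1 (hF hi))]
        exact hμF i hi
    · rw [free_Inv r F μ _ hF hag]
      exact hP
  | @one r m F P hK ih =>
    obtain ⟨hF, μ, hμ, hμF, hP⟩ := ih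
    have hag : ∀ i, i < r → Function.update μ r r i = μ i := by
      intro i hi
      rw [Function.update_of_ne (by omega)]
    refine ⟨hF.trans (Finset.range_mono (Nat.le_succ r)), Function.update μ r r, ?_, ?_, ?_⟩
    · intro i hi
      rcases Nat.lt_succ_iff_lt_or_eq.1 hi with hi | hi
      · rw [hag i hi, hag _ (hμ i hi).1]
        exact ⟨by have := (hμ i hi).1; omega, (hμ i hi).2⟩
      · subst hi
        rw [Function.update_self, Function.update_self]
        exact ⟨by omega, rfl⟩
    · intro i hi
      rw [hag i (Finset.mem_range.1 (hF hi))]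
      exact hμF i hi
    · rw [one_Inv r F μ _ hF hag (fun i hi => (hμ i hi).1) (Function.update_self _ _ _), hP]
  | @two r m F P hK φ hφ ih =>
    obtain ⟨hF, μ, hμ, hμF, hP⟩ := ih
    have hφr : φ < r := Finset.mem_range.1 (hF hφ)
    have hμφ := hμF φ hφ
    let ν : ℕ → ℕ := Function.update (Function.update μ r φ) φ r
    have hν1 : ν φ = r := Function.update_self _ _ _
    have hν2 : ν r = φ := by
      show Function.update (Function.update μ r φ) φ r r = φ
      rw [Function.update_of_ne (by omega), Function.update_self]
    have hν3 : ∀ i, i < r → i ≠ φ → ν i = μ i := by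
      intro i hi hne
      show Function.update (Function.update μ r φ) φ r i = μ i
      rw [Function.update_of_ne hne, Function.update_of_ne (by omega)]
    refine ⟨?_, ν, ?_, ?_, ?_⟩
    · intro i hi
      have := Finset.mem_range.1 (hF (Finset.mem_of_mem_erase hi))
      exact Finset.mem_range.2 (by omega)
    · intro i hi
      rcases Nat.lt_succ_iff_lt_or_eq.1 hi with hi | hi
      · by_cases hiφ : i = φ
        · subst hiφ
          rw [hν1]
          exact ⟨by omega, hν2⟩
        · have h1 := hμ i hi
          have h2 : μ i ≠ φ := by
            intro he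
            have := h1.2
            rw [he, hμφ] at this
            exact hiφ this.symm
          rw [hν3 i hi hiφ, hν3 _ h1.1 h2]
          exact ⟨by omega, h1.2⟩
      · subst hi
        rw [hν2]
        exact ⟨by omega, hν1⟩
    · intro i hi
      have h1 := Finset.mem_of_mem_erase hi
      rw [hν3 i (Finset.mem_range.1 (hF h1)) (Finset.ne_of_mem_erase hi)]
      exact hμF i h1
    · rw [two_Inv r F μ ν φ hF hφ hμ hμφ hν3 hν2 hν1, hP]

theorem part2 (r : ℕ) : ∀ (F : Finset ℕ) (μ : ℕ → ℕ), F ⊆ Finset.range r →
    (∀ i, i < r → μ i < r ∧ μ (μ i) = i) → (∀ i ∈ F, μ i = i) → ∃ m, KP r m F (Inv r F μ) := by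
  induction r with
  | zero =>
    intro F μ hF _ _
    have : F = ∅ := by
      rwa [Finset.range_zero, Finset.subset_empty] at hF
    subst this
    refine ⟨0, ?_⟩
    rw [zero_Inv]
    exact KP.nil
  | succ r ih =>
    intro F μ hF hμ hμF
    have hμr := hμ r (Nat.lt_succ_self r)
    by_cases hrF : r ∈ F
    · have hr := hμF r hrF
      have hF' : F.erase r ⊆ Finset.range r := by
        intro i hi
        have h1 := Finset.mem_range.1 (hF (Finset.mem_of_mem_erase hi))
        have h2 := Finset.ne_of_mem_erase hi
        exact Finset.mem_range.2 (by omega)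
      obtain ⟨m, hm⟩ := ih (F.erase r) μ hF' (by
        intro i hi
        have h1 := hμ i (by omega)
        have h2 : μ i ≠ r := by
          intro he
          have := h1.2
          rw [he, hr] at this
          omega
        exact ⟨by omega, h1.2⟩) (fun i hi => hμF i (Finset.mem_of_mem_erase hi))
      refine ⟨m, ?_⟩
      have h3 := KP.free hm
      have h4 := free_Inv r (F.erase r) μ μ hF' (fun i _ => rfl)
      rw [Finset.insert_erase hrF] at h3 h4
      rw [h4]
      exact h3
    · have hF' : F ⊆ Finset.range r := by
        intro i hi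
        have h1 := Finset.mem_range.1 (hF hi)
        have h2 : i ≠ r := fun e => hrF (e ▸ hi)
        exact Finset.mem_range.2 (by omega)
      by_cases hr : μ r = r
      · have hlt : ∀ i, i < r → μ i < r := by
          intro i hi
          have h1 := hμ i (by omega)
          have h2 : μ i ≠ r := by
            intro he
            have := h1.2
            rw [he, hr] at this
            omega
          omega
        obtain ⟨m, hm⟩ := ih F μ hF' (fun i hi => ⟨hlt i hi, (hμ i (by omega)).2⟩) hμF
        refine ⟨m + 1, ?_⟩
        rw [one_Inv r F μ μ hF' (fun i _ => rfl) hlt hr]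
        exact KP.one hm
      · have hφr : μ r < r := by
          have := hμr.1
          omega
        have hφF : μ r ∉ F := by
          intro hh
          have := hμF _ hh
          rw [hμr.2] at this
          exact hr this.symm
        let φ := μ r
        have hμφ : μ φ = r := hμr.2
        let μ' : ℕ → ℕ := Function.update μ φ φ
        have h1' : μ' φ = φ := Function.update_self _ _ _
        have h2' : ∀ i, i ≠ φ → μ' i = μ i := fun i hi => Function.update_of_ne hi _ _
        have hsub : insert φ F ⊆ Finset.range r := by
          intro i hi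
          rcases Finset.mem_insert.1 hi with hi | hi
          · rw [hi]
            exact Finset.mem_range.2 hφr
          · exact hF' hi
        have hμ' : ∀ i, i < r → μ' i < r ∧ μ' (μ' i) = i := by
          intro i hi
          by_cases hiφ : i = φ
          · rw [hiφ, h1']
            exact ⟨hφr, h1'⟩
          · have h3 := hμ i (by omega)
            have h4 : μ i ≠ r := by
              intro he
              have := h3.2
              rw [he] at this
              exact hiφ this.symm
            have h5 : μ i ≠ φ := by
              intro he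
              have := h3.2
              rw [he, hμφ] at this
              omega
            rw [h2' i hiφ, h2' _ h5]
            exact ⟨by omega, h3.2⟩
        have hμF' : ∀ i ∈ insert φ F, μ' i = i := by
          intro i hi
          by_cases hiφ : i = φ
          · rw [hiφ, h1']
          · rw [h2' i hiφ]
            exact hμF i ((Finset.mem_insert.1 hi).resolve_left hiφ)
        obtain ⟨m, hm⟩ := ih (insert φ F) μ' hsub hμ' hμF'
        refine ⟨m + 1, ?_⟩
        have h6 := KP.two hm φ (Finset.mem_insert_self φ F)
        have h7 := two_Inv r (insert φ F) μ' μ φ hsub (Finset.mem_insert_self φ F) hμ' h1'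
          (fun i _ hne => (h2' i hne).symm) rfl hμφ
        rw [Finset.erase_insert hφF] at h6 h7
        rw [h7]
        exact h6

end IIv

/-- Item Iv. -/
theorem pr_Iv : StIv :=
  ⟨fun _ _ _ _ hK => (IIv.part1 hK).2, fun r F μ hF hμ hμF => IIv.part2 r F μ hF hμ hμF⟩

end Pool.Agent.Work.MP_701abf_gt.TwT
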