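import Pool.Agent.Work.MP_701abf_gt.TwT.Stmts4

/-! Item Ke (helper32): one class. -/

namespace Pool.Agent.Work.MP_701abf_gt.TwT

namespace IKe

theorem even_choose (k n D j : ℕ) (hj : 1 ≤ j) (hD : 1 ≤ D) (hDj : D + j = 2 ^ k) (hn : j ≤ n)
    (hn2 : n < 2 ^ k) : (((n + D).choose n : ℕ) : ZMod 2) = 0 := by
  have hk1 : 1 ≤ k := by
    rcases Nat.eq_zero_or_pos k with hk | hk
    · subst hk
      simp at hDj
      omega
    · exact hk
  have : Fact (Nat.Prime 2) := ⟨Nat.prime_two⟩
  have hlog : k ≤ Nat.log 2 (n + D) := by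
    apply Nat.le_log_of_pow_le (by norm_num)
    omega
  have h := padicValNat_choose (p := 2) (n := n + D) (k := n) (b := Nat.log 2 (n + D) + 1)
    (Nat.le_add_right n D) (Nat.lt_succ_self _)
  have hmem : k ∈ (Finset.Ico 1 (Nat.log 2 (n + D) + 1)).filter
      (fun i => 2 ^ i ≤ n % 2 ^ i + (n + D - n) % 2 ^ i) := by
    rw [Finset.mem_filter, Finset.mem_Ico]
    refine ⟨⟨hk1, by omega⟩, ?_⟩
    rw [Nat.add_sub_cancel_left, Nat.mod_eq_of_lt hn2, Nat.mod_eq_of_lt (by omega)]
    omega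
  have hpos : 0 < padicValNat 2 ((n + D).choose n) := by
    rw [h]
    exact Finset.card_pos.2 ⟨k, hmem⟩
  have hdvd : 2 ∣ (n + D).choose n := dvd_of_one_le_padicValNat hpos
  exact (ZMod.natCast_eq_zero_iff _ _).2 hdvd

theorem add_self (f : Lam) : f + f = 0 := by
  have h : (2 : ZMod 2) • f = f + f := two_smul _ _
  rw [← h, show (2 : ZMod 2) = 0 from rfl, zero_smul]

theorem el_succ (n r : ℕ) (f : Lam) : el (n + 1) (r + 1) f = el (n + 1) r f + del r (el n r f) :=
  rfl

theorem low (hEl : StEl) (hLm : StLm) (k r D j : ℕ) (hj : 1 ≤ j) (hD : 1 ≤ D)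
    (hDj : D + j = 2 ^ k)
    (hr : 2 * D + j ≤ r + 1) (g : Lam) (hg : g ∈ Ho r D)
    (h : ∀ n, j ≤ n → n < 2 ^ k → el n (r + 1) g = 0) : g = 0 := by
  obtain ⟨-, -, -, h4, -, -, h7, -⟩ := hEl
  have key : ∀ n, j ≤ n → n < 2 ^ k → el n r g = 0 ∧ el (n - 1) r g = 0 := by
    intro n hn hn2
    obtain ⟨n', rfl⟩ : ∃ n', n = n' + 1 := ⟨n - 1, by omega⟩
    have h1 := h (n' + 1) hn hn2
    rw [el_succ] at h1
    exact h7 r (D + (n' + 1)) (D + n') _ (h4 _ _ _ _ hg) _ (h4 _ _ _ _ hg) h1
  apply hLm r D (j - 1) (2 ^ k) (by omega) (by omega) g hg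
  intro n hn hn2
  by_cases hnj : j ≤ n
  · exact (key n hnj hn2).1
  · have : n = j - 1 := by omega
    subst this
    exact (key j le_rfl (by omega)).2

theorem zero_case (r : ℕ) (f : Lam) (hf : f ∈ Ho r 0) :
    f = 0 ∨ f = Finsupp.single ∅ 1 := by
  have hs : ∀ S, S ≠ ∅ → f S = 0 := by
    intro S hS
    by_contra hne
    have h1 : S ∈ (f.support : Set (Finset ℕ)) := Finset.mem_coe.2 (Finsupp.mem_support_iff.2 hne)
    have h2 := ((Finsupp.mem_supported (ZMod 2) f).1 hf) h1
    exact hS (Finset.card_eq_zero.1 h2.2)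
  have h3 : f ∅ = 0 ∨ f ∅ = 1 := by
    generalize f ∅ = x
    revert x
    decide
  rcases h3 with h3 | h3
  · left
    ext S
    by_cases hS : S = ∅
    · subst hS
      rw [h3]
      rfl
    · rw [hs S hS]
      rfl
  · right
    ext S
    by_cases hS : S = ∅
    · subst hS
      rw [h3, Finsupp.single_eq_same]
    · rw [hs S hS, Finsupp.single_eq_of_ne hS]

theorem main (hEl : StEl) (hMl : StMl) (hLm : StLm) (k : ℕ) : ∀ r D j : ℕ, 1 ≤ j → D + j = 2 ^ k →
    (D = 0 ∨ 2 * D + j ≤ r) → ∀ f ∈ Ho r D,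
    (∀ n, j ≤ n → n < 2 ^ k → el n r f = 0) → f = 0 ∨ f = el D r (Finsupp.single ∅ 1) := by
  intro r
  induction r with
  | zero =>
    intro D j hj hDj hor f hf _
    have hD : D = 0 := by omega
    subst hD
    exact zero_case 0 f hf
  | succ r ih =>
    intro D j hj hDj hor f hf h
    rcases Nat.eq_zero_or_pos D with hD | hD
    · subst hD
      exact zero_case (r + 1) f hf
    have hr : 2 * D + j ≤ r + 1 := by omega
    have hEl' := hEl
    obtain ⟨h1, -, h3, h4, -, h6, h7, -⟩ := hEl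
    obtain ⟨f₀, hf₀, -, hex⟩ := h6 r D f hf
    obtain ⟨f₁, hf₁, hfe⟩ := hex hD
    obtain ⟨D', rfl⟩ : ∃ D', D = D' + 1 := ⟨D - 1, by omega⟩
    rw [Nat.add_sub_cancel] at hf₁
    have key : ∀ n, j ≤ n → n < 2 ^ k →
        el n r f₀ = 0 ∧ el n r f₁ + el (n - 1) r f₀ = 0 := by
      intro n hn hn2
      obtain ⟨n', rfl⟩ : ∃ n', n = n' + 1 := ⟨n - 1, by omega⟩
      have e1 := h (n' + 1) hn hn2
      rw [el_succ, hfe, map_add, map_add, map_add, h3, h3, h1, add_zero] at e1
      have e2 : el (n' + 1) r f₀ + del r (el (n' + 1) r f₁ + el n' r f₀) = 0 := by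
        rw [map_add]
        rw [← e1]
        abel
      have m1 : el (n' + 1) r f₁ + el n' r f₀ ∈ Ho r (D' + (n' + 1)) := by
        apply Submodule.add_mem _ (h4 _ _ _ _ hf₁)
        have := h4 n' r (D' + 1) f₀ hf₀
        rwa [show D' + 1 + n' = D' + (n' + 1) by ring] at this
      exact h7 r _ _ _ (h4 _ _ _ _ hf₀) _ m1 e2
    have hcase := ih D' (j + 1) (by omega) (by omega) (by
      right
      omega) f₁ hf₁ (by
      intro n hn hn2
      have e1 := (key n (by omega) hn2).2
      have e2 := (key (n - 1) (by omega) (by omega)).1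
      rw [e2, add_zero] at e1
      exact e1)
    rcases hcase with hc | hc
    · left
      rw [hc, map_zero, add_zero] at hfe
      rw [hfe]
      apply low hEl' hLm k r (D' + 1) j hj (by omega) hDj hr f₀ hf₀
      intro n hn hn2
      rw [← hfe]
      exact h n hn hn2
    · right
      have e1 : f + el (D' + 1) (r + 1) (Finsupp.single ∅ 1) =
          f₀ + el (D' + 1) r (Finsupp.single ∅ 1) := by
        rw [el_succ, hfe, hc]
        have := add_self (del r (el D' r (Finsupp.single ∅ 1)))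
        calc f₀ + del r (el D' r (Finsupp.single ∅ 1)) +
              (el (D' + 1) r (Finsupp.single ∅ 1) + del r (el D' r (Finsupp.single ∅ 1)))
            = f₀ + el (D' + 1) r (Finsupp.single ∅ 1) +
              (del r (el D' r (Finsupp.single ∅ 1)) + del r (el D' r (Finsupp.single ∅ 1))) := by
              abel
          _ = _ := by rw [this, add_zero]
      have m0 : (Finsupp.single ∅ 1 : Lam) ∈ Ho r 0 := by
        apply Finsupp.single_mem_supported
        exact ⟨Finset.empty_subset _, rfl⟩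
      have m1 : f₀ + el (D' + 1) r (Finsupp.single ∅ 1) ∈ Ho r (D' + 1) := by
        apply Submodule.add_mem _ hf₀
        have := h4 (D' + 1) r 0 _ m0
        rwa [zero_add] at this
      have e2 : f₀ + el (D' + 1) r (Finsupp.single ∅ 1) = 0 := by
        apply low hEl' hLm k r (D' + 1) j hj (by omega) hDj hr _ m1
        intro n hn hn2
        rw [← e1, map_add, h n hn hn2, zero_add, hMl.1,
          even_choose k n (D' + 1) j hj (by omega) hDj hn hn2, zero_smul]
      rw [e2] at e1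
      calc f = f + (el (D' + 1) (r + 1) (Finsupp.single ∅ 1) +
            el (D' + 1) (r + 1) (Finsupp.single ∅ 1)) := by rw [add_self, add_zero]
        _ = (f + el (D' + 1) (r + 1) (Finsupp.single ∅ 1)) +
            el (D' + 1) (r + 1) (Finsupp.single ∅ 1) := by abel
        _ = _ := by rw [e1, zero_add]

end IKe

/-- Item Ke. -/
theorem pr_Ke (hEl : StEl) (hMl : StMl) (hLm : StLm) : StKe :=
  fun k r D j hj hDj hor f hf h => IKe.main hEl hMl hLm k r D j hj hDj hor f hf h

end Pool.Agent.Work.MP_701abf_gt.TwT
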