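import Pool.Agent.Work.MP_701abf_gt.TwT.Stmts2

/-!
# The two-thirds law, half A, item Kl: the spaces `KS`
-/

open MvPolynomial
open Pool.Agent.Work.MP_701abf_gt.Stab Pool.Agent.Work.MP_701abf_gt.Cob
open Pool.Agent.Work.MP_701abf_gt.Sq2

namespace Pool.Agent.Work.MP_701abf_gt.TwT

namespace IKl

theorem del_single (i : ℕ) (S : Finset ℕ) : del i (Finsupp.single S 1) =
    if i ∈ S then (0 : Lam) else Finsupp.single (insert i S) 1 := by
  unfold del
  rw [Finsupp.linearCombination_single, one_smul]

theorem del_Ho {φ r m : ℕ} (hφ : φ < r) {f : Lam} (hf : f ∈ Ho r m) :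
    del φ f ∈ Ho r (m + 1) := by
  unfold Ho at hf
  rw [Finsupp.supported_eq_span_single] at hf
  induction hf using Submodule.span_induction with
  | mem x hx =>
    obtain ⟨S, ⟨hS1, hS2⟩, rfl⟩ := hx
    show del φ (Finsupp.single S 1) ∈ Ho r (m + 1)
    rw [del_single]
    by_cases h : φ ∈ S
    · rw [if_pos h]
      exact Submodule.zero_mem _
    · rw [if_neg h]
      refine Finsupp.single_mem_supported _ _ ⟨?_, ?_⟩
      · intro y hy
        rcases Finset.mem_insert.1 hy with h1 | h1
        · rw [h1]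
          exact Finset.mem_range.2 hφ
        · exact hS1 h1
      · rw [Finset.card_insert_of_notMem h, hS2]
  | zero => rw [map_zero]; exact Submodule.zero_mem _
  | add x y _ _ hx hy => rw [map_add]; exact Submodule.add_mem _ hx hy
  | smul c x _ hx => rw [map_smul]; exact Submodule.smul_mem _ c hx

end IKl

open IKl in
/-- Kl. -/
theorem pr_Kl (hKv : StKv) : StKl := by
  refine ⟨?_, ?_, ?_⟩
  · intro j r m hj g hg
    unfold KS at hg
    induction hg using Submodule.span_induction with
    | mem P hP =>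
      obtain ⟨F, hF, hK⟩ := hP
      obtain ⟨k1, k2, -⟩ := hKv r m F P hK
      by_cases hc : F.card < j
      · refine ⟨0, Submodule.zero_mem _, ?_⟩
        rw [zero_add]
        exact Submodule.subset_span ⟨F, hc, KP.one hK⟩
      · have hcard : F.card = j := by omega
        obtain ⟨φ, hφ⟩ := Finset.card_pos.1 (by omega : 0 < F.card)
        refine ⟨del φ P, del_Ho (Finset.mem_range.1 (k2 hφ)) k1, ?_⟩
        refine Submodule.subset_span ⟨F.erase φ, ?_, KP.two hK φ hφ⟩
        rw [Finset.card_erase_of_mem hφ]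
        omega
    | zero =>
      refine ⟨0, Submodule.zero_mem _, ?_⟩
      rw [map_zero, zero_add]
      exact Submodule.zero_mem _
    | add x y _ _ hx hy =>
      obtain ⟨G, hG, hG2⟩ := hx
      obtain ⟨G', hG', hG2'⟩ := hy
      refine ⟨G + G', Submodule.add_mem _ hG hG', ?_⟩
      rw [map_add, add_add_add_comm]
      exact Submodule.add_mem _ hG2 hG2'
    | smul c x _ hx =>
      obtain ⟨G, hG, hG2⟩ := hx
      refine ⟨c • G, Submodule.smul_mem _ c hG, ?_⟩
      rw [map_smul, ← smul_add]
      exact Submodule.smul_mem _ c hG2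
  · intro j r m g hg
    refine Submodule.span_mono ?_ hg
    rintro P ⟨F, hF, hK⟩
    exact ⟨insert r F, lt_of_le_of_lt (Finset.card_insert_le r F) (by omega), KP.free hK⟩
  · intro j r m g hg
    unfold KS at hg
    induction hg using Submodule.span_induction with
    | mem P hP =>
      obtain ⟨F, hF, hK⟩ := hP
      obtain ⟨k1, -, k3⟩ := hKv r m F P hK
      exact ⟨k1, fun n hn => k3 n (lt_of_lt_of_le hF hn)⟩
    | zero => exact ⟨Submodule.zero_mem _, fun n _ => map_zero _⟩
    | add x y _ _ hx hy =>
      refine ⟨Submodule.add_mem _ hx.1 hy.1, fun n hn => ?_⟩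
      rw [map_add, hx.2 n hn, hy.2 n hn, add_zero]
    | smul c x _ hx =>
      refine ⟨Submodule.smul_mem _ c hx.1, fun n hn => ?_⟩
      rw [map_smul, hx.2 n hn, smul_zero]

end Pool.Agent.Work.MP_701abf_gt.TwT
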