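import Pool.Agent.Work.MP_701abf_gt.TwT.Stmts2

/-!
# The two-thirds law, half A: item Kv (elementary symmetric functions)
-/

open MvPolynomial
open Pool.Agent.Work.MP_701abf_gt.Stab Pool.Agent.Work.MP_701abf_gt.Cob
open Pool.Agent.Work.MP_701abf_gt.Sq2

namespace Pool.Agent.Work.MP_701abf_gt.TwT

namespace IKv

/-- Multiplication by the elementary symmetric function of a list of letters. -/
noncomputable def E : ℕ → List ℕ → Lam →ₗ[ZMod 2] Lam
  | 0, _ => LinearMap.id
  | _ + 1, [] => 0
  | n + 1, x :: l => E (n + 1) l + (del x).comp (E n l)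

lemma E_zero (l : List ℕ) (f : Lam) : E 0 l f = f := by
  cases l <;> rfl

lemma E_nil (n : ℕ) (f : Lam) : E (n + 1) [] f = 0 := rfl

lemma E_cons (n : ℕ) (x : ℕ) (l : List ℕ) (f : Lam) :
    E (n + 1) (x :: l) f = E (n + 1) l f + del x (E n l f) := by
  simp only [E, LinearMap.add_apply, LinearMap.comp_apply]

lemma E_del (hc : ∀ i j f, del i (del j f) = del j (del i f)) (l : List ℕ) :
    ∀ n i f, E n l (del i f) = del i (E n l f) := by
  induction l with
  | nil =>
    intro n i f
    cases n with
    | zero => rw [E_zero, E_zero]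
    | succ n => rw [E_nil, E_nil, map_zero]
  | cons x l ih =>
    intro n i f
    cases n with
    | zero => rw [E_zero, E_zero]
    | succ n => rw [E_cons, E_cons, ih, ih, map_add, hc x i]

lemma E_perm (hc : ∀ i j f, del i (del j f) = del j (del i f)) {l l' : List ℕ}
    (hp : l.Perm l') : ∀ n f, E n l f = E n l' f := by
  induction hp with
  | nil => intro n f; rfl
  | cons x _ ih =>
    intro n f
    cases n with
    | zero => rw [E_zero, E_zero]
    | succ n => rw [E_cons, E_cons, ih, ih]
  | swap x y l =>
    intro n f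
    cases n with
    | zero => rw [E_zero, E_zero]
    | succ n =>
      cases n with
      | zero =>
        rw [E_cons, E_cons, E_cons, E_cons, E_zero, E_zero, E_zero]
        abel
      | succ n =>
        rw [E_cons, E_cons, E_cons, E_cons, E_cons, E_cons, map_add, map_add, hc x y]
        abel
  | trans _ _ ih1 ih2 =>
    intro n f
    rw [ih1, ih2]

lemma E_len (l : List ℕ) : ∀ n, l.length < n → ∀ f, E n l f = 0 := by
  induction l with
  | nil =>
    intro n hn f
    cases n with
    | zero => exact absurd hn (by simp)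
    | succ n => exact E_nil n f
  | cons x l ih =>
    intro n hn f
    rw [List.length_cons] at hn
    cases n with
    | zero => exact absurd hn (by omega)
    | succ n => rw [E_cons, ih (n + 1) (by omega), ih n (by omega), map_zero, add_zero]

lemma el_zero (r : ℕ) (f : Lam) : el 0 r f = f := by
  cases r <;> rfl

lemma el_nil (n : ℕ) (f : Lam) : el (n + 1) 0 f = 0 := rfl

lemma el_succ (n r : ℕ) (f : Lam) : el (n + 1) (r + 1) f = el (n + 1) r f + del r (el n r f) := by
  simp only [el, LinearMap.add_apply, LinearMap.comp_apply]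

lemma Ho_mono {r r' : ℕ} (h : r ≤ r') (m : ℕ) {f : Lam} (hf : f ∈ Ho r m) : f ∈ Ho r' m := by
  refine Finsupp.supported_mono ?_ hf
  rintro S ⟨h1, h2⟩
  exact ⟨h1.trans (Finset.range_mono h), h2⟩

lemma del_single (i : ℕ) (S : Finset ℕ) (c : ZMod 2) :
    del i (Finsupp.single S c) = c • (if i ∈ S then (0 : Lam) else Finsupp.single (insert i S) 1) := by
  unfold del
  rw [Finsupp.linearCombination_single]

lemma Ho_del {r m i : ℕ} (hi : i < r) {f : Lam} (hf : f ∈ Ho r m) : del i f ∈ Ho r (m + 1) := by
  unfold Ho at hf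
  rw [Finsupp.supported_eq_span_single] at hf
  induction hf using Submodule.span_induction with
  | mem x hx =>
    obtain ⟨S, ⟨h1, h2⟩, rfl⟩ := hx
    simp only
    rw [del_single, one_smul]
    split_ifs with h
    · exact Submodule.zero_mem _
    · refine Finsupp.single_mem_supported (ZMod 2) _ ?_
      refine ⟨?_, ?_⟩
      · intro x hx
        rcases Finset.mem_insert.1 hx with rfl | hx
        · exact Finset.mem_range.2 hi
        · exact h1 hx
      · rw [Finset.card_insert_of_notMem h, h2]
  | zero => rw [map_zero]; exact Submodule.zero_mem _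
  | add x y _ _ hx hy => rw [map_add]; exact Submodule.add_mem _ hx hy
  | smul a x _ hx => rw [map_smul]; exact Submodule.smul_mem _ _ hx

lemma key (h1 : ∀ i f, del i (del i f) = 0) (hc : ∀ i j f, del i (del j f) = del j (del i f))
    (h3 : ∀ n r i f, el n r (del i f) = del i (el n r f)) {r m : ℕ} {F : Finset ℕ} {P : Lam}
    (h : KP r m F P) : P ∈ Ho r m ∧ F ⊆ Finset.range r ∧
      ∃ l : List ℕ, l.Nodup ∧ l.toFinset = F ∧ ∀ n, el n r P = E n l P := by
  induction h with
  | nil =>
    refine ⟨Finsupp.single_mem_supported (ZMod 2) _ ⟨Finset.empty_subset _, rfl⟩,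
      Finset.empty_subset _, [], List.nodup_nil, rfl, ?_⟩
    intro n
    cases n with
    | zero => rw [el_zero, E_zero]
    | succ n => rw [el_nil, E_nil]
  | @free r m F P _ ih =>
    obtain ⟨hP, hF, l, hl, hlF, he⟩ := ih
    refine ⟨Ho_mono (Nat.le_succ r) m hP, ?_, r :: l, ?_, ?_, ?_⟩
    · intro x hx
      rcases Finset.mem_insert.1 hx with rfl | hx
      · exact Finset.mem_range.2 (Nat.lt_succ_self _)
      · exact Finset.range_mono (Nat.le_succ r) (hF hx)
    · refine List.nodup_cons.2 ⟨?_, hl⟩
      intro hr
      have : r ∈ F := by rw [← hlF]; exact List.mem_toFinset.2 hr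
      exact absurd (Finset.mem_range.1 (hF this)) (lt_irrefl _)
    · rw [List.toFinset_cons, hlF]
    · intro n
      cases n with
      | zero => rw [el_zero, E_zero]
      | succ n => rw [el_succ, E_cons, he, he]
  | @one r m F P _ ih =>
    obtain ⟨hP, hF, l, hl, hlF, he⟩ := ih
    refine ⟨Ho_del (Nat.lt_succ_self r) (Ho_mono (Nat.le_succ r) m hP),
      hF.trans (Finset.range_mono (Nat.le_succ r)), l, hl, hlF, ?_⟩
    intro n
    cases n with
    | zero => rw [el_zero, E_zero]
    | succ n => rw [el_succ, h3, h3, h1, add_zero, he, E_del hc]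
  | @two r m F P _ φ hφ ih =>
    obtain ⟨hP, hF, l, hl, hlF, he⟩ := ih
    have hφr : φ < r := Finset.mem_range.1 (hF hφ)
    have hφl : φ ∈ l := by rw [← hlF] at hφ; exact List.mem_toFinset.1 hφ
    have hp := E_perm hc (List.perm_cons_erase hφl)
    refine ⟨Submodule.add_mem _ (Ho_mono (Nat.le_succ r) (m + 1) (Ho_del hφr hP))
      (Ho_del (Nat.lt_succ_self r) (Ho_mono (Nat.le_succ r) m hP)),
      (Finset.erase_subset _ _).trans (hF.trans (Finset.range_mono (Nat.le_succ r))),
      l.erase φ, hl.erase φ, ?_, ?_⟩
    · ext x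
      rw [List.mem_toFinset, hl.mem_erase_iff, Finset.mem_erase, ← hlF, List.mem_toFinset]
    · intro n
      cases n with
      | zero => rw [el_zero, E_zero]
      | succ n =>
        have hadd : ∀ a : Lam, a + a = 0 := by
          intro a
          have : (2 : ZMod 2) • a = 0 := by
            rw [show (2 : ZMod 2) = 0 from rfl, zero_smul]
          rw [← this, two_smul]
        have key : ∀ a b c : Lam, a + (b + c) + c = a + b := fun a b c => by
          rw [show a + (b + c) + c = a + b + (c + c) by abel, hadd, add_zero]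
        rw [el_succ, map_add, map_add, h3, h3, h3, h3, map_add, h1, add_zero, map_add,
          E_del hc, E_del hc, he, he, hp, hp, E_cons, map_add, map_add, h1, add_zero]
        cases n with
        | zero =>
          rw [E_zero, E_zero]
          exact key _ _ _
        | succ n =>
          rw [E_cons, map_add, map_add, h1, map_zero, add_zero]
          exact key _ _ _

end IKv

theorem pr_Kv (hEl : StEl) : StKv := by
  intro r m F P h
  obtain ⟨h1, h2, h3, _⟩ := hEl
  obtain ⟨hP, hF, l, hl, hlF, he⟩ := IKv.key h1 h2 h3 h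
  refine ⟨hP, hF, ?_⟩
  intro n hn
  rw [he, IKv.E_len]
  rw [← hlF, List.toFinset_card_of_nodup hl] at hn
  exact hn

end Pool.Agent.Work.MP_701abf_gt.TwT
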