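import Pool.Agent.Work.MP_701abf_gt.TwT.Stmts3

/-!
# Item Lc: the law for all operations along chains
-/

open MvPolynomial
open Pool.Agent.Work.MP_701abf_gt.Stab Pool.Agent.Work.MP_701abf_gt.Cob
open Pool.Agent.Work.MP_701abf_gt.Sq2

namespace Pool.Agent.Work.MP_701abf_gt.TwT

/-- Item Lc. -/
theorem pr_Lc (hOk : StOk) (hLr : StLr) (hCh : StCh) (hTr : StTr) : StLc := by
  intro q hq s
  obtain ⟨J, L, hJ⟩ := hCh q hq (2 * s + 4) (by omega) (fun _ => True)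
    ⟨0, fun _ _ _ _ _ _ _ _ => trivial⟩
  refine ⟨J, L, fun b hb c m t hc e he hee x hx hn => ?_⟩
  obtain ⟨V, w, hV, hB⟩ := hJ b hb c m t hc
  have hok := (hOk.1 _ _ _ _ hV).1
  obtain ⟨a, ha, hxa⟩ := hB.span s (by omega) x hx
  obtain ⟨h1, h2⟩ := hTr q hq _ _ V w hok hB s (by omega) x hx a ha hxa
  refine h1.2 (hLr _ c m V hV e 1 (s + 1) le_rfl hee (by omega) a (by rw [he]; exact ha)
    fun n hn1 hn2 => ?_)
  exact (h2 n (by omega)).2.1 (hn n hn1 (by omega))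

end Pool.Agent.Work.MP_701abf_gt.TwT
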