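import Pool.Agent.Work.MP_701abf_gt.TwT.Stmts2

/-!
# The two-thirds law, item Lk
-/

namespace Pool.Agent.Work.MP_701abf_gt.TwT

namespace ILk

lemma add_self (x : Lam) : x + x = 0 := by
  have h : x + x = (2 : ZMod 2) • x := by rw [two_smul]
  rw [h, show (2 : ZMod 2) = 0 from rfl, zero_smul]

lemma eq_of_add {x y : Lam} (h : x + y = 0) : x = y := by
  calc x = x + (y + y) := by rw [add_self, add_zero]
    _ = (x + y) + y := by rw [add_assoc]
    _ = y := by rw [h, zero_add]

lemma el_succ (n r : ℕ) (f : Lam) : el (n + 1) (r + 1) f = el (n + 1) r f + del r (el n r f) := rfl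

lemma el_zero (r : ℕ) (f : Lam) : el 0 r f = f := by
  cases r <;> rfl

end ILk

open ILk

theorem pr_Lk (hEl : StEl) (hKl : StKl) : StLk := by
  obtain ⟨e1, -, e3, e4, -, e6, e7, e8⟩ := hEl
  obtain ⟨k1, k2, k3⟩ := hKl
  intro r
  induction r with
  | zero =>
    intro m j f hf h
    rcases Nat.eq_zero_or_pos j with rfl | hj
    · have h0 := h 0 le_rfl
      rw [el_zero] at h0
      rw [h0]
      exact Submodule.zero_mem _
    rcases Nat.eq_zero_or_pos m with rfl | hm
    · have h1 : f = f ∅ • Finsupp.single ∅ 1 := by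
        ext S
        rw [Finsupp.smul_apply, smul_eq_mul]
        by_cases hS : S = ∅
        · rw [hS, Finsupp.single_eq_same, mul_one]
        · rw [Finsupp.single_apply, if_neg (Ne.symm hS), mul_zero]
          by_contra hne
          have h2 := (Finsupp.mem_supported _ _).1 hf (Finset.mem_coe.2 (Finsupp.mem_support_iff.2 hne))
          exact hS (Finset.card_eq_zero.1 h2.2)
      rw [h1]
      exact Submodule.smul_mem _ _ (Submodule.subset_span ⟨∅, by simpa using hj, KP.nil⟩)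
    · rw [e8 0 m hm f hf]
      exact Submodule.zero_mem _
  | succ r ih =>
    intro m j f hf h
    rcases Nat.eq_zero_or_pos j with rfl | hj
    · have h0 := h 0 le_rfl
      rw [el_zero] at h0
      rw [h0]
      exact Submodule.zero_mem _
    obtain ⟨j, rfl⟩ : ∃ j', j = j' + 1 := ⟨j - 1, by omega⟩
    -- elements without the letter `r`
    have step0 : ∀ (m : ℕ), ∀ f₀ ∈ Ho r m, (∀ n, j + 1 ≤ n → el n (r + 1) f₀ = 0) →
        f₀ ∈ KS (j + 1) (r + 1) m := by
      intro m f₀ hf₀ h0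
      refine k2 j r m f₀ (ih m j f₀ hf₀ fun n hn => ?_)
      have h1 := h0 (n + 1) (by omega)
      rw [el_succ] at h1
      exact (e7 r (m + (n + 1)) (m + n) _ (e4 _ _ _ _ hf₀) _ (e4 _ _ _ _ hf₀) h1).2
    obtain ⟨f₀, hf₀, hm0, hm1⟩ := e6 r m f hf
    rcases Nat.eq_zero_or_pos m with rfl | hm
    · have h1 := hm0 rfl
      rw [h1] at h ⊢
      exact step0 0 f₀ hf₀ h
    obtain ⟨m, rfl⟩ : ∃ m', m = m' + 1 := ⟨m - 1, by omega⟩
    obtain ⟨f₁, hf₁, hff⟩ := hm1 hm
    rw [Nat.add_sub_cancel] at hf₁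
    have key : ∀ n, j ≤ n → el (n + 1) r f₀ = 0 ∧ el (n + 1) r f₁ = el n r f₀ := by
      intro n hn
      have h1 := h (n + 1) (by omega)
      rw [el_succ, hff, map_add, e3, map_add, map_add, e3, e1, add_zero, add_assoc, ← map_add] at h1
      have h2 := e7 r (m + 1 + (n + 1)) (m + 1 + n) _ (e4 _ _ _ _ hf₀) _
        (Submodule.add_mem _ (by
          have := e4 (n + 1) r m f₁ hf₁
          rwa [show m + (n + 1) = m + 1 + n by ring] at this) (e4 n r (m + 1) f₀ hf₀)) h1
      exact ⟨h2.1, eq_of_add h2.2⟩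
    have hk1 : f₁ ∈ KS (j + 1 + 1) r m := by
      refine ih m (j + 1 + 1) f₁ hf₁ fun n hn => ?_
      obtain ⟨n, rfl⟩ : ∃ n', n = n' + 1 + 1 := ⟨n - 2, by omega⟩
      rw [(key (n + 1) (by omega)).2]
      exact (key n (by omega)).1
    obtain ⟨G₀, hG₀, hG⟩ := k1 (j + 1) r m (by omega) f₁ hk1
    have hsum : f + (G₀ + del r f₁) = f₀ + G₀ := by
      rw [hff]
      calc f₀ + del r f₁ + (G₀ + del r f₁) = f₀ + G₀ + (del r f₁ + del r f₁) := by abel
        _ = f₀ + G₀ := by rw [add_self, add_zero]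
    have h' : f₀ + G₀ ∈ KS (j + 1) (r + 1) (m + 1) := by
      refine step0 (m + 1) _ (Submodule.add_mem _ hf₀ hG₀) fun n hn => ?_
      rw [← hsum, map_add, h n hn, (k3 (j + 1) (r + 1) (m + 1) _ hG).2 n hn, add_zero]
    have hfin : f = (f₀ + G₀) + (G₀ + del r f₁) := by
      rw [← hsum, add_assoc, add_self, add_zero]
    rw [hfin]
    exact Submodule.add_mem _ h' hG

end Pool.Agent.Work.MP_701abf_gt.TwT
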