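import Pool.Agent.Work.MP_701abf_gt.TwT.Stmts4

/-!
# [Lm] the law in `Lam`
-/

set_option autoImplicit false

namespace Pool.Agent.Work.MP_701abf_gt.TwT

namespace ILm

theorem el_succ (n r : ℕ) (f : Lam) : el (n + 1) (r + 1) f = el (n + 1) r f + del r (el n r f) := rfl

theorem el_zero (r : ℕ) (f : Lam) : el 0 r f = f := by
  cases r <;> rfl

end ILm

open ILm in
/-- [Lm] -/
theorem pr_Lm (hEl : StEl) : StLm := by
  obtain ⟨e1, _, e3, e4, _, e6, e7, _⟩ := hEl
  intro r
  induction r with
  | zero =>
    intro e k K h1 h2 f hf h
    have h3 := h 0 (by omega) (by omega)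
    rwa [el_zero] at h3
  | succ r ih =>
    intro e k K h1 h2 f hf h
    rcases k with _ | k
    · have h3 := h 0 le_rfl (by omega)
      rwa [el_zero] at h3
    · obtain ⟨f0, hf0, h0, h1'⟩ := e6 r e f hf
      rcases e with _ | e
      · have hff : f = f0 := h0 rfl
        subst hff
        have key : ∀ n, k ≤ n → n + 1 < K → el (n + 1) r f = 0 ∧ el n r f = 0 := by
          intro n hn hK
          have h3 := h (n + 1) (by omega) hK
          rw [el_succ] at h3
          exact e7 r _ _ _ (e4 (n + 1) r 0 f hf0) _ (e4 n r 0 f hf0) h3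
        refine ih 0 k K (by omega) (by omega) f hf0 ?_
        intro n hn hK
        by_cases hc : n + 1 < K
        · exact (key n hn hc).2
        · obtain ⟨n', rfl⟩ : ∃ n', n = n' + 1 := ⟨n - 1, by omega⟩
          exact (key n' (by omega) hK).1
      · obtain ⟨f1, hf1, hff⟩ := h1' (by omega)
        have hf1' : f1 ∈ Ho r e := hf1
        have key : ∀ n, k ≤ n → n + 1 < K → el (n + 1) r f0 = 0 ∧
            el (n + 1) r f1 + el n r f0 = 0 := by
          intro n hn hK
          have h3 := h (n + 1) (by omega) hK
          rw [el_succ, hff, map_add, map_add, e3, e3, map_add, e1, add_zero, add_assoc,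
            ← map_add] at h3
          have h4 := e4 (n + 1) r e f1 hf1'
          have h5 := e4 n r (e + 1) f0 hf0
          have h6 : e + 1 + n = e + (n + 1) := by omega
          rw [h6] at h5
          exact e7 r _ _ _ (e4 (n + 1) r (e + 1) f0 hf0) _ (Submodule.add_mem _ h4 h5) h3
        have hf1z : f1 = 0 := by
          refine ih e (k + 2) K (by omega) (by omega) f1 hf1' ?_
          intro n hn hK
          obtain ⟨n', rfl⟩ : ∃ n', n = n' + 2 := ⟨n - 2, by omega⟩
          have h3 := (key (n' + 1) (by omega) hK).2
          rw [(key n' (by omega) (by omega)).1, add_zero] at h3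
          exact h3
        have hf0z : f0 = 0 := by
          refine ih (e + 1) k K (by omega) (by omega) f0 hf0 ?_
          intro n hn hK
          by_cases hc : n + 1 < K
          · have h3 := (key n hn hc).2
            rw [hf1z, map_zero, zero_add] at h3
            exact h3
          · obtain ⟨n', rfl⟩ : ∃ n', n = n' + 1 := ⟨n - 1, by omega⟩
            exact (key n' (by omega) hK).1
        rw [hff, hf0z, hf1z, map_zero, add_zero]

end Pool.Agent.Work.MP_701abf_gt.TwT
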