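import Pool.Agent.Work.MP_701abf_gt.TwT.Stmts2

/-!
# The two-thirds law, half A, item Lq: products of powers of two
-/

open MvPolynomial
open Pool.Agent.Work.MP_701abf_gt.Stab Pool.Agent.Work.MP_701abf_gt.Cob
open Pool.Agent.Work.MP_701abf_gt.Sq2

namespace Pool.Agent.Work.MP_701abf_gt.TwT

namespace ILq

open Finset

theorem l0_ne_m0 (W : Sys) (l0 m0 : W.I) (hW : W.Let l0 m0) : l0 ≠ m0 := by
  intro h
  have h1 := hW.dl0
  have h2 := hW.dm0
  rw [h] at h1
  omega

open Classical in
/-- The new map. -/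
noncomputable def io {V W : Sys} (r : ℕ) (ι : Finset ℕ → V.I) (l0 m0 : W.I) :
    Finset ℕ → W.I × V.I := fun S => (if r ∈ S then m0 else l0, ι S)

/-- The image of the new map. -/
def Im' {V W : Sys} (r : ℕ) (ι : Finset ℕ → V.I) (l0 m0 : W.I) : Set (W.I × V.I) :=
  {p | ∃ S, S ⊆ Finset.range (r + 1) ∧ io r ι l0 m0 S = p}

theorem sub_of_not_mem {r : ℕ} {S : Finset ℕ} (hS : S ⊆ range (r + 1)) (h : r ∉ S) :
    S ⊆ range r := by
  intro x hx
  have h1 := mem_range.1 (hS hx)
  have h2 : x ≠ r := by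
    rintro rfl
    exact h hx
  exact mem_range.2 (by omega)

theorem inter_eq {r : ℕ} {S : Finset ℕ} (hS : S ⊆ range (r + 1)) :
    S = if r ∈ S then insert r (S ∩ range r) else S ∩ range r := by
  split_ifs with h
  · ext x
    simp only [mem_insert, mem_inter, mem_range]
    constructor
    · intro hx
      have h1 := mem_range.1 (hS hx)
      by_cases hxr : x = r
      · exact Or.inl hxr
      · exact Or.inr ⟨hx, by omega⟩
    · rintro (rfl | hx)
      · exact h
      · exact hx.1
  · exact (inter_eq_left.2 (sub_of_not_mem hS h)).symm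

theorem mem_l0 {V W : Sys} (r : ℕ) (ι : Finset ℕ → V.I) (l0 m0 : W.I) (hlm : l0 ≠ m0) (v : V.I) :
    (l0, v) ∈ Im' (W := W) r ι l0 m0 ↔ v ∈ Im r ι := by
  constructor
  · rintro ⟨S, hS, he⟩
    have h1 := congrArg Prod.fst he
    have h2 := congrArg Prod.snd he
    simp only [io] at h1 h2
    by_cases hr : r ∈ S
    · rw [if_pos hr] at h1
      exact absurd h1.symm hlm
    · exact ⟨S, sub_of_not_mem hS hr, h2⟩
  · rintro ⟨S, hS, he⟩
    have hr : r ∉ S := fun h => by
      have := mem_range.1 (hS h)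
      omega
    refine ⟨S, hS.trans (range_subset_range.2 (Nat.le_succ r)), ?_⟩
    simp only [io]
    rw [if_neg hr, he]

theorem mem_m0 {V W : Sys} (r : ℕ) (ι : Finset ℕ → V.I) (l0 m0 : W.I) (hlm : l0 ≠ m0)
    (h2 : ∀ S, ι S = ι (S ∩ range r)) (v : V.I) :
    (m0, v) ∈ Im' (W := W) r ι l0 m0 ↔ v ∈ Im r ι := by
  constructor
  · rintro ⟨S, hS, he⟩
    have h3 := congrArg Prod.snd he
    simp only [io] at h3
    refine ⟨S ∩ range r, inter_subset_right, ?_⟩
    rw [← h2]
    exact h3
  · rintro ⟨S, hS, he⟩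
    refine ⟨insert r S, ?_, ?_⟩
    · intro x hx
      rcases mem_insert.1 hx with rfl | hx
      · exact mem_range.2 (Nat.lt_succ_self _)
      · exact mem_range.2 ((mem_range.1 (hS hx)).trans (Nat.lt_succ_self _))
    · have hr : r ∉ S := fun h => by
        have := mem_range.1 (hS h)
        omega
      have h4 : insert r S ∩ range r = S := by
        ext x
        simp only [mem_inter, mem_insert, mem_range]
        constructor
        · rintro ⟨rfl | hx, hlt⟩
          · exact absurd hlt (lt_irrefl _)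
          · exact hx
        · intro hx
          exact ⟨Or.inr hx, mem_range.1 (hS hx)⟩
      simp only [io]
      rw [if_pos (mem_insert_self r S), h2, h4, he]

theorem mem_cases {V W : Sys} (r : ℕ) (ι : Finset ℕ → V.I) (l0 m0 : W.I) (m : W.I) (v : V.I)
    (h : (m, v) ∈ Im' (W := W) r ι l0 m0) : m = l0 ∨ m = m0 := by
  obtain ⟨S, hS, he⟩ := h
  have h1 := congrArg Prod.fst he
  simp only [io] at h1
  by_cases hr : r ∈ S
  · rw [if_pos hr] at h1
    exact Or.inr h1.symm
  · rw [if_neg hr] at h1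
    exact Or.inl h1.symm

/-- The properties which are proved by induction. -/
def Q (r : ℕ) (V : Sys) (ι : Finset ℕ → V.I) : Prop :=
  TP (fun _ => True) r 0 V ∧ (∀ S, ι S = ι (S ∩ Finset.range r)) ∧
  (∀ S T, S ⊆ Finset.range r → T ⊆ Finset.range r → ι S = ι T → S = T) ∧
  (∀ S, S ⊆ Finset.range r → V.d (ι S) = r + S.card) ∧
  (∀ n (y y' : V.I → ZMod 2), (∀ p, p ∉ Im r ι → y p = y' p) → ∀ p, p ∉ Im r ι →
    V.e n y p = V.e n y' p) ∧
  ∀ n (y y' : V.I → ZMod 2), (∀ p, p ∈ Im r ι → y p = y' p) → ∀ p, p ∈ Im r ι →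
    V.e n y p = V.e n y' p

theorem base : Q 0 Sys.one (fun _ => ()) := by
  have hIm : ∀ p : Sys.one.I, p ∈ Im (V := Sys.one) 0 (fun _ => ()) := fun p =>
    ⟨∅, Finset.empty_subset _, rfl⟩
  refine ⟨TP.one, fun S => rfl, ?_, ?_, ?_, ?_⟩
  · intro S T hS hT _
    rw [Finset.range_zero, Finset.subset_empty] at hS hT
    rw [hS, hT]
  · intro S hS
    rw [Finset.range_zero, Finset.subset_empty] at hS
    rw [hS]
    rfl
  · intro n y y' _ p hp
    exact absurd (hIm p) hp
  · intro n y y' h p _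
    have : y = y' := funext fun p => h p (hIm p)
    rw [this]

theorem step (hTn : StTn) (hOk : StOk) (hLt : StLt) (r : ℕ) (V : Sys) (ι : Finset ℕ → V.I)
    (W : Sys) (l0 m0 : W.I) (hW : W.Let l0 m0) (h : Q r V ι) :
    Q (r + 1) (Sys.ten V W) (io (W := W) r ι l0 m0) := by
  obtain ⟨q1, q2, q3, q4, q5, q6⟩ := h
  have hlm := l0_ne_m0 W l0 m0 hW
  have hV : V.Ok := (hOk.1 _ _ _ _ q1).1
  have hVW : (Sys.ten V W).Ok := hTn.1 V W hV hW.ok
  have e0 : ∀ a : (Sys.ten V W).I → ZMod 2, (Sys.ten V W).e 0 a = a := fun a =>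
    (hTn.2.2.2.2.1 (Sys.ten V W) hVW a).1
  have L := hLt V W l0 m0 hV hW
  refine ⟨TP.sg W l0 m0 trivial hW q1, ?_, ?_, ?_, ?_, ?_⟩
  · intro S
    have hiff : r ∈ S ∩ range (r + 1) ↔ r ∈ S := by
      simp only [mem_inter, mem_range]
      exact ⟨fun h => h.1, fun h => ⟨h, Nat.lt_succ_self r⟩⟩
    have h1 : ι S = ι (S ∩ range (r + 1)) := by
      rw [q2 S, q2 (S ∩ range (r + 1))]
      congr 1
      ext x
      simp only [mem_inter, mem_range]
      constructor
      · rintro ⟨a, b⟩
        exact ⟨⟨a, by omega⟩, b⟩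
      · rintro ⟨⟨a, _⟩, b⟩
        exact ⟨a, b⟩
    simp only [io]
    by_cases hr : r ∈ S
    · rw [if_pos hr, if_pos (hiff.2 hr), h1]
    · rw [if_neg hr, if_neg (fun h => hr (hiff.1 h)), h1]
  · intro S T hS hT he
    have h1 := congrArg Prod.fst he
    have h2 := congrArg Prod.snd he
    simp only [io] at h1 h2
    have h3 : S ∩ range r = T ∩ range r := by
      refine q3 _ _ inter_subset_right inter_subset_right ?_
      rw [← q2, ← q2]
      exact h2
    have h4 : r ∈ S ↔ r ∈ T := by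
      by_cases hs : r ∈ S <;> by_cases ht : r ∈ T
      · exact ⟨fun _ => ht, fun _ => hs⟩
      · rw [if_pos hs, if_neg ht] at h1
        exact absurd h1.symm hlm
      · rw [if_neg hs, if_pos ht] at h1
        exact absurd h1 hlm
      · exact ⟨fun h => absurd h hs, fun h => absurd h ht⟩
    rw [inter_eq hS, inter_eq hT, h3]
    by_cases hs : r ∈ S
    · rw [if_pos hs, if_pos (h4.1 hs)]
    · rw [if_neg hs, if_neg (fun h => hs (h4.2 h))]
  · intro S hS
    show W.d (io (W := W) r ι l0 m0 S).1 + V.d (io (W := W) r ι l0 m0 S).2 = r + 1 + S.card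
    simp only [io]
    have h5 := q4 (S ∩ range r) inter_subset_right
    rw [← q2] at h5
    rw [h5]
    by_cases hs : r ∈ S
    · rw [if_pos hs, hW.dm0]
      have h6 : S.card = (S ∩ range r).card + 1 := by
        conv_lhs => rw [inter_eq hS, if_pos hs]
        rw [card_insert_of_notMem]
        intro h
        have := mem_range.1 (mem_inter.1 h).2
        omega
      omega
    · rw [if_neg hs, hW.dl0]
      have h6 : S.card = (S ∩ range r).card := by
        conv_lhs => rw [inter_eq hS, if_neg hs]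
      omega
  · intro n y y' hy p hp
    obtain ⟨m, v⟩ : W.I × V.I := p
    have hy1 : ∀ (l : W.I) (v' : V.I), (l, v') ∉ Im' (W := W) r ι l0 m0 → y (l, v') = y' (l, v') :=
      fun l v' h => hy (l, v') h
    have hp1 : (m, v) ∉ Im' (W := W) r ι l0 m0 := hp
    by_cases hm : m = l0
    · subst hm
      rw [mem_l0 r ι m m0 hlm v] at hp1
      have a1 := (L y).1 n v
      have a2 := (L y').1 n v
      refine a1.trans (Eq.trans ?_ a2.symm)
      exact q5 n _ _ (fun v' hv' => hy1 m v' (fun h => hv' ((mem_l0 r ι m m0 hlm v').1 h))) v hp1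
    · by_cases hm' : m = m0
      · subst hm'
        rw [mem_m0 r ι l0 m hlm q2 v] at hp1
        rcases n with _ | k
        · rw [e0, e0]
          exact hy1 m v hp
        · have a1 := (L y).2.1 k v
          have a2 := (L y').2.1 k v
          refine a1.trans (Eq.trans ?_ a2.symm)
          rw [q5 (k + 1) (fun v' => y (m, v')) (fun v' => y' (m, v'))
            (fun v' hv' => hy1 m v' (fun h => hv' ((mem_m0 r ι l0 m hlm q2 v').1 h))) v hp1,
            q5 k (fun v' => y (l0, v')) (fun v' => y' (l0, v'))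
            (fun v' hv' => hy1 l0 v' (fun h => hv' ((mem_l0 r ι l0 m hlm v').1 h))) v hp1]
      · refine (L y').2.2.1 y ?_ n m v hm hm'
        intro l v' hl hl'
        refine hy1 l v' (fun h => ?_)
        rcases mem_cases r ι l0 m0 l v' h with h | h
        · exact hl h
        · exact hl' h
  · intro n y y' hy p hp
    obtain ⟨m, v⟩ : W.I × V.I := p
    have hy1 : ∀ (l : W.I) (v' : V.I), (l, v') ∈ Im' (W := W) r ι l0 m0 → y (l, v') = y' (l, v') :=
      fun l v' h => hy (l, v') h
    have hp1 : (m, v) ∈ Im' (W := W) r ι l0 m0 := hp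
    rcases mem_cases r ι l0 m0 m v hp1 with hm | hm
    · subst hm
      rw [mem_l0 r ι m m0 hlm v] at hp1
      have a1 := (L y).1 n v
      have a2 := (L y').1 n v
      refine a1.trans (Eq.trans ?_ a2.symm)
      exact q6 n _ _ (fun v' hv' => hy1 m v' ((mem_l0 r ι m m0 hlm v').2 hv')) v hp1
    · subst hm
      rw [mem_m0 r ι l0 m hlm q2 v] at hp1
      rcases n with _ | k
      · rw [e0, e0]
        exact hy1 m v hp
      · have a1 := (L y).2.1 k v
        have a2 := (L y').2.1 k v
        refine a1.trans (Eq.trans ?_ a2.symm)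
        rw [q6 (k + 1) (fun v' => y (m, v')) (fun v' => y' (m, v'))
          (fun v' hv' => hy1 m v' ((mem_m0 r ι l0 m hlm q2 v').2 hv')) v hp1,
          q6 k (fun v' => y (l0, v')) (fun v' => y' (l0, v'))
          (fun v' hv' => hy1 l0 v' ((mem_l0 r ι l0 m hlm v').2 hv')) v hp1]

end ILq

theorem pr_Lq (hTn : StTn) (hOk : StOk) (hLt : StLt) : StLq := by
  intro r V ι h
  have key : ILq.Q r V ι := by
    induction h with
    | one => exact ILq.base
    | sg W l0 m0 hW h ih => exact ILq.step hTn hOk hLt _ _ _ W l0 m0 hW ih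
  exact key

end Pool.Agent.Work.MP_701abf_gt.TwT
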