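import Pool.Agent.Work.MP_701abf_gt.TwT.Stmts4

/-!
# Item Lq2: the law along chains, for the operations `2^i`
-/

open MvPolynomial
open Pool.Agent.Work.MP_701abf_gt.Stab Pool.Agent.Work.MP_701abf_gt.Cob
open Pool.Agent.Work.MP_701abf_gt.Sq2

namespace Pool.Agent.Work.MP_701abf_gt.TwT

/-- Item Lq2. -/
theorem pr_Lq2 (hOk : StOk) (hLw : StLw) (hCh : StCh) (hTr : StTr) : StLq2 := by
  intro q hq s k
  have hs : s ≤ s + 2 ^ k + 4 := le_trans (Nat.le_add_right _ _) (Nat.le_add_right _ _)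
  obtain ⟨J, L, hJ⟩ := hCh q hq (s + 2 ^ k + 4) (Nat.le_add_left 4 _) (fun _ => True)
    ⟨0, fun _ _ _ _ _ _ _ _ => trivial⟩
  refine ⟨J, L, fun b hb c m t hc e he hee hek x hx hn => ?_⟩
  obtain ⟨V, w, hV, hB⟩ := hJ b hb c m t hc
  have hok := (hOk.1 _ _ _ _ hV).1
  obtain ⟨a, ha, hxa⟩ := hB.span s hs x hx
  obtain ⟨h1, h2⟩ := hTr q hq _ _ V w hok hB s hs x hx a ha hxa
  refine h1.2 (hLw _ c m V hV e k hee hek a (by rw [he]; exact ha) fun i hi => ?_)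
  have h3 : 2 ^ i ≤ 2 ^ k := Nat.pow_le_pow_right (by norm_num) hi.le
  exact (h2 (2 ^ i) (le_trans (Nat.add_le_add_left h3 s) (Nat.le_add_right _ _))).2.1 (hn i hi)

end Pool.Agent.Work.MP_701abf_gt.TwT
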