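import Pool.Agent.Work.MP_701abf_gt.TwT.Stmts4

set_option autoImplicit false

/-! The two-thirds law, item Ml (helper21): divided powers in `Lam`. -/

open MvPolynomial
open Pool.Agent.Work.MP_701abf_gt.Stab Pool.Agent.Work.MP_701abf_gt.Cob
open Pool.Agent.Work.MP_701abf_gt.Sq2

namespace Pool.Agent.Work.MP_701abf_gt.TwT

namespace IMl

theorem el_zero (r : ℕ) (f : Lam) : el 0 r f = f := by
  rw [el]
  rfl

theorem el_succ_zero (n : ℕ) (f : Lam) : el (n + 1) 0 f = 0 := by
  rw [el]
  rfl

theorem el_succ_succ (n r : ℕ) (f : Lam) :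
    el (n + 1) (r + 1) f = el (n + 1) r f + del r (el n r f) := by
  rw [el]
  rfl

theorem mul (hEl : StEl) : ∀ r i j (f : Lam),
    el i r (el j r f) = ((i + j).choose i : ZMod 2) • el (i + j) r f := by
  obtain ⟨hdd, -, hed, -⟩ := hEl
  intro r
  induction r with
  | zero =>
    intro i j f
    cases i with
    | zero => rw [el_zero, zero_add, Nat.choose_zero_right, Nat.cast_one, one_smul]
    | succ i =>
      have h1 : i + 1 + j = (i + j) + 1 := by omega
      rw [el_succ_zero, h1, el_succ_zero, smul_zero]
  | succ r ih =>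
    intro i j f
    cases i with
    | zero => rw [el_zero, zero_add, Nat.choose_zero_right, Nat.cast_one, one_smul]
    | succ i =>
      cases j with
      | zero => rw [el_zero, add_zero, Nat.choose_self, Nat.cast_one, one_smul]
      | succ j =>
        have h1 : i + 1 + (j + 1) = (i + j + 1) + 1 := by omega
        have h2 : i + 1 + j = i + j + 1 := by omega
        have h3 : i + (j + 1) = i + j + 1 := by omega
        rw [el_succ_succ j r f, el_succ_succ i r, map_add, map_add, map_add, ih (i + 1) (j + 1),
          hed (i + 1) r r, ih (i + 1) j, ih i (j + 1), hed i r r, hdd, add_zero, h1, h2, h3,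
          el_succ_succ (i + j + 1) r f, map_smul, map_smul, Nat.choose_succ_succ (i + j + 1) i,
          Nat.cast_add, smul_add, add_smul, add_smul]
        abel

theorem pw (hEl : StEl) (r k : ℕ) (f : Lam) (ha : ∀ i, i < k → el (2 ^ i) r f = 0) (n : ℕ)
    (hn : 1 ≤ n) (hnk : n < 2 ^ k) : el n r f = 0 := by
  set i := Nat.log 2 n with hi
  have h1 : 2 ^ i ≤ n := Nat.pow_log_le_self 2 (by omega)
  have h2 : n < 2 ^ (i + 1) := Nat.lt_pow_succ_log_self (by norm_num) n
  have hik : i < k := by
    by_contra h
    have : 2 ^ k ≤ 2 ^ i := Nat.pow_le_pow_right (by norm_num) (not_lt.1 h)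
    omega
  obtain ⟨m, hm⟩ := Nat.exists_eq_add_of_le h1
  have hm2 : m < 2 ^ i := by
    rw [pow_succ] at h2
    omega
  have hch : ∀ i r : ℕ, r < 2 ^ i → (((r + 2 ^ i).choose r : ℕ) : ZMod 2) = 1 := by
    intro i
    induction i with
    | zero =>
      intro r hr
      have : r = 0 := by omega
      subst this
      simp
    | succ i ih =>
      intro r hr
      have h1 := @Choose.choose_modEq_choose_mod_mul_choose_div_nat (r + 2 ^ (i + 1)) r 2
        ⟨Nat.prime_two⟩
      have h2 : (r + 2 ^ (i + 1)) % 2 = r % 2 := by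
        rw [pow_succ]
        omega
      have h3 : (r + 2 ^ (i + 1)) / 2 = r / 2 + 2 ^ i := by
        rw [pow_succ]
        omega
      rw [h2, h3, Nat.choose_self, one_mul] at h1
      have h4 := (ZMod.natCast_eq_natCast_iff _ _ _).2 h1
      rw [h4]
      apply ih
      rw [pow_succ] at hr
      omega
  have h3 := mul hEl r m (2 ^ i) f
  rw [ha i hik, map_zero, hch i m hm2, one_smul] at h3
  rw [hm, add_comm]
  exact h3.symm

theorem one : ∀ r D, el D r (Finsupp.single ∅ 1) =
    ∑ S ∈ (Finset.range r).powersetCard D, Finsupp.single S (1 : ZMod 2) := by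
  intro r
  induction r with
  | zero =>
    intro D
    cases D with
    | zero => rw [el_zero, Finset.powersetCard_zero, Finset.sum_singleton]
    | succ D =>
      rw [el_succ_zero, Finset.powersetCard_eq_empty.2, Finset.sum_empty]
      rw [Finset.card_range]
      omega
  | succ r ih =>
    intro D
    cases D with
    | zero => rw [el_zero, Finset.powersetCard_zero, Finset.sum_singleton]
    | succ D =>
      rw [el_succ_succ, ih, ih, Finset.range_add_one,
        Finset.powersetCard_succ_insert Finset.notMem_range_self, Finset.sum_union, map_sum]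
      · congr 1
        rw [Finset.sum_image]
        · refine Finset.sum_congr rfl fun S hS => ?_
          rw [Finset.mem_powersetCard] at hS
          have h1 : r ∉ S := fun h => Finset.notMem_range_self (hS.1 h)
          unfold del
          rw [Finsupp.linearCombination_single, if_neg h1, one_smul]
        · intro S hS T hT hST
          rw [Finset.mem_coe, Finset.mem_powersetCard] at hS hT
          have h1 : r ∉ S := fun h => Finset.notMem_range_self (hS.1 h)
          have h2 : r ∉ T := fun h => Finset.notMem_range_self (hT.1 h)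
          have h3 := congrArg (fun U => U.erase r) hST
          simp only [Finset.erase_insert h1, Finset.erase_insert h2] at h3
          exact h3
      · rw [Finset.disjoint_left]
        intro S hS hS'
        rw [Finset.mem_powersetCard] at hS
        rw [Finset.mem_image] at hS'
        obtain ⟨T, -, hT⟩ := hS'
        rw [← hT] at hS
        exact Finset.notMem_range_self (hS.1 (Finset.mem_insert_self _ _))

theorem ev (k D n : ℕ) (hD : D + 1 = 2 ^ k) (h1 : 1 ≤ n) (h2 : n < 2 ^ k) :
    (((n + D).choose n : ℕ) : ZMod 2) = 0 := by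
  rw [ZMod.natCast_eq_zero_iff]
  by_contra h
  obtain ⟨m, rfl⟩ : ∃ m, n = m + 1 := ⟨n - 1, by omega⟩
  have h3 := Nat.choose_succ_right_eq (m + 1 + D) m
  have h4 : m + 1 + D - m = 2 ^ k := by omega
  rw [h4] at h3
  have h5 : 2 ^ k ∣ (m + 1 + D).choose (m + 1) * (m + 1) := ⟨_, h3.trans (mul_comm _ _)⟩
  have h6 : Nat.Coprime (2 ^ k) ((m + 1 + D).choose (m + 1)) :=
    Nat.Coprime.pow_left k ((Nat.Prime.coprime_iff_not_dvd Nat.prime_two).2 h)
  have h7 : 2 ^ k ∣ m + 1 := h6.dvd_of_dvd_mul_left h5
  have := Nat.le_of_dvd (by omega) h7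
  omega

end IMl

theorem pr_Ml (hEl : StEl) : StMl := by
  refine ⟨IMl.mul hEl, fun r k f ha n hn hnk => IMl.pw hEl r k f ha n hn hnk, IMl.one, ?_⟩
  intro r k D hD n h1 h2
  rw [IMl.mul hEl, IMl.ev k D n hD h1 h2, zero_smul]

end Pool.Agent.Work.MP_701abf_gt.TwT
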