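import Pool.Agent.Work.MP_701abf_gt.TwT.Stmts2

set_option autoImplicit false

/-!
# The two-thirds law, half A, item Nl: the kernel of the operations for products of powers of two
-/

open MvPolynomial
open Pool.Agent.Work.MP_701abf_gt.Stab Pool.Agent.Work.MP_701abf_gt.Cob
open Pool.Agent.Work.MP_701abf_gt.Sq2

namespace Pool.Agent.Work.MP_701abf_gt.TwT

namespace INl

theorem eq_of_add : ∀ a b : ZMod 2, a + b = 0 → a = b := by decide

end INl

theorem pr_Nl (hTn : StTn) (hOk : StOk) (hLt : StLt) (hLr : StLr) (hLq : StLq) : StNl := by
  intro r V ι h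
  induction h with
  | one =>
    intro m j K _ _ y _ _ p hp
    exact absurd ⟨∅, Finset.empty_subset _, rfl⟩ hp
  | @sg r V ι W l0 m0 hW h ih =>
    intro m j K h1 h2 y hy he
    obtain ⟨hTP, hι, -, -, hout, hin⟩ := hLq r V ι h
    have hVok : V.Ok := (hOk.1 _ _ _ _ hTP).1
    have hVd : ∀ v, r ≤ V.d v := fun v => by
      have := (hOk.1 _ _ _ _ hTP).2 v
      omega
    have hTok : (Sys.ten V W).Ok := hTn.1 V W hVok hW.ok
    rcases Nat.eq_zero_or_pos j with rfl | hj
    · intro p _
      have e0 := (hTn.2.2.2.2.1 _ hTok y).1
      have e1 := he 0 le_rfl (by omega)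
      rw [e0] at e1
      rw [e1]
      rfl
    have hdeg := hTn.2.2.2.1 V W (r + 1 + m) y hy
    have hsmall : ∀ (s : ℕ) (x : V.I → ZMod 2), V.Dg s x → s < r → ∀ v, x v = 0 := by
      intro s x hx hs v
      by_contra hne
      have e1 := hx v hne
      have e2 := hVd v
      omega
    obtain ⟨t1, t2, -, t4⟩ := hLt V W l0 m0 hVok hW y
    have hA : ∀ d l, W.d l = d → 3 ≤ W.d l → ∀ v, y (l, v) = 0 := by
      intro d
      induction d using Nat.strong_induction_on with
      | _ d ihd =>
        intro l hl h3 v
        by_cases hs : W.d l ≤ r + 1 + m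
        · have hD := (hdeg l).1 hs
          by_cases hs2 : r + 1 + m - W.d l < r
          · exact hsmall _ _ hD hs2 v
          · have heq : r + 1 + m - W.d l = r + 2 * 0 + (m + 1 - W.d l) := by omega
            rw [heq] at hD
            have hz := hLr _ _ _ _ hTP (m + 1 - W.d l) j K hj (by omega) (by omega)
              (fun v => y (l, v)) hD (by
                intro n hn1 hn2
                funext v
                have e1 := t4 l h3 (fun l' h3' hlt v' => ihd (W.d l') (by omega) l' rfl h3' v') n v
                rw [← e1, he n hn1 hn2]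
                rfl)
            exact congrFun hz v
        · exact (hdeg l).2 (by omega) v
    have hD1 : V.Dg (r + m) (fun v => y (l0, v)) := by
      have e1 := (hdeg l0).1 (by rw [hW.dl0]; omega)
      rw [hW.dl0] at e1
      have e : r + 1 + m - 1 = r + m := by omega
      rwa [e] at e1
    have he1 : ∀ n, j ≤ n → n < K → V.e n (fun v => y (l0, v)) = 0 := by
      intro n hn1 hn2
      funext v
      rw [← t1 n v, he n hn1 hn2]
      rfl
    have he2 : ∀ k, j ≤ k + 1 → k + 1 < K → ∀ v,
        V.e (k + 1) (fun v => y (m0, v)) v = V.e k (fun v => y (l0, v)) v := by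
      intro k hk1 hk2 v
      have e1 := t2 k v
      rw [he (k + 1) hk1 hk2] at e1
      exact INl.eq_of_add _ _ e1.symm
    have hy2 : ∀ p, p ∉ Im r ι → y (m0, p) = 0 := by
      by_cases hs : 2 ≤ r + 1 + m
      · have hD := (hdeg m0).1 (by rw [hW.dm0]; exact hs)
        rw [hW.dm0] at hD
        rcases Nat.eq_zero_or_pos m with hm | hm
        · intro p _
          exact hsmall _ _ hD (by omega) p
        · have e : r + 1 + m - 2 = r + (m - 1) := by omega
          rw [e] at hD
          exact ih (m - 1) (j + 1) K (by omega) (by omega) (fun v => y (m0, v)) hD (by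
            intro n hn1 hn2
            obtain ⟨k, rfl⟩ : ∃ k, n = k + 1 := ⟨n - 1, by omega⟩
            funext v
            rw [he2 k (by omega) hn2 v, he1 k (by omega) (by omega)])
      · intro p _
        exact (hdeg m0).2 (by rw [hW.dm0]; omega) p
    classical
    have hy1 : ∀ p, p ∉ Im r ι → y (l0, p) = 0 := by
      let z : V.I → ZMod 2 := fun p => if p ∈ Im r ι then 0 else y (l0, p)
      have hz1 : ∀ p, p ∉ Im r ι → z p = (fun v => y (l0, v)) p := fun p hp => if_neg hp
      have hz0 : ∀ p, p ∈ Im r ι → z p = (0 : V.I → ZMod 2) p := fun p hp => if_pos hp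
      have hDz : V.Dg (r + m) z := by
        intro p hp
        by_cases hm : p ∈ Im r ι
        · exact absurd (hz0 p hm) hp
        · rw [hz1 p hm] at hp
          exact hD1 p hp
      have key := ih m (j - 1) K (by omega) (by omega) z hDz (by
        intro n hn1 hn2
        funext p
        by_cases hp : p ∈ Im r ι
        · rw [hin n z 0 hz0 p hp, map_zero]
        · rw [hout n z (fun v => y (l0, v)) hz1 p hp]
          rcases Nat.lt_or_ge n j with hlt | hge
          · rw [← he2 n (by omega) (by omega) p,
              hout (n + 1) (fun v => y (m0, v)) 0 (fun p hp => hy2 p hp) p hp, map_zero]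
          · rw [he1 n hge hn2])
      intro p hp
      have e1 := hz1 p hp
      rw [key p hp] at e1
      exact e1.symm
    rintro ⟨l, v⟩ hp
    by_cases hl0 : l = l0
    · rw [hl0] at hp ⊢
      refine hy1 v fun hv => hp ?_
      obtain ⟨S, hS, hSv⟩ := hv
      have hr : r ∉ S := fun hr => by
        have := Finset.mem_range.1 (hS hr)
        omega
      refine ⟨S, hS.trans (Finset.range_mono (Nat.le_succ r)), ?_⟩
      simp [hr, hSv]
    by_cases hm0 : l = m0
    · rw [hm0] at hp ⊢
      refine hy2 v fun hv => hp ?_
      obtain ⟨S, hS, hSv⟩ := hv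
      have hr : r ∉ S := fun hr => by
        have := Finset.mem_range.1 (hS hr)
        omega
      refine ⟨insert r S, ?_, ?_⟩
      · intro i hi
        rcases Finset.mem_insert.1 hi with rfl | hi
        · exact Finset.self_mem_range_succ _
        · exact Finset.range_mono (Nat.le_succ r) (hS hi)
      · have hcap : insert r S ∩ Finset.range r = S := by
          ext i
          constructor
          · intro hi
            rcases Finset.mem_inter.1 hi with ⟨h3, h4⟩
            rcases Finset.mem_insert.1 h3 with rfl | h5
            · exact absurd h4 (by simp)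
            · exact h5
          · intro hi
            exact Finset.mem_inter.2 ⟨Finset.mem_insert_of_mem hi, hS hi⟩
        have e1 : ι (insert r S) = v := by
          rw [hι (insert r S), hcap, hSv]
        simp [e1]
    · have h3 : 3 ≤ W.d l := by
        have d1 := hW.pos l
        by_contra hlt
        have : W.d l = 1 ∨ W.d l = 2 := by omega
        rcases this with h | h
        · exact hl0 (hW.ul0 l h)
        · exact hm0 (hW.um0 l h)
      exact hA _ l rfl h3 v

end Pool.Agent.Work.MP_701abf_gt.TwT
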