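import Pool.Agent.Work.MP_701abf_gt.TwT.Stmts4
import Pool.Agent.Work.MP_701abf_gt.TwT.I_Lp

/-! The two-thirds law, item Np: nothing outside the words, for the operations `2^i`. -/

open MvPolynomial
open Pool.Agent.Work.MP_701abf_gt.Stab Pool.Agent.Work.MP_701abf_gt.Cob
open Pool.Agent.Work.MP_701abf_gt.Sq2

namespace Pool.Agent.Work.MP_701abf_gt.TwT

namespace INp

theorem key (hOk : StOk) (hSw : StSw) (hLp : StLp) (hLq : StLq) (r : ℕ) (V : Sys)
    (ι : Finset ℕ → V.I) (h : LP r V ι) : ∀ a d k : ℕ, 2 * d ≤ a + r + 2 → d ≤ 2 ^ k →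
    ∀ y : (Ex a).I × V.I → ZMod 2, (Sys.ten V (Ex a)).Dg (a + r + d) y →
      (∀ i, i < k → (Sys.ten V (Ex a)).e (2 ^ i) y = 0) →
      (∀ S, ∀ v, v ∈ Im r ι → y (S, v) = 0) → y = 0 := by
  classical
  have hlowEx : ∀ (a : ℕ) (S : (Ex a).I), a ≤ (Ex a).d S := by
    intro a S
    have h1 := (hOk.1 _ _ _ _ (hOk.2.2 a)).2 S
    omega
  induction h with
  | one =>
    intro a d k _ _ y _ _ h0
    funext p
    obtain ⟨S, v⟩ := p
    exact h0 S v ⟨∅, Finset.empty_subset _, rfl⟩
  | @sg r V ι W l0 m0 hW hLP ih =>
    intro a d k h1 h2 y hd he h0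
    obtain ⟨hTP, hι, -, -, -, -⟩ := hLq r V ι hLP
    have hlow : ∀ S v, a + r + 2 * 0 ≤ (Ex a).d S + V.d v := by
      intro S v
      have h3 := (hOk.1 _ _ _ _ hTP).2 v
      have h4 := hlowEx a S
      omega
    have hlm : ∀ b : Bool, E1.d b = W.d (if b then m0 else l0) := by
      intro b
      cases b
      · have := hW.dl0
        simp [E1, this]
      · have := hW.dm0
        simp [E1, this]
    let y' : (Bool × (Ex a).I) × V.I → ZMod 2 := fun p =>
      y (p.1.2, ((if p.1.1 then m0 else l0), p.2))
    have hE1 := hOk.2.1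
    have hy' : ∀ (n : ℕ) (b : Bool) (S : (Ex a).I) (v : V.I),
        (Sys.ten V (Ex (a + 1))).e n y' ((b, S), v) =
        (Sys.ten (Sys.ten V W) (Ex a)).e n y (S, ((if b then m0 else l0), v)) := by
      intro n b S v
      have e1 := hSw.2 (Ex a) V E1 n y' S b v
      have e2 := hSw.1 (Ex a) V W n y S (if b then m0 else l0) v
      refine Eq.trans e1 (Eq.trans ?_ e2.symm)
      cases b
      · have f1 := ILp.sum_l0 E1 false true hE1 n (fun j b' =>
          (Sys.ten V (Ex a)).e j (fun p => y' ((b', p.1), p.2)) (S, v))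
        have f2 := ILp.sum_l0 W l0 m0 hW n (fun j l =>
          (Sys.ten V (Ex a)).e j (fun p => y (p.1, (l, p.2))) (S, v))
        exact f1.trans f2.symm
      · have f1 := ILp.sum_m0 E1 false true hE1 n (fun j b' =>
          (Sys.ten V (Ex a)).e j (fun p => y' ((b', p.1), p.2)) (S, v))
        have f2 := ILp.sum_m0 W l0 m0 hW n (fun j l =>
          (Sys.ten V (Ex a)).e j (fun p => y (p.1, (l, p.2))) (S, v))
        exact f1.trans f2.symm
    have hIm : ∀ (b : Bool) (v : V.I), v ∈ Im r ι →
        (((if b then m0 else l0), v) : W.I × V.I) ∈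
          Im (V := Sys.ten V W) (r + 1) (fun S => ((if r ∈ S then m0 else l0), ι S)) := by
      intro b v hv
      obtain ⟨T, hT, rfl⟩ := hv
      have hr : r ∉ T := fun h3 => absurd (Finset.mem_range.1 (hT h3)) (lt_irrefl r)
      cases b
      · refine ⟨T, hT.trans (Finset.range_mono (Nat.le_succ r)), ?_⟩
        change ((if r ∈ T then m0 else l0), ι T) = ((if false = true then m0 else l0), ι T)
        rw [if_neg hr, if_neg (by decide)]
      · refine ⟨insert r T, ?_, ?_⟩
        · intro i hi
          rw [Finset.mem_insert] at hi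
          rw [Finset.mem_range]
          rcases hi with rfl | hi
          · exact Nat.lt_succ_self _
          · have := Finset.mem_range.1 (hT hi)
            omega
        · change ((if r ∈ insert r T then m0 else l0), ι (insert r T)) =
            ((if true = true then m0 else l0), ι T)
          rw [if_pos (Finset.mem_insert_self r T), if_pos rfl]
          have h3 : ι (insert r T) = ι T := by
            rw [hι (insert r T), hι T]
            congr 1
            ext i
            simp only [Finset.mem_inter, Finset.mem_insert, Finset.mem_range]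
            constructor
            · rintro ⟨h4 | h4, h5⟩
              · exact absurd h4 (by omega)
              · exact ⟨h4, h5⟩
            · rintro ⟨h4, h5⟩
              exact ⟨Or.inr h4, h5⟩
          rw [h3]
    have hy0 : y' = 0 := by
      refine ih (a + 1) d k (by omega) h2 y' ?_ ?_ ?_
      · have h3' : ∀ (b : Bool) (S : (Ex a).I) (v : V.I), y' ((b, S), v) ≠ 0 →
            (E1.d b + (Ex a).d S) + V.d v = a + 1 + r + d := by
          intro b S v hp
          have h3 : (Ex a).d S + (W.d (if b then m0 else l0) + V.d v) = a + (r + 1) + d :=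
            hd (S, ((if b then m0 else l0), v)) hp
          rw [hlm b]
          omega
        intro p hp
        exact h3' p.1.1 p.1.2 p.2 hp
      · intro i hi
        have h3' : ∀ (b : Bool) (S : (Ex a).I) (v : V.I),
            (Sys.ten V (Ex (a + 1))).e (2 ^ i) y' ((b, S), v) = 0 := by
          intro b S v
          rw [hy' (2 ^ i) b S v]
          exact congrFun (he i hi) (S, ((if b then m0 else l0), v))
        funext q
        exact h3' q.1.1 q.1.2 q.2
      · intro S v hv
        exact h0 S.2 _ (hIm S.1 v hv)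
    refine ILp.strong hSw V W a r 0 (d + 1) 3 k hW.ok hlow
      (fun e' h3 h4 y'' h5 h6 => hLp _ r 0 V hTP a e' k h3 h4 y'' h5 h6) y ?_ he ?_ ?_
    · intro p hp
      have h3 := hd p hp
      omega
    · intro h3
      constructor
      · omega
      · omega
    · intro l hl S v
      have h3 := hW.pos l
      rcases Nat.lt_or_ge (W.d l) 2 with h4 | h4
      · have h5 := hW.ul0 l (by omega)
        subst h5
        exact congrFun hy0 ((false, S), v)
      · have h5 := hW.um0 l (by omega)
        subst h5
        exact congrFun hy0 ((true, S), v)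

end INp

theorem pr_Np (hTn : StTn) (hOk : StOk) (hSw : StSw) (hLp : StLp) (hLq : StLq) : StNp := by
  classical
  intro r V ι hLP d k h1 h2 y hy he p hp
  obtain ⟨-, -, -, -, hq5, hq6⟩ := hLq r V ι hLP
  obtain ⟨-, -, h3, -, -, hone, -⟩ := hTn
  let z : V.I → ZMod 2 := fun p => if p ∈ Im r ι then 0 else y p
  have hz1 : ∀ p, p ∉ Im r ι → z p = y p := fun p hp => if_neg hp
  have hz2 : ∀ p, p ∈ Im r ι → z p = 0 := fun p hp => if_pos hp
  have hze : ∀ i, i < k → V.e (2 ^ i) z = 0 := by
    intro i hi
    funext q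
    by_cases hq : q ∈ Im r ι
    · have h4 := hq6 (2 ^ i) z 0 (fun p hp => hz2 p hp) q hq
      rw [h4, map_zero]
    · have h4 := hq5 (2 ^ i) z y hz1 q hq
      rw [h4, he i hi]
  have key : (fun p : (Ex 0).I × V.I => z p.2) = 0 := by
    refine INp.key hOk hSw hLp hLq r V ι hLP 0 d k (by omega) h2 (fun p => z p.2) ?_ ?_ ?_
    · intro l hl
      have h6 : z l.2 ≠ 0 := hl
      have h7 : l.2 ∉ Im r ι := fun h8 => h6 (hz2 _ h8)
      have h4 := hy l.2 (by rw [← hz1 _ h7]; exact h6)
      have h5 : (Sys.ten V (Ex 0)).d l = 0 + V.d l.2 := rfl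
      rw [h5, h4]
      omega
    · intro i hi
      funext p
      obtain ⟨u, v⟩ := p
      have h4 : (Sys.ten V Sys.one).e (2 ^ i) (fun p : Sys.one.I × V.I => z p.2) (u, v) =
          V.e (2 ^ i) (fun v' => z v') v :=
        h3 V Sys.one hone (fun p : Sys.one.I × V.I => z p.2) u
          (fun l hl => absurd hl (lt_irrefl 0)) (2 ^ i) v
      have h5 := congrFun (hze i hi) v
      exact h4.trans h5
    · intro S v hv
      exact hz2 v hv
  have h4 := congrFun key ((), p)
  rw [← hz1 p hp]
  exact h4

end Pool.Agent.Work.MP_701abf_gt.TwT
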