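import Pool.Agent.Work.MP_701abf_gt.TwT.Stmts3

/-! The two-thirds law, item Pb: involutions and products without free letters. -/

open MvPolynomial
open Pool.Agent.Work.MP_701abf_gt.Stab Pool.Agent.Work.MP_701abf_gt.Cob
open Pool.Agent.Work.MP_701abf_gt.Sq2

namespace Pool.Agent.Work.MP_701abf_gt.TwT

namespace IPb

/-- The condition on the sets in `InvP`. -/
def Cd {r : ℕ} (π : Equiv.Perm (Fin r)) (S : Finset (Fin r)) : Prop :=
  ∀ i, (i ∈ S ∨ π i ∈ S) ∧ (π i = i ∨ ¬(i ∈ S ∧ π i ∈ S))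

/-- The map on the numbers defined by a permutation. -/
def mu {r : ℕ} (π : Equiv.Perm (Fin r)) (i : ℕ) : ℕ := if h : i < r then (π ⟨i, h⟩ : ℕ) else i

lemma mu_lt {r : ℕ} (π : Equiv.Perm (Fin r)) (i : ℕ) (h : i < r) : mu π i = (π ⟨i, h⟩ : ℕ) := by
  unfold mu
  rw [dif_pos h]

lemma mu_val {r : ℕ} (π : Equiv.Perm (Fin r)) (i : Fin r) : mu π (i : ℕ) = (π i : ℕ) :=
  mu_lt π i i.2

open Classical in
lemma InvP_apply_map (r m : ℕ) (π : Equiv.Perm (Fin r)) (S : Finset (Fin r)) :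
    InvP r m π (S.map Fin.valEmbedding) = if S.card = m ∧ Cd π S then 1 else 0 := by
  unfold InvP
  rw [Finsupp.finsetSum_apply]
  simp only [Finsupp.single_apply, (Finset.map_injective _).eq_iff]
  rw [Finset.sum_ite_eq']
  simp only [Finset.mem_filter, Finset.mem_univ, true_and]
  exact if_congr Iff.rfl rfl rfl

lemma InvP_apply_not (r m : ℕ) (π : Equiv.Perm (Fin r)) (T : Finset ℕ)
    (hT : ¬ T ⊆ Finset.range r) : InvP r m π T = 0 := by
  classical
  unfold InvP
  rw [Finsupp.finsetSum_apply]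
  apply Finset.sum_eq_zero
  intro S _
  rw [Finsupp.single_apply, if_neg]
  intro h
  apply hT
  rw [← h]
  intro i hi
  rw [Finset.mem_map] at hi
  obtain ⟨j, _, rfl⟩ := hi
  exact Finset.mem_range.2 j.2

open Classical in
lemma Inv_apply (r : ℕ) (F : Finset ℕ) (μ : ℕ → ℕ) (T : Finset ℕ) :
    Inv r F μ T = if T ⊆ Finset.range r ∧ Cnd r F μ T then 1 else 0 := by
  unfold Inv
  rw [Finsupp.finsetSum_apply]
  simp only [Finsupp.single_apply]
  rw [Finset.sum_ite_eq']
  simp only [Finset.mem_filter, Finset.mem_powerset]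

lemma Cnd_iff {r : ℕ} (π : Equiv.Perm (Fin r)) (S : Finset (Fin r)) :
    Cnd r ∅ (mu π) (S.map Fin.valEmbedding) ↔ Cd π S := by
  have hmem : ∀ i : Fin r, (i : ℕ) ∈ S.map Fin.valEmbedding ↔ i ∈ S := by
    intro i
    rw [Finset.mem_map]
    constructor
    · rintro ⟨j, hj, h⟩
      have : j = i := Fin.ext h
      rwa [← this]
    · intro h
      exact ⟨i, h, rfl⟩
  unfold Cnd Cd
  constructor
  · intro h i
    have h1 := h (i : ℕ) i.2
    rw [if_neg (Finset.notMem_empty _), mu_val, hmem, hmem] at h1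
    by_cases h2 : π i = i
    · rw [if_pos (by rw [h2])] at h1
      exact ⟨Or.inl h1, Or.inl h2⟩
    · rw [if_neg (fun h3 => h2 (Fin.ext h3))] at h1
      constructor
      · by_cases h4 : i ∈ S
        · exact Or.inl h4
        · right
          by_contra h5
          exact h4 (h1.2 h5)
      · right
        rintro ⟨h4, h5⟩
        exact h1.1 h4 h5
  · intro h i hi
    have h1 := h ⟨i, hi⟩
    have h2 := hmem ⟨i, hi⟩
    have h3 := hmem (π ⟨i, hi⟩)
    rw [if_neg (Finset.notMem_empty _), mu_lt π i hi, h3]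
    simp only at h2
    rw [h2]
    split_ifs with h4
    · have h5 : π ⟨i, hi⟩ = ⟨i, hi⟩ := Fin.ext h4
      rw [h5] at h1
      exact h1.1.elim id id
    · have h5 : π ⟨i, hi⟩ ≠ ⟨i, hi⟩ := fun h6 => h4 (congrArg Fin.val h6)
      constructor
      · intro h6 h7
        exact h1.2.elim h5 (fun h8 => h8 ⟨h6, h7⟩)
      · intro h6
        exact h1.1.elim id (fun h8 => absurd h8 h6)

lemma InvP_apply (r m : ℕ) (π : Equiv.Perm (Fin r)) (T : Finset ℕ) :
    InvP r m π T = if T.card = m then Inv r ∅ (mu π) T else 0 := by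
  classical
  by_cases hT : T ⊆ Finset.range r
  · have h1 : ∀ i ∈ T, i < r := fun i hi => Finset.mem_range.1 (hT hi)
    obtain ⟨S, rfl⟩ : ∃ S : Finset (Fin r), T = S.map Fin.valEmbedding :=
      ⟨T.attachFin h1, (Finset.map_valEmbedding_attachFin h1).symm⟩
    rw [InvP_apply_map, Inv_apply, Finset.card_map]
    by_cases h2 : S.card = m
    · rw [if_pos h2]
      simp only [h2, hT, true_and, Cnd_iff]
    · rw [if_neg h2, if_neg (fun h3 => h2 h3.1)]
  · have h0 : Inv r ∅ (mu π) T = 0 := by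
      rw [Inv_apply, if_neg (fun h => hT h.1)]
    rw [InvP_apply_not r m π T hT, h0, ite_self]

lemma Ho_apply {r m : ℕ} {f : Lam} (hf : f ∈ Ho r m) (T : Finset ℕ) (hT : T.card ≠ m) : f T = 0 := by
  unfold Ho at hf
  rw [Finsupp.mem_supported'] at hf
  exact hf T (fun h => hT h.2)

lemma mu_inv {r : ℕ} (π : Equiv.Perm (Fin r)) (hπ : π * π = 1) (i : ℕ) (hi : i < r) :
    mu π i < r ∧ mu π (mu π i) = i := by
  have h1 : π (π ⟨i, hi⟩) = ⟨i, hi⟩ := by
    have h2 := congrArg (fun σ : Equiv.Perm (Fin r) => σ ⟨i, hi⟩) hπ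
    simpa using h2
  rw [mu_lt π i hi]
  refine ⟨(π ⟨i, hi⟩).2, ?_⟩
  rw [mu_val, h1]

lemma InvP_eq {r m : ℕ} (π : Equiv.Perm (Fin r)) (h : Inv r ∅ (mu π) ∈ Ho r m) :
    InvP r m π = Inv r ∅ (mu π) := by
  ext T
  rw [InvP_apply]
  split_ifs with h1
  · rfl
  · rw [Ho_apply h T h1]

lemma InvP_zero {r m m' : ℕ} (π : Equiv.Perm (Fin r)) (h : Inv r ∅ (mu π) ∈ Ho r m')
    (hm : m ≠ m') : InvP r m π = 0 := by
  ext T
  rw [InvP_apply, Finsupp.zero_apply]
  split_ifs with h1
  · exact Ho_apply h T (fun h2 => hm (h1.symm.trans h2))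
  · rfl

lemma part1 (hKv : StKv) (hIv : StIv) (r m : ℕ) (π : Equiv.Perm (Fin r)) (hπ : π * π = 1) :
    InvP r m π ∈ KS 1 r m := by
  obtain ⟨m', hm'⟩ := hIv.2 r ∅ (mu π) (Finset.empty_subset _) (mu_inv π hπ)
    (fun i hi => absurd hi (Finset.notMem_empty i))
  have h1 := (hKv r m' ∅ _ hm').1
  by_cases h2 : m = m'
  · subst h2
    rw [InvP_eq π h1]
    apply Submodule.subset_span
    exact ⟨∅, by simp, hm'⟩
  · rw [InvP_zero π h1 h2]
    exact Submodule.zero_mem _

lemma lam_add_self (f : Lam) : f + f = 0 := by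
  ext T
  rw [Finsupp.add_apply, Finsupp.zero_apply]
  exact CharTwo.add_self_eq_zero _

lemma sum_symmDiff' {ι : Type*} [DecidableEq ι] (A B : Finset ι) (f : ι → Lam) :
    ∑ i ∈ symmDiff A B, f i = ∑ i ∈ A, f i + ∑ i ∈ B, f i := by
  have h1 : symmDiff A B = (A \ B) ∪ (B \ A) := rfl
  have h2 : Disjoint (A \ B) (B \ A) := disjoint_sdiff_sdiff
  rw [h1, Finset.sum_union h2]
  have h3 := Finset.sum_inter_add_sum_sdiff A B f
  have h4 := Finset.sum_inter_add_sum_sdiff B A f
  rw [Finset.inter_comm] at h4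
  rw [← h3, ← h4]
  have h5 := lam_add_self (∑ i ∈ A ∩ B, f i)
  calc ∑ i ∈ A \ B, f i + ∑ i ∈ B \ A, f i
      = ∑ i ∈ A \ B, f i + ∑ i ∈ B \ A, f i + 0 := by rw [add_zero]
    _ = ∑ i ∈ A \ B, f i + ∑ i ∈ B \ A, f i + (∑ i ∈ A ∩ B, f i + ∑ i ∈ A ∩ B, f i) := by rw [h5]
    _ = _ := by abel

/-- The permutation of `Fin r` given by an involution of the numbers below `r`. -/
def pm {r : ℕ} (μ : ℕ → ℕ) (h : ∀ i, i < r → μ i < r ∧ μ (μ i) = i) : Equiv.Perm (Fin r) where
  toFun i := ⟨μ i, (h i i.2).1⟩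
  invFun i := ⟨μ i, (h i i.2).1⟩
  left_inv i := Fin.ext (h i i.2).2
  right_inv i := Fin.ext (h i i.2).2

lemma pm_sq {r : ℕ} (μ : ℕ → ℕ) (h : ∀ i, i < r → μ i < r ∧ μ (μ i) = i) : pm μ h * pm μ h = 1 := by
  ext i
  exact (h i i.2).2

lemma Inv_congr (r : ℕ) (F : Finset ℕ) (μ ν : ℕ → ℕ) (h : ∀ i, i < r → μ i = ν i) :
    Inv r F μ = Inv r F ν := by
  classical
  ext T
  rw [Inv_apply, Inv_apply]
  have h1 : Cnd r F μ T ↔ Cnd r F ν T := by
    unfold Cnd
    constructor
    · intro h2 i hi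
      have h3 := h2 i hi
      rw [h i hi] at h3
      exact h3
    · intro h2 i hi
      have h3 := h2 i hi
      rw [← h i hi] at h3
      exact h3
  simp only [h1]

lemma part2 (hKv : StKv) (hIv : StIv) (r m : ℕ) (f : Lam) (hf : f ∈ KS 1 r m) :
    ∃ C : Finset (Equiv.Perm (Fin r)), (∀ π ∈ C, π * π = 1) ∧ f = ∑ π ∈ C, InvP r m π := by
  classical
  unfold KS at hf
  induction hf using Submodule.span_induction with
  | mem P hP =>
    obtain ⟨F, hF, hK⟩ := hP
    have hF0 : F = ∅ := Finset.card_eq_zero.1 (by omega)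
    subst hF0
    obtain ⟨μ, h1, _, h2⟩ := hIv.1 r m ∅ P hK
    have h3 := (hKv r m ∅ P hK).1
    have h4 : Inv r ∅ (mu (pm μ h1)) = P := by
      rw [h2]
      apply Inv_congr
      intro i hi
      rw [mu_lt _ i hi]
      rfl
    refine ⟨{pm μ h1}, ?_, ?_⟩
    · intro π hπ
      rw [Finset.mem_singleton] at hπ
      rw [hπ]
      exact pm_sq μ h1
    · rw [Finset.sum_singleton, InvP_eq _ (by rw [h4]; exact h3), h4]
  | zero => exact ⟨∅, fun π hπ => absurd hπ (Finset.notMem_empty π), by simp⟩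
  | add x y _ _ hx hy =>
    obtain ⟨C, hC, rfl⟩ := hx
    obtain ⟨D, hD, rfl⟩ := hy
    refine ⟨symmDiff C D, ?_, (sum_symmDiff' C D _).symm⟩
    intro π hπ
    rw [Finset.mem_symmDiff] at hπ
    rcases hπ with hπ | hπ
    · exact hC π hπ.1
    · exact hD π hπ.1
  | smul a x _ hx =>
    obtain ⟨C, hC, rfl⟩ := hx
    have ha : a = 0 ∨ a = 1 := by
      revert a
      decide
    rcases ha with rfl | rfl
    · exact ⟨∅, fun π hπ => absurd hπ (Finset.notMem_empty π), by simp⟩
    · exact ⟨C, hC, by rw [one_smul]⟩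

lemma part3 (r m : ℕ) (π : Equiv.Perm (Fin r)) (hπ : π * π = 1)
    (h : r + (Finset.univ.filter fun i => π i = i).card = 2 * m) : InvP r m π ≠ 0 := by
  classical
  have hinv : ∀ i, π (π i) = i := by
    intro i
    have h2 := congrArg (fun σ : Equiv.Perm (Fin r) => σ i) hπ
    simpa using h2
  let S : Finset (Fin r) := Finset.univ.filter fun i => i ≤ π i
  let S' : Finset (Fin r) := Finset.univ.filter fun i => π i ≤ i
  have hS : Cd π S := by
    intro i
    simp only [S, Finset.mem_filter, Finset.mem_univ, true_and, hinv]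
    constructor
    · exact le_total _ _
    · by_cases h1 : π i = i
      · exact Or.inl h1
      · right
        rintro ⟨h2, h3⟩
        exact h1 (le_antisymm h3 h2)
  have h1 : S.card = S'.card := by
    apply Finset.card_bij (fun i _ => π i)
    · intro i hi
      simp only [S, S', Finset.mem_filter, Finset.mem_univ, true_and, hinv] at hi ⊢
      exact hi
    · intro i _ j _ hij
      exact π.injective hij
    · intro j hj
      refine ⟨π j, ?_, hinv j⟩
      simp only [S, S', Finset.mem_filter, Finset.mem_univ, true_and, hinv] at hj ⊢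
      exact hj
  have h2 : S ∪ S' = Finset.univ := by
    ext i
    simp only [S, S', Finset.mem_union, Finset.mem_filter, Finset.mem_univ, true_and, iff_true]
    exact le_total _ _
  have h3 : S ∩ S' = Finset.univ.filter fun i => π i = i := by
    ext i
    simp only [S, S', Finset.mem_inter, Finset.mem_filter, Finset.mem_univ, true_and]
    constructor
    · rintro ⟨h4, h5⟩
      exact le_antisymm h5 h4
    · intro h4
      exact ⟨h4.symm.le, h4.le⟩
  have h4 := Finset.card_union_add_card_inter S S'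
  rw [h2, h3, Finset.card_univ, Fintype.card_fin] at h4
  have h5 : S.card = m := by omega
  intro h6
  have h7 := InvP_apply_map r m π S
  rw [h6, if_pos ⟨h5, hS⟩, Finsupp.zero_apply] at h7
  exact zero_ne_one h7

end IPb

theorem pr_Pb (hKv : StKv) (hIv : StIv) : StPb :=
  ⟨fun r m π hπ => IPb.part1 hKv hIv r m π hπ, fun r m f hf => IPb.part2 hKv hIv r m f hf,
    fun r m π hπ h => IPb.part3 r m π hπ h⟩

end Pool.Agent.Work.MP_701abf_gt.TwT
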