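import Pool.Agent.Work.MP_701abf_gt.TwT.Stmts5

/-!
# Item Pq: the operations on words
-/

set_option autoImplicit false

open MvPolynomial
open Pool.Agent.Work.MP_701abf_gt.Stab Pool.Agent.Work.MP_701abf_gt.Cob
open Pool.Agent.Work.MP_701abf_gt.Sq2

namespace Pool.Agent.Work.MP_701abf_gt.TwT

namespace IPq

theorem Ho_apply {r m : ℕ} {f : Lam} (hf : f ∈ Ho r m) (S : Finset ℕ) (hS : f S ≠ 0) :
    S ⊆ Finset.range r ∧ S.card = m :=
  (Finsupp.mem_supported (ZMod 2) f).1 hf (Finsupp.mem_support_iff.2 hS)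

theorem Ph_eq (a : ℕ → ℕ) {r m : ℕ} {f : Lam} (hf : f ∈ Ho r m) :
    Ph a r f = ∑ S ∈ (Finset.range r).powerset, f S • wd a S r := by
  classical
  unfold Ph
  rw [Finsupp.linearCombination_apply]
  refine Finsupp.sum_of_support_subset f ?_ _ ?_
  · intro S hS
    exact Finset.mem_powerset.2 (Ho_apply hf S (Finsupp.mem_support_iff.1 hS)).1
  · intro S _
    exact zero_smul _ _

theorem push_sum {V : Sys} (r : ℕ) (ι : Finset ℕ → V.I) (f : Lam) (w : V.I → RR Empty) :
    ∑ l, push r ι f l • w l = ∑ S ∈ (Finset.range r).powerset, f S • w (ι S) := by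
  classical
  unfold push
  simp only [Finset.sum_smul]
  rw [Finset.sum_comm]
  refine Finset.sum_congr rfl fun S _ => ?_
  rw [Finset.sum_eq_single (ι S)]
  · rw [if_pos rfl]
  · intro l _ hl
    rw [if_neg (fun h => hl h.symm), zero_smul]
  · intro h
    exact absurd (Finset.mem_univ _) h

theorem sq_sum {α : Type*} (S : Finset α) (c : α → ZMod 2) (w : α → RR Empty) :
    (∑ l ∈ S, c l • w l) ^ 2 = ∑ l ∈ S, c l • w l ^ 2 := by
  classical
  induction S using Finset.induction_on with
  | empty => simp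
  | @insert a S ha ih =>
    rw [Finset.sum_insert ha, Finset.sum_insert ha, sq_add, ih]
    congr 1
    have : c a = 0 ∨ c a = 1 := by
      generalize c a = x
      revert x
      decide
    rcases this with h | h
    · rw [h, zero_smul, zero_smul, zero_pow two_ne_zero]
    · rw [h, one_smul, one_smul]

/-- a word combination is cohomologous to the combination of the basis -/
theorem congr_BR {V : Sys} {ι : Finset ℕ → V.I} {w : V.I → RR Empty} {a : ℕ → ℕ} {r : ℕ}
    (hw : ∀ S, S ⊆ Finset.range r → wd a S r ∈ ZR (r + S.card) (dg a r : ℤ) ∧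
      w (ι S) + wd a S r ∈ BR (r + S.card) (dg a r : ℤ)) {m : ℕ} {f : Lam} (hf : f ∈ Ho r m) :
    Ph a r f + ∑ l, push r ι f l • w l ∈ BR (r + m) (dg a r : ℤ) := by
  rw [Ph_eq a hf, push_sum, ← Finset.sum_add_distrib]
  refine Submodule.sum_mem _ fun S hS => ?_
  by_cases h0 : f S = 0
  · rw [h0, zero_smul, zero_smul, add_zero]
    exact Submodule.zero_mem _
  · obtain ⟨h1, h2⟩ := Ho_apply hf S h0
    have h3 := (hw S h1).2
    rw [h2, add_comm (w (ι S))] at h3
    rw [← smul_add]
    exact Submodule.smul_mem _ _ h3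

end IPq

open IPq

theorem pr_Pq (hOk : StOk) (hTr : StTr) (hEl : StEl) (hLq : StLq) (hPu : StPu)
    (hCs : StCs) : StPq := by
  classical
  intro q hq R
  obtain ⟨L, J, h⟩ := hCs q hq (4 * R + 10) (by omega)
  refine ⟨L, J, ?_⟩
  intro r hr hrR a ha m f hf n
  by_cases hm : r < m
  · have hf0 : f = 0 := hEl.2.2.2.2.2.2.2 r m hm f hf
    subst hf0
    rw [map_zero, map_zero, map_zero, zero_pow two_ne_zero, add_zero]
    exact hq.br n (r + m) _ 0 (Submodule.zero_mem _)
  · have hmr : m ≤ r := not_lt.1 hm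
    obtain ⟨V, ι, w, hLP, hB, hw⟩ := h r hr a ha
    have hVok : V.Ok := (hOk.1 _ _ _ _ (hLq r V ι hLP).1).1
    obtain ⟨hp1, hp2⟩ := hPu r V ι hLP
    obtain ⟨hdeg, hen⟩ := hp2 m f hf
    have hel : el n r f ∈ Ho r (m + n) := hEl.2.2.2.1 n r m f hf
    have hZ : Ph a r f ∈ ZR (r + m) (dg a r : ℤ) := by
      rw [Ph_eq a hf]
      refine Submodule.sum_mem _ fun S hS => ?_
      by_cases h0 : f S = 0
      · rw [h0, zero_smul]
        exact Submodule.zero_mem _
      · obtain ⟨h1, h2⟩ := Ho_apply hf S h0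
        have h3 := (hw S h1).1
        rw [h2] at h3
        exact Submodule.smul_mem _ _ h3
    by_cases hn : n ≤ r + m
    · have hS := congr_BR hw hf
      obtain ⟨_, h2⟩ := hTr q hq (4 * R + 10) _ V w hVok hB (r + m) (by omega) _ hZ
        (push r ι f) hdeg hS
      have h3 := (h2 n (by omega)).1
      rw [hen n, ← sq_sum] at h3
      have h4 := sq_BR (congr_BR hw hel)
      rw [sq_add, ← add_assoc] at h4
      have h5 := Submodule.add_mem _ h3 h4
      have h6 : (q n (r + m) (Ph a r f) + (∑ l, push r ι (el n r f) l • w l) ^ 2) +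
          (Ph a r (el n r f) ^ 2 + (∑ l, push r ι (el n r f) l • w l) ^ 2) =
          q n (r + m) (Ph a r f) + Ph a r (el n r f) ^ 2 := by
        have h7 := add_self2 ((∑ l, push r ι (el n r f) l • w l) ^ 2)
        linear_combination h7
      rw [h6] at h5
      exact h5
    · have h4 : el n r f = 0 := hEl.2.2.2.2.2.2.2 r (m + n) (by omega) _ hel
      rw [h4, map_zero, zero_pow two_ne_zero, add_zero]
      exact hq.top n (r + m) _ (by omega) _ hZ

end Pool.Agent.Work.MP_701abf_gt.TwT
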