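import Pool.Agent.Work.MP_701abf_gt.TwT.Stmts2

/-!
# The two-thirds law, half A, item Pu: the operations on the sets of letters
-/

open MvPolynomial
open Pool.Agent.Work.MP_701abf_gt.Stab Pool.Agent.Work.MP_701abf_gt.Cob
open Pool.Agent.Work.MP_701abf_gt.Sq2

namespace Pool.Agent.Work.MP_701abf_gt.TwT

namespace IPu

lemma del_single (r : ℕ) (S : Finset ℕ) (c : ZMod 2) : del r (Finsupp.single S c) =
    c • (if r ∈ S then (0 : Lam) else Finsupp.single (insert r S) 1) := by
  unfold del
  rw [Finsupp.linearCombination_single]

/-- the values of `del r g` at sets without `r` -/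
lemma del_out (r : ℕ) (g : Lam) (T : Finset ℕ) (hT : r ∉ T) : del r g T = 0 := by
  induction g using Finsupp.induction_linear with
  | zero => simp
  | add f g hf hg => rw [map_add, Finsupp.add_apply, hf, hg, add_zero]
  | single S c =>
    rw [del_single]
    by_cases h : r ∈ S
    · rw [if_pos h, smul_zero, Finsupp.zero_apply]
    · rw [if_neg h, Finsupp.smul_apply, Finsupp.single_apply, if_neg, smul_zero]
      intro h1
      exact hT (h1 ▸ Finset.mem_insert_self r S)

/-- the values of `del r g` at sets with `r` -/
lemma del_in (r : ℕ) (g : Lam) (T : Finset ℕ) (hT : r ∉ T) : del r g (insert r T) = g T := by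
  induction g using Finsupp.induction_linear with
  | zero => simp
  | add f g hf hg => rw [map_add, Finsupp.add_apply, hf, hg, Finsupp.add_apply]
  | single S c =>
    rw [del_single]
    by_cases h : r ∈ S
    · rw [if_pos h, smul_zero, Finsupp.zero_apply, Finsupp.single_apply, if_neg]
      intro h1
      exact hT (h1 ▸ h)
    · rw [if_neg h, Finsupp.smul_apply, Finsupp.single_apply, Finsupp.single_apply]
      by_cases h1 : S = T
      · rw [if_pos h1, if_pos (by rw [h1])]
        simp
      · rw [if_neg h1, if_neg, smul_zero]
        intro h2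
        apply h1
        rw [← Finset.erase_insert h, ← Finset.erase_insert hT, h2]

lemma push_add {V : Sys} (r : ℕ) (ι : Finset ℕ → V.I) (f g : Lam) :
    push r ι (f + g) = push r ι f + push r ι g := by
  funext p
  unfold push
  rw [Pi.add_apply, ← Finset.sum_add_distrib]
  refine Finset.sum_congr rfl fun S _ => ?_
  by_cases h : ι S = p
  · rw [if_pos h, if_pos h, if_pos h, Finsupp.add_apply]
  · rw [if_neg h, if_neg h, if_neg h, add_zero]

lemma push_zero {V : Sys} (r : ℕ) (ι : Finset ℕ → V.I) : push r ι (0 : Lam) = 0 := by
  funext p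
  unfold push
  rw [Pi.zero_apply]
  refine Finset.sum_eq_zero fun S _ => ?_
  by_cases h : ι S = p
  · rw [if_pos h, Finsupp.zero_apply]
  · rw [if_neg h]

/-- elements of `Ho r m` vanish at sets with `r` -/
lemma Ho_out {r m : ℕ} {f : Lam} (hf : f ∈ Ho r m) (S : Finset ℕ) (hS : ¬ S ⊆ Finset.range r) :
    f S = 0 := by
  by_contra h
  have h1 := (Finsupp.mem_supported _ _).1 hf (Finset.mem_coe.2 (Finsupp.mem_support_iff.2 h))
  exact hS h1.1

lemma Ho_card {r m : ℕ} {f : Lam} (hf : f ∈ Ho r m) (S : Finset ℕ) (hS : f S ≠ 0) :
    S.card = m := by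
  have h1 := (Finsupp.mem_supported _ _).1 hf (Finset.mem_coe.2 (Finsupp.mem_support_iff.2 hS))
  exact h1.2

open Classical in
/-- the components of `push` for a new letter -/
lemma push_succ {V W : Sys} {r m : ℕ} (ι : Finset ℕ → V.I) (l0 m0 : W.I)
    (hι : ∀ S, ι S = ι (S ∩ Finset.range r)) (ι' : Finset ℕ → (Sys.ten V W).I)
    (hι' : ∀ S, ι' S = ((if r ∈ S then m0 else l0, ι S) : W.I × V.I))
    (f₀ f₁ : Lam) (hf₀ : f₀ ∈ Ho r m) (w : W.I) (v : V.I) :
    push (r + 1) ι' (f₀ + del r f₁) (w, v) =
      (if w = l0 then push r ι f₀ v else 0) + (if w = m0 then push r ι f₁ v else 0) := by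
  have hr : r ∉ Finset.range r := by simp
  have e1 : push (r + 1) ι' (f₀ + del r f₁) (w, v) =
      ∑ S ∈ (Finset.range r).powerset, (if ι' S = (w, v) then (f₀ + del r f₁) S else 0) +
      ∑ S ∈ (Finset.range r).powerset,
        (if ι' (insert r S) = (w, v) then (f₀ + del r f₁) (insert r S) else 0) := by
    unfold push
    rw [Finset.range_add_one, Finset.sum_powerset_insert hr]
  rw [e1]
  congr 1
  · by_cases hw : w = l0
    · rw [if_pos hw]
      unfold push
      refine Finset.sum_congr rfl fun S hS => ?_
      have hrS : r ∉ S := fun h => hr (Finset.mem_powerset.1 hS h)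
      have e2 : ι' S = ((l0, ι S) : W.I × V.I) := by rw [hι', if_neg hrS]
      have e3 : (f₀ + del r f₁) S = f₀ S := by
        rw [Finsupp.add_apply, del_out r f₁ S hrS, add_zero]
      by_cases h : ι S = v
      · rw [if_pos h, if_pos, e3]
        rw [e2, h, hw]
      · rw [if_neg h, if_neg]
        intro h1
        rw [e2] at h1
        exact h (congrArg Prod.snd h1)
    · rw [if_neg hw]
      refine Finset.sum_eq_zero fun S hS => ?_
      have hrS : r ∉ S := fun h => hr (Finset.mem_powerset.1 hS h)
      have e2 : ι' S = ((l0, ι S) : W.I × V.I) := by rw [hι', if_neg hrS]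
      rw [if_neg]
      intro h1
      rw [e2] at h1
      exact hw (congrArg Prod.fst h1).symm
  · have hS1 : ∀ S ∈ (Finset.range r).powerset, ι' (insert r S) = ((m0, ι S) : W.I × V.I) := by
      intro S hS
      have hrS : r ∉ S := fun h => hr (Finset.mem_powerset.1 hS h)
      rw [hι', if_pos (Finset.mem_insert_self r S), hι (insert r S)]
      have : insert r S ∩ Finset.range r = S := by
        ext i
        simp only [Finset.mem_inter, Finset.mem_insert, Finset.mem_range]
        constructor
        · rintro ⟨h1 | h1, h2⟩
          · omega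
          · exact h1
        · intro h1
          exact ⟨Or.inr h1, Finset.mem_range.1 (Finset.mem_powerset.1 hS h1)⟩
      rw [this]
    by_cases hw : w = m0
    · rw [if_pos hw]
      unfold push
      refine Finset.sum_congr rfl fun S hS => ?_
      have hrS : r ∉ S := fun h => hr (Finset.mem_powerset.1 hS h)
      have e3 : (f₀ + del r f₁) (insert r S) = f₁ S := by
        rw [Finsupp.add_apply, del_in r f₁ S hrS, Ho_out hf₀, zero_add]
        intro h1
        exact hr (h1 (Finset.mem_insert_self r S))
      by_cases h : ι S = v
      · rw [if_pos h, if_pos, e3]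
        rw [hS1 S hS, h, hw]
      · rw [if_neg h, if_neg]
        intro h1
        rw [hS1 S hS] at h1
        exact h (congrArg Prod.snd h1)
    · rw [if_neg hw]
      refine Finset.sum_eq_zero fun S hS => ?_
      rw [if_neg]
      intro h1
      rw [hS1 S hS] at h1
      exact hw (congrArg Prod.fst h1).symm

end IPu

open IPu

/-- Pu. -/
theorem pr_Pu (hTn : StTn) (hOk : StOk) (hLt : StLt) (hLq : StLq) (hEl : StEl) : StPu := by
  intro r V ι hLP
  obtain ⟨-, -, hinj, hdeg, -, -⟩ := hLq r V ι hLP
  refine ⟨?_, ?_⟩
  · intro f S hS
    unfold push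
    rw [Finset.sum_eq_single S]
    · rw [if_pos rfl]
    · intro T hT hTS
      rw [if_neg]
      intro h
      exact hTS (hinj T S (Finset.mem_powerset.1 hT) hS h)
    · intro h
      exact absurd (Finset.mem_powerset.2 hS) h
  · intro m f hf
    refine ⟨?_, ?_⟩
    · intro p hp
      have hp' : ∑ S ∈ (Finset.range r).powerset,
          (open Classical in if ι S = p then f S else 0) ≠ 0 := hp
      obtain ⟨T, hT, hTp⟩ := Finset.exists_ne_zero_of_sum_ne_zero hp'
      by_cases h : ι T = p
      · rw [if_pos h] at hTp
        rw [← h, hdeg T (Finset.mem_powerset.1 hT), Ho_card hf T hTp]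
      · rw [if_neg h] at hTp
        exact absurd rfl hTp
    · clear hinj hdeg
      induction hLP generalizing m f with
      | one =>
        intro n
        cases n with
        | zero => exact (hTn.2.2.2.2.1 Sys.one hTn.2.2.2.2.2.1 _).1
        | succ n =>
          exact (hTn.2.2.2.2.2.2 (n + 1) _ (by omega)).trans
            (push_zero (V := Sys.one) 0 (fun _ => ())).symm
      | @sg r V ι W l0 m0 hW h ih =>
        obtain ⟨hTP, hι, -, -, -, -⟩ := hLq r V ι h
        have hVok : V.Ok := (hOk.1 _ _ _ _ hTP).1
        have hok : (Sys.ten V W).Ok := hTn.1 V W hVok hW.ok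
        have hne : l0 ≠ m0 := by
          intro h0
          have h1 := hW.dl0
          have h2 := hW.dm0
          rw [h0, h2] at h1
          omega
        -- the decomposition of `f`
        obtain ⟨f₀, f₁, hf₀, hf₁, hff⟩ : ∃ f₀ f₁, f₀ ∈ Ho r m ∧ f₁ ∈ Ho r (m - 1) ∧
            f = f₀ + del r f₁ := by
          obtain ⟨f₀, hf₀, h0, h1⟩ := hEl.2.2.2.2.2.1 r m f hf
          rcases Nat.eq_zero_or_pos m with hm | hm
          · exact ⟨f₀, 0, hf₀, Submodule.zero_mem _, by rw [map_zero, add_zero]; exact h0 hm⟩
          · obtain ⟨f₁, hf₁, h2⟩ := h1 hm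
            exact ⟨f₀, f₁, hf₀, hf₁, h2⟩
        intro n
        cases n with
        | zero => exact (hTn.2.2.2.2.1 (Sys.ten V W) hok _).1
        | succ n =>
          set ι' : Finset ℕ → (Sys.ten V W).I := fun S =>
            (open Classical in if r ∈ S then m0 else l0, ι S) with hι'
          have hι'' : ∀ S, ι' S =
              ((open Classical in if r ∈ S then m0 else l0, ι S) : W.I × V.I) := fun S => rfl
          have ey : ∀ w v, push (r + 1) ι' f (w, v) =
              (open Classical in (if w = l0 then push r ι f₀ v else 0) +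
                (if w = m0 then push r ι f₁ v else 0)) := by
            intro w v
            rw [hff]
            exact push_succ ι l0 m0 hι ι' hι'' f₀ f₁ hf₀ w v
          have y0 : (fun v => push (r + 1) ι' f (l0, v)) = push r ι f₀ := by
            funext v
            rw [ey, if_pos rfl, if_neg hne, add_zero]
          have y1 : (fun v => push (r + 1) ι' f (m0, v)) = push r ι f₁ := by
            funext v
            rw [ey, if_neg hne.symm, if_pos rfl, zero_add]
          have eR : el (n + 1) (r + 1) f =
              el (n + 1) r f₀ + del r (el (n + 1) r f₁ + el n r f₀) := by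
            show el (n + 1) r f + del r (el n r f) = _
            rw [hff, map_add, map_add, map_add, map_add, hEl.2.2.1, hEl.2.2.1, hEl.1, add_zero,
              add_assoc]
          have hel : el (n + 1) r f₀ ∈ Ho r (m + (n + 1)) := hEl.2.2.2.1 _ _ _ f₀ hf₀
          have hlt := hLt V W l0 m0 hVok hW (push (r + 1) ι' f)
          rw [eR]
          funext p
          obtain ⟨w, v⟩ := p
          rw [push_succ ι l0 m0 hι ι' hι'' _ _ hel w v]
          by_cases h1 : w = l0
          · subst h1
            rw [if_pos rfl, if_neg hne, add_zero]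
            have := hlt.1 (n + 1) v
            rw [y0, ih m f₀ hf₀ (n + 1)] at this
            exact this
          · by_cases h2 : w = m0
            · subst h2
              rw [if_neg h1, if_pos rfl, zero_add]
              have := hlt.2.1 n v
              rw [y0, y1, ih m f₀ hf₀ n, ih (m - 1) f₁ hf₁ (n + 1)] at this
              rw [push_add]
              exact this
            · rw [if_neg h1, if_neg h2, add_zero]
              have := hlt.2.2.1 (fun _ => 0) (fun l v' hl hm => by
                show (0 : ZMod 2) = push (r + 1) ι' f (l, v')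
                rw [ey, if_neg hl, if_neg hm, add_zero]) (n + 1) w v h1 h2
              rw [← this]
              exact congrFun (map_zero ((Sys.ten V W).e (n + 1))) (w, v)

end Pool.Agent.Work.MP_701abf_gt.TwT
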