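import Pool.Agent.Work.MP_701abf_gt.TwT.Stmts2

/-!
# The two-thirds law, half A, item Rm: the exact remainder
-/

open MvPolynomial
open Pool.Agent.Work.MP_701abf_gt.Stab Pool.Agent.Work.MP_701abf_gt.Cob
open Pool.Agent.Work.MP_701abf_gt.Sq2

namespace Pool.Agent.Work.MP_701abf_gt.TwT

namespace IRm

lemma tr {s : ℕ} {t : ℤ} {x y z : RR Empty} (h1 : x + y ∈ BR s t) (h2 : z + y ∈ BR s t) :
    x + z ∈ BR s t := by
  have h3 := Submodule.add_mem _ h1 h2
  have e : x + y + (z + y) = x + z := by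
    have h4 := add_self2 y
    calc x + y + (z + y) = x + z + (y + y) := by abel
      _ = _ := by rw [h4, add_zero]
  rwa [e] at h3

open Classical in
/-- The combination of sets with the coefficients `y (ι S)`. -/
noncomputable def ff {V : Sys} (r m : ℕ) (ι : Finset ℕ → V.I) (y : V.I → ZMod 2) : Lam :=
  ∑ S ∈ (Finset.range r).powerset.filter (fun S => S.card = m), Finsupp.single S (y (ι S))

lemma ff_apply {V : Sys} (r m : ℕ) (ι : Finset ℕ → V.I) (y : V.I → ZMod 2) (S : Finset ℕ)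
    (hS : S ⊆ Finset.range r) (hc : S.card = m) : ff r m ι y S = y (ι S) := by
  classical
  unfold ff
  rw [Finsupp.finsetSum_apply, Finset.sum_eq_single S]
  · rw [Finsupp.single_eq_same]
  · intro T _ hT
    exact Finsupp.single_eq_of_ne hT.symm
  · intro h
    exact absurd (Finset.mem_filter.2 ⟨Finset.mem_powerset.2 hS, hc⟩) h

lemma ff_apply_ne {V : Sys} (r m : ℕ) (ι : Finset ℕ → V.I) (y : V.I → ZMod 2) (S : Finset ℕ)
    (h : ¬ (S ⊆ Finset.range r ∧ S.card = m)) : ff r m ι y S = 0 := by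
  classical
  unfold ff
  rw [Finsupp.finsetSum_apply]
  refine Finset.sum_eq_zero fun T hT => ?_
  rw [Finset.mem_filter, Finset.mem_powerset] at hT
  refine Finsupp.single_eq_of_ne ?_
  rintro rfl
  exact h hT

lemma ff_mem {V : Sys} (r m : ℕ) (ι : Finset ℕ → V.I) (y : V.I → ZMod 2) :
    ff r m ι y ∈ Ho r m := by
  unfold Ho
  rw [Finsupp.mem_supported]
  intro S hS
  by_contra hn
  exact (Finsupp.mem_support_iff.1 (Finset.mem_coe.1 hS)) (ff_apply_ne r m ι y S hn)

lemma Ho_zero {r m : ℕ} {f : Lam} (hf : f ∈ Ho r m) (S : Finset ℕ)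
    (h : ¬ (S ⊆ Finset.range r ∧ S.card = m)) : f S = 0 := by
  unfold Ho at hf
  rw [Finsupp.mem_supported] at hf
  by_contra hn
  exact h (hf (Finset.mem_coe.2 (Finsupp.mem_support_iff.2 hn)))

lemma Ph_eq (a : ℕ → ℕ) (r m : ℕ) {f : Lam} (hf : f ∈ Ho r m) :
    Ph a r f = ∑ S ∈ (Finset.range r).powerset, f S • wd a S r := by
  unfold Ph
  rw [Finsupp.linearCombination_apply, Finsupp.sum]
  refine Finset.sum_subset ?_ ?_
  · intro S hS
    by_contra hn
    refine (Finsupp.mem_support_iff.1 hS) (Ho_zero hf S ?_)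
    rintro ⟨h, _⟩
    exact hn (Finset.mem_powerset.2 h)
  · intro S _ hS
    rw [Finsupp.notMem_support_iff.1 hS, zero_smul]

lemma push_sum {V : Sys} (r : ℕ) (ι : Finset ℕ → V.I) (f : Lam) (w : V.I → RR Empty) :
    ∑ p, push r ι f p • w p = ∑ S ∈ (Finset.range r).powerset, f S • w (ι S) := by
  classical
  have h : ∀ p, push r ι f p • w p =
      ∑ S ∈ (Finset.range r).powerset, (if ι S = p then f S else 0) • w p := by
    intro p
    unfold push
    rw [Finset.sum_smul]
  rw [Finset.sum_congr rfl fun p _ => h p, Finset.sum_comm]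
  refine Finset.sum_congr rfl fun S _ => ?_
  rw [Finset.sum_eq_single (ι S)]
  · rw [if_pos rfl]
  · intro p _ hp
    rw [if_neg hp.symm, zero_smul]
  · intro h
    exact absurd (Finset.mem_univ _) h

end IRm

/-- Rm. -/
theorem pr_Rm (hOk : StOk) (hTr : StTr) (hEl : StEl) (hLk : StLk) (hLq : StLq) (hPu : StPu)
    (hNl : StNl) (hCs : StCs) : StRm := by
  classical
  intro q hq R
  obtain ⟨L, J, hLJ⟩ := hCs q hq (4 * R + 10) (by omega)
  refine ⟨L, J, ?_⟩
  intro r hr hrR a ha m j hmj x hx hxq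
  obtain ⟨V, ι, w, hLP, hB, hw⟩ := hLJ r hr a ha
  obtain ⟨hTP, -, -, hdeg, -, -⟩ := hLq r V ι hLP
  have hVok : V.Ok := (hOk.1 _ _ _ _ hTP).1
  obtain ⟨y, hyd, hyx⟩ := hB.span (r + m) (by omega) x hx
  have hT := hTr q hq (4 * R + 10) (dg a r : ℤ) V w hVok hB (r + m) (by omega) x hx y hyd hyx
  have hey : ∀ n, j ≤ n → n < r + m + j + 1 → V.e n y = 0 := by
    intro n h1 h2
    refine ((hT.2 n (by omega)).2).1 ?_
    by_cases h3 : n ≤ r + m
    · exact hxq n h1 h3
    · exact hq.top n (r + m) _ (by omega) x hx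
  have hy0 : ∀ p, p ∉ Im r ι → y p = 0 :=
    hNl r V ι hLP m j (r + m + j + 1) hmj (by omega) y hyd hey
  set f : Lam := IRm.ff r m ι y with hf
  have hfH : f ∈ Ho r m := IRm.ff_mem r m ι y
  obtain ⟨hpu1, hpu2⟩ := hPu r V ι hLP
  have hyf : push r ι f = y := by
    funext p
    by_cases hp : p ∈ Im r ι
    · obtain ⟨S, hS, rfl⟩ := hp
      rw [hpu1 f S hS]
      by_cases hc : S.card = m
      · exact IRm.ff_apply r m ι y S hS hc
      · have h1 : y (ι S) = 0 := by
          by_contra hn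
          have h2 := hyd _ hn
          rw [hdeg S hS] at h2
          omega
        rw [h1]
        exact IRm.ff_apply_ne r m ι y S fun h => hc h.2
    · rw [hy0 p hp]
      unfold push
      refine Finset.sum_eq_zero fun S hS => ?_
      rw [if_neg]
      rintro rfl
      exact hp ⟨S, Finset.mem_powerset.1 hS, rfl⟩
  obtain ⟨-, hpu3⟩ := hpu2 m f hfH
  obtain ⟨-, -, -, hE4, -, -, -, hE8⟩ := hEl
  have hel : ∀ n, j ≤ n → el n r f = 0 := by
    intro n hn
    by_cases h1 : n < r + m + j + 1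
    · have h2 := hey n hn h1
      rw [← hyf, hpu3 n] at h2
      ext S
      rw [Finsupp.zero_apply]
      by_cases hS : S ⊆ Finset.range r
      · rw [← hpu1 (el n r f) S hS, h2]
        rfl
      · exact IRm.Ho_zero (hE4 n r m f hfH) S fun h => hS h.1
    · exact hE8 r (m + n) (by omega) _ (hE4 n r m f hfH)
  refine ⟨f, hLk r m j f hfH hel, ?_⟩
  refine IRm.tr hyx ?_
  rw [← hyf, IRm.push_sum, IRm.Ph_eq a r m hfH, ← Finset.sum_add_distrib]
  refine Submodule.sum_mem _ fun S hS => ?_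
  rw [Finset.mem_powerset] at hS
  by_cases hc : S.card = m
  · have h1 := (hw S hS).2
    rw [hc, add_comm (w (ι S))] at h1
    rw [← smul_add]
    exact Submodule.smul_mem _ _ h1
  · rw [IRm.Ho_zero hfH S fun h => hc h.2, zero_smul, zero_smul, add_zero]
    exact Submodule.zero_mem _

end Pool.Agent.Work.MP_701abf_gt.TwT
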