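import Pool.Agent.Work.MP_701abf_gt.TwT.Stmts4
import Pool.Agent.Work.MP_701abf_gt.TwT.I_Rm

/-!
# The two-thirds law, half A, item Rp: the exact remainder for the operations `2^i`
-/

open MvPolynomial
open Pool.Agent.Work.MP_701abf_gt.Stab Pool.Agent.Work.MP_701abf_gt.Cob
open Pool.Agent.Work.MP_701abf_gt.Sq2

namespace Pool.Agent.Work.MP_701abf_gt.TwT

/-- Rp. -/
theorem pr_Rp (hOk : StOk) (hTr : StTr) (hEl : StEl) (hLq : StLq) (hPu : StPu)
    (hCs : StCs) (hNp : StNp) : StRp := by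
  classical
  intro q hq r d k hr hdr hdk
  obtain ⟨L, J, hLJ⟩ := hCs q hq (2 * r + 2 ^ k + 10) (by omega)
  refine ⟨L, J, ?_⟩
  intro a ha x hx hxq
  obtain ⟨V, ι, w, hLP, hB, hw⟩ := hLJ r hr a ha
  obtain ⟨hTP, -, -, hdeg, -, -⟩ := hLq r V ι hLP
  have hVok : V.Ok := (hOk.1 _ _ _ _ hTP).1
  obtain ⟨y, hyd, hyx⟩ := hB.span (r + d) (by omega) x hx
  have hT := hTr q hq (2 * r + 2 ^ k + 10) (dg a r : ℤ) V w hVok hB (r + d) (by omega) x hx y
    hyd hyx
  have hey : ∀ i, i < k → V.e (2 ^ i) y = 0 := by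
    intro i hi
    have hik : 2 ^ i ≤ 2 ^ k := Nat.pow_le_pow_right (by norm_num) hi.le
    exact ((hT.2 (2 ^ i) (by omega)).2).1 (hxq i hi)
  have hy0 : ∀ p, p ∉ Im r ι → y p = 0 := hNp r V ι hLP d k hdr hdk y hyd hey
  set f : Lam := IRm.ff r d ι y with hf
  have hfH : f ∈ Ho r d := IRm.ff_mem r d ι y
  obtain ⟨hpu1, hpu2⟩ := hPu r V ι hLP
  have hyf : push r ι f = y := by
    funext p
    by_cases hp : p ∈ Im r ι
    · obtain ⟨S, hS, rfl⟩ := hp
      rw [hpu1 f S hS]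
      by_cases hc : S.card = d
      · exact IRm.ff_apply r d ι y S hS hc
      · have h1 : y (ι S) = 0 := by
          by_contra hn
          have h2 := hyd _ hn
          rw [hdeg S hS] at h2
          omega
        rw [h1]
        exact IRm.ff_apply_ne r d ι y S fun h => hc h.2
    · rw [hy0 p hp]
      unfold push
      refine Finset.sum_eq_zero fun S hS => ?_
      rw [if_neg]
      rintro rfl
      exact hp ⟨S, Finset.mem_powerset.1 hS, rfl⟩
  obtain ⟨-, hpu3⟩ := hpu2 d f hfH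
  obtain ⟨-, -, -, hE4, -, -, -, hE8⟩ := hEl
  have hel : ∀ i, i < k → el (2 ^ i) r f = 0 := by
    intro i hi
    have h2 := hey i hi
    rw [← hyf, hpu3 (2 ^ i)] at h2
    ext S
    rw [Finsupp.zero_apply]
    by_cases hS : S ⊆ Finset.range r
    · rw [← hpu1 (el (2 ^ i) r f) S hS, h2]
      rfl
    · exact IRm.Ho_zero (hE4 (2 ^ i) r d f hfH) S fun h => hS h.1
  refine ⟨f, hfH, hel, ?_⟩
  refine IRm.tr hyx ?_
  rw [← hyf, IRm.push_sum, IRm.Ph_eq a r d hfH, ← Finset.sum_add_distrib]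
  refine Submodule.sum_mem _ fun S hS => ?_
  rw [Finset.mem_powerset] at hS
  by_cases hc : S.card = d
  · have h1 := (hw S hS).2
    rw [hc, add_comm (w (ι S))] at h1
    rw [← smul_add]
    exact Submodule.smul_mem _ _ h1
  · rw [IRm.Ho_zero hfH S fun h => hc h.2, zero_smul, zero_smul, add_zero]
    exact Submodule.zero_mem _

end Pool.Agent.Work.MP_701abf_gt.TwT
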