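import Pool.Agent.Work.MP_701abf_gt.TwT.Stmts3

/-!
# Undetected classes, item U1 (the exact kernel in separated degrees)
-/

set_option autoImplicit false

open MvPolynomial
open Pool.Agent.Work.MP_701abf_gt.Stab Pool.Agent.Work.MP_701abf_gt.Cob
open Pool.Agent.Work.MP_701abf_gt.Sq2

namespace Pool.Agent.Work.MP_701abf_gt.TwT

namespace IU1

lemma sep_mono {L L' J J' : ℕ} {a : ℕ → ℕ} {r : ℕ} (hL : L ≤ L') (hJ : J ≤ J')
    (h : Sep L' J' a r) : Sep L J a r :=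
  ⟨fun i hi => (Nat.add_le_add_left hL _).trans (h.1 i hi), fun i hi => hJ.trans (h.2 i hi)⟩

lemma qn_congr {n s : ℕ} {t : ℤ} {F G : RR Empty} (hF : F ∈ ZR s t) (hG : G ∈ ZR s t)
    (h : F + G ∈ BR s t) (hq : SN.qn n s G ∈ BR (s + n) (2 * t)) :
    SN.qn n s F ∈ BR (s + n) (2 * t) :=
  BR_cancel (SN.tQS.1 n s t F hF G hG h) hq

lemma th_und (hU : StUw) (r m : ℕ) (a : ℕ → ℕ) (C : Finset (Equiv.Perm (Fin r))) :
    th (r + m) (∑ π ∈ C, und r m a π) = Ph a r (∑ π ∈ C, InvP r m π) := by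
  rw [map_sum, map_sum]
  exact Finset.sum_congr rfl fun π _ => hU r m a π

end IU1

/-- Item U1. -/
theorem pr_U1 (hKl : StKl) (hWd : StWd) (hRm : StRm) (hPb : StPb) (hUw : StUw) : StU1 := by
  intro R
  obtain ⟨L1, J1, h1⟩ := hWd SN.qn ops_qn R
  obtain ⟨L2, J2, h2⟩ := hRm SN.qn ops_qn R
  refine ⟨max L1 L2, max J1 J2, fun r m a hr hR hS => ?_⟩
  have hW := h1 r hr hR a (IU1.sep_mono (le_max_left L1 L2) (le_max_left J1 J2) hS)
  have hM := h2 r hr hR a (IU1.sep_mono (le_max_right L1 L2) (le_max_right J1 J2) hS)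
  refine ⟨fun hm p hp => ?_, fun π hπ => ?_⟩
  · have hx := th_mem_ZR hp
    constructor
    · intro h
      obtain ⟨g, hg, hgB⟩ := hM m 1 (by omega) (th (r + m) p) hx
        (fun n hn _ => (SN.sqN_BR SN.tSqN hp).1 (h n hn))
      obtain ⟨C, hC, rfl⟩ := hPb.2.1 r m g hg
      refine ⟨C, hC, ?_⟩
      rw [← th_mem_BR, map_add, IU1.th_und hUw]
      exact hgB
    · rintro ⟨C, hC, hB⟩ n hn
      rw [← th_mem_BR, map_add, IU1.th_und hUw] at hB
      have hg : ∑ π ∈ C, InvP r m π ∈ KS 1 r m :=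
        Submodule.sum_mem _ fun π hπ => hPb.1 r m π (hC π hπ)
      obtain ⟨hH, hE⟩ := hKl.2.2 1 r m _ hg
      obtain ⟨hz, -, hq⟩ := hW m _ hH
      exact (SN.sqN_BR SN.tSqN hp).2 (IU1.qn_congr hx hz hB ((hq n).2 (hE n hn)))
  · have hg := hPb.1 r m π hπ
    obtain ⟨hH, -⟩ := hKl.2.2 1 r m _ hg
    obtain ⟨hz, h0, -⟩ := hW m _ hH
    refine ⟨fun hc hB => ?_, ?_⟩
    · rw [← th_mem_BR, hUw] at hB
      exact hPb.2.2 r m π hπ hc (h0.1 hB)
    · rw [← hUw] at hz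
      obtain ⟨p, hp, hpe⟩ := exists_th hz
      rwa [← th_inj _ hpe]

end Pool.Agent.Work.MP_701abf_gt.TwT
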