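import Pool.Agent.Work.MP_701abf_gt.TwT.Stmts3

/-!
# Item U2: the undetected classes on the lines divisible by three
-/

open MvPolynomial
open Pool.Agent.Work.MP_701abf_gt.Stab Pool.Agent.Work.MP_701abf_gt.Cob
open Pool.Agent.Work.MP_701abf_gt.Sq2

namespace Pool.Agent.Work.MP_701abf_gt.TwT

namespace IU2

/-- Chains with larger gaps are chains with smaller gaps. -/
lemma ch_mono {L L' c m t : ℕ} (hL : L' ≤ L) (h : Ch L c m t) : Ch L' c m t := by
  induction h with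
  | sg a => exact Ch.sg a
  | cl t h0 h => exact Ch.cl t h0 h
  | addsg a _ hd ih => exact Ch.addsg a ih ((pow_dvd_pow 2 (by omega)).trans hd)
  | addcl a M _ h0 hM h2 hd ih =>
    exact Ch.addcl a M ih h0 hM h2 ((pow_dvd_pow 2 (by omega)).trans hd)

/-- Powers of finite sums. -/
lemma sum_pow {ι : Type} (s j : ℕ) (T : Finset ι) (f : ι → Cobar s) :
    (∑ i ∈ T, f i) ^ 2 ^ j = ∑ i ∈ T, f i ^ 2 ^ j := map_sum (frMap s j) f T

/-- The degree of the shifted letters. -/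
lemma dg_shift (a : ℕ → ℕ) (r j : ℕ) : dg (fun i => a i + j) r = 2 ^ j * dg a r := by
  unfold dg
  rw [Finset.mul_sum]
  exact Finset.sum_congr rfl fun i _ => by rw [pow_add, mul_comm]

/-- The shifted letters are separated. -/
lemma sep_shift {L L' J j r : ℕ} {a : ℕ → ℕ} (hL : L' ≤ L) (hJ : J ≤ j)
    (h : ∀ i, i + 1 < r → a (i + 1) + L ≤ a i) : Sep L' J (fun i => a i + j) r := by
  refine ⟨fun i hi => ?_, fun i _ => ?_⟩
  · have := h i hi
    show a (i + 1) + j + L' ≤ a i + j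
    omega
  · show J ≤ a i + j
    omega

/-- The numerical inequality. -/
lemma num {m c m' e' : ℕ} (h1 : c + m' + e' = 2 * m + m) (h3 : 2 * m - 1 < c + m')
    (h2 : m' ≤ e') (h4 : ¬ 2 * (e' - m') + 1 ≤ c) : m' = 0 ∧ c = 2 * m := by
  omega

end IU2

open IU2 in
/-- Item U2. -/
theorem pr_U2 (hHf : StHf) (hCt : StCt) (hLc : StLc) (hU1 : StU1) (hUf : StUf) : StU2 := by
  intro m hm
  obtain ⟨J1, L1, hlc⟩ := hLc SN.qn ops_qn (2 * m + m)
  obtain ⟨L2, J2, hu1⟩ := hU1 (2 * m)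
  obtain ⟨U', hU⟩ := degrees (2 * m + m) (by omega) (L1 + L2)
  obtain ⟨J, hJ⟩ : ∃ J, J = J1 + J2 + 1 := ⟨_, rfl⟩
  refine ⟨(2 * m + m) * U' + U', J, L1 + L2, fun t ht p hp => ⟨fun hA => ?_, fun hBC => ?_⟩⟩
  · -- the power
    obtain ⟨P, hP⟩ : ∃ P, P = p ^ 2 ^ J := ⟨_, rfl⟩
    have hPZ : P ∈ Zc (2 * m + m) (2 ^ J * t) := by rw [hP]; exact fr_Zc hp
    by_cases hPB : P ∈ Bc (2 * m + m) (2 ^ J * t)
    · left
      intro j hj
      obtain ⟨i, rfl⟩ := Nat.exists_eq_add_of_le hj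
      exact fr_Bc' i (hP ▸ hPB)
    right
    have hne : dm (2 * m + m) (2 ^ J * t) ≠ 0 := fun h => hPB (dm_zero_iff.1 h hPZ)
    obtain ⟨c, m', e', h1, h2, h3, h4⟩ := hU _ hne
    have hcm : 2 * m - 1 < c + m' := by
      by_contra hcon
      apply ht
      have h5 := hHf.2 U' (c + m') J t (clus_iff_few.1 h3)
      have h6 : (c + m') * U' + U' ≤ (2 * m + m) * U' + U' :=
        Nat.add_le_add_right (Nat.mul_le_mul_right _ (by omega)) _
      exact clus_iff_few.1 ((clus_iff_few.2 h5).mono h6 (not_lt.1 hcon))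
    have h9 : Ch (L1 + L2) c m' t := hHf.1 _ c m' J _ h4
    have hAJ := hA J le_rfl
    rw [← hP] at hAJ
    have hlow : ¬ 2 * (e' - m') + 1 ≤ c := by
      intro h10
      apply hPB
      refine th_mem_BR.1 (hlc J (by omega) c m' t (ch_mono (by omega) h9) (e' - m') (by omega) h10
        (th (2 * m + m) P) (th_mem_ZR hPZ) fun n hn1 _ => ?_)
      exact (SN.sqN_BR SN.tSqN hPZ).1 (hAJ n hn1)
    obtain ⟨hm', hc⟩ := num h1 hcm h2 hlow
    rw [hm', hc] at h9
    obtain ⟨-, a, ha, hta⟩ := hCt _ _ _ h9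
    have hgap : ∀ i, i + 1 < 2 * m → a (i + 1) + (L1 + L2) ≤ a i := fun i hi => by
      have := ha.1 i hi
      omega
    refine ⟨a, hgap, hta, ?_⟩
    have hd : dg (fun i => a i + J) (2 * m) = 2 ^ J * t := by rw [dg_shift, ← hta]
    have h11 := (hu1 (2 * m) m (fun i => a i + J) (by omega) le_rfl
      (sep_shift (by omega) (by omega) hgap)).1 (by omega) P (by rw [hd]; exact hPZ)
    rw [hd] at h11
    obtain ⟨C, hC, hPC⟩ := h11.1 hAJ
    refine ⟨C, hC, fun j hj => ?_⟩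
    obtain ⟨i, rfl⟩ := Nat.exists_eq_add_of_le hj
    have h12 := fr_Bc (j := i) hPC
    rw [pow_two_add, sum_pow] at h12
    have e1 : P ^ 2 ^ i = p ^ 2 ^ (J + i) := by rw [hP, ← pow_mul, ← pow_add]
    have e2 : 2 ^ i * (2 ^ J * t) = 2 ^ (J + i) * t := by rw [pow_add]; ring
    have e3 : ∀ π : Equiv.Perm (Fin (2 * m)), und (2 * m) m (fun k => a k + J) π ^ 2 ^ i =
        und (2 * m) m (fun k => a k + (J + i)) π := fun π => by
      rw [← hUf (2 * m) m i (fun k => a k + J) π (fun k _ => by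
        show 1 ≤ a k + J
        omega)]
      congr 1
      funext k
      exact add_assoc _ _ _
    rw [e1, e2, Finset.sum_congr rfl fun π _ => e3 π] at h12
    exact h12
  · intro j hj n hn
    have hpZ : p ^ 2 ^ j ∈ Zc (2 * m + m) (2 ^ j * t) := fr_Zc hp
    rcases hBC with hB | ⟨a, hgap, hta, C, hC, hPC⟩
    · rw [SN.sqN_BR SN.tSqN hpZ]
      exact SN.tQB _ _ _ _ (th_mem_BR.2 (hB j hj))
    · have hd : dg (fun i => a i + j) (2 * m) = 2 ^ j * t := by rw [dg_shift, hta]; rfl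
      have h11 := (hu1 (2 * m) m (fun i => a i + j) (by omega) le_rfl
        (sep_shift (by omega) (by omega) hgap)).1 (by omega) (p ^ 2 ^ j) (by rw [hd]; exact hpZ)
      rw [hd] at h11
      exact h11.2 ⟨C, hC, hPC j hj⟩ n hn

end Pool.Agent.Work.MP_701abf_gt.TwT
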