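import Pool.Agent.Work.MP_701abf_gt.TwT.Stmts4

/-!
# Item U3: the undetected classes for the operations `Sq^(2^i)`, `i < k` (case A)
-/

open MvPolynomial
open Pool.Agent.Work.MP_701abf_gt.Stab Pool.Agent.Work.MP_701abf_gt.Cob
open Pool.Agent.Work.MP_701abf_gt.Sq2

namespace Pool.Agent.Work.MP_701abf_gt.TwT

namespace IU3

/-- Chains with larger gaps are chains with smaller gaps. -/
lemma ch_mono {L L' c m t : ℕ} (hL : L' ≤ L) (h : Ch L c m t) : Ch L' c m t := by
  induction h with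
  | sg a => exact Ch.sg a
  | cl t h0 h => exact Ch.cl t h0 h
  | addsg a _ hd ih => exact Ch.addsg a ih ((pow_dvd_pow 2 (by omega)).trans hd)
  | addcl a M _ h0 hM h2 hd ih =>
    exact Ch.addcl a M ih h0 hM h2 ((pow_dvd_pow 2 (by omega)).trans hd)

/-- The degree of the shifted letters. -/
lemma dg_shift (a : ℕ → ℕ) (r j : ℕ) : dg (fun i => a i + j) r = 2 ^ j * dg a r := by
  unfold dg
  rw [Finset.mul_sum]
  exact Finset.sum_congr rfl fun i _ => by rw [pow_add, mul_comm]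

/-- The shifted letters are separated. -/
lemma sep_shift {L L' J j r : ℕ} {a : ℕ → ℕ} (hL : L' ≤ L) (hJ : J ≤ j)
    (h : ∀ i, i + 1 < r → a (i + 1) + L ≤ a i) : Sep L' J (fun i => a i + j) r := by
  refine ⟨fun i hi => ?_, fun i _ => ?_⟩
  · have := h i hi
    show a (i + 1) + j + L' ≤ a i + j
    omega
  · show J ≤ a i + j
    omega

lemma qn_congr {n s : ℕ} {t : ℤ} {F G : RR Empty} (hF : F ∈ ZR s t) (hG : G ∈ ZR s t)
    (h : F + G ∈ BR s t) (hq : SN.qn n s G ∈ BR (s + n) (2 * t)) :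
    SN.qn n s F ∈ BR (s + n) (2 * t) :=
  BR_cancel (SN.tQS.1 n s t F hF G hG h) hq

/-- The numerical inequalities. -/
lemma num {c d c' m' e' : ℕ} (h1 : c' + m' + e' = c + d) (h3 : c - 1 < c' + m') (h2 : m' ≤ e')
    (hd : 2 * d < c) (h4 : ¬ (m' = 0 ∧ c' = c)) :
    2 * (e' - m') + 1 ≤ c' ∧ e' - m' + 1 ≤ d := by
  omega

lemma single_mem (r : ℕ) : (Finsupp.single ∅ 1 : Lam) ∈ Ho r 0 := by
  unfold Ho
  rw [Finsupp.mem_supported]
  intro S hS
  have h1 := Finsupp.support_single_subset hS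
  rw [Finset.mem_singleton] at h1
  subst h1
  exact ⟨Finset.empty_subset _, Finset.card_empty⟩

lemma el_ne (hMl : StMl) {c d : ℕ} (h : d ≤ c) : el d c (Finsupp.single ∅ 1) ≠ 0 := by
  intro h0
  have h1 := hMl.2.2.1 c d
  rw [h0] at h1
  have h2 := congrArg (fun f : Lam => f (Finset.range d)) h1
  simp only [Finsupp.coe_zero, Pi.zero_apply, Finsupp.finsetSum_apply, Finsupp.single_apply] at h2
  rw [Finset.sum_ite_eq', if_pos] at h2
  · exact zero_ne_one h2
  · rw [Finset.mem_powersetCard]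
    exact ⟨Finset.range_subset_range.2 h, Finset.card_range d⟩

end IU3

open IU3 in
/-- Item U3. -/
theorem pr_U3 (hHf : StHf) (hCt : StCt) (hEl : StEl) (hMl : StMl) (hKe : StKe) (hWd : StWd)
    (hLq2 : StLq2) (hRp : StRp) (hEs : StEs) : StU3 := by
  intro k c d hk hd hdc
  have h2k : 2 ≤ 2 ^ k := by
    calc 2 = 2 ^ 1 := (pow_one 2).symm
      _ ≤ 2 ^ k := Nat.pow_le_pow_right (by norm_num) hk
  obtain ⟨J1, L1, hlq⟩ := hLq2 SN.qn ops_qn (c + d) k
  obtain ⟨L2, J2, hrp⟩ := hRp SN.qn ops_qn c d k (by omega) (by omega) (by omega)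
  obtain ⟨L3, J3, hwd⟩ := hWd SN.qn ops_qn c
  obtain ⟨U', hU⟩ := degrees (c + d) (by omega) (L1 + L2 + L3)
  obtain ⟨J, hJ⟩ : ∃ J, J = J1 + J2 + J3 + 1 := ⟨_, rfl⟩
  have hf0 : el d c (Finsupp.single ∅ 1) ∈ Ho c d := by
    have := hEl.2.2.2.1 d c 0 _ (single_mem c)
    rwa [zero_add] at this
  refine ⟨(c + d) * U' + U', J, L1 + L2 + L3, fun t ht p hp => ⟨fun hA => ?_, fun hBC => ?_⟩,
    fun a hgap hJa => ?_⟩
  · -- the power
    obtain ⟨P, hP⟩ : ∃ P, P = p ^ 2 ^ J := ⟨_, rfl⟩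
    have hPZ : P ∈ Zc (c + d) (2 ^ J * t) := by rw [hP]; exact fr_Zc hp
    by_cases hPB : P ∈ Bc (c + d) (2 ^ J * t)
    · left
      intro j hj
      obtain ⟨i, rfl⟩ := Nat.exists_eq_add_of_le hj
      exact fr_Bc' i (hP ▸ hPB)
    right
    have hne : dm (c + d) (2 ^ J * t) ≠ 0 := fun h => hPB (dm_zero_iff.1 h hPZ)
    obtain ⟨c', m', e', h1, h2, h3, h4⟩ := hU _ hne
    have hcm : c - 1 < c' + m' := by
      by_contra hcon
      apply ht
      have h5 := hHf.2 U' (c' + m') J t (clus_iff_few.1 h3)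
      have h6 : (c' + m') * U' + U' ≤ (c + d) * U' + U' :=
        Nat.add_le_add_right (Nat.mul_le_mul_right _ (by omega)) _
      exact clus_iff_few.1 ((clus_iff_few.2 h5).mono h6 (not_lt.1 hcon))
    have h9 : Ch (L1 + L2 + L3) c' m' t := hHf.1 _ c' m' J _ h4
    have hAJ := hA J le_rfl
    rw [← hP] at hAJ
    have hmc : m' = 0 ∧ c' = c := by
      by_contra h10
      obtain ⟨h11, h12⟩ := num h1 hcm h2 hdc h10
      apply hPB
      refine th_mem_BR.1 (hlq J (by omega) c' m' t (ch_mono (by omega) h9) (e' - m') (by omega)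
        h11 (by omega) (th (c + d) P) (th_mem_ZR hPZ) fun i hi => ?_)
      exact (SN.sqN_BR SN.tSqN hPZ).1 (hAJ i hi)
    obtain ⟨hm', hc⟩ := hmc
    rw [hm', hc] at h9
    obtain ⟨-, a, ha, hta⟩ := hCt _ _ _ h9
    have hgap : ∀ i, i + 1 < c → a (i + 1) + (L1 + L2 + L3) ≤ a i := fun i hi => by
      have := ha.1 i hi
      omega
    have hd' : dg (fun i => a i + J) c = 2 ^ J * t := by rw [dg_shift, ← hta]
    obtain ⟨f, hf, hel, hxf⟩ := hrp (fun i => a i + J) (sep_shift (by omega) (by omega) hgap)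
      (th (c + d) P) (by rw [hd']; exact th_mem_ZR hPZ) (fun i hi => by
        rw [hd']
        exact (SN.sqN_BR SN.tSqN hPZ).1 (hAJ i hi))
    rw [hd'] at hxf
    rcases hKe k c d 1 le_rfl hd (Or.inr (by omega)) f hf (hMl.2.1 c k f hel) with h0 | h0
    · exfalso
      rw [h0, map_zero, add_zero] at hxf
      exact hPB (th_mem_BR.1 hxf)
    refine ⟨a, hgap, hta, fun j hj => ?_⟩
    obtain ⟨i, rfl⟩ := Nat.exists_eq_add_of_le hj
    rw [h0, ← hEs.1 c d, ← map_add] at hxf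
    have h12 := fr_Bc (j := i) (th_mem_BR.1 hxf)
    rw [pow_two_add] at h12
    have e1 : P ^ 2 ^ i = p ^ 2 ^ (J + i) := by rw [hP, ← pow_mul, ← pow_add]
    have e2 : 2 ^ i * (2 ^ J * t) = 2 ^ (J + i) * t := by rw [pow_add]; ring
    have e3 : esum c d (fun k => a k + J) ^ 2 ^ i = esum c d (fun k => a k + (J + i)) := by
      rw [← hEs.2 c d i (fun k => a k + J) (fun k _ => by
        show 1 ≤ a k + J
        omega)]
      congr 1
      funext k
      exact add_assoc _ _ _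
    rw [e1, e2, e3] at h12
    exact h12
  · intro j hj i hi
    have hpZ : p ^ 2 ^ j ∈ Zc (c + d) (2 ^ j * t) := fr_Zc hp
    rcases hBC with hB | ⟨a, hgap, hta, hPC⟩
    · rw [SN.sqN_BR SN.tSqN hpZ]
      exact SN.tQB _ _ _ _ (th_mem_BR.2 (hB j hj))
    · have hd' : dg (fun i => a i + j) c = 2 ^ j * t := by rw [dg_shift, hta]; rfl
      have hS : Sep L3 J3 (fun i => a i + j) c := sep_shift (by omega) (by omega) hgap
      obtain ⟨hz, -, hq⟩ := hwd c (by omega) le_rfl _ hS d _ hf0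
      rw [hd'] at hz
      have hB := hPC j hj
      rw [← th_mem_BR, map_add, hEs.1] at hB
      have h3 := (hq (2 ^ i)).2 (hMl.2.2.2 c k d hd (2 ^ i) Nat.one_le_two_pow
        (Nat.pow_lt_pow_right (by norm_num) hi))
      rw [hd'] at h3
      exact (SN.sqN_BR SN.tSqN hpZ).2 (qn_congr (th_mem_ZR hpZ) hz hB h3)
  · have hS : Sep L3 J3 a c := ⟨fun i hi => by
      have := hgap i hi
      omega, fun i hi => by
      have := hJa i hi
      omega⟩
    obtain ⟨hz, h0, -⟩ := hwd c (by omega) le_rfl a hS d _ hf0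
    refine ⟨?_, fun hB => ?_⟩
    · rw [← hEs.1] at hz
      obtain ⟨p, hp, hpe⟩ := exists_th hz
      rw [← th_inj _ hpe]
      exact hp
    · have hB' : th (c + d) (esum c d a) ∈ BR (c + d) ((dg a c : ℕ) : ℤ) := th_mem_BR.2 hB
      rw [hEs.1] at hB'
      exact el_ne hMl (by omega) (h0.1 hB')

end Pool.Agent.Work.MP_701abf_gt.TwT
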