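import Pool.Agent.Work.MP_701abf_gt.TwT.Stmts5

/-!
# The class `esum` as a value of an operation, item U5
-/

set_option autoImplicit false

open MvPolynomial
open Pool.Agent.Work.MP_701abf_gt.Stab Pool.Agent.Work.MP_701abf_gt.Cob
open Pool.Agent.Work.MP_701abf_gt.Sq2

namespace Pool.Agent.Work.MP_701abf_gt.TwT

namespace IU5

lemma single_mem (r : ℕ) : (Finsupp.single ∅ 1 : Lam) ∈ Ho r 0 := by
  unfold Ho
  refine Finsupp.single_mem_supported _ _ ?_
  exact ⟨Finset.empty_subset _, Finset.card_empty⟩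

lemma th_word (hWo : StWo) (c : ℕ) (a : ℕ → ℕ) :
    th c (word c (letters a (∅ : Finset (Fin c)))) = Ph a c (Finsupp.single ∅ 1) := by
  have h := hWo c a ∅
  rw [Finset.map_empty] at h
  have e : Ph a c (Finsupp.single ∅ 1) = wd a ∅ c := by
    unfold Ph
    rw [Finsupp.linearCombination_single, one_smul]
  rw [e]
  exact h

end IU5

/-- Item U5. -/
theorem pr_U5 (hWo : StWo) (hWd : StWd) (hPq : StPq) (hFr : StFr) (hEs : StEs) : StU5 := by
  intro c d hc
  obtain ⟨L1, J1, h1⟩ := hWd SN.qn ops_qn c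
  obtain ⟨L2, J2, h2⟩ := hPq SN.qn ops_qn c
  refine ⟨L1 + L2, J1 + J2 + 1, fun a ha => ?_⟩
  have ha1 : Sep L1 J1 a c :=
    ⟨fun i hi => by have := ha.1 i hi; omega, fun i hi => by have := ha.2 i hi; omega⟩
  have ha2 : Sep L2 J2 a c :=
    ⟨fun i hi => by have := ha.1 i hi; omega, fun i hi => by have := ha.2 i hi; omega⟩
  have ha3 : ∀ i, i < c → 1 ≤ a i := fun i hi => by have := ha.2 i hi; omega
  obtain ⟨x, hx⟩ : ∃ x, x = word c (letters a (∅ : Finset (Fin c))) := ⟨_, rfl⟩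
  rw [← hx]
  have hth : th c x = Ph a c (Finsupp.single ∅ 1) := by rw [hx]; exact IU5.th_word hWo c a
  have hz : th c x ∈ ZR c (dg a c : ℤ) := by
    rw [hth]
    exact (h1 c hc le_rfl a ha1 0 _ (IU5.single_mem c)).1
  have hxZ : x ∈ Zc c (dg a c) := by
    obtain ⟨p, hp, hpe⟩ := exists_th hz
    rwa [← th_inj _ hpe]
  have h3 : SN.qn d c (th c x) + Ph a c (el d c (Finsupp.single ∅ 1)) ^ 2 ∈
      BR (c + d) (2 * (dg a c : ℤ)) := by
    rw [hth]
    exact h2 c hc le_rfl a ha2 0 _ (IU5.single_mem c) d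
  obtain ⟨-, h4⟩ := SN.tSqN d c (dg a c) x hxZ
  have h5 := Submodule.add_mem _ h4 h3
  rw [← th_mem_BR, map_add, hEs.1, hFr 1 c a _ ha3, pow_one]
  push_cast
  have h6 := add_self2 (SN.qn d c (th c x))
  convert h5 using 1
  linear_combination (-1 : RR Empty) * h6

end Pool.Agent.Work.MP_701abf_gt.TwT
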