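import Pool.Agent.Work.MP_701abf_gt.TwT.Stmts6

/-!
# The number of undetected classes, item Ub
-/

set_option autoImplicit false

open MvPolynomial
open Pool.Agent.Work.MP_701abf_gt.Stab Pool.Agent.Work.MP_701abf_gt.Cob
open Pool.Agent.Work.MP_701abf_gt.Sq2

namespace Pool.Agent.Work.MP_701abf_gt.TwT

namespace IUb

lemma th_sum (hU : StUw) {ι : Type} (r m : ℕ) (a : ℕ → ℕ) (C : Finset ι)
    (π : ι → Equiv.Perm (Fin r)) :
    th (r + m) (∑ i ∈ C, und r m a (π i)) = Ph a r (∑ i ∈ C, InvP r m (π i)) := by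
  rw [map_sum, map_sum]
  exact Finset.sum_congr rfl fun i _ => hU r m a (π i)

end IUb

/-- Item Ub. -/
theorem pr_Ub (hKl : StKl) (hWd : StWd) (hPb : StPb) (hUw : StUw) (hDm : StDm) (hBs : StBs) :
    StUb := by
  intro r m hr hrm
  have hN : Module.finrank (ZMod 2) (KS 1 r m) = r.choose m - r.choose (m + 1) :=
    Nat.eq_sub_of_add_eq (hDm r m 1 hrm)
  obtain ⟨π, hπ, hind, hspan⟩ := hBs r m _ hN
  refine ⟨π, hπ, ?_, fun D hD => ?_⟩
  · obtain ⟨L, J, h⟩ := hWd SN.qn ops_qn r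
    refine ⟨L, J, fun a hS C hC hB => ?_⟩
    have hg : ∑ i ∈ C, InvP r m (π i) ∈ KS 1 r m :=
      Submodule.sum_mem _ fun i _ => hPb.1 r m (π i) (hπ i).1
    obtain ⟨hH, -⟩ := hKl.2.2 1 r m _ hg
    obtain ⟨-, h0, -⟩ := h r hr le_rfl a hS m _ hH
    rw [← th_mem_BR, IUb.th_sum hUw] at hB
    exact hind C hC (h0.1 hB)
  · have hg : ∑ ρ ∈ D, InvP r m ρ ∈ KS 1 r m :=
      Submodule.sum_mem _ fun ρ hρ => hPb.1 r m ρ (hD ρ hρ)
    obtain ⟨C, hC⟩ := hspan _ hg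
    refine ⟨C, fun a => th_inj (r + m) ?_⟩
    have h1 := IUb.th_sum hUw r m a D fun ρ => ρ
    rw [h1, IUb.th_sum hUw, hC]

end Pool.Agent.Work.MP_701abf_gt.TwT
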