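import Pool.Agent.Work.MP_701abf_gt.TwT.Stmts3

/-!
# Undetected classes, item Uw: the classes and the words.  Author helper78.
-/

open MvPolynomial
open Pool.Agent.Work.MP_701abf_gt.Stab Pool.Agent.Work.MP_701abf_gt.Cob
open Pool.Agent.Work.MP_701abf_gt.Sq2

namespace Pool.Agent.Work.MP_701abf_gt.TwT

theorem pr_Uw (hWo : StWo) : StUw := by
  intro r m a π
  unfold und InvP
  rw [map_sum, map_sum]
  refine Finset.sum_congr ?_ fun S hS => ?_
  · ext S
    simp only [Finset.mem_filter]
  · have hc : S.card = m := by
      rw [Finset.mem_filter] at hS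
      exact hS.2.1
    unfold Ph
    rw [Finsupp.linearCombination_single, one_smul]
    subst hc
    exact hWo r a S

end Pool.Agent.Work.MP_701abf_gt.TwT
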