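import Pool.Agent.Work.MP_701abf_gt.TwT.Stmts2

/-!
# The two-thirds law, half A, item Wd (the words)
-/

set_option autoImplicit false

open MvPolynomial
open Pool.Agent.Work.MP_701abf_gt.Stab Pool.Agent.Work.MP_701abf_gt.Cob
open Pool.Agent.Work.MP_701abf_gt.Sq2

namespace Pool.Agent.Work.MP_701abf_gt.TwT

namespace IWd

theorem Ho_apply {r m : ℕ} {f : Lam} (hf : f ∈ Ho r m) (S : Finset ℕ) (hS : f S ≠ 0) :
    S ⊆ Finset.range r ∧ S.card = m :=
  (Finsupp.mem_supported (ZMod 2) f).1 hf (Finsupp.mem_support_iff.2 hS)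

theorem push_zero {V : Sys} (r : ℕ) (ι : Finset ℕ → V.I) : push r ι (0 : Lam) = 0 := by
  classical
  funext p
  unfold push
  simp

theorem push_eq_zero {V : Sys} {r m : ℕ} {ι : Finset ℕ → V.I} {f : Lam} (hf : f ∈ Ho r m)
    (h : ∀ (f : Lam) (S : Finset ℕ), S ⊆ Finset.range r → push r ι f (ι S) = f S) :
    push r ι f = 0 ↔ f = 0 := by
  constructor
  · intro h0
    ext S
    by_contra hS
    have h1 := Ho_apply hf S hS
    have h2 := h f S h1.1
    rw [h0] at h2
    exact hS h2.symm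
  · rintro rfl
    exact push_zero r ι

theorem Ph_eq (a : ℕ → ℕ) {r m : ℕ} {f : Lam} (hf : f ∈ Ho r m) :
    Ph a r f = ∑ S ∈ (Finset.range r).powerset, f S • wd a S r := by
  classical
  unfold Ph
  rw [Finsupp.linearCombination_apply]
  refine Finsupp.sum_of_support_subset f ?_ _ ?_
  · intro S hS
    exact Finset.mem_powerset.2 (Ho_apply hf S (Finsupp.mem_support_iff.1 hS)).1
  · intro S _
    exact zero_smul _ _

theorem push_sum {V : Sys} (r : ℕ) (ι : Finset ℕ → V.I) (f : Lam) (w : V.I → RR Empty) :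
    ∑ l, push r ι f l • w l = ∑ S ∈ (Finset.range r).powerset, f S • w (ι S) := by
  classical
  unfold push
  simp only [Finset.sum_smul]
  rw [Finset.sum_comm]
  refine Finset.sum_congr rfl fun S _ => ?_
  rw [Finset.sum_eq_single (ι S)]
  · rw [if_pos rfl]
  · intro l _ hl
    rw [if_neg (fun h => hl h.symm), zero_smul]
  · intro h
    exact absurd (Finset.mem_univ _) h

end IWd

theorem pr_Wd (hOk : StOk) (hTr : StTr) (hEl : StEl) (hLq : StLq) (hPu : StPu)
    (hCs : StCs) : StWd := by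
  classical
  intro q hq R
  obtain ⟨L, J, h⟩ := hCs q hq (4 * R + 10) (by omega)
  refine ⟨L, J, ?_⟩
  intro r hr hrR a ha m f hf
  obtain ⟨V, ι, w, hLP, hB, hw⟩ := h r hr a ha
  have hVok : V.Ok := (hOk.1 _ _ _ _ (hLq r V ι hLP).1).1
  obtain ⟨hp1, hp2⟩ := hPu r V ι hLP
  obtain ⟨hdeg, hen⟩ := hp2 m f hf
  by_cases hm : r < m
  · have hf0 : f = 0 := hEl.2.2.2.2.2.2.2 r m hm f hf
    subst hf0
    rw [map_zero]
    refine ⟨Submodule.zero_mem _, ?_, ?_⟩
    · exact ⟨fun _ => rfl, fun _ => Submodule.zero_mem _⟩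
    · intro n
      rw [map_zero]
      exact ⟨fun _ => rfl, fun _ => hq.br n (r + m) _ 0 (Submodule.zero_mem _)⟩
  · have hmr : m ≤ r := not_lt.1 hm
    have hZ : Ph a r f ∈ ZR (r + m) (dg a r : ℤ) := by
      rw [IWd.Ph_eq a hf]
      refine Submodule.sum_mem _ fun S hS => ?_
      by_cases h0 : f S = 0
      · rw [h0, zero_smul]
        exact Submodule.zero_mem _
      · obtain ⟨h1, h2⟩ := IWd.Ho_apply hf S h0
        have h3 := (hw S h1).1
        rw [h2] at h3
        exact Submodule.smul_mem _ _ h3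
    have hS : Ph a r f + ∑ l, push r ι f l • w l ∈ BR (r + m) (dg a r : ℤ) := by
      rw [IWd.Ph_eq a hf, IWd.push_sum, ← Finset.sum_add_distrib]
      refine Submodule.sum_mem _ fun S hS => ?_
      by_cases h0 : f S = 0
      · rw [h0, zero_smul, zero_smul, add_zero]
        exact Submodule.zero_mem _
      · obtain ⟨h1, h2⟩ := IWd.Ho_apply hf S h0
        have h3 := (hw S h1).2
        rw [h2, add_comm (w (ι S))] at h3
        rw [← smul_add]
        exact Submodule.smul_mem _ _ h3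
    obtain ⟨h1, h2⟩ := hTr q hq (4 * R + 10) _ V w hVok hB (r + m) (by omega) _ hZ
      (push r ι f) hdeg hS
    refine ⟨hZ, h1.trans (IWd.push_eq_zero hf hp1), ?_⟩
    intro n
    have hel : el n r f ∈ Ho r (m + n) := hEl.2.2.2.1 n r m f hf
    by_cases hn : n ≤ r + m
    · have h3 := (h2 n (by omega)).2
      rw [h3, hen n]
      exact IWd.push_eq_zero hel hp1
    · have h4 : el n r f = 0 := hEl.2.2.2.2.2.2.2 r (m + n) (by omega) _ hel
      exact ⟨fun _ => h4, fun _ => hq.top n (r + m) _ (by omega) _ hZ⟩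

end Pool.Agent.Work.MP_701abf_gt.TwT
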