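import Pool.Agent.Work.MP_701abf_gt.TwT.Stmts3

/-!
Item Wo: words as cochains.
-/

open MvPolynomial
open Pool.Agent.Work.MP_701abf_gt.Stab Pool.Agent.Work.MP_701abf_gt.Cob
open Pool.Agent.Work.MP_701abf_gt.Sq2

namespace Pool.Agent.Work.MP_701abf_gt.TwT

namespace IWo

/-- The image of a word. -/
noncomputable def pw (l : List ℕ) : RR Empty :=
  ∏ v ∈ Finset.range l.length, X (Sum.inl (l.length - 1 - v, 0)) ^ 2 ^ l.getD v 0

lemma th_word (s : ℕ) (l : List ℕ) (h : l.length = s) : th s (word s l) = pw l := by
  subst h
  unfold word pw
  rw [map_prod, Finset.prod_range]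
  refine Finset.prod_congr rfl fun v _ => ?_
  rw [map_pow]
  congr 1
  exact th_X _ (v, 0)

lemma pw_append (l : List ℕ) (x : ℕ) : pw (l ++ [x]) = ha x * sh 1 (pw l) := by
  unfold pw
  rw [List.length_append, List.length_singleton, Finset.prod_range_succ, map_prod, mul_comm]
  congr 1
  · have e1 : l.length + 1 - 1 - l.length = 0 := by omega
    have e2 : (l ++ [x]).getD l.length 0 = x := by simp
    rw [e1, e2]
    rfl
  · refine Finset.prod_congr rfl fun v hv => ?_
    have hv' : v < l.length := Finset.mem_range.1 hv
    rw [map_pow, sh_inl]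
    have e1 : l.length + 1 - 1 - v = l.length - 1 - v + 1 := by omega
    have e2 : (l ++ [x]).getD v 0 = l.getD v 0 := by
      rw [List.getD_append _ _ _ _ hv']
    rw [e1, e2]

open Classical in
/-- The letters, indexed by natural numbers. -/
noncomputable def lt (a : ℕ → ℕ) (T : Finset ℕ) (r : ℕ) : List ℕ :=
  (List.range r).flatMap fun i => if i ∈ T then [a i - 1, a i - 1] else [a i]

lemma pw_lt (a : ℕ → ℕ) (T : Finset ℕ) (r : ℕ) : pw (lt a T r) = wd a T r := by
  classical
  induction r with
  | zero =>
    unfold lt pw wd
    simp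
  | succ r ih =>
    have e : lt a T (r + 1) = lt a T r ++ (if r ∈ T then [a r - 1, a r - 1] else [a r]) := by
      unfold lt
      rw [List.range_succ, List.flatMap_append]
      simp
    rw [e]
    unfold wd
    by_cases h : r ∈ T
    · rw [if_pos h, if_pos h]
      have e2 : lt a T r ++ [a r - 1, a r - 1] = (lt a T r ++ [a r - 1]) ++ [a r - 1] := by simp
      rw [e2, pw_append, pw_append, ih, map_mul, sh_sh, kap, mul_assoc]
    · rw [if_neg h, if_neg h, pw_append, ih]

lemma letters_eq {r : ℕ} (a : ℕ → ℕ) (S : Finset (Fin r)) :
    letters a S = lt a (S.map Fin.valEmbedding) r := by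
  classical
  unfold letters lt
  rw [← List.map_coe_finRange_eq_range (n := r), List.flatMap_map]
  refine List.flatMap_congr ?_
  intro i _
  by_cases h : i ∈ S
  · have h' : (i : ℕ) ∈ S.map Fin.valEmbedding := by
      rw [Finset.mem_map]
      exact ⟨i, h, rfl⟩
    simp only [if_pos h, if_pos h']
  · have h' : (i : ℕ) ∉ S.map Fin.valEmbedding := by
      rw [Finset.mem_map]
      rintro ⟨j, hj, e⟩
      exact h (by rwa [← Fin.ext (show (j : ℕ) = (i : ℕ) from e)])
    simp only [if_neg h, if_neg h']

lemma length_lt (a : ℕ → ℕ) (T : Finset ℕ) (r : ℕ) (hT : T ⊆ Finset.range r) :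
    (lt a T r).length = r + T.card := by
  classical
  have h1 : ∀ n : ℕ, (lt a T n).length = n + (T ∩ Finset.range n).card := by
    intro n
    induction n with
    | zero => simp [lt]
    | succ n ih =>
      have e : lt a T (n + 1) = lt a T n ++ (if n ∈ T then [a n - 1, a n - 1] else [a n]) := by
        unfold lt
        rw [List.range_succ, List.flatMap_append]
        simp
      rw [e, List.length_append, ih]
      by_cases h : n ∈ T
      · rw [if_pos h]
        have : T ∩ Finset.range (n + 1) = insert n (T ∩ Finset.range n) := by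
          ext x
          simp only [Finset.mem_inter, Finset.mem_range, Finset.mem_insert]
          constructor
          · rintro ⟨hx, hx2⟩
            by_cases hxn : x = n
            · exact Or.inl hxn
            · exact Or.inr ⟨hx, by omega⟩
          · rintro (rfl | ⟨hx, hx2⟩)
            · exact ⟨h, by omega⟩
            · exact ⟨hx, by omega⟩
        rw [this, Finset.card_insert_of_notMem (by simp)]
        simp only [List.length_cons, List.length_nil]
        omega
      · rw [if_neg h]
        have : T ∩ Finset.range (n + 1) = T ∩ Finset.range n := by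
          ext x
          simp only [Finset.mem_inter, Finset.mem_range]
          constructor
          · rintro ⟨hx, hx2⟩
            refine ⟨hx, ?_⟩
            rcases Nat.lt_succ_iff_lt_or_eq.1 hx2 with h3 | h3
            · exact h3
            · exact absurd (h3 ▸ hx) h
          · rintro ⟨hx, hx2⟩
            exact ⟨hx, by omega⟩
        rw [this]
        simp only [List.length_cons, List.length_nil]
        omega
  rw [h1, Finset.inter_eq_left.2 hT]

end IWo

open IWo in
theorem pr_Wo : StWo := by
  intro r a S
  rw [letters_eq, th_word _ _ ?_, pw_lt]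
  rw [length_lt, Finset.card_map]
  intro x hx
  rw [Finset.mem_map] at hx
  obtain ⟨y, _, rfl⟩ := hx
  exact Finset.mem_range.2 y.2

end Pool.Agent.Work.MP_701abf_gt.TwT
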