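import Pool.Agent.Work.MP_701abf_gt.SN.Cup

/-!
Definitions for the statement of the theorem on undetected classes.
-/

open MvPolynomial

namespace Pool.Agent.Work.MP_701abf_gt.TwT

open Pool.Agent.Work.MP_701abf_gt.Cob

noncomputable section

/-- The cochain `[ξ_1^(2^a_0) | ... | ξ_1^(2^a_(c-1))]`, a cocycle of the class
`h_(a_0) ... h_(a_(c-1))`. -/
def hword (c : ℕ) (a : ℕ → ℕ) : Cobar c := ∏ v : Fin c, xi v 1 ^ 2 ^ a v

/-- For all `i < k` the class `h_i Sq^(2^i) x` lies in the ideal generated by `h_0, ..., h_(i-1)`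
(`x` is a cocycle of degree `(s, T)`). -/
def Hid (k s T : ℕ) (x : Cobar s) : Prop :=
  ∀ i < k, ∃ w : ℕ → Cobar (s + 2 ^ i),
    (∀ l < i, w l ∈ Zc (s + 2 ^ i) (2 * T + (2 ^ i - 2 ^ l))) ∧
    jux (s + 2 ^ i) 1 (SN.sqN (2 ^ i) s x) (xi 0 1 ^ 2 ^ i) +
      ∑ l ∈ Finset.range i, jux (s + 2 ^ i) 1 (w l) (xi 0 1 ^ 2 ^ l) ∈
        Bc (s + 2 ^ i + 1) (2 * T + 2 ^ i)

end

end Pool.Agent.Work.MP_701abf_gt.TwT
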