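import Pool.Agent.Work.MP_701abf_gt.TwT.UAB
import Pool.Agent.Work.MP_701abf_gt.TwT.UFDefs
import Pool.Agent.Work.MP_701abf_gt.SN.Fin2

/-!
# Undetected classes: assembly (captain helper14)
-/

open MvPolynomial
open Pool.Agent.Work.MP_701abf_gt.Stab Pool.Agent.Work.MP_701abf_gt.Cob
open Pool.Agent.Work.MP_701abf_gt.Sq2

namespace Pool.Agent.Work.MP_701abf_gt.TwT

namespace UFin

lemma flatMap_single {α β : Type} (l : List α) (f : α → β) :
    (l.flatMap fun i => [f i]) = l.map f := by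
  induction l with
  | nil => rfl
  | cons x l ih => rw [List.flatMap_cons, List.map_cons, ih]; rfl

lemma letters_empty (c : ℕ) (a : ℕ → ℕ) : letters a (∅ : Finset (Fin c)) =
    (List.finRange c).map (fun i : Fin c => a (i : ℕ)) := by
  unfold letters
  simp only [Finset.notMem_empty, if_false]
  exact flatMap_single _ _

lemma hword_eq (c : ℕ) (a : ℕ → ℕ) : hword c a = word c (letters a (∅ : Finset (Fin c))) := by
  unfold hword word
  refine Finset.prod_congr rfl fun v _ => ?_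
  rw [letters_empty, List.getD_eq_getElem _ _ (by simp)]
  simp only [List.getElem_map, List.getElem_finRange]
  rfl

lemma letters_congr {c : ℕ} {a b : ℕ → ℕ} (h : ∀ i, i < c → a i = b i) (S : Finset (Fin c)) :
    letters a S = letters b S := by
  unfold letters
  congr 1
  funext i
  rw [h i i.2]

lemma esum_congr {c d : ℕ} {a b : ℕ → ℕ} (h : ∀ i, i < c → a i = b i) :
    esum c d a = esum c d b := by
  unfold esum
  exact Finset.sum_congr rfl fun S _ => by rw [letters_congr h S]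

lemma two_zero {s : ℕ} (y : Cobar s) : y + y = 0 := by
  have : (2 : ZMod 2) = 0 := rfl
  have h2 : (2 : Cobar s) = 0 := by
    have := congrArg (C : ZMod 2 →+* Cobar s) this
    rwa [map_ofNat, map_zero] at this
  rw [← two_mul, h2, zero_mul]

/-- The value of the operation is the class `esum`. -/
lemma esum_mem (h5 : StU5) {c d : ℕ} (hc : 1 ≤ c) : ∃ L J : ℕ, ∀ a : ℕ → ℕ, Sep L J a c →
    SN.sqN d c (hword c fun i => a i - 1) + esum c d a ∈ Bc (c + d) (dg a c) := by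
  obtain ⟨L, J, h⟩ := h5 c d hc
  refine ⟨L, J + 1, fun a ha => ?_⟩
  have h1 := h (fun i => a i - 1) ⟨fun i hi => by
    have h2 := ha.1 i hi
    have h3 := ha.2 (i + 1) hi
    show a (i + 1) - 1 + L ≤ a i - 1
    omega, fun i hi => by
    have h3 := ha.2 i hi
    show J ≤ a i - 1
    omega⟩
  rw [← hword_eq] at h1
  have e1 : esum c d (fun i => a i - 1 + 1) = esum c d a := esum_congr fun i hi => by
    have h3 := ha.2 i hi
    omega
  have e2 : 2 * dg (fun i => a i - 1) c = dg a c := by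
    unfold dg
    rw [Finset.mul_sum]
    refine Finset.sum_congr rfl fun i hi => ?_
    have h3 := ha.2 i (Finset.mem_range.1 hi)
    show 2 * 2 ^ (a i - 1) = 2 ^ a i
    rw [← pow_succ', show a i - 1 + 1 = a i by omega]
  rw [e1, e2] at h1
  exact h1

lemma Bc_le {s t : ℕ} {x : Cobar s} (hx : x ∈ Bc s t) : x ∈ Zc s t := by
  obtain ⟨z, hz, h⟩ := exists_th (BR_le _ _ (th_mem_BR.2 hx))
  rw [← th_inj _ h]
  exact hz

/-- Cohomologous cochains may be exchanged. -/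
lemma exch {s t : ℕ} {x y z : Cobar s} (h : y + z ∈ Bc s t) : x + y ∈ Bc s t ↔ x + z ∈ Bc s t := by
  constructor
  · intro h1
    have h2 := Submodule.add_mem _ h1 h
    rwa [show x + y + (y + z) = x + z + (y + y) by ring, two_zero, add_zero] at h2
  · intro h1
    have h2 := Submodule.add_mem _ h1 h
    rwa [show x + z + (y + z) = x + y + (z + z) by ring, two_zero, add_zero] at h2

/-- The products by `h_i` detect the operations. -/
lemma hid_iff (s k : ℕ) : ∃ J : ℕ, ∀ T : ℕ, 0 < T → 2 ^ J ∣ T → ∀ x ∈ Zc s T,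
    (Hid k s T x ↔ ∀ i, i < k → SN.sqN (2 ^ i) s x ∈ Bc (s + 2 ^ i) (2 * T)) := by
  obtain ⟨J, hJ⟩ := SN.ex_sup (P := fun i J => ∀ T : ℕ, 0 < T → 2 ^ J ∣ T → ∀ z ∈ Zc (s + 2 ^ i) T,
      ∀ w : ℕ → Cobar (s + 2 ^ i), (∀ l < i, w l ∈ Zc (s + 2 ^ i) (T + (2 ^ i - 2 ^ l))) →
      jux (s + 2 ^ i) 1 z (xi 0 1 ^ 2 ^ i) +
        ∑ l ∈ Finset.range i, jux (s + 2 ^ i) 1 (w l) (xi 0 1 ^ 2 ^ l) ∈
      Bc (s + 2 ^ i + 1) (T + 2 ^ i) → z ∈ Bc (s + 2 ^ i) T)
    (fun i J J' hJ h t ht hd => h t ht ((pow_dvd_pow 2 hJ).trans hd))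
    (fun i => SN.hi_ideal (s + 2 ^ i) i) k
  refine ⟨J, fun T hT hd x hx => ⟨fun h i hi => ?_, fun h i hi => ?_⟩⟩
  · obtain ⟨w, hw, hB⟩ := h i hi
    exact hJ i hi (2 * T) (by omega) (Dvd.dvd.mul_left hd 2) _ (SN.tSqN (2 ^ i) s T x hx).1 w hw hB
  · refine ⟨fun _ => 0, fun _ _ => Submodule.zero_mem _, ?_⟩
    have h1 : ∑ l ∈ Finset.range i, jux (s + 2 ^ i) 1 (0 : Cobar (s + 2 ^ i)) (xi 0 1 ^ 2 ^ l) =
        0 := Finset.sum_eq_zero fun l _ => by
      unfold jux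
      rw [map_zero, zero_mul]
    rw [h1, add_zero]
    exact jux_Bc_left (h i hi) (ha_Zc i)

end UFin

/-- The final statement. -/
def StFin : Prop := ∀ k c d : ℕ, 1 ≤ k → 2 ≤ c + d →
  c = max (2 * (c + d) / 3) (c + d + 1 - 2 ^ k) →
  ∃ U J L C₀ : ℕ, ∃ π : Fin (c.choose d - c.choose (d + 1)) → Equiv.Perm (Fin c), 1 ≤ J ∧
    (∀ n, 1 ≤ n → {t : ℕ | t < 2 ^ n ∧ Few U (c - 1) t}.ncard ≤ C₀ * n ^ (c - 1)) ∧
    (2 * d ≤ c + 1 → ∀ t : ℕ, ¬ Few U (c - 1) t →
      (¬ ∃ a : ℕ → ℕ, (∀ i, i + 1 < c → a (i + 1) + L ≤ a i) ∧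
        t = ∑ i ∈ Finset.range c, 2 ^ a i) →
      ∀ b, J ≤ b → ∀ x ∈ Zc (c + d) (2 ^ b * t), Hid k (c + d) (2 ^ b * t) x →
        x ∈ Bc (c + d) (2 ^ b * t)) ∧
    ∀ a : ℕ → ℕ, (∀ i, i + 1 < c → a (i + 1) + L ≤ a i) → (∀ i, i < c → J ≤ a i) →
      ∀ T, T = ∑ i ∈ Finset.range c, 2 ^ a i →
      (2 * d < c →
        SN.sqN d c (hword c fun i => a i - 1) ∈ Zc (c + d) T ∧
        SN.sqN d c (hword c fun i => a i - 1) ∉ Bc (c + d) T ∧
        ∀ x ∈ Zc (c + d) T,
          (Hid k (c + d) T x ↔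
            x ∈ Bc (c + d) T ∨ x + SN.sqN d c (hword c fun i => a i - 1) ∈ Bc (c + d) T) ∧
          (Hid k (c + d) T x →
            ∀ n, 1 ≤ n → n < 2 ^ k → SN.sqN n (c + d) x ∈ Bc (c + d + n) (2 * T))) ∧
      (c ≤ 2 * d →
        (∀ i, π i * π i = 1 ∧ c + (Finset.univ.filter fun v => π i v = v).card = 2 * d ∧
          und c d a (π i) ∈ Zc (c + d) T) ∧
        (∀ D : Finset (Fin (c.choose d - c.choose (d + 1))), D.Nonempty →
          ∑ i ∈ D, und c d a (π i) ∉ Bc (c + d) T) ∧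
        ∀ x ∈ Zc (c + d) T,
          (Hid k (c + d) T x ↔ ∃ D : Finset (Fin (c.choose d - c.choose (d + 1))),
            x + ∑ i ∈ D, und c d a (π i) ∈ Bc (c + d) T) ∧
          (Hid k (c + d) T x → ∀ n, 1 ≤ n → SN.sqN n (c + d) x ∈ Bc (c + d + n) (2 * T)))

open IUAB UFin in
/-- The final theorem. -/
theorem pr_Fin (hA : StUA) (hB : StUB) (h5 : StU5) (hb : StUb) (h1 : StU1) : StFin := by
  intro k c d hk hs hc
  have h2k : 2 ≤ 2 ^ k := by
    calc 2 = 2 ^ 1 := (pow_one 2).symm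
      _ ≤ 2 ^ k := Nat.pow_le_pow_right (by norm_num) hk
  have hc1 : 1 ≤ c := by omega
  obtain ⟨J0, hid⟩ := hid_iff (c + d) k
  have hdv : ∀ (J : ℕ) (a : ℕ → ℕ), (∀ i, i < c → J ≤ a i) → 2 ^ J ∣ dg a c := fun J a h =>
    Finset.dvd_sum fun i hi => pow_dvd_pow 2 (h i (Finset.mem_range.1 hi))
  have hpos : ∀ a : ℕ → ℕ, 0 < dg a c := fun a =>
    Finset.sum_pos (fun i _ => by positivity) ⟨0, Finset.mem_range.2 (by omega)⟩
  by_cases hdc : 2 * d < c
  · -- case A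
    have hd : d + 1 = 2 ^ k := by omega
    obtain ⟨L5, J5, h5'⟩ := esum_mem h5 (c := c) (d := d) (by omega)
    obtain ⟨U, J, L, hL, hi, hii⟩ := hA L5 k c d hk hd hdc
    obtain ⟨C₀, hC⟩ := few_count U (c - 1)
    refine ⟨U, J0 + J + J5 + 1, L, C₀, fun _ => 1, by omega, hC,
      fun _ t ht hns b hb' x hx hsq => hi t ht hns b (by omega) x hx ?_,
      fun a hg hJ T hT => ⟨fun _ => ?_, fun h => by omega⟩⟩
    · exact (hid _ (Nat.mul_pos (by positivity) (SN.few_pos ht))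
        (Dvd.dvd.mul_right (pow_dvd_pow 2 (by omega)) _) x hx).1 hsq
    have hT' : T = dg a c := hT
    rw [hT']
    have hS : Sep L J a c := ⟨fun i hi => by have := hg i hi; omega, fun i hi => by
      have := hJ i hi; omega⟩
    have hS5 : Sep L5 J5 a c := ⟨fun i hi => by have := hg i hi; omega, fun i hi => by
      have := hJ i hi; omega⟩
    obtain ⟨⟨hz, hnb⟩, hx⟩ := hii a hS
    have h6 := h5' a hS5
    have hid' := hid (dg a c) (hpos a) (hdv J0 a fun i hi => by have := hJ i hi; omega)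
    have key : ∀ x, x ∈ Bc (c + d) (dg a c) ∨ x + esum c d a ∈ Bc (c + d) (dg a c) ↔
        x ∈ Bc (c + d) (dg a c) ∨ x + SN.sqN d c (hword c fun i => a i - 1) ∈
          Bc (c + d) (dg a c) := fun x => or_congr Iff.rfl (exch h6).symm
    refine ⟨?_, fun h7 => hnb ?_, fun x hxZ => ⟨⟨fun h => ?_, fun h => ?_⟩, fun h => ?_⟩⟩
    · have h8 := Submodule.add_mem _ (Bc_le h6) hz
      rwa [add_assoc, two_zero, add_zero] at h8
    · have h8 := Submodule.add_mem _ h7 h6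
      rwa [← add_assoc, two_zero, zero_add] at h8
    · exact (key x).1 ((hx x hxZ).1 ((hid' x hxZ).1 h))
    · exact (hid' x hxZ).2 fun i hik => (hx x hxZ).2 ((key x).2 h) _ Nat.one_le_two_pow
        (Nat.pow_lt_pow_right (by norm_num) hik)
    · exact (hx x hxZ).2 ((hx x hxZ).1 ((hid' x hxZ).1 h))
  · -- case B
    have hcd2 : c ≤ 2 * d := by omega
    have hcd3 : 2 * d ≤ c + 2 := by omega
    have hdk : d < 2 ^ k := by omega
    obtain ⟨π, hπ, ⟨L4, J4, hind⟩, hsp⟩ := hb c d hc1 (by omega)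
    obtain ⟨L3, J3, h3⟩ := h1 c
    obtain ⟨U, J, L, hL, hi, hii⟩ := hB (L3 + L4) k c d hc1 hcd2 hcd3 hdk
    obtain ⟨C₀, hC⟩ := few_count U (c - 1)
    refine ⟨U, J0 + J + J3 + J4 + 1, L, C₀, π, by omega, hC,
      fun h t ht hns b hb' x hx hsq => hi (by omega) t ht hns b (by omega) x hx ?_,
      fun a hg hJ T hT => ⟨fun h => by omega, fun _ => ?_⟩⟩
    · exact (hid _ (Nat.mul_pos (by positivity) (SN.few_pos ht))
        (Dvd.dvd.mul_right (pow_dvd_pow 2 (by omega)) _) x hx).1 hsq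
    have hT' : T = dg a c := hT
    rw [hT']
    have hS : Sep L J a c := ⟨fun i hi => by have := hg i hi; omega, fun i hi => by
      have := hJ i hi; omega⟩
    have hS3 : Sep L3 J3 a c := ⟨fun i hi => by have := hg i hi; omega, fun i hi => by
      have := hJ i hi; omega⟩
    have hS4 : Sep L4 J4 a c := ⟨fun i hi => by have := hg i hi; omega, fun i hi => by
      have := hJ i hi; omega⟩
    have hid' := hid (dg a c) (hpos a) (hdv J0 a fun i hi => by have := hJ i hi; omega)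
    have key : ∀ x ∈ Zc (c + d) (dg a c), Hid k (c + d) (dg a c) x →
          ∃ D : Finset (Fin (c.choose d - c.choose (d + 1))),
            x + ∑ i ∈ D, und c d a (π i) ∈ Bc (c + d) (dg a c) := fun x hx hsq => by
      obtain ⟨C, hC1, hC2⟩ := (hii a hS x hx).1 ((hid' x hx).1 hsq)
      obtain ⟨D, hD⟩ := hsp C hC1
      exact ⟨D, by rw [← hD a]; exact hC2⟩
    have key2 : ∀ x ∈ Zc (c + d) (dg a c),
        (∃ D : Finset (Fin (c.choose d - c.choose (d + 1))),
            x + ∑ i ∈ D, und c d a (π i) ∈ Bc (c + d) (dg a c)) →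
          ∀ n, 1 ≤ n → SN.sqN n (c + d) x ∈ Bc (c + d + n) (2 * dg a c) := fun x hx h n hn => by
      obtain ⟨D, hD⟩ := h
      have hinj : Function.Injective π := by
        intro i j hij
        by_contra hne
        refine hind a hS4 {i, j} (Finset.insert_nonempty _ _) ?_
        rw [Finset.sum_pair hne, hij, two_zero]
        exact Submodule.zero_mem _
      refine (hii a hS x hx).2 ⟨D.image π, fun ρ hρ => ?_, ?_⟩ n hn
      · obtain ⟨i, -, rfl⟩ := Finset.mem_image.1 hρ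
        exact (hπ i).1
      · rw [Finset.sum_image fun i _ j _ h => hinj h]
        exact hD
    refine ⟨fun i => ⟨(hπ i).1, (hπ i).2, ((h3 c d a hc1 le_rfl hS3).2 (π i) (hπ i).1).2⟩,
      hind a hS4, fun x hx => ⟨⟨key x hx, fun h =>
        (hid' x hx).2 fun i _ => key2 x hx h _ Nat.one_le_two_pow⟩,
        fun h => key2 x hx (key x hx h)⟩⟩

end Pool.Agent.Work.MP_701abf_gt.TwT
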