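import Pool.Agent.Work.MP_701abf_gt.TwT.AllA
import Pool.Agent.Work.MP_701abf_gt.TwT.I_El
import Pool.Agent.Work.MP_701abf_gt.TwT.I_Kv
import Pool.Agent.Work.MP_701abf_gt.TwT.I_Kl
import Pool.Agent.Work.MP_701abf_gt.TwT.I_Lk
import Pool.Agent.Work.MP_701abf_gt.TwT.I_Iv
import Pool.Agent.Work.MP_701abf_gt.TwT.I_Lq
import Pool.Agent.Work.MP_701abf_gt.TwT.I_Pu
import Pool.Agent.Work.MP_701abf_gt.TwT.I_Nl
import Pool.Agent.Work.MP_701abf_gt.TwT.I_Cs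
import Pool.Agent.Work.MP_701abf_gt.TwT.I_Wd
import Pool.Agent.Work.MP_701abf_gt.TwT.I_Fr
import Pool.Agent.Work.MP_701abf_gt.TwT.I_Rm
import Pool.Agent.Work.MP_701abf_gt.TwT.I_Wo
import Pool.Agent.Work.MP_701abf_gt.TwT.I_Pb
import Pool.Agent.Work.MP_701abf_gt.TwT.I_Uw
import Pool.Agent.Work.MP_701abf_gt.TwT.I_Ct
import Pool.Agent.Work.MP_701abf_gt.TwT.I_Lc
import Pool.Agent.Work.MP_701abf_gt.TwT.I_U1
import Pool.Agent.Work.MP_701abf_gt.TwT.I_Uf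
import Pool.Agent.Work.MP_701abf_gt.TwT.I_U2
import Pool.Agent.Work.MP_701abf_gt.TwT.I_Ml
import Pool.Agent.Work.MP_701abf_gt.TwT.I_Lm
import Pool.Agent.Work.MP_701abf_gt.TwT.I_Ke
import Pool.Agent.Work.MP_701abf_gt.TwT.I_Np
import Pool.Agent.Work.MP_701abf_gt.TwT.I_Lq2
import Pool.Agent.Work.MP_701abf_gt.TwT.I_Rp
import Pool.Agent.Work.MP_701abf_gt.TwT.I_Es
import Pool.Agent.Work.MP_701abf_gt.TwT.I_U3
import Pool.Agent.Work.MP_701abf_gt.TwT.I_U4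
import Pool.Agent.Work.MP_701abf_gt.TwT.I_Pq
import Pool.Agent.Work.MP_701abf_gt.TwT.I_U5
import Pool.Agent.Work.MP_701abf_gt.TwT.I_Dm
import Pool.Agent.Work.MP_701abf_gt.TwT.I_Bs
import Pool.Agent.Work.MP_701abf_gt.TwT.I_Ub
import Pool.Agent.Work.MP_701abf_gt.TwT.UFin
import Pool.Agent.Work.MP_701abf_gt.FL.TwoAll

/-!
# Undetected classes: all items
-/

namespace Pool.Agent.Work.MP_701abf_gt.TwT

theorem tEl : StEl := pr_El
theorem tKv : StKv := pr_Kv tEl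
theorem tKl : StKl := pr_Kl tKv
theorem tLk : StLk := pr_Lk tEl tKl
theorem tIv : StIv := pr_Iv
theorem tLq : StLq := pr_Lq tTn tOk tLt
theorem tPu : StPu := pr_Pu tTn tOk tLt tLq tEl
theorem tNl : StNl := pr_Nl tTn tOk tLt tLr tLq
theorem tCs : StCs := pr_Cs tKp tFa tLe tTb tOb tOk tLq
theorem tWd : StWd := pr_Wd tOk tTr tEl tLq tPu tCs
theorem tFr : StFr := pr_Fr
theorem tRm : StRm := pr_Rm tOk tTr tEl tLk tLq tPu tNl tCs
theorem tWo : StWo := pr_Wo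
theorem tPb : StPb := pr_Pb tKv tIv
theorem tUw : StUw := pr_Uw tWo
theorem tCt : StCt := pr_Ct
theorem tLc : StLc := pr_Lc tOk tLr tCh tTr
theorem tU1 : StU1 := pr_U1 tKl tWd tRm tPb tUw
theorem tUf : StUf := pr_Uf
theorem tU2 : StU2 := pr_U2 tHf tCt tLc tU1 tUf
theorem tMl : StMl := pr_Ml tEl
theorem tLm : StLm := pr_Lm tEl
theorem tKe : StKe := pr_Ke tEl tMl tLm
theorem tNp : StNp := pr_Np tTn tOk tSw tLp tLq
theorem tLq2 : StLq2 := pr_Lq2 tOk tLw tCh tTr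
theorem tRp : StRp := pr_Rp tOk tTr tEl tLq tPu tCs tNp
theorem tEs : StEs := pr_Es tWo tMl
theorem tU3 : StU3 := pr_U3 tHf tCt tEl tMl tKe tWd tLq2 tRp tEs
theorem tU4 : StU4 := pr_U4 tHf tCt tEl tMl tLk tLq2 tRp tPb tUw tUf
theorem tPq : StPq := pr_Pq tOk tTr tEl tLq tPu tCs
theorem tU5 : StU5 := pr_U5 tWo tWd tPq tFr tEs
theorem tDm : StDm := pr_Dm tEl tKl tLk
theorem tBs : StBs := pr_Bs tPb
theorem tUb : StUb := pr_Ub tKl tWd tPb tUw tDm tBs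
theorem tUA : StUA := pr_UA tHf tCt tEl tMl tKe tWd tLq2 tRp tEs
theorem tLpi : StLpi := pr_Lpi tTn tOk tMu tBi tLr tSw
theorem tLwi : StLwi := pr_Lwi tTn tLpi
theorem tLqi : StLqi := pr_Lqi tOk tLwi tCh tTr tEe Sq2.FL.two_inj
theorem tUB : StUB := pr_UB tHf tCt tEl tMl tLk tLqi tRp tPb tUw tU1
theorem tFin : StFin := pr_Fin tUA tUB tU5 tUb tU1

end Pool.Agent.Work.MP_701abf_gt.TwT
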