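import Pool.Agent.Work.MP_701abf_gt.Sq2.Main

/-!
# The two-thirds law, half A (captain helper14): definitions

Topology: everything takes place in helper45's ring `RR Empty` with the cocycles `ZR s t` and the
coboundaries `BR s t` (`s` = cohomological degree, `t` = internal degree) of `Sq2/RZ.lean`.  The
product of the cocycles `F` (on the left, degree `i`) and `G` (on the right, degree `j`) is
`G * sh j F`.  `Ops q` is the interface to half B: `q n s F` represents `Sq^n F` for `F ∈ ZR s t`.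

Algebra: a `Sys` is a finite graded set `I` (the basis of a graded vector space over `ZMod 2`) with
the matrices `c k` of operations `e k` of degree `k`.  `BQ q n T V w`: the cocycles `w l` are a basis
of the groups `Ext^{s,T}`, `s ≤ n`, in which the operations `q k` have the matrices `V.c k`.
-/

open MvPolynomial
open Pool.Agent.Work.MP_701abf_gt.Stab Pool.Agent.Work.MP_701abf_gt.Cob
open Pool.Agent.Work.MP_701abf_gt.Sq2

namespace Pool.Agent.Work.MP_701abf_gt.TwT

/-- The operations: `q n s` represents `Sq^n` on classes of cohomological degree `s`. -/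
structure Ops (q : ℕ → ℕ → RR Empty → RR Empty) : Prop where
  zr : ∀ (n s : ℕ) (t : ℤ), ∀ F ∈ ZR s t, q n s F ∈ ZR (s + n) (2 * t)
  br : ∀ (n s : ℕ) (t : ℤ), ∀ F ∈ BR s t, q n s F ∈ BR (s + n) (2 * t)
  add : ∀ (n s : ℕ) (t : ℤ), ∀ F ∈ ZR s t, ∀ G ∈ ZR s t,
    q n s (F + G) + (q n s F + q n s G) ∈ BR (s + n) (2 * t)
  zero : ∀ (s : ℕ) (t : ℤ), ∀ F ∈ ZR s t, q 0 s F + F ^ 2 ∈ BR s (2 * t)
  one : ∀ (s : ℕ) (t : ℤ), ∀ F ∈ ZR s t, q 1 s F + Sq2.dl s F ∈ BR (s + 1) (2 * t)
  top : ∀ (n s : ℕ) (t : ℤ), s < n → ∀ F ∈ ZR s t, q n s F ∈ BR (s + n) (2 * t)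
  mul : ∀ (n i j : ℕ) (a b : ℤ), ∀ F ∈ ZR i a, ∀ G ∈ ZR j b,
    q n (i + j) (G * sh j F) + ∑ k ∈ Finset.range (n + 1),
      q k j G * sh (j + k) (q (n - k) i F) ∈ BR (i + j + n) (2 * (a + b))

/-- The class `h_(a-1)^2`, of degree `(2, 2^a)`, for `a ≥ 1`. -/
noncomputable def kap (a : ℕ) : RR Empty := ha (a - 1) * sh 1 (ha (a - 1))

/-! ### Systems -/

/-- A finite graded set with the matrices of the operations. -/
structure Sys : Type 1 where
  I : Type
  fin : Fintype I
  d : I → ℕ
  c : ℕ → I → I → ZMod 2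

attribute [instance] Sys.fin

namespace Sys
variable (V W : Sys)

/-- The matrices have the right degree, and the operation `0` is the identity. -/
structure Ok : Prop where
  deg : ∀ k l m, V.c k l m ≠ 0 → V.d m = V.d l + k
  one : ∀ l, V.c 0 l l = 1
  ne : ∀ l m, l ≠ m → V.c 0 l m = 0

/-- The operation `k`. -/
def e (k : ℕ) : (V.I → ZMod 2) →ₗ[ZMod 2] (V.I → ZMod 2) where
  toFun a := fun m => ∑ l, a l * V.c k l m
  map_add' a b := by
    funext m
    simp only [Pi.add_apply, add_mul, Finset.sum_add_distrib]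
  map_smul' r a := by
    funext m
    simp only [Pi.smul_apply, smul_eq_mul, mul_assoc, Finset.mul_sum, RingHom.id_apply]

lemma e_apply (k : ℕ) (a : V.I → ZMod 2) (m : V.I) : V.e k a m = ∑ l, a l * V.c k l m := rfl

/-- `a` has degree `s`. -/
def Dg (s : ℕ) (a : V.I → ZMod 2) : Prop := ∀ l, a l ≠ 0 → V.d l = s

/-- The product. -/
def ten : Sys where
  I := W.I × V.I
  fin := inferInstance
  d p := W.d p.1 + V.d p.2
  c k p r := ∑ i ∈ Finset.range (k + 1), W.c i p.1 r.1 * V.c (k - i) p.2 r.2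

/-- The unit. -/
def one : Sys where
  I := Unit
  fin := inferInstance
  d _ := 0
  c k _ _ := if k = 0 then 1 else 0

/-- The composition of the operations is the one of the divided powers. -/
def Mul : Prop := ∀ (i j : ℕ) (a : V.I → ZMod 2),
  V.e i (V.e j a) = ((i + j).choose i : ZMod 2) • V.e (i + j) a

/-- A power of two: `l0` (the class `h_b`, degree one), `m0` (the class `h_(b-1)^2`, degree two),
and other elements of degree at least three. -/
structure Let (l0 m0 : W.I) : Prop where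
  ok : W.Ok
  pos : ∀ l, 1 ≤ W.d l
  dl0 : W.d l0 = 1
  ul0 : ∀ l, W.d l = 1 → l = l0
  dm0 : W.d m0 = 2
  um0 : ∀ m, W.d m = 2 → m = m0
  cc : W.c 1 l0 m0 = 1
  l0c : ∀ k m, 2 ≤ k → W.c k l0 m = 0
  m0c : ∀ k m, 1 ≤ k → W.c k m0 m = 0

/-- A cluster which is not a power of two: all elements have degree at least two. -/
structure Cl : Prop where
  ok : W.Ok
  two : ∀ l, 2 ≤ W.d l

/-- The operations vanish where the target has degree larger than `n`. -/
def Tr (n : ℕ) : Prop := ∀ k l m, 1 ≤ k → n < W.d l + k → W.c k l m = 0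

/-- The square of the first operation is zero. -/
def Z1 : Prop := ∀ l m, ∑ i, W.c 1 l i * W.c 1 i m = 0

end Sys

/-- The smallest power of two. -/
def E1 : Sys where
  I := Bool
  fin := inferInstance
  d b := if b then 2 else 1
  c k l m := if (k = 0 ∧ l = m) ∨ (k = 1 ∧ l = false ∧ m = true) then 1 else 0

/-- Products of `E1`. -/
def Ex : ℕ → Sys
  | 0 => Sys.one
  | a + 1 => Sys.ten (Ex a) E1

/-- Products of `c` powers of two and `m` other clusters, all with the property `P`. -/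
inductive TP (P : Sys → Prop) : ℕ → ℕ → Sys → Prop
  | one : TP P 0 0 Sys.one
  | sg {c m : ℕ} {V : Sys} (W : Sys) (l0 m0 : W.I) (hP : P W) (hW : W.Let l0 m0) (h : TP P c m V) :
      TP P (c + 1) m (Sys.ten V W)
  | cl {c m : ℕ} {V : Sys} (W : Sys) (hP : P W) (hW : W.Cl) (h : TP P c m V) :
      TP P c (m + 1) (Sys.ten V W)

/-! ### Bases of the groups `Ext` -/

/-- The cocycles `w l` are a basis of the `Ext^{s,T}`, `s ≤ n`, with the operations of `V`. -/
structure BQ (q : ℕ → ℕ → RR Empty → RR Empty) (n : ℕ) (T : ℤ) (V : Sys) (w : V.I → RR Empty) :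
    Prop where
  w_mem : ∀ l, w l ∈ ZR (V.d l) T
  c_w : ∀ k l, V.d l + k ≤ n →
    q k (V.d l) (w l) + ∑ m, V.c k l m • w m ^ 2 ∈ BR (V.d l + k) (2 * T)
  span : ∀ s ≤ n, ∀ x ∈ ZR s T, ∃ a : V.I → ZMod 2, V.Dg s a ∧ x + ∑ l, a l • w l ∈ BR s T
  indep : ∀ s ≤ n, ∀ a : V.I → ZMod 2, V.Dg s a → ∑ l, a l • w l ^ 2 ∈ BR s (2 * T) → a = 0

/-- The Kuenneth formula for `N + M` with the family `w` on the side of `M`. -/
structure KU (n : ℕ) (N M : ℤ) (W : Sys) (w : W.I → RR Empty) : Prop where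
  surj : ∀ s ≤ n, ∀ x ∈ ZR s (N + M), ∃ u : W.I → RR Empty,
    (∀ l, W.d l ≤ s → u l ∈ ZR (s - W.d l) N) ∧ (∀ l, s < W.d l → u l = 0) ∧
    x + ∑ l, w l * sh (W.d l) (u l) ∈ BR s (N + M)
  inj : ∀ s ≤ n, ∀ u : W.I → RR Empty, (∀ l, W.d l ≤ s → u l ∈ ZR (s - W.d l) (2 * N)) →
    (∀ l, s < W.d l → u l = 0) → ∑ l, w l ^ 2 * sh (W.d l) (u l) ∈ BR s (2 * N + 2 * M) →
    ∀ l, W.d l ≤ s → u l ∈ BR (s - W.d l) (2 * N)

/-! ### The algebra of the squares of the letters -/

/-- Linear combinations of finite sets of letters. -/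
abbrev Lam : Type := Finset ℕ →₀ ZMod 2

/-- Multiplication by the letter `i`, whose square is zero. -/
noncomputable def del (i : ℕ) : Lam →ₗ[ZMod 2] Lam :=
  Finsupp.linearCombination (ZMod 2) fun S : Finset ℕ =>
    if i ∈ S then (0 : Lam) else Finsupp.single (insert i S) 1

/-- Multiplication by the `n`-th elementary symmetric function of the letters `0, ..., r - 1`. -/
noncomputable def el : ℕ → ℕ → Lam →ₗ[ZMod 2] Lam
  | 0, _ => LinearMap.id
  | _ + 1, 0 => 0
  | n + 1, r + 1 => el (n + 1) r + (del r).comp (el n r)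

/-- Products in the letters `0, ..., r - 1` of degree `m`: each letter is either alone in the product,
or belongs to one sum `φ + r` of two letters, or is free (`F` is the set of free letters). -/
inductive KP : ℕ → ℕ → Finset ℕ → Lam → Prop
  | nil : KP 0 0 ∅ (Finsupp.single ∅ 1)
  | free {r m : ℕ} {F : Finset ℕ} {P : Lam} (h : KP r m F P) : KP (r + 1) m (insert r F) P
  | one {r m : ℕ} {F : Finset ℕ} {P : Lam} (h : KP r m F P) : KP (r + 1) (m + 1) F (del r P)
  | two {r m : ℕ} {F : Finset ℕ} {P : Lam} (h : KP r m F P) (φ : ℕ) (hφ : φ ∈ F) :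
      KP (r + 1) (m + 1) (F.erase φ) (del φ P + del r P)

/-- The span of the products with less than `j` free letters. -/
noncomputable def KS (j r m : ℕ) : Submodule (ZMod 2) Lam :=
  Submodule.span (ZMod 2) {P | ∃ F, F.card < j ∧ KP r m F P}

/-- Combinations of subsets of `0, ..., r - 1` with `m` elements. -/
noncomputable def Ho (r m : ℕ) : Submodule (ZMod 2) Lam :=
  Finsupp.supported (ZMod 2) (ZMod 2) {S : Finset ℕ | S ⊆ Finset.range r ∧ S.card = m}

/-- The word with the letters `a 0, ..., a (r-1)` (`a (r-1)` on the right), where the letters in `S` are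
replaced by `h_(a i - 1)^2` and the others by `h_(a i)`. -/
noncomputable def wd (a : ℕ → ℕ) (S : Finset ℕ) : ℕ → RR Empty
  | 0 => 1
  | r + 1 => open Classical in
    if r ∈ S then kap (a r) * sh 2 (wd a S r) else ha (a r) * sh 1 (wd a S r)

/-- The linear map from the combinations of sets of letters to cochains. -/
noncomputable def Ph (a : ℕ → ℕ) (r : ℕ) : Lam →ₗ[ZMod 2] RR Empty :=
  Finsupp.linearCombination (ZMod 2) fun S : Finset ℕ => wd a S r

/-- The internal degree of the words. -/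
def dg (a : ℕ → ℕ) (r : ℕ) : ℕ := ∑ i ∈ Finset.range r, 2 ^ a i

/-- The letters are separated: `a i ≥ a (i+1) + L` and `a (r-1) ≥ J`. -/
def Sep (L J : ℕ) (a : ℕ → ℕ) (r : ℕ) : Prop :=
  (∀ i, i + 1 < r → a (i + 1) + L ≤ a i) ∧ ∀ i, i < r → J ≤ a i

open Classical in
/-- Products of `r` powers of two, with the map `ι` from the sets of letters to the basis: letter `i`
is in `S` if the corresponding component is `m0` (and not `l0`). -/
inductive LP : ℕ → (V : Sys) → (Finset ℕ → V.I) → Prop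
  | one : LP 0 Sys.one fun _ => ()
  | sg {r : ℕ} {V : Sys} {ι : Finset ℕ → V.I} (W : Sys) (l0 m0 : W.I) (hW : W.Let l0 m0)
      (h : LP r V ι) : LP (r + 1) (Sys.ten V W) fun S => (if r ∈ S then m0 else l0, ι S)

end Pool.Agent.Work.MP_701abf_gt.TwT
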