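import Pool.Agent.Work.MP_701abf_gt.TwT.I_Fe
import Pool.Agent.Work.MP_701abf_gt.FL.Defs
import Pool.Agent.Work.MP_701abf_gt.SN.AllB

/-!
# The half law: exactness of the first operation outside `(s + 1) / 3` clusters (helper11)

In the notation of `TwT/Stmts.lean`.  The only new input is `TwoInj` (block FL): the first operation is
injective on the second line in the degrees which are not powers of two.  So all clusters are exact
in the degrees `0, 1, 2`, and a product of `c + m` clusters is exact in the degrees `s < 3 (c + m)`.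
-/

open MvPolynomial
open Pool.Agent.Work.MP_701abf_gt.Stab Pool.Agent.Work.MP_701abf_gt.Cob
open Pool.Agent.Work.MP_701abf_gt.Sq2

namespace Pool.Agent.Work.MP_701abf_gt.TwT

namespace HL

/-- The square of the first operation is zero, and on a cluster which is not a power of two the
first operation is injective in degree two. -/
def Z2 (W : Sys) : Prop :=
  W.Z1 ∧ (W.Cl → ∀ x : W.I → ZMod 2, W.Dg 2 x → W.e 1 x = 0 → x = 0)

lemma TP_mono {P P' : Sys → Prop} (hPP : ∀ W, P W → P' W) {c m : ℕ} {V : Sys} (h : TP P c m V) :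
    TP P' c m V := by
  induction h with
  | one => exact TP.one
  | sg W l0 m0 hP hW h ih => exact TP.sg W l0 m0 (hPP W hP) hW ih
  | cl W hP hW h ih => exact TP.cl W (hPP W hP) hW ih

lemma self (a : ZMod 2) : a + a = 0 := CharTwo.add_self_eq_zero a

lemma eq_of_add {a b : ZMod 2} (h : a + b = 0) : a = b := by
  have h1 : a + b + b = b := by rw [h, zero_add]
  rwa [add_assoc, self, add_zero] at h1

/-- The first operation of a product. -/
lemma e_one (hTn : StTn) (V W : Sys) (hV : V.Ok) (hW : W.Ok) (y : W.I × V.I → ZMod 2) (m : W.I)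
    (v : V.I) : (Sys.ten V W).e 1 y (m, v) =
      V.e 1 (fun v' => y (m, v')) v + ∑ l, W.c 1 l m * y (l, v) := by
  classical
  rw [hTn.2.1 V W 1 y m v, Finset.sum_range_succ, Finset.sum_range_one]
  congr 1
  · rw [Finset.sum_eq_single m]
    · rw [hW.one, one_mul]
    · intro l _ hl
      rw [hW.ne l m hl, zero_mul]
    · intro h
      exact absurd (Finset.mem_univ m) h
  · refine Finset.sum_congr rfl fun l _ => ?_
    rw [Nat.sub_self, (hTn.2.2.2.2.1 V hV _).1]

/-- The end of one step. -/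
lemma finish (hTn : StTn) (hEc : StEc) (V W : Sys) (hV : V.Ok) (hW : W.Ok)
    (hzz : ∀ y : W.I × V.I → ZMod 2, (Sys.ten V W).e 1 ((Sys.ten V W).e 1 y) = 0) (s : ℕ)
    (ih : ∀ D, 3 ≤ D → D ≤ s → ∀ x : V.I → ZMod 2, V.Dg (s - D) x → V.e 1 x = 0 →
      ∃ y : V.I → ZMod 2, (∀ l, y l ≠ 0 → V.d l + 1 = s - D) ∧ V.e 1 y = x)
    (x : (Sys.ten V W).I → ZMod 2) (hx : (Sys.ten V W).Dg s x) (hex : (Sys.ten V W).e 1 x = 0)
    (y0 : W.I × V.I → ZMod 2) (hd0 : ∀ p, y0 p ≠ 0 → (Sys.ten V W).d p + 1 = s)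
    (hlow : ∀ l v, W.d l < 3 → (Sys.ten V W).e 1 y0 (l, v) = x (l, v)) :
    ∃ y : W.I × V.I → ZMod 2, (∀ p, y p ≠ 0 → (Sys.ten V W).d p + 1 = s) ∧
      (Sys.ten V W).e 1 y = x := by
  have hTok : (Sys.ten V W).Ok := hTn.1 V W hV hW
  have hde : (Sys.ten V W).Dg s ((Sys.ten V W).e 1 y0) := by
    rcases s with - | s
    · have h1 : y0 = 0 := by
        funext p
        by_contra hne
        have := hd0 p hne
        omega
      have h2 : (Sys.ten V W).e 1 y0 = 0 :=
        (congrArg (fun z => (Sys.ten V W).e 1 z) h1).trans (map_zero ((Sys.ten V W).e 1))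
      intro l hl
      exact absurd (congrFun h2 l) hl
    · have h1 : (Sys.ten V W).Dg s y0 := by
        intro p hp
        have := hd0 p hp
        omega
      exact (hTn.2.2.2.2.1 (Sys.ten V W) hTok y0).2 1 s h1
  set x' : W.I × V.I → ZMod 2 := x + (Sys.ten V W).e 1 y0 with hx'
  have hx'd : (Sys.ten V W).Dg s x' := by
    intro p hp
    by_cases h1 : x p = 0
    · apply hde p
      intro h2
      apply hp
      change x p + (Sys.ten V W).e 1 y0 p = 0
      rw [h1, h2, add_zero]
    · exact hx p h1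
  have hx'z : ∀ (l : W.I) (v : V.I), W.d l < 3 → x' (l, v) = 0 := by
    intro l v hl3
    change x (l, v) + (Sys.ten V W).e 1 y0 (l, v) = 0
    rw [hlow l v hl3, self]
  have hx'e : (Sys.ten V W).e 1 x' = 0 := by
    have h1 : (Sys.ten V W).e 1 x' = (Sys.ten V W).e 1 x +
        (Sys.ten V W).e 1 ((Sys.ten V W).e 1 y0) := map_add ((Sys.ten V W).e 1) x _
    have h2 : (Sys.ten V W).e 1 ((Sys.ten V W).e 1 y0) = 0 := hzz y0
    rw [h1, hex, h2, add_zero]
  obtain ⟨y', hy'd, hy'⟩ := hEc V W hV hW hzz 3 s ih x' hx'd hx'z hx'e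
  refine ⟨y0 + y', fun p hp => ?_, ?_⟩
  · by_cases h1 : y0 p = 0
    · apply hy'd p
      intro h2
      apply hp
      change y0 p + y' p = 0
      rw [h1, h2, add_zero]
    · exact hd0 p h1
  · have h1 : (Sys.ten V W).e 1 (y0 + y') = (Sys.ten V W).e 1 y0 + (Sys.ten V W).e 1 y' :=
      map_add ((Sys.ten V W).e 1) _ _
    rw [h1, hy', hx']
    funext p
    change (Sys.ten V W).e 1 y0 p + (x p + (Sys.ten V W).e 1 y0 p) = x p
    rw [add_comm (x p), ← add_assoc, self, zero_add]

/-- A left inverse of the first operation in degree two. -/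
lemma left_inv (W : Sys) (hW : W.Ok)
    (h2 : ∀ x : W.I → ZMod 2, W.Dg 2 x → W.e 1 x = 0 → x = 0) :
    ∃ r : W.I → W.I → ZMod 2, (∀ m l, r m l ≠ 0 → W.d m = 3 ∧ W.d l = 2) ∧
      ∀ l l', W.d l' = 2 → ∑ m, W.c 1 l m * r m l' = open Classical in if l = l' then 1 else 0 := by
  classical
  let A := {l : W.I // W.d l = 2}
  let E : (A → ZMod 2) →ₗ[ZMod 2] (W.I → ZMod 2) :=
    { toFun := fun a l => if h : W.d l = 2 then a ⟨l, h⟩ else 0
      map_add' := fun a b => by
        funext l
        by_cases h : W.d l = 2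
        · simp [h]
        · simp [h]
      map_smul' := fun c a => by
        funext l
        by_cases h : W.d l = 2
        · simp [h]
        · simp [h] }
  have hE : ∀ a, W.Dg 2 (E a) := fun a l hl => by
    by_contra h
    exact hl (dif_neg h)
  let f : (A → ZMod 2) →ₗ[ZMod 2] (W.I → ZMod 2) := (W.e 1).comp E
  have hf : LinearMap.ker f = ⊥ := by
    rw [LinearMap.ker_eq_bot']
    intro a ha
    have h3 := h2 (E a) (hE a) ha
    funext l
    have h4 := congrFun h3 l.1
    have h5 : E a l.1 = a l := dif_pos l.2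
    rw [h5] at h4
    exact h4
  obtain ⟨g, hg⟩ := LinearMap.exists_leftInverse_of_injective f hf
  obtain ⟨r, hr0⟩ : ∃ r : W.I → W.I → ZMod 2, ∀ m l, r m l = if h : W.d l = 2 then
    (if W.d m = 3 then g (Pi.single m 1) ⟨l, h⟩ else 0) else 0 := ⟨_, fun _ _ => rfl⟩
  refine ⟨r, ?_, ?_⟩
  · intro m l hr
    by_cases h3 : W.d l = 2
    · by_cases h4 : W.d m = 3
      · exact ⟨h4, h3⟩
      · exact absurd (by rw [hr0, dif_pos h3, if_neg h4]) hr
    · exact absurd (by rw [hr0, dif_neg h3]) hr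
  · intro l l' hl'
    by_cases hl : W.d l = 2
    · have h3 : f (Pi.single ⟨l, hl⟩ 1) = ∑ m, W.c 1 l m • (Pi.single m 1 : W.I → ZMod 2) := by
        funext m
        have h4 : f (Pi.single ⟨l, hl⟩ 1) m = ∑ i, E (Pi.single ⟨l, hl⟩ 1) i * W.c 1 i m := rfl
        have h5 : ∀ i, E (Pi.single ⟨l, hl⟩ 1) i = if i = l then 1 else 0 := by
          intro i
          by_cases h6 : W.d i = 2
          · have h7 : E (Pi.single ⟨l, hl⟩ 1) i = (Pi.single ⟨l, hl⟩ 1 : A → ZMod 2) ⟨i, h6⟩ :=
              dif_pos h6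
            rw [h7, Pi.single_apply]
            by_cases h8 : i = l
            · rw [if_pos h8, if_pos (Subtype.ext h8)]
            · rw [if_neg h8, if_neg fun h9 => h8 (congrArg Subtype.val h9)]
          · have h7 : E (Pi.single ⟨l, hl⟩ 1) i = 0 := dif_neg h6
            rw [h7, if_neg]
            intro h8
            exact h6 (h8 ▸ hl)
        rw [h4, Finset.sum_apply, Finset.sum_eq_single l, Finset.sum_eq_single m]
        · rw [h5, if_pos rfl, one_mul]
          simp
        · intro b _ hb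
          simp [hb.symm]
        · intro h
          exact absurd (Finset.mem_univ m) h
        · intro b _ hb
          rw [h5, if_neg hb, zero_mul]
        · intro h
          exact absurd (Finset.mem_univ l) h
      have h4 : g (f (Pi.single ⟨l, hl⟩ 1)) = (Pi.single ⟨l, hl⟩ 1 : A → ZMod 2) :=
        LinearMap.congr_fun hg _
      rw [h3, map_sum] at h4
      have h5 := congrFun h4 ⟨l', hl'⟩
      rw [Finset.sum_apply, Pi.single_apply] at h5
      have h6 : ∀ m, W.c 1 l m * r m l' =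
          g (W.c 1 l m • (Pi.single m 1 : W.I → ZMod 2)) ⟨l', hl'⟩ := by
        intro m
        rw [hr0, dif_pos hl', map_smul, Pi.smul_apply, smul_eq_mul]
        by_cases h7 : W.d m = 3
        · rw [if_pos h7]
        · have h8 : W.c 1 l m = 0 := by
            by_contra h9
            exact h7 (by rw [hW.deg 1 l m h9, hl])
          rw [h8, zero_mul, zero_mul]
      rw [Finset.sum_congr rfl fun m _ => h6 m, h5]
      by_cases h8 : l = l'
      · rw [if_pos h8, if_pos (Subtype.ext h8.symm)]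
      · rw [if_neg h8, if_neg fun h9 => h8 (congrArg Subtype.val h9).symm]
    · rw [if_neg (fun h : l = l' => hl (h ▸ hl'))]
      refine Finset.sum_eq_zero fun m _ => ?_
      by_cases h7 : W.d m = 3
      · have h8 : W.c 1 l m = 0 := by
          by_contra h9
          have := hW.deg 1 l m h9
          exact hl (by omega)
        rw [h8, zero_mul]
      · rw [hr0, dif_pos hl', if_neg h7, mul_zero]

/-- Exactness of a product of `c + m` clusters in the degrees less than `3 (c + m)`. -/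
theorem ex3 (hTn : StTn) (hOk : StOk) (hLt : StLt) (hZz : StZz) (hEc : StEc) :
    ∀ c m V, TP Z2 c m V → ∀ s, s < 3 * (c + m) → ∀ x : V.I → ZMod 2, V.Dg s x →
      V.e 1 x = 0 → ∃ y : V.I → ZMod 2, (∀ l, y l ≠ 0 → V.d l + 1 = s) ∧ V.e 1 y = x := by
  classical
  intro c m V hV
  induction hV with
  | one => intro s hs; omega
  | @sg c m V W l0 m0 hP hW h ih =>
    intro s hs x hx hex
    have hVok : V.Ok := (hOk.1 _ c m V h).1
    have hlm : m0 ≠ l0 := by
      intro hh
      have h1 := hW.dl0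
      have h2 := hW.dm0
      rw [hh] at h2
      omega
    have hzz := hZz (c + 1) m (Sys.ten V W) (TP.sg W l0 m0 hP.1 hW (TP_mono (fun W h => h.1) h))
    obtain ⟨y0, hy0⟩ : ∃ y0 : W.I × V.I → ZMod 2,
      y0 = fun p => if p.1 = l0 then x (m0, p.2) else 0 := ⟨_, rfl⟩
    have hy0l : (fun v' => y0 (l0, v')) = fun v' => x (m0, v') := by
      funext v
      simp [hy0]
    have hy0m : (fun v' => y0 (m0, v')) = (0 : V.I → ZMod 2) := by
      funext v
      simp [hy0, hlm]
    obtain ⟨hL1, hL2, -, -⟩ := hLt V W l0 m0 hVok hW x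
    obtain ⟨hY1, hY2, -, -⟩ := hLt V W l0 m0 hVok hW y0
    have he0 : ∀ a : V.I → ZMod 2, V.e 0 a = a := fun a => (hTn.2.2.2.2.1 V hVok a).1
    have hx1 : ∀ v, x (l0, v) = V.e 1 (fun v' => x (m0, v')) v := by
      intro v
      have h1 := hL2 0 v
      rw [zero_add, hex, he0] at h1
      exact (eq_of_add h1.symm).symm
    have hl : ∀ v, (Sys.ten V W).e 1 y0 (l0, v) = x (l0, v) := by
      intro v
      rw [hY1, hy0l, hx1]
    have hm : ∀ v, (Sys.ten V W).e 1 y0 (m0, v) = x (m0, v) := by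
      intro v
      have h1 := hY2 0 v
      rw [zero_add] at h1
      rw [h1, hy0m, hy0l, he0, map_zero]
      simp
    refine finish hTn hEc V W hVok hW.ok hzz s
      (fun D hD hDs z hz hez => ih (s - D) (by omega) z hz hez) x hx hex y0 ?_ ?_
    · rintro ⟨l, v⟩ hp
      have h1 : l = l0 := by
        by_contra hne
        exact hp (by simp [hy0, hne])
      subst h1
      have h2 : x (m0, v) ≠ 0 := by
        intro h3
        apply hp
        simp [hy0, h3]
      have h3 : W.d m0 + V.d v = s := hx (m0, v) h2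
      have h4 : W.d l = 1 := hW.dl0
      have h5 := hW.dm0
      change W.d l + V.d v + 1 = s
      omega
    · intro l v hl3
      have h1 := hW.pos l
      have h2 : W.d l = 1 ∨ W.d l = 2 := by omega
      rcases h2 with h2 | h2
      · rw [hW.ul0 l h2, hl]
      · rw [hW.um0 l h2, hm]
  | @cl c m V W hP hW h ih =>
    intro s hs x hx hex
    have hVok : V.Ok := (hOk.1 _ c m V h).1
    have hzz := hZz c (m + 1) (Sys.ten V W) (TP.cl W hP.1 hW (TP_mono (fun W h => h.1) h))
    obtain ⟨r, hr1, hr2⟩ := left_inv W hW.ok (hP.2 hW)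
    obtain ⟨y0, hy0⟩ : ∃ y0 : W.I × V.I → ZMod 2,
      y0 = fun p => ∑ m, r m p.1 * x (m, p.2) := ⟨_, rfl⟩
    -- the components of degree three
    have hx3 : ∀ m v, V.e 1 (fun v' => x (m, v')) v = ∑ l, W.c 1 l m * x (l, v) := by
      intro m v
      have h1 := e_one hTn V W hVok hW.ok x m v
      rw [hex] at h1
      exact eq_of_add h1.symm
    refine finish hTn hEc V W hVok hW.ok hzz s
      (fun D hD hDs z hz hez => ih (s - D) (by omega) z hz hez) x hx hex y0 ?_ ?_
    · rintro ⟨l, v⟩ hp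
      rw [hy0] at hp
      obtain ⟨m', -, hm'⟩ := Finset.exists_ne_zero_of_sum_ne_zero hp
      have h1 := hr1 m' l (left_ne_zero_of_mul hm')
      have h2 : W.d m' + V.d v = s := hx (m', v) (right_ne_zero_of_mul hm')
      change W.d l + V.d v + 1 = s
      omega
    · intro l v hl3
      have h1 := hW.two l
      have h2 : W.d l = 2 := by omega
      rw [e_one hTn V W hVok hW.ok]
      have h3 : ∑ l', W.c 1 l' l * y0 (l', v) = 0 := by
        refine Finset.sum_eq_zero fun l' _ => ?_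
        have h4 : W.c 1 l' l = 0 := by
          by_contra h5
          have h6 := hW.ok.deg 1 l' l h5
          have h7 := hW.two l'
          omega
        rw [h4, zero_mul]
      rw [h3, add_zero]
      have h4 : V.e 1 (fun v' => y0 (l, v')) = ∑ m', r m' l • V.e 1 (fun v' => x (m', v')) := by
        have h5 : (fun v' => y0 (l, v')) = ∑ m', r m' l • (fun v' => x (m', v')) := by
          funext v'
          rw [hy0, Finset.sum_apply]
          rfl
        rw [h5, map_sum]
        exact Finset.sum_congr rfl fun m' _ => map_smul _ _ _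
      rw [h4, Finset.sum_apply]
      have h5 : ∀ m', (r m' l • V.e 1 (fun v' => x (m', v'))) v =
          ∑ l', W.c 1 l' m' * r m' l * x (l', v) := by
        intro m'
        rw [Pi.smul_apply, hx3, smul_eq_mul, Finset.mul_sum]
        exact Finset.sum_congr rfl fun l' _ => by ring
      rw [Finset.sum_congr rfl fun m' _ => h5 m', Finset.sum_comm]
      have h6 : ∀ l', ∑ m', W.c 1 l' m' * r m' l * x (l', v) =
          (if l' = l then 1 else 0) * x (l', v) := by
        intro l'
        rw [← Finset.sum_mul]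
        congr 1
        convert hr2 l' l h2
      rw [Finset.sum_congr rfl fun l' _ => h6 l', Finset.sum_eq_single l]
      · rw [if_pos rfl, one_mul]
      · intro b _ hb
        rw [if_neg hb, zero_mul]
      · intro hcon
        exact absurd (Finset.mem_univ l) hcon

/-- Clusters are exact in the degrees `0, 1, 2`. -/
theorem z2_of (hTr : StTr) (hEe : StEe) (h2 : FL.TwoInj) : ∀ q, Ops q → ∀ n, 4 ≤ n →
    ∃ J : ℕ, ∀ T : ℤ, 0 < T → (2 : ℤ) ^ J ∣ T → ∀ (W : Sys) (w : W.I → RR Empty), W.Ok → W.Tr n →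
      BQ q n T W w → Z2 W := by
  intro q hq n hn
  obtain ⟨J, hJ⟩ := hEe q hq n
  refine ⟨J, fun T hT hd W w hok htr hB => ⟨hJ T hT hd W w hok htr hB, fun hC x hx hex => ?_⟩⟩
  by_cases hp : ∃ b : ℕ, T = 2 ^ b
  · exfalso
    obtain ⟨b, rfl⟩ := hp
    obtain ⟨a, ha, haB⟩ := hB.span 1 (by omega) (ha b) (ha_ZR b)
    have h3 : a = 0 := by
      funext l
      by_contra hl
      have h4 := ha l hl
      have h5 := hC.two l
      omega
    rw [h3] at haB
    simp only [Pi.zero_apply, zero_smul, Finset.sum_const_zero, add_zero] at haB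
    exact ha_ne b (BR_one (by positivity) haB)
  · have hX : ∑ l, x l • w l ∈ ZR 2 T := IFe.comb_mem hB.w_mem hx
    have h3 := hTr q hq n T W w hok hB 2 (by omega) _ hX x hx (by
      rw [add_self2]
      exact Submodule.zero_mem _)
    refine h3.1.1 (h2 T hT hp _ hX ?_)
    have h4 : q 1 2 (∑ l, x l • w l) ∈ BR (2 + 1) (2 * T) := ((h3.2 1 (by omega)).2).2 hex
    have h5 := Submodule.add_mem _ h4 (hq.one 2 T _ hX)
    rw [← add_assoc, add_self2, zero_add] at h5
    exact h5

open IFe in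
/-- The half law. -/
theorem half (hTn : StTn) (hOk : StOk) (hLt : StLt) (hZz : StZz) (hEc : StEc) (hCh : StCh)
    (hEe : StEe) (hTr : StTr) (hHf : StHf) (h2 : FL.TwoInj) :
    ∀ q, Ops q → ∀ s : ℕ, ∃ U J0 : ℕ, ∀ t : ℕ, ¬ Few U ((s + 1) / 3) t → ∀ J, J0 ≤ J →
      ∀ X ∈ ZR (s + 1) ((2 ^ J * t : ℕ) : ℤ),
        Sq2.dl (s + 1) X ∈ BR (s + 2) (2 * ((2 ^ J * t : ℕ) : ℤ)) →
          ∃ v ∈ ZR s ((2 ^ J * t : ℕ) : ℤ),
            Sq2.dl s v + X ^ 2 ∈ BR (s + 1) (2 * ((2 ^ J * t : ℕ) : ℤ)) := by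
  intro q hq s
  obtain ⟨J1, L, hch⟩ := hCh q hq (s + 6) (by omega) Z2 (z2_of hTr hEe h2 q hq (s + 6) (by omega))
  obtain ⟨U', hU⟩ := degrees (s + 1) (by omega) L
  refine ⟨(s + 1) * U' + U', J1, fun t hF J hJ X hX hdl => ?_⟩
  by_cases hXB : X ∈ BR (s + 1) ((2 ^ J * t : ℕ) : ℤ)
  · refine ⟨0, Submodule.zero_mem _, ?_⟩
    rw [dl_zero, zero_add]
    exact sq_BR hXB
  -- the structure of `t`
  have hne : dm (s + 1) (2 ^ J * t) ≠ 0 := by
    intro h
    obtain ⟨p, hp, hpX⟩ := exists_th hX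
    refine hXB ?_
    rw [← hpX]
    exact th_mem_BR.2 (dm_zero_iff.1 h hp)
  obtain ⟨c, m, e', h1, h2, h3, h4⟩ := hU _ hne
  have h5 := hHf.2 _ _ _ _ (clus_iff_few.1 h3)
  have h6 : (s + 1) / 3 < c + m := by
    by_contra hcon
    refine hF (few_mono ?_ (by omega) h5)
    exact Nat.add_le_add_right (Nat.mul_le_mul_right _ (by omega)) _
  have h7 : s + 1 < 3 * (c + m) := by omega
  have eT : 2 ^ J * t = 2 ^ J1 * (2 ^ (J - J1) * t) := by
    rw [← mul_assoc, ← pow_add, Nat.add_sub_cancel' hJ]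
  have h8 : Ch L c m (2 ^ (J - J1) * t) := by
    refine hHf.1 L c m J1 _ ?_
    rw [← eT]
    exact h4
  obtain ⟨V, w, hTP, hB⟩ := hch J1 le_rfl c m _ h8
  rw [← eT] at hB
  obtain ⟨T, hT⟩ : ∃ T : ℤ, T = ((2 ^ J * t : ℕ) : ℤ) := ⟨_, rfl⟩
  rw [← hT] at hB hX hdl ⊢
  have hV : V.Ok := (hOk.1 _ _ _ _ hTP).1
  obtain ⟨a, ha, hXa⟩ := hB.span (s + 1) (by omega) X hX
  have hq1 : q 1 (s + 1) X ∈ BR (s + 1 + 1) (2 * T) := by
    have h9 := Submodule.add_mem _ (hq.one (s + 1) T X hX) hdl
    rw [add_assoc (q 1 (s + 1) X), add_self2, add_zero] at h9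
    exact h9
  have hea : V.e 1 a = 0 :=
    (((hTr q hq _ T V w hV hB (s + 1) (by omega) X hX a ha hXa).2 1 (by omega)).2).1 hq1
  obtain ⟨y, hy, hya⟩ := ex3 hTn hOk hLt hZz hEc c m V hTP (s + 1) h7 a ha hea
  have hyD : V.Dg s y := fun l hl => by
    have := hy l hl
    omega
  have hv : ∑ l, y l • w l ∈ ZR s T := comb_mem hB.w_mem hyD
  refine ⟨∑ l, y l • w l, hv, ?_⟩
  have k1 := ((hTr q hq _ T V w hV hB s (by omega) _ hv y hyD (by
    rw [add_self2]
    exact Submodule.zero_mem _)).2 1 (by omega)).1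
  rw [hya] at k1
  have k2 := hq.one s T _ hv
  have k3 := sq_BR hXa
  rw [sq_add, comb_sq] at k3
  have k4 := Submodule.add_mem _ (Submodule.add_mem _ k2 k1) k3
  have e1 := add_self2 (q 1 s (∑ l, y l • w l))
  have e2 := add_self2 (∑ m, a m • w m ^ 2)
  have e3 : q 1 s (∑ l, y l • w l) + Sq2.dl s (∑ l, y l • w l) +
      (q 1 s (∑ l, y l • w l) + ∑ m, a m • w m ^ 2) + (X ^ 2 + ∑ m, a m • w m ^ 2) =
      Sq2.dl s (∑ l, y l • w l) + X ^ 2 := by
    calc _ = Sq2.dl s (∑ l, y l • w l) + X ^ 2 +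
          (q 1 s (∑ l, y l • w l) + q 1 s (∑ l, y l • w l)) +
          ((∑ m, a m • w m ^ 2) + ∑ m, a m • w m ^ 2) := by abel
      _ = _ := by rw [e1, e2, add_zero, add_zero]
  rw [e3] at k4
  exact k4

end HL

end Pool.Agent.Work.MP_701abf_gt.TwT
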