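import Pool.Agent.Work.MP_701abf_gt.TwT.Stmts2

/-!
# The two-thirds law, item Cs: chains of separated letters
-/

open MvPolynomial
open Pool.Agent.Work.MP_701abf_gt.Stab Pool.Agent.Work.MP_701abf_gt.Cob
open Pool.Agent.Work.MP_701abf_gt.Sq2

namespace Pool.Agent.Work.MP_701abf_gt.TwT

namespace ICs

/-- `wd a S r` depends only on the letters of `S` below `r`. -/
theorem wd_inter (a : ℕ → ℕ) (S : Finset ℕ) (R : ℕ) : ∀ r : ℕ, r ≤ R →
    wd a (S ∩ Finset.range R) r = wd a S r := by
  intro r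
  induction r with
  | zero => intro _; rfl
  | succ r ih =>
    intro hR
    have h : (r ∈ S ∩ Finset.range R) ↔ r ∈ S := by
      rw [Finset.mem_inter, Finset.mem_range]
      exact ⟨fun h => h.1, fun h => ⟨h, by omega⟩⟩
    simp only [wd]
    rw [ih (by omega)]
    by_cases hr : r ∈ S
    · rw [if_pos hr, if_pos (h.2 hr)]
    · rw [if_neg hr, if_neg (fun h' => hr (h.1 h'))]

theorem sep_le {L J r : ℕ} {a : ℕ → ℕ} (h : Sep L J a r) (i : ℕ) : ∀ k, i + k + 1 < r →
    a (i + k + 1) + L ≤ a i := by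
  intro k
  induction k with
  | zero => intro hk; exact h.1 i hk
  | succ k ih =>
    intro hk
    have h1 := ih (by omega)
    have h2 := h.1 (i + k + 1) (by omega)
    rw [show i + (k + 1) + 1 = i + k + 1 + 1 by ring]
    omega

theorem dg_succ (a : ℕ → ℕ) (r : ℕ) : (dg a (r + 1) : ℤ) = (dg a r : ℤ) + 2 ^ a r := by
  unfold dg
  rw [Finset.sum_range_succ]
  push_cast
  rfl

/-- The words for one more letter. -/
theorem step {a : ℕ → ℕ} {r : ℕ} {W V : Sys} {w : W.I → RR Empty} {v : V.I → RR Empty}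
    {ι : Finset ℕ → V.I} {l0 m0 : W.I} (hι : ∀ S, ι S = ι (S ∩ Finset.range r))
    (hd : W.d l0 = 1) (hd' : W.d m0 = 2) (hw0 : w l0 = ha (a r))
    (hm0 : w m0 + kap (a r) ∈ BR 2 (2 ^ a r)) (hha : ha (a r) ∈ ZR 1 (2 ^ a r))
    (hk : kap (a r) ∈ ZR 2 (2 ^ a r))
    (ih : ∀ S, S ⊆ Finset.range r → wd a S r ∈ ZR (r + S.card) (dg a r : ℤ) ∧
      v (ι S) + wd a S r ∈ BR (r + S.card) (dg a r : ℤ)) (S : Finset ℕ)
    (hS : S ⊆ Finset.range (r + 1)) (x : W.I) (hx1 : r ∈ S → x = m0) (hx2 : r ∉ S → x = l0) :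
    wd a S (r + 1) ∈ ZR (r + 1 + S.card) (dg a (r + 1) : ℤ) ∧
      w x * sh (W.d x) (v (ι S)) + wd a S (r + 1) ∈
        BR (r + 1 + S.card) (dg a (r + 1) : ℤ) := by
  have hdg := dg_succ a r
  have hS' : S ∩ Finset.range r ⊆ Finset.range r := Finset.inter_subset_right
  obtain ⟨g1, g2⟩ := ih _ hS'
  rw [wd_inter a S r r le_rfl] at g1 g2
  rw [← hι S] at g2
  have g3 : v (ι S) ∈ ZR (r + (S ∩ Finset.range r).card) (dg a r : ℤ) := by
    have := Submodule.add_mem _ (BR_le _ _ g2) g1
    rwa [add_assoc, add_self2, add_zero] at this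
  by_cases hr : r ∈ S
  · have hx := hx1 hr
    have he : S ∩ Finset.range r = S.erase r := by
      ext i
      rw [Finset.mem_inter, Finset.mem_range, Finset.mem_erase]
      constructor
      · rintro ⟨h1, h2⟩
        exact ⟨by omega, h1⟩
      · rintro ⟨h1, h2⟩
        have := Finset.mem_range.1 (hS h2)
        exact ⟨h2, by omega⟩
    have hc : (S ∩ Finset.range r).card + 1 = S.card := by
      rw [he]
      exact Finset.card_erase_add_one hr
    have e : wd a S (r + 1) = kap (a r) * sh 2 (wd a S r) := by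
      simp only [wd]
      rw [if_pos hr]
    have e2 : r + 1 + S.card = r + (S ∩ Finset.range r).card + 2 := by omega
    rw [hx, e, hd', hdg, e2]
    refine ⟨mul_ZR g1 hk, ?_⟩
    have b1 := mul_BR_right g3 hm0
    have b2 := mul_BR_left g2 hk
    have b3 := Submodule.add_mem _ b1 b2
    rw [map_add] at b3
    have e3 : w m0 * sh 2 (v (ι S)) + kap (a r) * sh 2 (wd a S r) =
        (w m0 + kap (a r)) * sh 2 (v (ι S)) +
          kap (a r) * (sh 2 (v (ι S)) + sh 2 (wd a S r)) := by
      have h0 : kap (a r) * sh 2 (v (ι S)) + kap (a r) * sh 2 (v (ι S)) = (0 : RR Empty) :=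
        add_self2 _
      linear_combination (-1 : RR Empty) * h0
    rw [e3]
    exact b3
  · have hx := hx2 hr
    have hSr : S ⊆ Finset.range r := by
      intro i hi
      have h1 := Finset.mem_range.1 (hS hi)
      rw [Finset.mem_range]
      rcases Nat.lt_succ_iff_lt_or_eq.1 h1 with h | h
      · exact h
      · exact absurd (h ▸ hi) hr
    have hc : S ∩ Finset.range r = S := Finset.inter_eq_left.2 hSr
    rw [hc] at g1 g2 g3
    have e : wd a S (r + 1) = ha (a r) * sh 1 (wd a S r) := by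
      simp only [wd]
      rw [if_neg hr]
    have e2 : r + 1 + S.card = r + S.card + 1 := by omega
    rw [hx, e, hd, hdg, hw0, e2]
    refine ⟨mul_ZR g1 hha, ?_⟩
    have b2 := mul_BR_left g2 hha
    rw [map_add, mul_add] at b2
    exact b2

end ICs

theorem pr_Cs (hKp : StKp) (hFa : StFa) (hLe : StLe) (hTb : StTb) (hOb : StOb) (hOk : StOk)
    (hLq : StLq) : StCs := by
  intro q hq n hn
  obtain ⟨J0, L0, hF⟩ := hFa q hq n hn
  have get : ∀ b : ℕ, J0 + 2 ≤ b → ∃ (W : Sys) (w : W.I → RR Empty) (l0 m0 : W.I), W.Ok ∧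
      W.Let l0 m0 ∧ BQ q n (2 ^ b) W w ∧ w l0 = ha b ∧ w m0 + kap b ∈ BR 2 (2 ^ b) ∧
      ∀ (a : ℕ) (N : ℤ), (2 : ℤ) ^ b < 2 ^ a → 0 < N → (2 : ℤ) ^ (a + L0) ∣ N →
        KU n N (2 ^ b) W w := by
    intro b hb
    obtain ⟨W, w, ok, pos, tr, bq, ku⟩ := hF (2 ^ b) (by positivity) (pow_dvd_pow 2 (by omega))
    obtain ⟨l0, m0, h1, h2, h3⟩ := hLe q hq n hn b (by omega) W w ok pos tr bq
    exact ⟨W, w, l0, m0, ok, h1, bq, h2, h3, ku⟩
  refine ⟨L0 + 1, J0 + 2, fun r hr a => ?_⟩
  induction r, hr using Nat.le_induction with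
  | base =>
    intro hSep
    have ha0 := hSep.2 0 (by omega)
    obtain ⟨W, w, l0, m0, ok, hl, bq, h2, h3, -⟩ := get (a 0) ha0
    have hdg : (dg a 1 : ℤ) = 2 ^ a 0 := by
      rw [ICs.dg_succ]
      simp [dg]
    have hkap := (hKp q hq (a 0) (by omega)).1
    have hha : ha (a 0) ∈ ZR 1 (2 ^ a 0) := ha_ZR (a 0)
    refine ⟨Sys.ten Sys.one W, _, fun p : W.I × Unit => w p.1, LP.sg W l0 m0 hl LP.one, ?_, ?_⟩
    · rw [hdg]
      exact hOb q n _ W w bq
    · intro S hS
      rw [hdg]
      by_cases h0 : 0 ∈ S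
      · have hS1 : S = {0} := by
          refine Finset.Subset.antisymm hS (fun i hi => ?_)
          rw [Finset.mem_singleton.1 hi]
          exact h0
        have hc : S.card = 1 := by rw [hS1, Finset.card_singleton]
        have e : wd a S 1 = kap (a 0) := by
          simp only [wd]
          rw [if_pos h0, map_one, mul_one]
        rw [e, hc]
        refine ⟨hkap, ?_⟩
        dsimp only
        rw [if_pos h0]
        exact h3
      · have hS1 : S = ∅ := by
          rw [Finset.eq_empty_iff_forall_notMem]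
          intro i hi
          have h5 := Finset.mem_range.1 (hS hi)
          have h6 : i = 0 := by omega
          exact h0 (h6 ▸ hi)
        have hc : S.card = 0 := by rw [hS1, Finset.card_empty]
        have e : wd a S 1 = ha (a 0) := by
          simp only [wd]
          rw [if_neg h0, map_one, mul_one]
        rw [e, hc]
        refine ⟨hha, ?_⟩
        dsimp only
        rw [if_neg h0, h2, add_self2]
        exact Submodule.zero_mem _
  | succ r hr ih =>
    intro hSep
    obtain ⟨V, ι, v, hLP, bqv, hv⟩ := ih ⟨fun i hi => hSep.1 i (by omega),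
      fun i hi => hSep.2 i (by omega)⟩
    obtain ⟨W, w, l0, m0, ok, hl, bq, h2, h3, ku⟩ := get (a r) (hSep.2 r (by omega))
    have har := hSep.2 r (by omega)
    have hkap := (hKp q hq (a r) (by omega)).1
    have hha : ha (a r) ∈ ZR 1 (2 ^ a r) := ha_ZR (a r)
    have hq2 := hLq r V ι hLP
    have hpos : (0 : ℤ) < (dg a r : ℤ) := by
      have : 0 < dg a r := by
        unfold dg
        exact Finset.sum_pos (fun i _ => by positivity)
          (Finset.nonempty_range_iff.2 (by omega))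
      exact_mod_cast this
    have hdvd : (2 : ℤ) ^ (a r + 1 + L0) ∣ (dg a r : ℤ) := by
      have : 2 ^ (a r + 1 + L0) ∣ dg a r := by
        unfold dg
        refine Finset.dvd_sum fun i hi => pow_dvd_pow 2 ?_
        have hi' := Finset.mem_range.1 hi
        have h5 := ICs.sep_le hSep i (r - i - 1) (by omega)
        rw [show i + (r - i - 1) + 1 = r by omega] at h5
        omega
      exact_mod_cast this
    have K := ku (a r + 1) (dg a r : ℤ) (pow_lt_pow_right₀ (by norm_num) (by omega)) hpos hdvd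
    have hT := hTb q hq n (dg a r : ℤ) (2 ^ a r) V W v w (hOk.1 _ _ _ V hq2.1).1 ok bqv bq K
    refine ⟨Sys.ten V W, _, fun p : W.I × V.I => w p.1 * sh (W.d p.1) (v p.2),
      LP.sg W l0 m0 hl hLP, ?_, ?_⟩
    · rw [ICs.dg_succ]
      exact hT
    · intro S hS
      refine ICs.step hq2.2.1 hl.dl0 hl.dm0 h2 h3 hha hkap hv S hS _ (fun h => ?_) (fun h => ?_)
      · rw [if_pos h]
      · rw [if_neg h]

end Pool.Agent.Work.MP_701abf_gt.TwT
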