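import Pool.Agent.Work.MP_701abf_gt.TwT.Stmts

/-!
# The two-thirds law, half A, item Fa: existence of the bases
-/

open MvPolynomial
open Pool.Agent.Work.MP_701abf_gt.Stab Pool.Agent.Work.MP_701abf_gt.Cob
open Pool.Agent.Work.MP_701abf_gt.Sq2

namespace Pool.Agent.Work.MP_701abf_gt.TwT

namespace IFa

/-- The matrices of the operations for a family. -/
theorem matrices {q : ℕ → ℕ → RR Empty → RR Empty} (hq : Ops q) {Λ : Type} [Fintype Λ] {M : ℤ}
    {n : ℕ} (f : Fam Λ M) (hf : ∀ p ≤ n, ExK (f.pw 1) Empty (fun _ => 0) p 0 0) (k : ℕ) (l : Λ) :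
    ∃ c : Λ → ZMod 2, (∀ m, c m ≠ 0 → f.β m + 1 = f.β l + 1 + k) ∧
      (f.β l + 1 + k ≤ n → q k (f.β l + 1) (f.z l) + ∑ m, c m • f.z m ^ 2 ∈
        BR (f.β l + 1 + k) (2 * M)) ∧ (n < f.β l + 1 + k → ∀ m, c m = 0) := by
  by_cases h : f.β l + 1 + k ≤ n
  · obtain ⟨c, hc, e⟩ := span1 f (hf _ h) (hq.zr k (f.β l + 1) M _ (fam_ZR f l))
    exact ⟨c, hc, fun _ => e, fun h' => absurd h' (by omega)⟩
  · exact ⟨fun _ => 0, fun m hm => absurd rfl hm, fun h' => absurd h' h, fun _ _ => rfl⟩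

end IFa

theorem pr_Fa : StFa := by
  classical
  intro q hq n hn
  obtain ⟨L, hL⟩ := kunnethE n
  obtain ⟨J, hJ⟩ := base_tower n
  refine ⟨J, L, fun M hM0 hMJ => ?_⟩
  obtain ⟨Z, i, f, hf⟩ := good_fam n (N := M) hM0.ne'
  have hf0 : ∀ p' ≤ n, ExK (f.pw 0) Empty (fun _ => 0) p' 0 0 := by
    intro p' hp'
    have h1 := hf p' hp'
    have h2 : ∀ (N' : ℤ) (f' : Fam Z N'), M = N' → f'.β = f.β → f'.z = f.z →
        ExK f' Empty (fun _ => 0) p' 0 0 := by
      intro N' f' e1 e2 e3
      subst e1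
      obtain ⟨β', z', a, b, c⟩ := f'
      simp only at e2 e3
      subst e2
      subst e3
      exact h1
    refine h2 _ (f.pw 0) (by rw [pow_zero, one_mul]) rfl ?_
    funext j
    change f.z j ^ 2 ^ 0 = f.z j
    rw [pow_zero, pow_one]
  have hT := hJ Z M f hMJ hf0
  have hf1 : ∀ p ≤ n, ExK (f.pw 1) Empty (fun _ => 0) p 0 0 := fun p hp => hT p hp 1
  choose c hc hc' hc0 using IFa.matrices hq f hf1
  refine ⟨{ I := Z
            fin := i
            d := fun l => f.β l + 1
            c := fun k l m => if k = 0 then (if l = m then 1 else 0) else c k l m }, f.z,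
    ⟨?_, ?_, ?_⟩, fun l => Nat.le_add_left 1 _, ?_, ⟨fun l => fam_ZR f l, ?_, ?_, ?_⟩, ?_⟩
  · -- deg
    intro k l m h
    change (if k = 0 then (if l = m then (1 : ZMod 2) else 0) else c k l m) ≠ 0 at h
    change f.β m + 1 = f.β l + 1 + k
    by_cases hk : k = 0
    · rw [if_pos hk] at h
      by_cases hlm : l = m
      · subst hlm
        rw [hk, add_zero]
      · rw [if_neg hlm] at h
        exact absurd rfl h
    · rw [if_neg hk] at h
      exact hc k l m h
  · intro l
    change (if (0 : ℕ) = 0 then (if l = l then (1 : ZMod 2) else 0) else c 0 l l) = 1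
    rw [if_pos rfl, if_pos rfl]
  · intro l m hlm
    change (if (0 : ℕ) = 0 then (if l = m then (1 : ZMod 2) else 0) else c 0 l m) = 0
    rw [if_pos rfl, if_neg hlm]
  · -- Tr
    intro k l m hk h
    change (if k = 0 then (if l = m then (1 : ZMod 2) else 0) else c k l m) = 0
    rw [if_neg (by omega)]
    exact hc0 k l h m
  · -- c_w
    intro k l h
    change f.β l + 1 + k ≤ n at h
    change q k (f.β l + 1) (f.z l) + ∑ m, (if k = 0 then (if l = m then (1 : ZMod 2) else 0)
      else c k l m) • f.z m ^ 2 ∈ BR (f.β l + 1 + k) (2 * M)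
    by_cases hk : k = 0
    · subst hk
      have e1 : ∑ m, (if (0 : ℕ) = 0 then (if l = m then (1 : ZMod 2) else 0)
          else c 0 l m) • f.z m ^ 2 = f.z l ^ 2 := by
        rw [Finset.sum_eq_single l]
        · rw [if_pos rfl, if_pos rfl, one_smul]
        · intro m _ hm
          rw [if_pos rfl, if_neg (Ne.symm hm), zero_smul]
        · intro h'
          exact absurd (Finset.mem_univ l) h'
      rw [e1, add_zero]
      exact hq.zero _ _ _ (fam_ZR f l)
    · have e1 : ∑ m, (if k = 0 then (if l = m then (1 : ZMod 2) else 0)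
          else c k l m) • f.z m ^ 2 = ∑ m, c k l m • f.z m ^ 2 :=
        Finset.sum_congr rfl fun m _ => by rw [if_neg hk]
      rw [e1]
      exact hc' k l h
  · -- span
    intro s hs x hx
    obtain ⟨a, ha, e⟩ := span_fam' f (hf s hs) hx
    exact ⟨a, fun l hl => ha l hl, e⟩
  · -- indep
    intro s hs a ha e
    funext l
    exact indep1 f (s := s) (fun p hp => hf1 p (by omega)) a (fun l hl => ha l hl) e l
  · -- KU
    intro a N hMa hN hd
    obtain ⟨Z1, i1, g1, -, h1⟩ := hL a M N hM0.le hMa hN hd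
    obtain ⟨Z2, i2, g2, h2, h3⟩ := hL (a + 1) (2 * M) (2 * N) (by omega)
      (by rw [pow_succ]; omega) (by omega) (by
        rw [show a + 1 + L = (a + L) + 1 by ring, pow_succ, mul_comm]
        exact mul_dvd_mul_left 2 hd)
    exact ⟨surj_of f g1 hf h1, inj_of f g2 hf1 h2 h3⟩

end Pool.Agent.Work.MP_701abf_gt.TwT
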