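import Pool.Agent.Work.MP_701abf_gt.TwT.Stmts

/-!
# The two-thirds law, half A, item Fe: exactness

The last step: `Sq^1 X = 0` implies `Sq^0 X = Sq^1 v`, for all `X` in the degrees `2^J * t`.
-/

open MvPolynomial
open Pool.Agent.Work.MP_701abf_gt.Stab Pool.Agent.Work.MP_701abf_gt.Cob
open Pool.Agent.Work.MP_701abf_gt.Sq2

namespace Pool.Agent.Work.MP_701abf_gt.TwT

namespace IFe

/-- `Few` is monotone in both parameters. -/
lemma few_mono {U U' k k' t : ℕ} (hU : U ≤ U') (hk : k ≤ k') (h : Few U k t) : Few U' k' t :=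
  clus_iff_few.1 ((clus_iff_few.2 h).mono hU hk)

/-- The numerical inequality. -/
lemma num {s e c m e' : ℕ} (he : 2 * (s + 1) / 3 ≤ e) (h1 : c + m + e' = s + 1) (h2 : m ≤ e')
    (h3 : e < c + m) : s + 1 < 3 * c + 2 * m := by
  omega

/-- A combination of cocycles of degree `s`. -/
lemma comb_mem {T : ℤ} {V : Sys} {w : V.I → RR Empty} (hw : ∀ l, w l ∈ ZR (V.d l) T) {s : ℕ}
    {y : V.I → ZMod 2} (hy : V.Dg s y) : ∑ l, y l • w l ∈ ZR s T := by
  refine Submodule.sum_mem _ fun l _ => ?_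
  by_cases h : y l = 0
  · rw [h, zero_smul]
    exact Submodule.zero_mem _
  · refine Submodule.smul_mem _ _ ?_
    have := hw l
    rw [hy l h] at this
    exact this

/-- The square of a combination. -/
lemma comb_sq (V : Sys) (w : V.I → RR Empty) (a : V.I → ZMod 2) :
    (∑ l, a l • w l) ^ 2 = ∑ l, a l • w l ^ 2 := by
  rw [sum_sq]
  exact Finset.sum_congr rfl fun l _ => smul_sq _ _

end IFe

open IFe in
theorem pr_Fe (hOk : StOk) (hEx : StEx) (hCh : StCh) (hEe : StEe) (hTr : StTr) (hHf : StHf) :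
    StFe := by
  intro q hq s e he
  obtain ⟨J1, L, hch⟩ := hCh q hq (s + 6) (by omega) Sys.Z1 (hEe q hq (s + 6))
  obtain ⟨U', hU⟩ := degrees (s + 1) (by omega) L
  refine ⟨(s + 1) * U' + U', J1, fun t hF J hJ X hX hdl => ?_⟩
  by_cases hXB : X ∈ BR (s + 1) ((2 ^ J * t : ℕ) : ℤ)
  · refine ⟨0, Submodule.zero_mem _, ?_⟩
    rw [dl_zero, zero_add]
    exact sq_BR hXB
  -- the structure of `t`
  have hne : dm (s + 1) (2 ^ J * t) ≠ 0 := by
    intro h
    obtain ⟨p, hp, hpX⟩ := exists_th hX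
    refine hXB ?_
    rw [← hpX]
    exact th_mem_BR.2 (dm_zero_iff.1 h hp)
  obtain ⟨c, m, e', h1, h2, h3, h4⟩ := hU _ hne
  have h5 := hHf.2 _ _ _ _ (clus_iff_few.1 h3)
  have h6 : e < c + m := by
    by_contra hcon
    refine hF (few_mono ?_ (by omega) h5)
    exact Nat.add_le_add_right (Nat.mul_le_mul_right _ (by omega)) _
  have h7 : s + 1 < 3 * c + 2 * m := num he h1 h2 h6
  have eT : 2 ^ J * t = 2 ^ J1 * (2 ^ (J - J1) * t) := by
    rw [← mul_assoc, ← pow_add, Nat.add_sub_cancel' hJ]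
  have h8 : Ch L c m (2 ^ (J - J1) * t) := by
    refine hHf.1 L c m J1 _ ?_
    rw [← eT]
    exact h4
  obtain ⟨V, w, hTP, hB⟩ := hch J1 le_rfl c m _ h8
  rw [← eT] at hB
  obtain ⟨T, hT⟩ : ∃ T : ℤ, T = ((2 ^ J * t : ℕ) : ℤ) := ⟨_, rfl⟩
  rw [← hT] at hB hX hdl ⊢
  have hV : V.Ok := (hOk.1 _ _ _ _ hTP).1
  obtain ⟨a, ha, hXa⟩ := hB.span (s + 1) (by omega) X hX
  have hq1 : q 1 (s + 1) X ∈ BR (s + 1 + 1) (2 * T) := by
    have h9 := Submodule.add_mem _ (hq.one (s + 1) T X hX) hdl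
    rw [add_assoc (q 1 (s + 1) X), add_self2, add_zero] at h9
    exact h9
  have hea : V.e 1 a = 0 :=
    (((hTr q hq _ T V w hV hB (s + 1) (by omega) X hX a ha hXa).2 1 (by omega)).2).1 hq1
  obtain ⟨y, hy, hya⟩ := hEx c m V hTP (s + 1) h7 a ha hea
  have hyD : V.Dg s y := fun l hl => by
    have := hy l hl
    omega
  have hv : ∑ l, y l • w l ∈ ZR s T := comb_mem hB.w_mem hyD
  refine ⟨∑ l, y l • w l, hv, ?_⟩
  have k1 := ((hTr q hq _ T V w hV hB s (by omega) _ hv y hyD (by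
    rw [add_self2]
    exact Submodule.zero_mem _)).2 1 (by omega)).1
  rw [hya] at k1
  have k2 := hq.one s T _ hv
  have k3 := sq_BR hXa
  rw [sq_add, comb_sq] at k3
  have k4 := Submodule.add_mem _ (Submodule.add_mem _ k2 k1) k3
  have e1 := add_self2 (q 1 s (∑ l, y l • w l))
  have e2 := add_self2 (∑ m, a m • w m ^ 2)
  have e3 : q 1 s (∑ l, y l • w l) + Sq2.dl s (∑ l, y l • w l) +
      (q 1 s (∑ l, y l • w l) + ∑ m, a m • w m ^ 2) + (X ^ 2 + ∑ m, a m • w m ^ 2) =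
      Sq2.dl s (∑ l, y l • w l) + X ^ 2 := by
    calc _ = Sq2.dl s (∑ l, y l • w l) + X ^ 2 +
          (q 1 s (∑ l, y l • w l) + q 1 s (∑ l, y l • w l)) +
          ((∑ m, a m • w m ^ 2) + ∑ m, a m • w m ^ 2) := by abel
      _ = _ := by rw [e1, e2, add_zero, add_zero]
  rw [e3] at k4
  exact k4

end Pool.Agent.Work.MP_701abf_gt.TwT
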