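import Pool.Agent.Work.MP_701abf_gt.TwT.UDefs

/-!
Definitions for the statement of the theorem on undetected classes.
-/

open MvPolynomial

namespace Pool.Agent.Work.MP_701abf_gt.TwT

open Pool.Agent.Work.MP_701abf_gt.Cob

noncomputable section

/-- The sum over the sets `S` of `d` exponents of the words `letters a S`. It represents
`Sq^d (h_(a_0-1) ... h_(a_(r-1)-1))`. -/
def esum (r d : ℕ) (a : ℕ → ℕ) : Cobar (r + d) :=
  ∑ S : Finset (Fin r) with S.card = d, word (r + d) (letters a S)

end

end Pool.Agent.Work.MP_701abf_gt.TwT
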