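import Pool.Agent.Work.MP_701abf_gt.TwT.Stmts3
import Pool.Agent.Work.MP_701abf_gt.TwT.U4Defs

/-!
# Undetected classes for the operations `Sq^(2^i)`, `i < k` (captain helper14)

Conventions as in `TwT/Stmts.lean`; hypotheses of `pr_XXX`: any statement of `TwT/Stmts.lean`,
`TwT/Stmts2.lean`, `TwT/Stmts3.lean` and EARLIER statements of this file; theorems of half B
(`SN/AllB.lean`), `SN.sqN_BR` (SN/Fin.lean) and `ops_qn` (TwT/Glue.lean) may be used.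
-/

open MvPolynomial
open Pool.Agent.Work.MP_701abf_gt.Stab Pool.Agent.Work.MP_701abf_gt.Cob
open Pool.Agent.Work.MP_701abf_gt.Sq2

namespace Pool.Agent.Work.MP_701abf_gt.TwT

/-! ## The algebra `Lam` -/

/-- Ml (divided powers; uses StEl).  (1) Induction on `r`: `r = 0`: both sides are `0` unless `i = j = 0`.
`r + 1`, `i, j ≥ 1`: `el i (r+1) = el i r + del r ∘ el (i-1) r`; `del r` commutes with `el` and has square zero, so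
`el i (el j f) = C(i+j,i) el (i+j) r f + del r ((C(i+j-1,i) + C(i+j-1,i-1)) el (i+j-1) r f)` (Pascal).  (2) from (1),
with `n = 2^i + m`, `0 < m < 2^i`, `C(m + 2^i, m)` odd (item StBi has the lemma on binomials).  (3) the coefficient
of `el D r (single ∅ 1)` at `S`: induction on `r`.  (4) (1) and `C(n + 2^k - 1, n)` is even for
`1 ≤ n < 2^k` (Kummer / Lucas: there is a carry; or `C(n + 2^k - 1, n) * n = C(n + 2^k - 1, n - 1) * 2^k`, and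
`2^k` does not divide `n`). -/
def StMl : Prop := (∀ r i j (f : Lam), el i r (el j r f) = ((i + j).choose i : ZMod 2) • el (i + j) r f) ∧
  (∀ (r k : ℕ) (f : Lam), (∀ i, i < k → el (2 ^ i) r f = 0) → ∀ n, 1 ≤ n → n < 2 ^ k → el n r f = 0) ∧
  (∀ r D, el D r (Finsupp.single ∅ 1) = ∑ S ∈ (Finset.range r).powersetCard D, Finsupp.single S 1) ∧
  ∀ (r k D : ℕ), D + 1 = 2 ^ k → ∀ n, 1 ≤ n → n < 2 ^ k → el n r (el D r (Finsupp.single ∅ 1)) = 0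

/-- Lm (the law in `Lam`; uses StEl).  Induction on `r` for all `e`, `k`.  `k = 0`: `el 0 r f = f`, `0 < K`.  `r = 0`: `k ≤ 0`.
Step (`2e + k ≤ r + 1`, `k ≥ 1`): `e = 0`: `f = f₀ ∈ Ho r 0`; `el n (r+1) f = el n r f₀ + del r (el (n-1) r f₀)` for
`n ≥ 1`, so by StEl (7) `el n r f₀ = 0` for `k - 1 ≤ n < K`, and `2e + (k-1) ≤ r`.  `e ≥ 1`: `f = f₀ + del r f₁`;
StEl (7): `el n r f₀ = 0`, `el n r f₁ + el (n-1) r f₀ = 0` for `k ≤ n < K`; so `el n r f₁ = 0` for `k + 1 ≤ n < K`,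
`2 (e-1) + (k+1) ≤ r`: `f₁ = 0`; then `el n r f₀ = 0` for `k - 1 ≤ n < K`, `2e + (k-1) ≤ r`: `f₀ = 0`. -/
def StLm : Prop := ∀ r e k K : ℕ, 2 * e + k ≤ r → e + k < K → ∀ f ∈ Ho r e,
  (∀ n, k ≤ n → n < K → el n r f = 0) → f = 0

/-- Ke (one class; uses StEl, StMl, StLm).  Induction on `r` for all `D`, `j`.  `D = 0`: `f ∈ Ho r 0` is `0` or
`single ∅ 1 = el 0 r (single ∅ 1)`.  Let `D ≥ 1`, so `2D + j ≤ r`, in particular `r ≥ 1`; write `r + 1` for `r`: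
`2D + j ≤ r + 1`.  `f = f₀ + del r f₁`, `f₀ ∈ Ho r D`, `f₁ ∈ Ho r (D-1)`; StEl (7): `el n r f₀ = 0` and
`el n r f₁ = el (n-1) r f₀` for `j ≤ n < 2^k`; so `el n r f₁ = 0` for `j + 1 ≤ n < 2^k`, and by induction
(`(D-1) + (j+1) = 2^k`, `2(D-1) + (j+1) ≤ r`) `f₁ = α el (D-1) r 1`, `1 = single ∅ 1`.  `f' = f + α el D (r+1) 1 =
(f₀ + α el D r 1) + del r (f₁ + α el (D-1) r 1) =: f₀' ∈ Ho r D`; it is killed by `el n (r+1)` for
`j ≤ n < 2^k` (`el D (r+1) 1` is: `el n (el D 1) = C(n+D, n) el (n+D) 1`, and `C(n + 2^k - j, n)` is even for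
`j ≤ n < 2^k`, because `n + 2^k - j = 2^k + (n - j)` and `n - j < n < 2^k` (Lucas)), so by StEl (7)
`el n r f₀' = 0` for `j - 1 ≤ n < 2^k`, and StLm (`2D + (j-1) ≤ r`, `D + (j-1) < 2^k`) gives `f₀' = 0`. -/
def StKe : Prop := ∀ k r D j : ℕ, 1 ≤ j → D + j = 2 ^ k → (D = 0 ∨ 2 * D + j ≤ r) → ∀ f ∈ Ho r D,
  (∀ n, j ≤ n → n < 2 ^ k → el n r f = 0) → f = 0 ∨ f = el D r (Finsupp.single ∅ 1)

/-! ## Systems -/

/-- Np (nothing outside the words, for the operations `2^i`; uses StTn, StOk, StLt, StSw, StLp, StLq).  First for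
`y` on `Sys.ten V (Ex a)`, `2 d ≤ a + r + 2`, `d ≤ 2^k`, degree `a + r + d`, `e (2^i) y = 0` for `i < k`, and
`y (S, v) = 0` for `v ∈ Im r ι`: then `y = 0`.  Induction on `LP` for all `a`: `r = 0`: every `v` is in `Im`.
Step (`V = Sys.ten V' W`): exactly as in item Lp: the components with `W.d l ≥ 3` vanish by strong induction on
`W.d l` and StLp for `V'` (`TP _ r 0 V'` from StLq; excess `d + 1 - W.d l ≤ d - 2`, `2 (d-2) + 1 ≤ a + r`,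
`(d - 2) + 1 < 2^k`; `0` by degrees if `d + 1 < W.d l`), and `y' ((b, S), v) = y (S, (if b then m0 else l0, v))` on
`Sys.ten V' (Ex (a+1))` vanishes by induction (`(m0, v)`, `(l0, v) ∈ Im (r+1)` iff `v ∈ Im r`).
Then for `y` on `V`: `z = y` outside `Im`, `0` on `Im`; `e (2^i) z = 0` (StLq (5), (6) with `y' = y` resp. `0`), and
`z` on `Sys.ten V (Ex 0)`, `Ex 0 = Sys.one` (as in StLw). -/
def StNp : Prop := ∀ (r : ℕ) (V : Sys) (ι : Finset ℕ → V.I), LP r V ι → ∀ d k : ℕ, 2 * d ≤ r + 2 →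
  d ≤ 2 ^ k → ∀ y : V.I → ZMod 2, V.Dg (r + d) y → (∀ i, i < k → V.e (2 ^ i) y = 0) →
    ∀ p, p ∉ Im r ι → y p = 0

/-! ## Topology -/

/-- Lq2 (the law along chains, for the operations `2^i`; uses StOk, StLw, StCh, StTr).  `n = s + 2^k + 4`,
`P = fun _ => True`; as StLc, with StLw. -/
def StLq2 : Prop := ∀ q, Ops q → ∀ s k : ℕ, ∃ J L : ℕ, ∀ b : ℕ, J ≤ b → ∀ c m t : ℕ, Ch L c m t →
  ∀ e, c + 2 * m + e = s → 2 * e + 1 ≤ c → e + 1 < 2 ^ k → ∀ x ∈ ZR s ((2 ^ b * t : ℕ) : ℤ),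
    (∀ i, i < k → q (2 ^ i) s x ∈ BR (s + 2 ^ i) (2 * ((2 ^ b * t : ℕ) : ℤ))) →
      x ∈ BR s ((2 ^ b * t : ℕ) : ℤ)

/-- Rp (uses StTn, StOk, StTr, StEl, StLq, StPu, StCs, StNp).  `n₀ = 2 r + 2^k + 10`.  As StRm: `x ≡ ∑ y p • w p`,
`e (2^i) y = 0` for `i < k` (StTr; `r + d + 2^i ≤ n₀`), StNp: `y = 0` outside `Im`, `y = push r ι f`, `f ∈ Ho r d`, and
`push (el (2^i) r f) = e (2^i) y = 0` gives `el (2^i) r f = 0` (StPu (1); `el (2^i) r f` is supported on subsets of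
`range r`). -/
def StRp : Prop := ∀ q, Ops q → ∀ r d k : ℕ, 1 ≤ r → 2 * d ≤ r + 2 → d ≤ 2 ^ k → ∃ L J : ℕ,
  ∀ a : ℕ → ℕ, Sep L J a r → ∀ x ∈ ZR (r + d) (dg a r : ℤ),
    (∀ i, i < k → q (2 ^ i) (r + d) x ∈ BR (r + d + 2 ^ i) (2 * (dg a r : ℤ))) →
      ∃ f ∈ Ho r d, (∀ i, i < k → el (2 ^ i) r f = 0) ∧ x + Ph a r f ∈ BR (r + d) (dg a r : ℤ)

/-- Es (the class `esum`; uses StWo, StMl).  (1) as StUw: `th` is linear, StMl (3) (reindex the subsets of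
`range r` by `Finset (Fin r)`).  (2) as StUf. -/
def StEs : Prop := (∀ (r d : ℕ) (a : ℕ → ℕ),
    th (r + d) (esum r d a) = Ph a r (el d r (Finsupp.single ∅ 1))) ∧
  ∀ (r d j : ℕ) (a : ℕ → ℕ), (∀ i, i < r → 1 ≤ a i) →
    esum r d (fun i => a i + j) = esum r d a ^ 2 ^ j

/-- U3 (case A: `d = 2^k - 1`, `2 d < c`; uses StHf, StCt, StEl, StMl, StKe, StWd, StLq2, StRp, StEs).  `s = c + d`.
`J1`, `L1` from StLq2, `L2`, `J2` the maxima of those of StRp (`r = c`) and StWd (`R = c`), `L = L1 + L2`, `U` from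
`degrees (c + d) _ L`, `J = J1 + J2 + 2`.  (→) `P = p ^ (2^J) ∉ Bc` (otherwise the first alternative).  As in U2:
`c' + m' + e' = c + d`, `m' ≤ e'`, `c - 1 < c' + m'`, `Ch L c' m' t`, `ee = e' - m' = c + d - c' - 2m'`.  If `m' ≥ 1` or
`c' > c`: `ee ≤ d - 1` (so `ee + 1 < 2^k`) and `2 ee + 1 ≤ c'` (`c' ≥ c - m'`, `2 ee + 1 ≤ 2 (d - m') + 1 ≤ c - m'`
resp. `2 ee + 1 ≤ 2 d - 1`), so StLq2 gives `P ∈ Bc`.  So `m' = 0`, `c' = c`; StCt; StRp for the letters `a i + J`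
(`2 d ≤ c + 2`, `d ≤ 2^k`): `P ≡ f`, `el (2^i) c f = 0`, StMl (2): `el n c f = 0` for `1 ≤ n < 2^k`, StKe with `j = 1`
(`2 d + 1 ≤ c`): `f = 0` (then `P ∈ Bc`, excluded) or `f = el d c 1`; StEs (1); powers: `fr_Bc`, StEs (2).
(←) first alternative: `tQB`.  Second: `qn n (Ph ..) ∈ BR` for `1 ≤ n < 2^k` by StWd and StMl (4), for the letters
`a i + j`; `tQS`.  (2) StWd, `el d c 1 ≠ 0` by StMl (3) (`d ≤ c`). -/
def StU3 : Prop := ∀ k c d : ℕ, 1 ≤ k → d + 1 = 2 ^ k → 2 * d < c → ∃ U J L : ℕ,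
  (∀ t : ℕ, ¬ Few U (c - 1) t → ∀ p ∈ Zc (c + d) t,
    ((∀ j, J ≤ j → ∀ i, i < k →
      SN.sqN (2 ^ i) (c + d) (p ^ 2 ^ j) ∈ Bc (c + d + 2 ^ i) (2 * (2 ^ j * t))) ↔
      (∀ j, J ≤ j → p ^ 2 ^ j ∈ Bc (c + d) (2 ^ j * t)) ∨
      ∃ a : ℕ → ℕ, (∀ i, i + 1 < c → a (i + 1) + L ≤ a i) ∧ t = ∑ i ∈ Finset.range c, 2 ^ a i ∧
        ∀ j, J ≤ j → p ^ 2 ^ j + esum c d (fun i => a i + j) ∈ Bc (c + d) (2 ^ j * t))) ∧
  ∀ a : ℕ → ℕ, (∀ i, i + 1 < c → a (i + 1) + L ≤ a i) → (∀ i, i < c → J ≤ a i) →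
    esum c d a ∈ Zc (c + d) (∑ i ∈ Finset.range c, 2 ^ a i) ∧
    esum c d a ∉ Bc (c + d) (∑ i ∈ Finset.range c, 2 ^ a i)

/-- U4 (case B: `c = 2 m`, `d = m`, with the operations `2^i` only; uses StHf, StCt, StEl, StMl, StLk, StLq2, StRp, StU1,
StPb, StUw, StUf).  As StU2, with StLq2 instead of StLc (`ee = 3 m - c' - 2 m' ≤ m - 1` if `m' ≥ 1` or `c' > 2 m`, so
`ee + 1 < 2^k`) and StRp (`r = 2 m`, `d = m`): `P ≡ f ∈ Ho (2m) m`, `el n (2m) f = 0` for `1 ≤ n < 2^k` (StMl (2)) and for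
`n ≥ 2^k > m` (StEl (4), (8)), so `f ∈ KS 1 (2m) m` (StLk), StPb (2), StUw.  The direction (←) and the powers as
in StU2 (it is contained in StU2). -/
def StU4 : Prop := ∀ k m : ℕ, 1 ≤ m → m < 2 ^ k → ∃ U J L : ℕ, ∀ t : ℕ, ¬ Few U (2 * m - 1) t →
  ∀ p ∈ Zc (2 * m + m) t,
    (∀ j, J ≤ j → ∀ i, i < k →
      SN.sqN (2 ^ i) (2 * m + m) (p ^ 2 ^ j) ∈ Bc (2 * m + m + 2 ^ i) (2 * (2 ^ j * t))) →
      (∀ j, J ≤ j → p ^ 2 ^ j ∈ Bc (2 * m + m) (2 ^ j * t)) ∨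
      ∃ a : ℕ → ℕ, (∀ i, i + 1 < 2 * m → a (i + 1) + L ≤ a i) ∧ t = ∑ i ∈ Finset.range (2 * m), 2 ^ a i ∧
        ∃ C : Finset (Equiv.Perm (Fin (2 * m))), (∀ π ∈ C, π * π = 1) ∧ ∀ j, J ≤ j →
          p ^ 2 ^ j + ∑ π ∈ C, und (2 * m) m (fun i => a i + j) π ∈ Bc (2 * m + m) (2 ^ j * t)

end Pool.Agent.Work.MP_701abf_gt.TwT
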