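import Pool.Agent.Work.MP_701abf_gt.TwT.I_Lp
import Pool.Agent.Work.MP_701abf_gt.TwT.Half
import Pool.Agent.Work.MP_701abf_gt.TwT.Stmts4

/-!
# The law when `Sq^1` is injective on the 2-line of the clusters
-/

set_option autoImplicit false

open Pool.Agent.Work.MP_701abf_gt.Stab Pool.Agent.Work.MP_701abf_gt.Cob
open Pool.Agent.Work.MP_701abf_gt.Sq2

namespace Pool.Agent.Work.MP_701abf_gt.TwT

/-- The law for powers of two, with auxiliary factors, with injectivity on the clusters. -/
def StLpi : Prop := ∀ c m V, TP P3 c m V → ∀ a e k : ℕ, 2 * e + 1 ≤ a + c + m → e + 1 < 2 ^ k →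
  ∀ y : (Ex a).I × V.I → ZMod 2, (Sys.ten V (Ex a)).Dg (a + c + 2 * m + e) y →
    (∀ i, i < k → (Sys.ten V (Ex a)).e (2 ^ i) y = 0) → y = 0

/-- The law with injectivity on the clusters. -/
def StLwi : Prop := ∀ c m V, TP P3 c m V → ∀ e k : ℕ, 2 * e + 1 ≤ c + m → e + 1 < 2 ^ k →
  ∀ a : V.I → ZMod 2, V.Dg (c + 2 * m + e) a → (∀ i, i < k → V.e (2 ^ i) a = 0) → a = 0

/-- The law along chains, with injectivity on the clusters. -/
def StLqi : Prop := ∀ q, Ops q → ∀ s k : ℕ, ∃ J L : ℕ, ∀ b : ℕ, J ≤ b → ∀ c m t : ℕ, Ch L c m t →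
  ∀ e, c + 2 * m + e = s → 2 * e + 1 ≤ c + m → e + 1 < 2 ^ k → ∀ x ∈ ZR s ((2 ^ b * t : ℕ) : ℤ),
    (∀ i, i < k → q (2 ^ i) s x ∈ BR (s + 2 ^ i) (2 * ((2 ^ b * t : ℕ) : ℤ))) →
      x ∈ BR s ((2 ^ b * t : ℕ) : ℤ)

namespace ILi

open Finset

/-- The components of degree three of a cluster. -/
theorem sum_three (W : Sys) (hW : W.Cl) (m : W.I) (hm : W.d m = 3) (n : ℕ)
    (F : ℕ → W.I → ZMod 2) :
    ∑ i ∈ range (n + 1), ∑ l, W.c i l m * F (n - i) l =
      F n m + if 1 ≤ n then ∑ l, W.c 1 l m * F (n - 1) l else 0 := by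
  have hF : ∀ i ∈ range (n + 1), ∑ l, W.c i l m * F (n - i) l =
      (if i = 0 then F n m else 0) + (if i = 1 then ∑ l, W.c 1 l m * F (n - 1) l else 0) := by
    intro i _
    rcases Nat.lt_or_ge i 2 with hi | hi
    · rcases Nat.lt_or_ge i 1 with hi1 | hi1
      · have h0 : i = 0 := by omega
        subst h0
        rw [Finset.sum_eq_single m]
        · rw [hW.ok.one, one_mul, Nat.sub_zero]
          simp
        · intro l _ hl
          rw [hW.ok.ne l m hl, zero_mul]
        · intro h
          exact absurd (Finset.mem_univ m) h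
      · have h0 : i = 1 := by omega
        subst h0
        simp
    · rw [if_neg (by omega), if_neg (by omega), add_zero]
      refine Finset.sum_eq_zero fun l _ => ?_
      by_cases hc : W.c i l m = 0
      · rw [hc, zero_mul]
      · exfalso
        have h1 := hW.ok.deg i l m hc
        have h2 := hW.two l
        omega
  rw [Finset.sum_congr rfl hF, Finset.sum_add_distrib]
  congr 1
  · rw [Finset.sum_ite_eq' (range (n + 1)) 0]
    simp
  · rw [Finset.sum_ite_eq' (range (n + 1)) 1]
    simp only [Finset.mem_range]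
    by_cases hn : 1 ≤ n
    · rw [if_pos (by omega), if_pos hn]
    · rw [if_neg (by omega), if_neg hn]

/-- the strong induction over the elements of `W` -/
theorem strong (hSw : StSw) (V W : Sys) (a c m B E D₀ k : ℕ) (hW : W.Ok)
    (hlow : ∀ S v, a + c + 2 * m ≤ (Ex a).d S + V.d v)
    (ih : ∀ e : ℕ, 2 * e + 1 ≤ B → e + 1 < 2 ^ k → ∀ y : (Ex a).I × V.I → ZMod 2,
      (Sys.ten V (Ex a)).Dg (a + c + 2 * m + e) y →
      (∀ i, i < k → (Sys.ten V (Ex a)).e (2 ^ i) y = 0) → y = 0)
    (y : (Ex a).I × (W.I × V.I) → ZMod 2)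
    (hd : (Sys.ten (Sys.ten V W) (Ex a)).Dg (a + c + 2 * m + E) y)
    (he : ∀ i, i < k → (Sys.ten (Sys.ten V W) (Ex a)).e (2 ^ i) y = 0)
    (hD : D₀ ≤ E → 2 * (E - D₀) + 1 ≤ B ∧ (E - D₀) + 1 < 2 ^ k)
    (h0 : ∀ l, W.d l < D₀ → ∀ S v, y (S, (l, v)) = 0) : y = 0 := by
  have key : ∀ N : ℕ, ∀ l, W.d l = N →
      (fun p : (Ex a).I × V.I => y (p.1, (l, p.2))) = 0 := by
    intro N
    induction N using Nat.strong_induction_on with
    | _ N IH =>
      intro l hl
      by_cases hlt : W.d l < D₀
      · funext p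
        exact h0 l hlt p.1 p.2
      · have hdeg : ∀ p : (Ex a).I × V.I, y (p.1, (l, p.2)) ≠ 0 →
            (Ex a).d p.1 + V.d p.2 + W.d l = a + c + 2 * m + E := by
          intro p hp
          have h1 : (Ex a).d p.1 + (W.d l + V.d p.2) = a + c + 2 * m + E := hd (p.1, (l, p.2)) hp
          omega
        by_cases hE : W.d l ≤ E
        · obtain ⟨hD1, hD2⟩ := hD (by omega)
          refine ih (E - W.d l) (by omega) (by omega) _ ?_ ?_
          · intro p hp
            have h1 := hdeg p hp
            change (Ex a).d p.1 + V.d p.2 = _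
            omega
          · intro i hi
            funext q
            obtain ⟨S, v⟩ := q
            have h1 := congrFun (he i hi) (S, (l, v))
            rw [hSw.1 (Ex a) V W (2 ^ i) y S l v] at h1
            rw [ILp.sum_diag W hW l (2 ^ i) (fun j l' =>
              (Sys.ten V (Ex a)).e j (fun p => y (p.1, (l', p.2))) (S, v))] at h1
            · exact h1
            · intro j l' hl'
              have h2 := IH (W.d l') (by omega) l' rfl
              change (Sys.ten V (Ex a)).e j (fun p => y (p.1, (l', p.2))) (S, v) = 0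
              have h3 : (Sys.ten V (Ex a)).e j (fun p => y (p.1, (l', p.2))) = 0 := by
                refine (congrArg ((Sys.ten V (Ex a)).e j) h2).trans ?_
                exact map_zero _
              rw [h3]
              rfl
        · funext p
          by_contra hp
          have h1 := hdeg p hp
          have h2 := hlow p.1 p.2
          omega
  funext p
  obtain ⟨S, l, v⟩ := p
  exact congrFun (key _ l rfl) (S, v)

/-- The components of degree two of a cluster. -/
theorem two_zero (hOk : StOk) (hSw : StSw) (V W : Sys) (a c m e k : ℕ) (hW : W.Cl)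
    (hinj : ∀ a : W.I → ZMod 2, W.Dg 2 a → W.e 1 a = 0 → a = 0)
    (ih : ∀ y : (Ex (a + 1)).I × V.I → ZMod 2,
      (Sys.ten V (Ex (a + 1))).Dg (a + 1 + c + 2 * m + e) y →
      (∀ i, i < k → (Sys.ten V (Ex (a + 1))).e (2 ^ i) y = 0) → y = 0)
    (y : (Ex a).I × (W.I × V.I) → ZMod 2)
    (hd : (Sys.ten (Sys.ten V W) (Ex a)).Dg (a + c + 2 * (m + 1) + e) y)
    (he : ∀ i, i < k → (Sys.ten (Sys.ten V W) (Ex a)).e (2 ^ i) y = 0)
    (l : W.I) (hl : W.d l = 2) (S : (Ex a).I) (v : V.I) : y (S, (l, v)) = 0 := by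
  classical
  obtain ⟨r, hr⟩ := Half.left_inv W hinj
  let r' : W.I → ZMod 2 := fun x => if W.d x = 3 then r x l else 0
  have hr' : ∀ l', W.d l' = 2 → ∑ x, r' x * W.c 1 l' x = if l' = l then 1 else 0 := by
    intro l' hl'
    have h1 : ∑ x, r' x * W.c 1 l' x = ∑ x, W.c 1 l' x * r x l := by
      refine Finset.sum_congr rfl fun x _ => ?_
      by_cases hx : W.d x = 3
      · simp only [r', if_pos hx, mul_comm]
      · by_cases hc : W.c 1 l' x = 0
        · rw [hc, mul_zero, zero_mul]
        · exact absurd (by rw [hW.ok.deg 1 l' x hc, hl']) hx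
    rw [h1]
    by_cases h : l' = l
    · rw [if_pos h, (hr l' l hl').1 h]
    · rw [if_neg h, (hr l' l hl').2 h]
  let G : (Ex a).I × V.I → ZMod 2 := fun p => ∑ x, r' x * y (p.1, (x, p.2))
  let y' : (Bool × (Ex a).I) × V.I → ZMod 2 := fun p =>
    if p.1.1 then G (p.1.2, p.2) else y (p.1.2, (l, p.2))
  have hE1 := hOk.2.1
  -- the operations on `y`
  have hA : ∀ (n : ℕ) (S : (Ex a).I) (v : V.I),
      (Sys.ten (Sys.ten V W) (Ex a)).e n y (S, (l, v)) =
      (Sys.ten V (Ex a)).e n (fun p => y (p.1, (l, p.2))) (S, v) := by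
    intro n S v
    refine (hSw.1 (Ex a) V W n y S l v).trans ?_
    have f1 : ∀ i ∈ range (n + 1), ∀ l', W.c i l' l ≠ 0 → i = 0 ∧ l' = l := by
      intro i _ l' hc
      have h1 := hW.ok.deg i l' l hc
      have h2 := hW.two l'
      have h3 : i = 0 := by omega
      subst h3
      refine ⟨rfl, ?_⟩
      by_contra h4
      exact hc (hW.ok.ne l' l h4)
    rw [Finset.sum_eq_single 0]
    · rw [Finset.sum_eq_single l]
      · rw [hW.ok.one, one_mul, Nat.sub_zero]
      · intro l' _ hl'
        rw [hW.ok.ne l' l hl', zero_mul]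
      · intro h
        exact absurd (Finset.mem_univ l) h
    · intro i hi hi0
      refine Finset.sum_eq_zero fun l' _ => ?_
      by_cases hc : W.c i l' l = 0
      · rw [hc, zero_mul]
      · exact absurd (f1 i hi l' hc).1 hi0
    · intro h
      exact absurd (Finset.mem_range.2 (Nat.succ_pos n)) h
  have hB : ∀ (n : ℕ) (S : (Ex a).I) (v : V.I),
      ∑ x, r' x * (Sys.ten (Sys.ten V W) (Ex a)).e n y (S, (x, v)) =
      (Sys.ten V (Ex a)).e n G (S, v) +
        if 1 ≤ n then (Sys.ten V (Ex a)).e (n - 1) (fun p => y (p.1, (l, p.2))) (S, v) else 0 := by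
    intro n S v
    have h1 : ∀ x, r' x * (Sys.ten (Sys.ten V W) (Ex a)).e n y (S, (x, v)) =
        r' x * (Sys.ten V (Ex a)).e n (fun p => y (p.1, (x, p.2))) (S, v) +
        if 1 ≤ n then ∑ l', r' x * W.c 1 l' x *
          (Sys.ten V (Ex a)).e (n - 1) (fun p => y (p.1, (l', p.2))) (S, v) else 0 := by
      intro x
      by_cases hx : W.d x = 3
      · have h2 := hSw.1 (Ex a) V W n y S x v
        have h3 := sum_three W hW x hx n (fun j l' =>
          (Sys.ten V (Ex a)).e j (fun p => y (p.1, (l', p.2))) (S, v))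
        rw [h2.trans h3, mul_add]
        congr 1
        split_ifs with hn
        · rw [Finset.mul_sum]
          exact Finset.sum_congr rfl fun l' _ => (mul_assoc _ _ _).symm
        · exact mul_zero _
      · have h2 : r' x = 0 := if_neg hx
        rw [h2, zero_mul, zero_mul, zero_add]
        split_ifs with hn
        · exact (Finset.sum_eq_zero fun l' _ => by rw [zero_mul, zero_mul]).symm
        · rfl
    rw [Finset.sum_congr rfl fun x _ => h1 x, Finset.sum_add_distrib]
    congr 1
    · have h2 : (G : (Ex a).I × V.I → ZMod 2) = ∑ x, r' x • fun p => y (p.1, (x, p.2)) := by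
        funext p
        rw [Finset.sum_apply]
        rfl
      have h3 : (Sys.ten V (Ex a)).e n G = ∑ x, r' x • (Sys.ten V (Ex a)).e n
          (fun p => y (p.1, (x, p.2))) := by
        refine (congrArg (fun z => (Sys.ten V (Ex a)).e n z) h2).trans ?_
        have h4 := map_sum ((Sys.ten V (Ex a)).e n)
          (fun x => r' x • (fun p => y (p.1, (x, p.2)) : (Ex a).I × V.I → ZMod 2)) Finset.univ
        refine h4.trans ?_
        exact Finset.sum_congr rfl fun x _ => map_smul ((Sys.ten V (Ex a)).e n) _ _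
      rw [h3]
      have h5 := Finset.sum_apply (S, v) Finset.univ (fun x => (r' x • (Sys.ten V (Ex a)).e n
        (fun p => y (p.1, (x, p.2))) : (Ex a).I × V.I → ZMod 2))
      exact h5.symm
    · by_cases hn : 1 ≤ n
      · simp only [if_pos hn]
        rw [Finset.sum_comm]
        have h2 : ∀ l', ∑ x, r' x * W.c 1 l' x *
            (Sys.ten V (Ex a)).e (n - 1) (fun p => y (p.1, (l', p.2))) (S, v) =
            if l' = l then (Sys.ten V (Ex a)).e (n - 1) (fun p => y (p.1, (l', p.2))) (S, v)
            else 0 := by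
          intro l'
          rw [← Finset.sum_mul]
          by_cases hl' : W.d l' = 2
          · rw [hr' l' hl']
            split_ifs
            · exact one_mul _
            · exact zero_mul _
          · have h3 : ∑ x, r' x * W.c 1 l' x = 0 := by
              refine Finset.sum_eq_zero fun x _ => ?_
              by_cases hx : W.d x = 3
              · by_cases hc : W.c 1 l' x = 0
                · rw [hc, mul_zero]
                · exfalso
                  have := hW.ok.deg 1 l' x hc
                  omega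
              · rw [show r' x = 0 from if_neg hx, zero_mul]
            rw [h3, zero_mul, if_neg (fun h => hl' (by rw [h]; exact hl))]
        rw [Finset.sum_congr rfl fun l' _ => h2 l', Finset.sum_ite_eq' Finset.univ l,
          if_pos (Finset.mem_univ l)]
      · simp only [if_neg hn, Finset.sum_const_zero]
  -- the operations on `y'`
  have hy' : ∀ (n : ℕ) (b : Bool) (S : (Ex a).I) (v : V.I),
      (Sys.ten V (Ex (a + 1))).e n y' ((b, S), v) =
      if b then ∑ x, r' x * (Sys.ten (Sys.ten V W) (Ex a)).e n y (S, (x, v))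
      else (Sys.ten (Sys.ten V W) (Ex a)).e n y (S, (l, v)) := by
    intro n b S v
    have e1 := hSw.2 (Ex a) V E1 n y' S b v
    refine Eq.trans e1 ?_
    cases b
    · have f1 := ILp.sum_l0 E1 false true hE1 n (fun j b' =>
        (Sys.ten V (Ex a)).e j (fun p => y' ((b', p.1), p.2)) (S, v))
      refine f1.trans ?_
      exact (hA n S v).symm
    · have f1 := ILp.sum_m0 E1 false true hE1 n (fun j b' =>
        (Sys.ten V (Ex a)).e j (fun p => y' ((b', p.1), p.2)) (S, v))
      refine f1.trans ?_
      exact (hB n S v).symm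
  have hy0 : y' = 0 := by
    refine ih y' ?_ ?_
    · intro p hp
      obtain ⟨⟨b, S⟩, v⟩ := p
      have hE : ∀ b : Bool, E1.d b = if b then 2 else 1 := fun _ => rfl
      change (E1.d b + (Ex a).d S) + V.d v = _
      cases b
      · have h3 : (Ex a).d S + (W.d l + V.d v) = a + c + 2 * (m + 1) + e := hd (S, (l, v)) hp
        rw [hE false]
        simp only [Bool.false_eq_true, if_false]
        omega
      · obtain ⟨x, -, hx⟩ := Finset.exists_ne_zero_of_sum_ne_zero (show G (S, v) ≠ 0 from hp)
        have hx3 : W.d x = 3 := by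
          by_contra h
          exact hx (by rw [show r' x = 0 from if_neg h, zero_mul])
        have h3 : (Ex a).d S + (W.d x + V.d v) = a + c + 2 * (m + 1) + e :=
          hd (S, (x, v)) fun h => hx (mul_eq_zero_of_right _ h)
        rw [hE true]
        simp only [if_true]
        omega
    · intro i hi
      funext q
      obtain ⟨⟨b, S⟩, v⟩ := q
      refine (hy' (2 ^ i) b S v).trans ?_
      have h1 := he i hi
      split_ifs
      · refine Finset.sum_eq_zero fun x _ => ?_
        have h2 : (Sys.ten (Sys.ten V W) (Ex a)).e (2 ^ i) y (S, (x, v)) = 0 :=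
          congrFun h1 (S, (x, v))
        rw [h2, mul_zero]
      · exact congrFun h1 (S, (l, v))
  exact congrFun hy0 ((false, S), v)

end ILi

theorem pr_Lpi (hTn : StTn) (hOk : StOk) (hMu : StMu) (hBi : StBi) (hLr : StLr) (hSw : StSw) :
    StLpi := by
  intro c m V h
  have hlowEx : ∀ (a : ℕ) (S : (Ex a).I), a ≤ (Ex a).d S := by
    intro a S
    have h1 := (hOk.1 _ _ _ _ (hOk.2.2 a)).2 S
    omega
  induction h with
  | one =>
    intro a e k h1 h2 y hd he
    have hz : ∀ n, 1 ≤ n → ∀ S, (Ex a).e n (fun S => y (S, ())) S =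
        (Sys.ten Sys.one (Ex a)).e n y (S, ()) := by
      intro n hn S
      rw [hTn.2.1 Sys.one (Ex a) n y S ()]
      rw [Finset.sum_eq_single n]
      · rw [Sys.e_apply]
        refine Finset.sum_congr rfl fun l _ => ?_
        rw [Nat.sub_self, mul_comm]
        congr 1
        have h3 := (hTn.2.2.2.2.1 Sys.one hTn.2.2.2.2.2.1 (fun v' => y (l, v'))).1
        exact (congrFun h3 ()).symm
      · intro i hi hin
        refine Finset.sum_eq_zero fun l _ => ?_
        have h3 : 1 ≤ n - i := by
          have := Finset.mem_range.1 hi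
          omega
        have h4 := hTn.2.2.2.2.2.2 (n - i) (fun v' => y (l, v')) h3
        have h5 := congrFun h4 ()
        refine mul_eq_zero_of_right _ ?_
        exact h5
      · intro h
        exact absurd (Finset.mem_range.2 (Nat.lt_succ_self n)) h
    have hzz : ∀ i, i < k → (Ex a).e (2 ^ i) (fun S => y (S, ())) = 0 := by
      intro i hi
      funext S
      rw [hz (2 ^ i) Nat.one_le_two_pow S]
      exact congrFun (he i hi) (S, ())
    have hall := hBi (Ex a) (hMu a) k _ hzz
    have h3 := hLr _ a 0 (Ex a) (hOk.2.2 a) e 1 (2 ^ k) le_rfl (by omega) h2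
      (fun S => y (S, ())) ?_ hall
    · funext p
      obtain ⟨S, u⟩ := p
      exact congrFun h3 S
    · intro S hS
      have h4 : (Ex a).d S + 0 = a + 0 + 2 * 0 + e := hd (S, ()) hS
      omega
  | @sg c m V W l0 m0 hP hW hTP ih =>
    intro a e k h1 h2 y hd he
    have hlow : ∀ S v, a + c + 2 * m ≤ (Ex a).d S + V.d v := by
      intro S v
      have h3 := (hOk.1 _ _ _ _ hTP).2 v
      have h4 := hlowEx a S
      omega
    have hlm : ∀ b : Bool, E1.d b = W.d (if b then m0 else l0) := by
      intro b
      cases b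
      · have := hW.dl0
        simp [E1, this]
      · have := hW.dm0
        simp [E1, this]
    let y' : (Bool × (Ex a).I) × V.I → ZMod 2 := fun p =>
      y (p.1.2, ((if p.1.1 then m0 else l0), p.2))
    have hE1 := hOk.2.1
    have hy' : ∀ (n : ℕ) (b : Bool) (S : (Ex a).I) (v : V.I),
        (Sys.ten V (Ex (a + 1))).e n y' ((b, S), v) =
        (Sys.ten (Sys.ten V W) (Ex a)).e n y (S, ((if b then m0 else l0), v)) := by
      intro n b S v
      have e1 := hSw.2 (Ex a) V E1 n y' S b v
      have e2 := hSw.1 (Ex a) V W n y S (if b then m0 else l0) v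
      refine Eq.trans e1 (Eq.trans ?_ e2.symm)
      cases b
      · have f1 := ILp.sum_l0 E1 false true hE1 n (fun j b' =>
          (Sys.ten V (Ex a)).e j (fun p => y' ((b', p.1), p.2)) (S, v))
        have f2 := ILp.sum_l0 W l0 m0 hW n (fun j l =>
          (Sys.ten V (Ex a)).e j (fun p => y (p.1, (l, p.2))) (S, v))
        exact f1.trans f2.symm
      · have f1 := ILp.sum_m0 E1 false true hE1 n (fun j b' =>
          (Sys.ten V (Ex a)).e j (fun p => y' ((b', p.1), p.2)) (S, v))
        have f2 := ILp.sum_m0 W l0 m0 hW n (fun j l =>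
          (Sys.ten V (Ex a)).e j (fun p => y (p.1, (l, p.2))) (S, v))
        exact f1.trans f2.symm
    have hy0 : y' = 0 := by
      refine ih (a + 1) e k (by omega) h2 y' ?_ ?_
      · have h3' : ∀ (b : Bool) (S : (Ex a).I) (v : V.I), y' ((b, S), v) ≠ 0 →
            (E1.d b + (Ex a).d S) + V.d v = a + 1 + c + 2 * m + e := by
          intro b S v hp
          have h3 : (Ex a).d S + (W.d (if b then m0 else l0) + V.d v) = a + (c + 1) + 2 * m + e :=
            hd (S, ((if b then m0 else l0), v)) hp
          rw [hlm b]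
          omega
        intro p hp
        exact h3' p.1.1 p.1.2 p.2 hp
      · intro i hi
        have h3' : ∀ (b : Bool) (S : (Ex a).I) (v : V.I),
            (Sys.ten V (Ex (a + 1))).e (2 ^ i) y' ((b, S), v) = 0 := by
          intro b S v
          rw [hy' (2 ^ i) b S v]
          exact congrFun (he i hi) (S, ((if b then m0 else l0), v))
        funext q
        exact h3' q.1.1 q.1.2 q.2
    refine ILi.strong hSw V W a c m (a + c + m) (e + 1) 3 k hW.ok hlow
      (fun e' h3 h4 y'' h5 h6 => ih a e' k h3 h4 y'' h5 h6) y ?_ he (by omega) ?_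
    · intro p hp
      have h3 := hd p hp
      omega
    · intro l hl S v
      have h3 := hW.pos l
      rcases Nat.lt_or_ge (W.d l) 2 with h4 | h4
      · have h5 := hW.ul0 l (by omega)
        subst h5
        exact congrFun hy0 ((false, S), v)
      · have h5 := hW.um0 l (by omega)
        subst h5
        exact congrFun hy0 ((true, S), v)
  | @cl c m V W hP hW hTP ih =>
    intro a e k h1 h2 y hd he
    have hlow : ∀ S v, a + c + 2 * m ≤ (Ex a).d S + V.d v := by
      intro S v
      have h3 := (hOk.1 _ _ _ _ hTP).2 v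
      have h4 := hlowEx a S
      omega
    refine ILi.strong hSw V W a c m (a + c + m) (e + 2) 3 k hW.ok hlow
      (fun e' h3 h4 y'' h5 h6 => ih a e' k h3 h4 y'' h5 h6) y ?_ he ?_ ?_
    · intro p hp
      have h3 := hd p hp
      omega
    · intro _
      constructor
      · omega
      · omega
    · intro l hl S v
      have h3 := hW.two l
      exact ILi.two_zero hOk hSw V W a c m e k hW (hP.2 hW)
        (fun y'' h5 h6 => ih (a + 1) e k (by omega) h2 y'' h5 h6) y hd he l (by omega) S v

/-- The law with injectivity on the clusters. -/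
theorem pr_Lwi (hTn : StTn) (hLp : StLpi) : StLwi := by
  intro c m V h e k he hk a ha h2
  obtain ⟨-, -, h3, -, -, hone, -⟩ := hTn
  have key : (fun p : (Ex 0).I × V.I => a p.2) = 0 := by
    refine hLp c m V h 0 e k (by omega) hk (fun p => a p.2) ?_ ?_
    · intro l hl
      have h4 := ha l.2 hl
      have h5 : (Sys.ten V (Ex 0)).d l = 0 + V.d l.2 := rfl
      rw [h5, h4]
      omega
    · intro i hi
      funext p
      obtain ⟨u, v⟩ := p
      have h4 : (Sys.ten V Sys.one).e (2 ^ i) (fun p : Sys.one.I × V.I => a p.2) (u, v) =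
          V.e (2 ^ i) (fun v' => a v') v :=
        h3 V Sys.one hone (fun p : Sys.one.I × V.I => a p.2) u
          (fun l hl => absurd hl (lt_irrefl 0)) (2 ^ i) v
      have h5 := congrFun (h2 i hi) v
      exact h4.trans h5
  funext v
  exact congrFun key ((), v)

/-- The law along chains, with injectivity on the clusters. -/
theorem pr_Lqi (hOk : StOk) (hLw : StLwi) (hCh : StCh) (hTr : StTr) (hEe : StEe)
    (h2 : FL.TwoInj) : StLqi := by
  intro q hq s k
  have hs : s ≤ s + 2 ^ k + 4 := le_trans (Nat.le_add_right _ _) (Nat.le_add_right _ _)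
  obtain ⟨J, L, hJ⟩ := hCh q hq (s + 2 ^ k + 4) (Nat.le_add_left 4 _) P3
    (Half.p3_of hEe hTr h2 hq (Nat.le_add_left 4 _))
  refine ⟨J, L, fun b hb c m t hc e he hee hek x hx hn => ?_⟩
  obtain ⟨V, w, hV, hB⟩ := hJ b hb c m t hc
  have hok := (hOk.1 _ _ _ _ hV).1
  obtain ⟨a, ha, hxa⟩ := hB.span s hs x hx
  obtain ⟨h1, h2⟩ := hTr q hq _ _ V w hok hB s hs x hx a ha hxa
  refine h1.2 (hLw c m V hV e k hee hek a (by rw [he]; exact ha) fun i hi => ?_)
  have h3 : 2 ^ i ≤ 2 ^ k := Nat.pow_le_pow_right (by norm_num) hi.le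
  exact (h2 (2 ^ i) (le_trans (Nat.add_le_add_left h3 s) (Nat.le_add_right _ _))).2.1 (hn i hi)

end Pool.Agent.Work.MP_701abf_gt.TwT
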