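import Pool.Agent.Work.MP_701abf_gt.TwT.Stmts

/-!
# The two-thirds law, half A, item Tn: rules for the product
-/

open MvPolynomial
open Pool.Agent.Work.MP_701abf_gt.Stab Pool.Agent.Work.MP_701abf_gt.Cob
open Pool.Agent.Work.MP_701abf_gt.Sq2

namespace Pool.Agent.Work.MP_701abf_gt.TwT

namespace ITn

theorem ten_c (V W : Sys) (k : ℕ) (p r : W.I × V.I) :
    (Sys.ten V W).c k p r = ∑ i ∈ Finset.range (k + 1), W.c i p.1 r.1 * V.c (k - i) p.2 r.2 := rfl

theorem ten_e (V W : Sys) (k : ℕ) (y : W.I × V.I → ZMod 2) (m : W.I) (v : V.I) :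
    (Sys.ten V W).e k y (m, v) =
    ∑ i ∈ Finset.range (k + 1), ∑ l, W.c i l m * V.e (k - i) (fun v' => y (l, v')) v := by
  have h1 : (Sys.ten V W).e k y (m, v) = ∑ p : W.I × V.I, y p * ∑ i ∈ Finset.range (k + 1),
      W.c i p.1 m * V.c (k - i) p.2 v := rfl
  rw [h1, Fintype.sum_prod_type, Finset.sum_comm]
  have h2 : ∀ v' : V.I, ∑ l : W.I, y (l, v') * ∑ i ∈ Finset.range (k + 1),
      W.c i l m * V.c (k - i) v' v = ∑ i ∈ Finset.range (k + 1), ∑ l : W.I,
      W.c i l m * (y (l, v') * V.c (k - i) v' v) := by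
    intro v'
    rw [Finset.sum_comm]
    refine Finset.sum_congr rfl fun l _ => ?_
    rw [Finset.mul_sum]
    refine Finset.sum_congr rfl fun i _ => ?_
    ring
  simp only [h2]
  rw [Finset.sum_comm]
  refine Finset.sum_congr rfl fun i _ => ?_
  rw [Finset.sum_comm]
  refine Finset.sum_congr rfl fun l _ => ?_
  rw [← Finset.mul_sum]
  rfl

theorem ten_ok (V W : Sys) (hV : V.Ok) (hW : W.Ok) : (Sys.ten V W).Ok := by
  refine ⟨?_, ?_, ?_⟩
  · intro k p r h
    rw [ten_c] at h
    obtain ⟨i, hi, hne⟩ := Finset.exists_ne_zero_of_sum_ne_zero h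
    have h1 := hW.deg i p.1 r.1 (left_ne_zero_of_mul hne)
    have h2 := hV.deg (k - i) p.2 r.2 (right_ne_zero_of_mul hne)
    have h3 : i ≤ k := Nat.lt_succ_iff.1 (Finset.mem_range.1 hi)
    show W.d r.1 + V.d r.2 = W.d p.1 + V.d p.2 + k
    omega
  · intro p
    rw [ten_c, zero_add, Finset.sum_range_one, hW.one, Nat.sub_zero, hV.one, one_mul]
  · intro p r hpr
    rw [ten_c, zero_add, Finset.sum_range_one, Nat.sub_zero]
    by_cases h : p.1 = r.1
    · have h2 : p.2 ≠ r.2 := fun h3 => hpr (Prod.ext h h3)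
      rw [hV.ne _ _ h2, mul_zero]
    · rw [hW.ne _ _ h, zero_mul]

end ITn

open ITn

theorem pr_Tn : StTn := by
  refine ⟨ten_ok, ten_e, ?_, ?_, ?_, ?_, ?_⟩
  · intro V W hW y m hy k v
    rw [ten_e, Finset.sum_range_succ']
    have h0 : ∑ l, W.c 0 l m * V.e (k - 0) (fun v' => y (l, v')) v =
        V.e k (fun v' => y (m, v')) v := by
      classical
      rw [Finset.sum_eq_single m]
      · rw [hW.one, one_mul, Nat.sub_zero]
      · intro l _ hl
        rw [hW.ne _ _ hl, zero_mul]
      · intro h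
        exact absurd (Finset.mem_univ m) h
    rw [h0]
    have h1 : ∑ i ∈ Finset.range k, ∑ l, W.c (i + 1) l m *
        V.e (k - (i + 1)) (fun v' => y (l, v')) v = 0 := by
      refine Finset.sum_eq_zero fun i _ => Finset.sum_eq_zero fun l _ => ?_
      by_cases h : W.c (i + 1) l m = 0
      · rw [h, zero_mul]
      · have h2 := hW.deg _ _ _ h
        have h3 : (fun v' => y (l, v')) = 0 := by
          funext v'
          exact hy l (by omega) v'
        rw [h3, map_zero]
        simp
    rw [h1, zero_add]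
  · intro V W s y hy l
    constructor
    · intro hl v hv
      have h1 : W.d l + V.d v = s := hy (l, v) hv
      omega
    · intro hl v
      by_contra hv
      have h1 : W.d l + V.d v = s := hy (l, v) hv
      omega
  · intro V hV a
    constructor
    · classical
      funext m
      rw [Sys.e_apply, Finset.sum_eq_single m]
      · rw [hV.one, mul_one]
      · intro l _ hl
        rw [hV.ne _ _ hl, mul_zero]
      · intro h
        exact absurd (Finset.mem_univ m) h
    · intro k s ha m hm
      rw [Sys.e_apply] at hm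
      obtain ⟨l, _, hne⟩ := Finset.exists_ne_zero_of_sum_ne_zero hm
      have h1 := ha l (left_ne_zero_of_mul hne)
      have h2 := hV.deg _ _ _ (right_ne_zero_of_mul hne)
      omega
  · refine ⟨?_, ?_, ?_⟩
    · intro k l m h
      by_cases hk : k = 0
      · subst hk; rfl
      · exact absurd (if_neg hk) h
    · intro l
      show (if (0 : ℕ) = 0 then (1 : ZMod 2) else 0) = 1
      exact if_pos rfl
    · intro l m h
      exact absurd rfl h
  · intro k a hk
    funext m
    rw [Sys.e_apply]
    refine Finset.sum_eq_zero fun l _ => ?_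
    have h1 : Sys.one.c k l m = 0 := if_neg (by omega)
    rw [h1, mul_zero]

end Pool.Agent.Work.MP_701abf_gt.TwT
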