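import Pool.Agent.Work.MP_701abf_gt.TwT.Stmts4

/-!
# Undetected classes, item U4: the operations of two-power degree on lines divisible by three
-/

set_option autoImplicit false

open MvPolynomial
open Pool.Agent.Work.MP_701abf_gt.Stab Pool.Agent.Work.MP_701abf_gt.Cob
open Pool.Agent.Work.MP_701abf_gt.Sq2

namespace Pool.Agent.Work.MP_701abf_gt.TwT

namespace IU4

lemma ch_mono {L L' c m t : ℕ} (hL : L' ≤ L) (h : Ch L c m t) : Ch L' c m t := by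
  induction h with
  | sg a => exact Ch.sg a
  | cl t h0 h => exact Ch.cl t h0 h
  | addsg a _ hd ih => exact Ch.addsg a ih ((pow_dvd_pow 2 (by omega)).trans hd)
  | addcl a M _ h0 hM h2 hd ih =>
    exact Ch.addcl a M ih h0 hM h2 ((pow_dvd_pow 2 (by omega)).trans hd)

lemma dg_shift (a : ℕ → ℕ) (r J : ℕ) : dg (fun i => a i + J) r = 2 ^ J * dg a r := by
  unfold dg
  rw [Finset.mul_sum]
  refine Finset.sum_congr rfl fun i _ => ?_
  rw [pow_add, mul_comm]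

/-- powers of a sum -/
lemma pow_sum {s : ℕ} {α : Type} (C : Finset α) (x : Cobar s) (y : α → Cobar s) (i : ℕ) :
    (x + ∑ π ∈ C, y π) ^ 2 ^ i = x ^ 2 ^ i + ∑ π ∈ C, y π ^ 2 ^ i := by
  rw [add_pow_char_pow (p := 2), sum_pow_char_pow 2]

end IU4

/-- Item U4. -/
theorem pr_U4 (hHf : StHf) (hCt : StCt) (hEl : StEl) (hMl : StMl) (hLk : StLk) (hLq : StLq2)
    (hRp : StRp) (hPb : StPb) (hUw : StUw) (hUf : StUf) : StU4 := by
  intro k m hm hmk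
  obtain ⟨J1, L1, h1⟩ := hLq SN.qn ops_qn (2 * m + m) k
  obtain ⟨L2, J2, h2⟩ := hRp SN.qn ops_qn (2 * m) m k (by omega) (by omega) hmk.le
  obtain ⟨U', hU⟩ := degrees (2 * m + m) (by omega) (L1 + L2)
  refine ⟨(2 * m + m) * U' + U', J1 + J2 + 1, L1 + L2 + 1, fun t hF p hp hsq => ?_⟩
  obtain ⟨J, hJ⟩ : ∃ J, J = J1 + J2 + 1 := ⟨_, rfl⟩
  rw [← hJ] at hsq ⊢
  have hPZ : p ^ 2 ^ J ∈ Zc (2 * m + m) (2 ^ J * t) := fr_Zc hp
  by_cases hpB : p ^ 2 ^ J ∈ Bc (2 * m + m) (2 ^ J * t)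
  · left
    intro j hj
    obtain ⟨i, rfl⟩ : ∃ i, j = J + i := ⟨j - J, by omega⟩
    exact fr_Bc' i hpB
  right
  have hne : dm (2 * m + m) (2 ^ J * t) ≠ 0 := fun h => hpB (dm_zero_iff.1 h hPZ)
  obtain ⟨c, m', e', g1, g2, g3, g4⟩ := hU _ hne
  have g5 : 2 * m ≤ c + m' := by
    by_contra hcon
    apply hF
    have h5 := hHf.2 U' (c + m') J t (clus_iff_few.1 g3)
    have h6 : (c + m') * U' + U' ≤ (2 * m + m) * U' + U' :=
      Nat.add_le_add_right (Nat.mul_le_mul_right _ (by omega)) _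
    exact clus_iff_few.1 ((clus_iff_few.2 h5).mono h6 (by omega))
  have g6 : Ch (L1 + L2) c m' t := hHf.1 _ c m' J t g4
  have hX : th (2 * m + m) (p ^ 2 ^ J) ∈ ZR (2 * m + m) ((2 ^ J * t : ℕ) : ℤ) := th_mem_ZR hPZ
  have hXq : ∀ i, i < k → SN.qn (2 ^ i) (2 * m + m) (th (2 * m + m) (p ^ 2 ^ J)) ∈
      BR (2 * m + m + 2 ^ i) (2 * ((2 ^ J * t : ℕ) : ℤ)) := fun i hi =>
    (SN.sqN_BR SN.tSqN hPZ).1 (hsq J le_rfl i hi)
  obtain ⟨g7, g8⟩ : m' = 0 ∧ c = 2 * m := by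
    by_contra hcon
    apply hpB
    rw [← th_mem_BR]
    exact h1 J (by omega) c m' t (IU4.ch_mono (by omega) g6) (2 * m + m - c - 2 * m') (by omega)
      (by omega) (by omega) _ hX hXq
  subst g7 g8
  obtain ⟨-, a, ha, rfl⟩ := hCt (L1 + L2) (2 * m) t g6
  refine ⟨a, fun i hi => by have := ha.1 i hi; omega, rfl, ?_⟩
  obtain ⟨a', ha'⟩ : ∃ a' : ℕ → ℕ, a' = fun i => a i + J := ⟨_, rfl⟩
  have hdg : dg a' (2 * m) = 2 ^ J * dg a (2 * m) := by rw [ha']; exact IU4.dg_shift a (2 * m) J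
  have hsep : Sep L2 J2 a' (2 * m) := by
    rw [ha']
    refine ⟨fun i hi => ?_, fun i _ => ?_⟩
    · have := ha.1 i hi
      show a (i + 1) + J + L2 ≤ a i + J
      omega
    · show J2 ≤ a i + J
      omega
  rw [← hdg] at hX hXq
  obtain ⟨f, hf, hfe, hfB⟩ := h2 a' hsep _ hX hXq
  have hel : ∀ n, 1 ≤ n → el n (2 * m) f = 0 := by
    intro n hn
    by_cases hnk : n < 2 ^ k
    · exact hMl.2.1 (2 * m) k f hfe n hn hnk
    · exact hEl.2.2.2.2.2.2.2 (2 * m) (m + n) (by omega) _ (hEl.2.2.2.1 n (2 * m) m f hf)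
  obtain ⟨C, hC, hfC⟩ := hPb.2.1 (2 * m) m f (hLk (2 * m) m 1 f hf hel)
  refine ⟨C, hC, fun j hj => ?_⟩
  obtain ⟨i, rfl⟩ : ∃ i, j = J + i := ⟨j - J, by omega⟩
  have hB : p ^ 2 ^ J + ∑ π ∈ C, und (2 * m) m a' π ∈ Bc (2 * m + m) (2 ^ J * dg a (2 * m)) := by
    rw [← hdg, ← th_mem_BR, map_add, map_sum, Finset.sum_congr rfl fun π _ => hUw (2 * m) m a' π,
      ← map_sum, ← hfC]
    exact hfB
  have hB2 := fr_Bc (j := i) hB
  rw [IU4.pow_sum] at hB2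
  have e1 : 2 ^ i * (2 ^ J * dg a (2 * m)) = 2 ^ (J + i) * dg a (2 * m) := by
    rw [pow_add]; ring
  have e2 : (p ^ 2 ^ J) ^ 2 ^ i = p ^ 2 ^ (J + i) := by rw [← pow_mul, ← pow_add]
  have e3 : ∀ π, und (2 * m) m a' π ^ 2 ^ i = und (2 * m) m (fun l => a l + (J + i)) π := by
    intro π
    rw [← hUf (2 * m) m i a' π (fun l _ => by rw [ha']; show 1 ≤ a l + J; omega), ha']
    congr 1
    funext l
    show a l + J + i = a l + (J + i)
    omega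
  rw [e1, e2, Finset.sum_congr rfl fun π _ => e3 π] at hB2
  exact hB2

end Pool.Agent.Work.MP_701abf_gt.TwT
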