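import Pool.Agent.Work.MP_701abf_gt.TwT.Stmts3

/-!
# Undetected classes, item Uf: Frobenius on the classes
-/

open MvPolynomial
open Pool.Agent.Work.MP_701abf_gt.Stab Pool.Agent.Work.MP_701abf_gt.Cob
open Pool.Agent.Work.MP_701abf_gt.Sq2

namespace Pool.Agent.Work.MP_701abf_gt.TwT

namespace IUf

lemma letters_map {r : ℕ} (a : ℕ → ℕ) (j : ℕ) (ha : ∀ i, i < r → 1 ≤ a i) (S : Finset (Fin r)) :
    letters (fun i => a i + j) S = (letters a S).map (· + j) := by
  unfold letters
  rw [List.map_flatMap]
  refine List.flatMap_congr fun i _ => ?_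
  have h := ha i i.2
  by_cases hi : i ∈ S
  · rw [if_pos hi, if_pos hi]
    have e : a i + j - 1 = a i - 1 + j := by omega
    simp only [List.map_cons, List.map_nil, e]
  · rw [if_neg hi, if_neg hi]
    rfl

lemma length_letters {r : ℕ} (a : ℕ → ℕ) (S : Finset (Fin r)) :
    (letters a S).length = r + S.card := by
  unfold letters
  rw [List.length_flatMap, ← Fin.sum_univ_def]
  have h : ∀ i : Fin r, (if i ∈ S then [a i - 1, a i - 1] else [a i]).length =
      1 + if i ∈ S then 1 else 0 := by
    intro i
    by_cases hi : i ∈ S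
    · rw [if_pos hi, if_pos hi]
      rfl
    · rw [if_neg hi, if_neg hi]
      rfl
  rw [Finset.sum_congr rfl fun i _ => h i, Finset.sum_add_distrib, Finset.sum_ite_mem,
    Finset.univ_inter]
  simp

lemma word_map (s : ℕ) (l : List ℕ) (j : ℕ) (hl : l.length = s) :
    word s (l.map (· + j)) = word s l ^ 2 ^ j := by
  unfold word
  rw [← Finset.prod_pow]
  refine Finset.prod_congr rfl fun v _ => ?_
  have h : (l.map (· + j)).getD v 0 = l.getD v 0 + j := by
    have hv : (v : ℕ) < l.length := by rw [hl]; exact v.2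
    rw [List.getD_eq_getElem _ _ (by rw [List.length_map]; exact hv), List.getD_eq_getElem _ _ hv,
      List.getElem_map]
  rw [h, ← pow_mul, ← pow_add]

end IUf

open IUf

/-- Uf. -/
theorem pr_Uf : StUf := by
  intro r m j a π ha
  unfold und
  rw [sum_pow_char_pow 2]
  refine Finset.sum_congr rfl fun S hS => ?_
  have hc := (Finset.mem_filter.1 hS).2.1
  rw [letters_map a j ha, word_map _ _ _ (by rw [length_letters, hc])]

end Pool.Agent.Work.MP_701abf_gt.TwT
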