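import Pool.Agent.Work.MP_701abf_gt.TwT.Stmts

/-!
# The two-thirds law, half A, item Zz: the square of the first operation is zero
-/

set_option autoImplicit false

open Pool.Agent.Work.MP_701abf_gt.Stab Pool.Agent.Work.MP_701abf_gt.Cob
open Pool.Agent.Work.MP_701abf_gt.Sq2

namespace Pool.Agent.Work.MP_701abf_gt.TwT

namespace IZz

/-- The first operation on a product. -/
lemma e_one_ten (hTn : StTn) (V W : Sys) (hV : V.Ok) (hW : W.Ok) (y : W.I × V.I → ZMod 2) (m : W.I)
    (v : V.I) : (Sys.ten V W).e 1 y (m, v) =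
      V.e 1 (fun v' => y (m, v')) v + ∑ l, W.c 1 l m * y (l, v) := by
  classical
  rw [hTn.2.1 V W 1 y m v, Finset.sum_range_succ, Finset.sum_range_one]
  congr 1
  · rw [Finset.sum_eq_single m]
    · rw [hW.one m, one_mul]
    · intro l _ hl
      rw [hW.ne l m hl, zero_mul]
    · intro h
      exact absurd (Finset.mem_univ m) h
  · refine Finset.sum_congr rfl fun l _ => ?_
    rw [(hTn.2.2.2.2.1 V hV (fun v' => y (l, v'))).1]

lemma step (hTn : StTn) (V W : Sys) (hV : V.Ok) (hW : W.Ok) (hZ : W.Z1)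
    (h : ∀ y : V.I → ZMod 2, V.e 1 (V.e 1 y) = 0) (y : W.I × V.I → ZMod 2) :
    (Sys.ten V W).e 1 ((Sys.ten V W).e 1 y) = 0 := by
  classical
  let z : W.I × V.I → ZMod 2 := (Sys.ten V W).e 1 y
  have hz : ∀ m v, z (m, v) = V.e 1 (fun v' => y (m, v')) v + ∑ l, W.c 1 l m * y (l, v) :=
    fun m v => e_one_ten hTn V W hV hW y m v
  funext p
  obtain ⟨m, v⟩ := p
  refine (e_one_ten hTn V W hV hW z m v).trans ?_
  have h1 : (fun v' => z (m, v')) =
      V.e 1 (fun v' => y (m, v')) + ∑ l, W.c 1 l m • (fun v' => y (l, v')) := by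
    funext v'
    rw [hz, Pi.add_apply, Finset.sum_apply]
    rfl
  have h2 : ∑ l, W.c 1 l m * z (l, v) =
      ∑ l, W.c 1 l m * V.e 1 (fun v' => y (l, v')) v := by
    have h3 : ∑ l, W.c 1 l m * ∑ i, W.c 1 i l * y (i, v) = 0 := by
      simp only [Finset.mul_sum]
      rw [Finset.sum_comm]
      refine Finset.sum_eq_zero fun i _ => ?_
      have h4 := hZ i m
      calc ∑ l, W.c 1 l m * (W.c 1 i l * y (i, v))
          = (∑ l, W.c 1 i l * W.c 1 l m) * y (i, v) := by
            rw [Finset.sum_mul]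
            exact Finset.sum_congr rfl fun l _ => by ring
        _ = 0 := by rw [h4, zero_mul]
    calc ∑ l, W.c 1 l m * z (l, v)
        = ∑ l, (W.c 1 l m * V.e 1 (fun v' => y (l, v')) v +
            W.c 1 l m * ∑ i, W.c 1 i l * y (i, v)) := by
          refine Finset.sum_congr rfl fun l _ => ?_
          rw [hz, mul_add]
      _ = _ := by rw [Finset.sum_add_distrib, h3, add_zero]
  rw [h1, h2, map_add, h, zero_add, map_sum, Finset.sum_apply]
  have h5 : ∑ l, (V.e 1 (W.c 1 l m • fun v' => y (l, v'))) v =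
      ∑ l, W.c 1 l m * V.e 1 (fun v' => y (l, v')) v := by
    refine Finset.sum_congr rfl fun l _ => ?_
    rw [map_smul, Pi.smul_apply, smul_eq_mul]
  rw [h5]
  exact CharTwo.add_self_eq_zero _

end IZz

theorem pr_Zz (hTn : StTn) : StZz := by
  intro c m V hV
  have key : V.Ok ∧ ∀ y : V.I → ZMod 2, V.e 1 (V.e 1 y) = 0 := by
    induction hV with
    | one =>
      refine ⟨hTn.2.2.2.2.2.1, fun y => ?_⟩
      exact hTn.2.2.2.2.2.2 1 _ le_rfl
    | sg W l0 m0 hP hW _ ih =>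
      exact ⟨hTn.1 _ _ ih.1 hW.ok, IZz.step hTn _ _ ih.1 hW.ok hP ih.2⟩
    | cl W hP hW _ ih =>
      exact ⟨hTn.1 _ _ ih.1 hW.ok, IZz.step hTn _ _ ih.1 hW.ok hP ih.2⟩
  exact key.2

end Pool.Agent.Work.MP_701abf_gt.TwT
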