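import Pool.Agent.Work.MP_701abf_gt.TwT.Defs

/-!
# The two-thirds law, half A: statements (captain helper14)

Each `def StXXX : Prop` is one item; its docstring contains the complete proof.  File
`TwT/I_XXX.lean`, import `Pool.Agent.Work.MP_701abf_gt.TwT.Stmts` (and landed item files if useful),
namespace `Pool.Agent.Work.MP_701abf_gt.TwT`, auxiliary lemmas in the namespace `IXXX`, main theorem
`theorem pr_XXX (hypotheses that are EARLIER StYYY of this file) : StXXX`.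

Models for the topological items are in helper45's files `Sq2/KF.lean`, `Sq2/KFex.lean`,
`Sq2/Mat.lean`, `Sq2/Chain.lean`, `Sq2/Op.lean`: `ZR`, `BR` (RZ.lean), `mul_ZR`, `mul_BR_left`,
`mul_BR_right`, `sq_ZR`, `sq_BR`, `sq_add`, `ha`, `ha_ZR`, `ha_ne`, `ZR_one`, `ZR_one'`, `BR_one`, `dl_ha`,
`dl_one`, `span1`, `indep0`, `indep1`, `surj_of`, `inj_of`, `Ch`, `degrees`.
`(Sys.ten V W).I` is `W.I × V.I`, `(Sys.ten V W).d (l, v) = W.d l + V.d v` and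
`(Sys.ten V W).c k (l, v) (m, v') = ∑ i ∈ range (k + 1), W.c i l m * V.c (k - i) v v'` (all by `rfl`).
-/

open MvPolynomial
open Pool.Agent.Work.MP_701abf_gt.Stab Pool.Agent.Work.MP_701abf_gt.Cob
open Pool.Agent.Work.MP_701abf_gt.Sq2

namespace Pool.Agent.Work.MP_701abf_gt.TwT

/-! ## 1. Linear algebra of the systems -/

/-- Tn (rules for the product).  (1) `Ok.deg`: a nonzero sum has a nonzero term, both factors are nonzero;
`Ok.one`, `Ok.ne`: for `k = 0` only `i = 0`.  (2) Expand `e_apply`, `Fintype.sum_prod_type`, exchange the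
sums.  (3) From (2): the term `i = 0`, `l = m` is the right side (`Ok.one`); `i = 0`, `l ≠ m`: `Ok.ne`;
`i ≥ 1` and `W.c i l m ≠ 0` give `W.d l < W.d m`, so `y (l, ·) = 0`.  (4) clear.  (5) `e 0 = id` by
`Ok.one`, `Ok.ne`; degrees by `Ok.deg`.  (6) clear. -/
def StTn : Prop := (∀ V W : Sys, V.Ok → W.Ok → (Sys.ten V W).Ok) ∧
  (∀ (V W : Sys) (k : ℕ) (y : W.I × V.I → ZMod 2) (m : W.I) (v : V.I), (Sys.ten V W).e k y (m, v) =
    ∑ i ∈ Finset.range (k + 1), ∑ l, W.c i l m * V.e (k - i) (fun v' => y (l, v')) v) ∧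
  (∀ V W : Sys, W.Ok → ∀ (y : W.I × V.I → ZMod 2) (m : W.I), (∀ l, W.d l < W.d m → ∀ v, y (l, v) = 0) →
    ∀ (k : ℕ) (v : V.I), (Sys.ten V W).e k y (m, v) = V.e k (fun v' => y (m, v')) v) ∧
  (∀ (V W : Sys) (s : ℕ) (y : W.I × V.I → ZMod 2), (Sys.ten V W).Dg s y → ∀ l,
    (W.d l ≤ s → V.Dg (s - W.d l) fun v => y (l, v)) ∧ (s < W.d l → ∀ v, y (l, v) = 0)) ∧
  (∀ V : Sys, V.Ok → ∀ a : V.I → ZMod 2, V.e 0 a = a ∧ ∀ k s, V.Dg s a → V.Dg (s + k) (V.e k a)) ∧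
  Sys.one.Ok ∧ ∀ (k : ℕ) (a : Unit → ZMod 2), 1 ≤ k → Sys.one.e k a = 0

/-- Ok (uses StTn).  (1) Induction on `TP` with StTn (1).  Degrees: `Let.pos`, `Cl.two`.  (2) Check the fields
(`Bool`, case distinctions, `simp [E1]`).  (3) Induction on `a`. -/
def StOk : Prop := (∀ P c m V, TP P c m V → V.Ok ∧ ∀ l, c + 2 * m ≤ V.d l) ∧
  E1.Let false true ∧ ∀ a, TP (fun _ => True) a 0 (Ex a)

/-- Lt (a power of two; uses StTn).  From StTn (2).  (1) `m = l0`: `W.c i l l0 ≠ 0` gives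
`1 = W.d l + i` and `W.d l ≥ 1`, so `i = 0`, `l = l0`.  (2) `m = m0`: `2 = W.d l + i`: `i = 0`, `l = m0` (`um0`),
or `i = 1`, `l = l0` (`ul0`), coefficient `cc`; the operation `k + 1 - 1 = k`.  (3), (4): for
`m ≠ l0, m0`: `W.c i l0 m = 0` (`i = 0`: `Ok.ne`; `i = 1`: degree two, so `m = m0`; `i ≥ 2`: `l0c`) and
`W.c i m0 m = 0` (`i = 0`: `Ok.ne`; `i ≥ 1`: `m0c`); so the values of `y` at `l0`, `m0` do not matter, and
the other `l` with `W.c i l m ≠ 0` have `l = m`, `i = 0` or `W.d l < W.d m`, `W.d l ≥ 3`. -/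
def StLt : Prop := ∀ (V W : Sys) (l0 m0 : W.I), V.Ok → W.Let l0 m0 → ∀ y : W.I × V.I → ZMod 2,
  (∀ k v, (Sys.ten V W).e k y (l0, v) = V.e k (fun v' => y (l0, v')) v) ∧
  (∀ k v, (Sys.ten V W).e (k + 1) y (m0, v) =
    V.e (k + 1) (fun v' => y (m0, v')) v + V.e k (fun v' => y (l0, v')) v) ∧
  (∀ y' : W.I × V.I → ZMod 2, (∀ l v, l ≠ l0 → l ≠ m0 → y' (l, v) = y (l, v)) → ∀ k m v, m ≠ l0 →
    m ≠ m0 → (Sys.ten V W).e k y' (m, v) = (Sys.ten V W).e k y (m, v)) ∧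
  ∀ m, 3 ≤ W.d m → (∀ l, 3 ≤ W.d l → W.d l < W.d m → ∀ v, y (l, v) = 0) →
    ∀ k v, (Sys.ten V W).e k y (m, v) = V.e k (fun v' => y (m, v')) v

/-- Mu (uses StTn, StOk, StLt).  Induction on `a`.  `a = 0`: `Sys.one`: both sides are `0` unless `i = j = 0`.
Step: `E1` has only the elements `false` (= `l0`) and `true` (= `m0`); with `y0 = y (false, ·)`,
`y1 = y (true, ·)` StLt says `e n y = (e n y0, e n y1 + e (n-1) y0)` (`n ≥ 1`).  So for `i, j ≥ 1` the second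
component of `e i (e j y)` is `e i (e j y1 + e (j-1) y0) + e (i-1) (e j y0)`, which by induction is
`C(i+j, i) e (i+j) y1 + (C(i+j-1, i) + C(i+j-1, i-1)) e (i+j-1) y0` (Pascal).  `i = 0` or `j = 0`:
`e 0 = id`. -/
def StMu : Prop := ∀ a, (Ex a).Mul

/-- Bi (binary digits).  Strong induction on `n`.  If `n` is a power of two `2^i`: `i < k`.  Otherwise
`n = 2^i + r` with `0 < r < 2^i`, `i < k` (`i = Nat.log 2 n`), and `C(r + 2^i, r)` is odd (Lucas, e.g.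
`Choose.choose_modEq_choose_mod_mul_choose_div_nat`, or compare coefficients in
`(1 + X)^(2^i + r) = (1 + X^(2^i)) (1 + X)^r` over `ZMod 2`), so by `Mul`
`e n a = C(r + 2^i, r) e (r + 2^i) a = e r (e (2^i) a) = 0`. -/
def StBi : Prop := ∀ V : Sys, V.Mul → ∀ (k : ℕ) (a : V.I → ZMod 2), (∀ i, i < k → V.e (2 ^ i) a = 0) →
  ∀ n, 1 ≤ n → n < 2 ^ k → V.e n a = 0

/-- Lr (the law for intervals of operations; uses StTn, StOk, StLt).  Induction on `TP` for all `e`, `k`, `K`.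
`one`: `2e + k ≤ 0` is impossible.
`sg`: total degree `c + 1 + 2m + e`, `2e + k ≤ c + 1`.  `y1 = y (l0, ·)` has degree `c + 2m + e`,
`y2 = y (m0, ·)` has degree `c + 2m + (e - 1)` if `e ≥ 1` and is `0` if `e = 0` (StOk).  By StLt `e n y1 = 0` and
`e n y2 + e (n-1) y1 = 0` for `k ≤ n < K` (`n ≥ 1`).  (i) `y2 = 0`: if `e ≥ 1`, `e n y2 = 0` for
`k + 1 ≤ n < K` and `2(e-1) + (k+1) ≤ c`.  (ii) `y1 = 0`: now `e n y1 = 0` for `k - 1 ≤ n < K`;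
`k ≥ 2`: induction with `k - 1` (`2e + k - 1 ≤ c`); `k = 1`: `e 0 y1 = 0` (`n = 1 < K`), so `y1 = 0`.
(iii) `y (l, ·) = 0` for `3 ≤ W.d l` by strong induction on `W.d l` (StLt (4)): degree
`c + 2m + (e + 1 - W.d l)` or `0` by degrees, `2 (e + 1 - W.d l) + k ≤ 2 (e - 2) + k ≤ c`.
Every `l` is `l0`, `m0` or has `W.d l ≥ 3`.
`cl`: `y (l, ·) = 0` by strong induction on `W.d l ≥ 2` (StTn (3)): `y (l, ·)` has degree
`c + 2m + (e + 2 - W.d l)`, or is `0` by degrees. -/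
def StLr : Prop := ∀ P c m V, TP P c m V → ∀ e k K : ℕ, 1 ≤ k → 2 * e + k ≤ c → e + k < K →
  ∀ y : V.I → ZMod 2, V.Dg (c + 2 * m + e) y → (∀ n, k ≤ n → n < K → V.e n y = 0) → y = 0

/-- Sw (three factors).  Expand both sides with `e_apply`, `Fintype.sum_prod_type`; in (1) both sides are
`∑_S' ∑_l ∑_v' y (S', (l, v')) ∑_(j + i + h = n) U.c j S' S * W.c i l m * V.c h v' v` (exchange the
sum over `j ≤ n`, `i ≤ n - j` with the one over `i ≤ n`, `j ≤ n - i`).  (2) in the same way.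
`Sys.ten (Sys.ten V W) U` has the index set `U.I × (W.I × V.I)`, `Sys.ten V (Sys.ten U W)` has
`(W.I × U.I) × V.I`, `Sys.ten V U` has `U.I × V.I`. -/
def StSw : Prop := (∀ (U V W : Sys) (n : ℕ) (y : U.I × (W.I × V.I) → ZMod 2) (S : U.I) (m : W.I) (v : V.I),
    (Sys.ten (Sys.ten V W) U).e n y (S, (m, v)) = ∑ i ∈ Finset.range (n + 1), ∑ l, W.c i l m *
      (Sys.ten V U).e (n - i) (fun p => y (p.1, (l, p.2))) (S, v)) ∧
  ∀ (U V W : Sys) (n : ℕ) (y : (W.I × U.I) × V.I → ZMod 2) (S : U.I) (m : W.I) (v : V.I),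
    (Sys.ten V (Sys.ten U W)).e n y ((m, S), v) = ∑ i ∈ Finset.range (n + 1), ∑ l, W.c i l m *
      (Sys.ten V U).e (n - i) (fun p => y ((l, p.1), p.2)) (S, v)

/-- Lp (the law for powers of two, with auxiliary factors; uses StTn, StOk, StMu, StBi, StLr, StSw).
Induction on `TP P c m V` for all `a`, `e`.  `U = Ex a`.
`one`: `z S = y (S, ())` has degree `a + e` in `Ex a` and `e (2^i) z = 0` (`Sys.ten Sys.one U`: StTn (2), only
the operation `0` of `Sys.one` is not zero).  By StMu, StBi `e n z = 0` for `1 ≤ n < 2^k`, so StLr for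
`TP _ a 0 (Ex a)` (`k := 1`, `K := 2^k`; `2e + 1 ≤ a`, `e + 1 < 2^k`) gives `z = 0`.
`sg`: `V = Sys.ten V' W`, `y (S, (l, v))`, `c = c' + 1`.  Let `y' : (Bool × U.I) × V'.I → ZMod 2`,
`y' ((b, S), v) = y (S, (if b then m0 else l0, v))`.  By StSw (1), and (2) with `W := E1`, and the degrees
(as in StLt: only `l0`, `m0` contribute to the components `l0`, `m0`)
`(Sys.ten V' (Ex (a+1))).e n y' ((b, S), v) = (..).e n y (S, (if b then m0 else l0, v))`, so `e (2^i) y' = 0`.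
`y'` has the same degree as `y`, `(a + 1) + c' + 2m + e`, and `2e + 1 ≤ (a + 1) + c'`: `y' = 0`.
Then by strong induction on `W.d l ≥ 3`: `y_l (S, v) = y (S, (l, v))` satisfies (StSw (1); components
`l' ≠ l` with `W.c i l' l ≠ 0` have smaller degree, there `y` vanishes) `e (2^i) y_l = 0`; degree
`a + c' + 2m + (e + 1 - W.d l)` or `0` by degrees (StOk for `V'` and `Ex a`); `y_l = 0` by induction.
`cl`: strong induction on `W.d l ≥ 2` in the same way: degree `a + c + 2m' + (e + 2 - W.d l)`. -/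
def StLp : Prop := ∀ P c m V, TP P c m V → ∀ a e k : ℕ, 2 * e + 1 ≤ a + c → e + 1 < 2 ^ k →
  ∀ y : (Ex a).I × V.I → ZMod 2, (Sys.ten V (Ex a)).Dg (a + c + 2 * m + e) y →
    (∀ i, i < k → (Sys.ten V (Ex a)).e (2 ^ i) y = 0) → y = 0

/-- Lw (the law; uses StTn, StLp).  StLp for `a = 0`, `Ex 0 = Sys.one`, `y ((), v) = a v`
(`(Sys.ten V Sys.one).e k y ((), v) = V.e k a v` by StTn (3)). -/
def StLw : Prop := ∀ P c m V, TP P c m V → ∀ e k : ℕ, 2 * e + 1 ≤ c → e + 1 < 2 ^ k →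
  ∀ a : V.I → ZMod 2, V.Dg (c + 2 * m + e) a → (∀ i, i < k → V.e (2 ^ i) a = 0) → a = 0

/-- Zz (the square of the first operation; uses StTn, StOk).  Induction on `TP`.  By StTn (2), with
`y_l = y (l, ·)`: `(e 1 y) (m, ·) = e 1 y_m + ∑_l W.c 1 l m y_l` (`e 0 = id`, `W.c 0` the identity).  Apply it
twice: `e 1 e 1 y_m + 2 ∑_l W.c 1 l m e 1 y_l + ∑_l (∑_i W.c 1 l i W.c 1 i m) y_l = 0`. -/
def StZz : Prop := ∀ c m V, TP Sys.Z1 c m V → ∀ y : V.I → ZMod 2, V.e 1 (V.e 1 y) = 0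

/-- Ec (uses StTn).  Claim for all `D₁ ≥ D₀` with `x (l, v) = 0` for `W.d l < D₁`, by induction on
`s + 1 - D₁`.  If `D₁ > s`, `x = 0` (StTn (4)): `y = 0`.  Otherwise, for each `l` with `W.d l = D₁`,
`e 1 (x (l, ·)) = 0` by StTn (3), so there is `y_l` with `e 1 y_l = x (l, ·)` and the right degree.
`y (l, v) = y_l v` if `W.d l = D₁` and `0` otherwise.  By StTn (2), `(e 1 y) (m, ·) = e 1 (y (m, ·)) +
∑_l W.c 1 l m y (l, ·)`: it is `x (m, ·)` for `W.d m = D₁`, and `0` for `W.d m < D₁`.  So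
`x + e 1 y` vanishes for `W.d l ≤ D₁`; it has degree `s`, and `e 1 (x + e 1 y) = 0` by the hypothesis
on `e 1 e 1`.  Induction with `D₁ + 1`. -/
def StEc : Prop := ∀ V W : Sys, V.Ok → W.Ok → (∀ y : W.I × V.I → ZMod 2,
    (Sys.ten V W).e 1 ((Sys.ten V W).e 1 y) = 0) → ∀ D₀ s : ℕ,
  (∀ D, D₀ ≤ D → D ≤ s → ∀ x : V.I → ZMod 2, V.Dg (s - D) x → V.e 1 x = 0 →
    ∃ y : V.I → ZMod 2, (∀ l, y l ≠ 0 → V.d l + 1 = s - D) ∧ V.e 1 y = x) →
  ∀ x : W.I × V.I → ZMod 2, (Sys.ten V W).Dg s x → (∀ l v, W.d l < D₀ → x (l, v) = 0) →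
    (Sys.ten V W).e 1 x = 0 → ∃ y : W.I × V.I → ZMod 2,
      (∀ p, y p ≠ 0 → (Sys.ten V W).d p + 1 = s) ∧ (Sys.ten V W).e 1 y = x

/-- Ex (exactness; uses StTn, StOk, StLt, StZz, StEc).  Induction on `TP` for all `s`.  `one`: `s < 0`.
`sg`, `s < 3 (c + 1) + 2 m`: `x1 = x (l0, ·)`, `x2 = x (m0, ·)`.  StLt (2): `e 1 x2 + x1 = 0`, i.e. `x1 = e 1 x2`.
`y0 (l, v) = x2 v` if `l = l0`, else `0`.  `(e 1 y0) (l0, ·) = e 1 x2 = x1`, `(e 1 y0) (m0, ·) = x2`, and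
`(e 1 y0) (m, ·) = 0` for the other `m` (StLt (3) with `y' = 0`).  So `x' = x + e 1 y0` vanishes at `l0`, `m0`, i.e.
for `W.d l < 3`, has degree `s`, and `e 1 x' = 0` (StZz).  StEc with `D₀ = 3` (the hypothesis for `V`:
`s - D < 3 c + 2 m` for `3 ≤ D ≤ s`) gives `x' = e 1 y'`, `x = e 1 (y0 + y')`.  Degree of `y0`: where `x2 v ≠ 0`,
`2 + V.d v = s`, so `1 + V.d v + 1 = s`.  `cl`: StEc with `D₀ = 2`. -/
def StEx : Prop := ∀ c m V, TP Sys.Z1 c m V → ∀ s, s < 3 * c + 2 * m → ∀ x : V.I → ZMod 2, V.Dg s x →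
  V.e 1 x = 0 → ∃ y : V.I → ZMod 2, (∀ l, y l ≠ 0 → V.d l + 1 = s) ∧ V.e 1 y = x

/-! ## 2. Topology: operations and relations -/

/-- Su (finite sums).  (1) induction on the finite set with `Ops.add` (empty set: `q n s 0` lies in `BR` by
`Ops.br`).  (2) `x = y + (x + y)`: `Ops.add` and `Ops.br`.  (3) `c = 0` or `1`. -/
def StSu : Prop := ∀ q, Ops q → ∀ (n s : ℕ) (t : ℤ),
  (∀ (α : Type) (A : Finset α) (g : α → RR Empty), (∀ i ∈ A, g i ∈ ZR s t) →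
    q n s (∑ i ∈ A, g i) + ∑ i ∈ A, q n s (g i) ∈ BR (s + n) (2 * t)) ∧
  (∀ x ∈ ZR s t, ∀ y ∈ ZR s t, x + y ∈ BR s t → q n s x + q n s y ∈ BR (s + n) (2 * t)) ∧
  ∀ (c : ZMod 2), ∀ x ∈ ZR s t, q n s (c • x) + c • q n s x ∈ BR (s + n) (2 * t)

/-- Re (relations between the classes `h_a`).  (1): the reduced diagonal of `ξ_2 ^ (2^a)` is
`ξ_1^(2^(a+1)) ⊗ ξ_1^(2^a)` (one of the two orders; `dE 2` of `X (Sum.inl (0,1)) ^ 2^a` is one of the two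
products), and (2) `dE 2 (ha a * ha b) = ha a * sh 1 (ha b) + ha b * sh 1 (ha a)` for all `a, b`
(`ha` is primitive; the product is taken in `lev 2`), which gives the other order of (1).  It suffices
to treat `a = 0` in (1) and to apply `sq_BR`, as `ha (a+1) = ha a ^ 2`, `sh` a ring homomorphism. -/
def StRe : Prop := (∀ a : ℕ, ha a * sh 1 (ha (a + 1)) ∈ BR 2 (3 * 2 ^ a) ∧
    ha (a + 1) * sh 1 (ha a) ∈ BR 2 (3 * 2 ^ a)) ∧
  ∀ a b : ℕ, ha a * sh 1 (ha b) + ha b * sh 1 (ha a) ∈ BR 2 (2 ^ a + 2 ^ b)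

/-- Kp (the operations on `kap b = h_(b-1)^2`; uses StSu, StRe).  Let `x = ha (b-1)`, `y = ha b = x^2`.  By
`Ops.one`, `dl_one`: `q 1 1 x ≡ x * sh 1 x = kap b`; `q 0 1 x ≡ x^2`; `q k 1 x ∈ BR` for `k ≥ 2`.  Cartan for
`kap b = x * sh 1 x`: `q 1 2 (kap b) ≡ y * sh 1 (kap b) + kap b * sh 2 y`, which lies in `BR` because
`[kap | y] + [y | kap] = [x | ([x|y] + [y|x])] + [([x|y] + [y|x]) | x]` (StRe (2), `mul_BR_left`,
`mul_BR_right`).  `q 2 2 (kap b) ≡ kap b * sh 2 (kap b)`, i.e. `h_(i+1)^4` with `i = b - 2`.  Apply `q 1` to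
`[h_i | h_(i+1)] ∈ BR` (StRe (1)): by Cartan `[h_(i+1)|h_(i+1)|h_(i+1)] + [h_i|h_i|h_(i+2)] ∈ BR`; multiply
by `h_(i+1)` on the right and use `[h_(i+2)|h_(i+1)] ∈ BR`: `h_(i+1)^4 ∈ BR`.  `q k 2 (kap b)`, `k ≥ 3`:
`Ops.top`. -/
def StKp : Prop := ∀ q, Ops q → ∀ b, 1 ≤ b → kap b ∈ ZR 2 (2 ^ b) ∧ kap b ^ 2 = kap (b + 1) ∧
  q 1 1 (ha b) + kap b ^ 2 ∈ BR 2 (2 * 2 ^ b) ∧
  (2 ≤ b → ∀ k, 1 ≤ k → q k 2 (kap b) ∈ BR (2 + k) (2 * 2 ^ b))

/-- H2a (`Sq^0` is onto on `Ext^2` in the degrees `2^(b+1)`).  `edge_surj` (Stab/Rec; see the use in Stab/Kun.lean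
around line 235) with `ι = Empty`, `p = 2`, `k = 0`, `m = 2^(b+1)`, `m' = 2^b`.  The rows: `q = 1`: there
is no `m'` by parity (`2 m' - 1 = 2^(b+1)`).  `q = 2`: `m' = 2^b + 1`; to show: the complex `cx (fun _ : Option
Empty => (1, 0)) (fun _ => 0) ((2, 0), 2^b + 1)` is exact in position `0`, i.e. a cocycle of `lev 1` of this
weight is `0`: the polynomials of degree two in the coefficients `w_0, w_1, ...` (`w_i` has degree
`2^i`) of internal degree `2^b + 1` are the multiples of `w_0 w_b` (`b ≥ 1`), which is not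
invariant: the two faces of `w_b` differ by a sum with the term `ξ_b w_0`, so the differential of `w_0 w_b` is
not `0`.  Hence `x = y^2 + dE 2 G`. -/
def StH2a : Prop := ∀ b : ℕ, 1 ≤ b → ∀ x ∈ ZR 2 (2 ^ (b + 1)), ∃ y ∈ ZR 2 (2 ^ b),
  x + y ^ 2 ∈ BR 2 (2 ^ (b + 1))

/-- H2b (internal degree two).  A cochain of level three (two factors) of internal degree two is
`α A^2 + β A B + γ B^2` with `A = ha 0`, `B = sh 1 (ha 0)` (the variables of degree one; all other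
variables have degree at least three; see `hom_one` in Sq2/HZ.lean, or go through `Cobar 2`,
`Hom 2 2`).  With `C = sh 2 (ha 0)`: `dE 3 (A^2)` and `dE 3 (B^2)` are `A^2` and `C^2` (in one of
the two orders; `A B` is a cocycle, `ha` is primitive), so closedness forces `α = γ = 0`. -/
def StH2b : Prop := ∀ x ∈ ZR 2 2, x = 0 ∨ x = ha 0 * sh 1 (ha 0)

/-- H2 (uses StH2a, StH2b, StKp).  Induction on `b`: `b = 1` is H2b (`kap 1 = ha 0 * sh 1 (ha 0)`).  Step: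
`x ≡ y^2`, `y ∈ BR` or `y + kap b ∈ BR`, so `y^2 ∈ BR` or `y^2 + kap (b+1) ∈ BR` (`sq_BR`, `sq_add`). -/
def StH2 : Prop := ∀ b : ℕ, 1 ≤ b → ∀ x ∈ ZR 2 (2 ^ b), x ∈ BR 2 (2 ^ b) ∨ x + kap b ∈ BR 2 (2 ^ b)

/-- DD (`Sq^1 Sq^1 = 0`).  Let `R` be a commutative ring with `2 = 0`.  `G3 = R × R × R` is an
abelian group with `(a0,a1,a2) + (b0,b1,b2) = (a0+b0, a1+b1+a0 b0, a2+b2+a1 b1+(a1+b1) a0 b0+a0^3 b0+a0 b0^3)`
(Witt vectors of length three; neutral element `(0,0,0)`, associativity and commutativity by `ring` modulo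
`2 = 0`; `-(a0,a1,a2) = (a0, a1+a0^2, a2+a1^2+a0^4)` up to a correction found by solving the equation), and
`G2 = R × R` with `(a0,a1) + (b0,b1) = (a0+b0, a1+b1+a0 b0)`.  `V : G2 → G3, (a,b) ↦ (0,a,b)` is an injective
homomorphism.  The faces `f j = fc j` (ring homomorphisms) act on all components, by homomorphisms.
`D_N x = ∑_{j < N} (-1)^j f_j x` satisfies `D_(N+1) D_N = 0` in every abelian group (`IsFace`:
`f j (f i x) = f i (f (j - 1) x)` for `i < j`).  Let `F` be a cocycle, `N = s + 2`, `x_j = f j F`,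
`P_a = ∑_{j < a} x_j = P1 fc F a`, `P_N = 0`.  The second component of `∑_{j < N} (-1)^j (x_j, 0)` is
`∑_a P_a x_a + ∑_{a odd} x_a^2` (induction on `N`; `-(x,0) = (x,x^2)`), and
`∑_a P_a x_a = ∑_a P_a P_(a+1) + (∑_a P_a)^2`, `∑_{a<N} P_a = ∑_{j < N, N-1-j odd} x_j = ∑_{j odd} x_j` (as the sum
of all `x_j` is `0`), so the second component is `∑_a P_(a+1) P_a = dl s F =: y` (`sq1_eq` in
Sq2/CartanTwo).  So `D_N (F,0,0) = (0, y, c) = V (y, c)`, and `0 = D_(N+1) V (y,c) = V D_(N+1) (y,c)`, so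
`0 = D_(N+1) (y,c) = D_(N+1) (y,0) + D_(N+1) (0,c) = (0, dl (s+1) y) + (0, ∑_j f_j c)`: `dl (dl F) = dE c`.
Level and weight of `c`: the property that `a0`, `a1`, `a2` have level `s + 2` and weights `t`, `2 t`, `4 t`
(`LW`) is preserved by `+` and `-` of `G3`. -/
def StDD : Prop := ∀ (s : ℕ) (t : ℤ), ∀ F ∈ ZR s t, Sq2.dl (s + 1) (Sq2.dl s F) ∈
  BR (s + 2) (2 * (2 * t))

/-! ## 3. Topology: bases -/

/-- Fa (existence of the bases; uses StSu).  As `exists_KF`, `exists_KF_of` in Sq2/KFex.lean, with the same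
families `f`, `g1`, `g2` (`f` depends only on `M`): `W.I = Z`, `W.d l = f.β l + 1`, `w = f.z`.  For `l` and `k ≥ 1`
with `f.β l + 1 + k ≤ n` choose by `span1` coefficients `c k l` with `q k (z l) + ∑ c k l m • (z m)^2 ∈ BR`
(`Ops.zr`; `c k l m ≠ 0 → f.β m + 1 = f.β l + 1 + k`); `c k l = 0` for `k ≥ 1` and `f.β l + 1 + k > n`;
`c 0 l m = 1` if `l = m`, else `0` (`Ops.zero`).  `span`: `span_fam'`; `indep`: `indep1`; `KU`: `surj_of`,
`inj_of`. -/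
def StFa : Prop := ∀ q, Ops q → ∀ n : ℕ, 4 ≤ n → ∃ J L : ℕ, ∀ M : ℤ, 0 < M → (2 : ℤ) ^ J ∣ M →
  ∃ (W : Sys) (w : W.I → RR Empty), W.Ok ∧ (∀ l, 1 ≤ W.d l) ∧ W.Tr n ∧ BQ q n M W w ∧
    ∀ (a : ℕ) (N : ℤ), M < 2 ^ a → 0 < N → (2 : ℤ) ^ (a + L) ∣ N → KU n N M W w

/-- Le (the basis for a power of two; uses StSu, StKp, StH2).  Note: `w l ∉ BR` for `W.d l ≤ n` (its square would
be in `BR`, contradiction to `indep` for the indicator of `l`), and for `l ≠ l'` of the same degree `≤ n`,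
`w l + w l' ∉ BR`.  Degree one: `w l ∈ ZR 1 (2^b)` is `0` or `ha b` (`ZR_one`), so `ha b`; at most one by the
note; one exists by `span` for `ha b` (`BR_one`, `ha_ne`).  `c_w` for `l0`, `k = 1`: `q 1 1 (ha b) ≡ dl 1 (ha b)`
is not in `BR` (`dl_ha`), so some `c 1 l0 m0 ≠ 0`, `W.d m0 = 2`.  Degree two: `w m + kap b ∈ BR` (StH2), at most
one.  `c k l0 m = 0` for `k ≥ 2`: `Tr` if `1 + k > n`, otherwise `q k 1 (ha b) ∈ BR` (`Ops.top`) and `indep`.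
`c k m0 m = 0` for `k ≥ 1`: `Tr`, or `q k 2 (w m0) ≡ q k 2 (kap b) ∈ BR` (StSu (2), StKp) and `indep`. -/
def StLe : Prop := ∀ q, Ops q → ∀ n : ℕ, 4 ≤ n → ∀ b : ℕ, 2 ≤ b → ∀ (W : Sys) (w : W.I → RR Empty),
  W.Ok → (∀ l, 1 ≤ W.d l) → W.Tr n → BQ q n (2 ^ b) W w →
    ∃ l0 m0, W.Let l0 m0 ∧ w l0 = ha b ∧ w m0 + kap b ∈ BR 2 (2 ^ b)

/-- Cl (the basis for other clusters).  If `W.d l = 1`, `w l ∈ ZR 1 M` is `0` (`ZR_one'`), so the indicator of `l`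
contradicts `indep`. -/
def StCl : Prop := ∀ q, ∀ n : ℕ, 4 ≤ n → ∀ M : ℤ, 0 < M → (¬ ∃ b : ℕ, M = 2 ^ b) →
  ∀ (W : Sys) (w : W.I → RR Empty), W.Ok → (∀ l, 1 ≤ W.d l) → BQ q n M W w → W.Cl

/-- Tb (the basis of the product; uses StSu).  `w_mem`: `mul_ZR`.  `c_w`: by `Ops.mul` with `F = v l'`, `G = w l`
(`i = V.d l'`, `j = W.d l`), `q k (w l * sh (v l')) ≡ ∑_i q i (w l) * sh (W.d l + i) (q (k-i) (v l'))`; replace
`q i (w l)` by `∑_m W.c i l m • (w m)^2` and `q (k-i) (v l')` by `∑ V.c (k-i) l' m' • (v m')^2`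
(`mul_BR_left`, `mul_BR_right`; all indices are at most `n`), and `W.d l + i = W.d m` where
`W.c i l m ≠ 0`; `sh` is a ring homomorphism, linear over `ZMod 2`.  `span`: `KU.surj`, then `BQ.span` for the
`u l`, `W.d l ≤ s`.  `indep`: `∑_(l,l') a (l,l') • (w l * sh (v l'))^2 = ∑_l (w l)^2 * sh (∑_l' a (l,l') • (v l')^2)`,
`KU.inj` and `BQ.indep` for `v` (where `W.d l > s` all `a (l, l')` are `0` by degrees). -/
def StTb : Prop := ∀ q, Ops q → ∀ (n : ℕ) (N M : ℤ) (V W : Sys) (v : V.I → RR Empty)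
  (w : W.I → RR Empty), V.Ok → W.Ok → BQ q n N V v → BQ q n M W w → KU n N M W w →
    BQ q n (N + M) (Sys.ten V W) fun p : W.I × V.I => w p.1 * sh (W.d p.1) (v p.2)

/-- Ob (product with the unit).  `(Sys.ten Sys.one W).I = W.I × Unit`, the same degrees and matrices
(only `i = k` contributes); reindex all sums along `l ↦ (l, ())`. -/
def StOb : Prop := ∀ q, ∀ (n : ℕ) (T : ℤ) (W : Sys) (w : W.I → RR Empty), BQ q n T W w →
  BQ q n T (Sys.ten Sys.one W) fun p : W.I × Unit => w p.1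

/-- Ch (chains; uses StOk, StFa, StLe, StCl, StTb, StOb).  Induction on `Ch L c m t` as in `chain` of
Sq2/Chain.lean.  `J` = the sum of the `J` of StFa, of the hypothesis on `P`, and `2`.  `sg a`:
`M = 2^b * 2^a = 2^(b+a)`, `W`, `w` from StFa, `W.Let` from StLe, `TP.sg` over `TP.one`, StOb.  `cl t`: the same with
`not_pow_mul` and StCl.  `addsg a`: `N = 2^b * t`, `M = 2^b * 2^a < 2^(a+b+1)`, `KU` from StFa, StTb.
`addcl a M`: `2^b * M < 2^(a+b)`. -/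
def StCh : Prop := ∀ q, Ops q → ∀ n : ℕ, 4 ≤ n → ∀ P : Sys → Prop,
  (∃ J : ℕ, ∀ T : ℤ, 0 < T → (2 : ℤ) ^ J ∣ T → ∀ (W : Sys) (w : W.I → RR Empty), W.Ok → W.Tr n →
    BQ q n T W w → P W) →
  ∃ J L : ℕ, ∀ b : ℕ, J ≤ b → ∀ c m t : ℕ, Ch L c m t →
    ∃ (V : Sys) (w : V.I → RR Empty), TP P c m V ∧ BQ q n ((2 ^ b * t : ℕ) : ℤ) V w

/-- Ee (the square of the first operation; uses StSu, StDD).  `J` from `exists_Gi n`.  Let `W.d l + 2 ≤ n`.  By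
`Ops.one`, `c_w`: `dl (w l) ≡ ∑_i c 1 l i • (w i)^2`; apply `dl` (StDD; `dlOp`, `dl_sq`, `dl_add`, as in
`exists_KF_of`, or `q 1` with StSu and `Ops.one`): `∑_m (∑_i c 1 l i * c 1 i m) • (w m)^4 ∈ BR`.  This is the
square of `∑_m (..) • (w m)^2`, so that element is in `BR` (`Gi`), and `indep` gives the claim.  If
`W.d l + 2 > n` then `c 1 i m = 0` whenever `c 1 l i ≠ 0` (`Tr`, `Ok.deg`). -/
def StEe : Prop := ∀ q, Ops q → ∀ n : ℕ, ∃ J : ℕ, ∀ T : ℤ, 0 < T → (2 : ℤ) ^ J ∣ T →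
  ∀ (W : Sys) (w : W.I → RR Empty), W.Ok → W.Tr n → BQ q n T W w → W.Z1

/-- Tr (transfer; uses StSu).  `q k x ≡ ∑_l a l • q k (w l) ≡ ∑_l a l • ∑_m c k l m • (w m)^2 =
∑_m (e k a m) • (w m)^2`; `V.Dg (s + k) (V.e k a)`; `indep`.  `x ∈ BR` gives `∑ a l • w l ∈ BR`, its square is
`∑ a l • (w l)^2`. -/
def StTr : Prop := ∀ q, Ops q → ∀ (n : ℕ) (T : ℤ) (V : Sys) (w : V.I → RR Empty), V.Ok →
  BQ q n T V w → ∀ s ≤ n, ∀ x ∈ ZR s T, ∀ a : V.I → ZMod 2, V.Dg s a →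
    x + ∑ l, a l • w l ∈ BR s T → (x ∈ BR s T ↔ a = 0) ∧ ∀ k, s + k ≤ n →
      q k s x + ∑ m, V.e k a m • w m ^ 2 ∈ BR (s + k) (2 * T) ∧
      (q k s x ∈ BR (s + k) (2 * T) ↔ V.e k a = 0)

/-- Hf (dividing degrees by powers of two).  (1) Induction on `Ch L c m (2^i * t)` (generalize): `sg a`:
`2^a = 2^i t`, so `t` is a power of two.  `cl`: `t` is not a power of two (`not_pow_mul`).  `addsg a`:
`2^i t = t' + 2^a`, `2^(a+1+L) ∣ t'`: if `a < i` then `2^(a+1)` divides both `2^i t` and `t'` but not `2^a`; so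
`a ≥ i`, `t' = 2^i t''`, `t = t'' + 2^(a-i)`.  `addcl a M`: `M = 2^i t - t'`, `2^(a+L) ∣ t'`; if `a + L < i` then
`2^(a+L) ∣ M`, impossible as `0 < M < 2^a`; so `i ≤ a + L`, `2^i ∣ M`, hence `i < a`, `M = 2^i M'`,
`M' < 2^(a-i)`.  (2) `2^i t = ∑_j 2^(a_j) u_j`: the sum `A` over the `j` with `a_j ≥ i` is divisible by `2^i`, so
the rest `B` is too, `B = 2^i u'` with `u' ≤ k U` (`B ≤ k 2^i U`); if there is no `j` with `a_j < i`, `B = 0`,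
otherwise replace one of these terms by `u'` and the others by `0`. -/
def StHf : Prop := (∀ L c m i t : ℕ, Ch L c m (2 ^ i * t) → Ch L c m t) ∧
  ∀ U k i t : ℕ, Few U k (2 ^ i * t) → Few (k * U + U) k t

/-- Fi (half A; uses StOk, StLw, StCh, StTr, StHf).  `n = s + 2^k + 6`, `P = fun _ => True`; `J1`, `L` from StCh;
`U'` from `degrees (s+1) _ L`; `U = (s+1) * U' + U'`, `J0 = J1`.  Let `J ≥ J0`, `t₁ = 2^J t`, `X ∈ ZR (s+1) t₁`, not in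
`BR`.  Then `dm (s+1) t₁ ≠ 0` (`exists_th`, `dm_zero_iff`, `th_mem_BR`), so `c + m + e' = s + 1`, `m ≤ e'`,
`Clus U' (c+m) t₁` (`clus_iff_few`), `Ch L c m t₁`.  StHf: `Ch L c m (2^(J-J1) t)` and `Few _ (c+m) t`; `Few` is
monotone in both parameters (`Clus.mono`), `c + m ≤ s + 1`, so `c + m > e`.  StCh with `b = J1`,
`t₁ = 2^J1 * (2^(J-J1) t)`: `V`, `w`.  Excess `ee = s + 1 - c - 2m ≥ 0`.  `3 (c+m) > 2 (s+1)` gives
`2 ee + 1 ≤ c`; `c + m > s + 2 - 2^k` gives `ee + 1 < 2^k`.  `BQ.span`, StTr, StLw. -/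
def StFi : Prop := ∀ q, Ops q → ∀ s k e : ℕ, e = max (2 * (s + 1) / 3) (s + 2 - 2 ^ k) →
  ∃ U J0 : ℕ, ∀ t : ℕ, ¬ Few U e t → ∀ J, J0 ≤ J → ∀ X ∈ ZR (s + 1) ((2 ^ J * t : ℕ) : ℤ),
    X ∉ BR (s + 1) ((2 ^ J * t : ℕ) : ℤ) →
      ∃ i < k, q (2 ^ i) (s + 1) X ∉ BR (s + 1 + 2 ^ i) (2 * ((2 ^ J * t : ℕ) : ℤ))

/-- Fe (exactness; uses StOk, StEx, StCh, StEe, StTr, StHf).  As StFi with `n = s + 6`, `P = Sys.Z1` (StEe):
`3 (c + m) > 2 (s + 1)` and `c + 2m ≤ s + 1` give `s + 1 < 3 c + 2 m`.  If `X ∈ BR` take `v = 0`.  `X ≡ ∑ a l • w l`, `q 1 X ≡ dl X ∈ BR`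
(`Ops.one`), so `e 1 a = 0` (StTr), `a = e 1 b` (StEx) with `V.Dg s b`, `v = ∑ b l • w l`, and
`dl v ≡ q 1 v ≡ ∑ (e 1 b) m • (w m)^2 = ∑ a m • (w m)^2 ≡ X^2` (StTr for `v`, `b`). -/
def StFe : Prop := ∀ q, Ops q → ∀ s e : ℕ, 2 * (s + 1) / 3 ≤ e →
  ∃ U J0 : ℕ, ∀ t : ℕ, ¬ Few U e t → ∀ J, J0 ≤ J → ∀ X ∈ ZR (s + 1) ((2 ^ J * t : ℕ) : ℤ),
    Sq2.dl (s + 1) X ∈ BR (s + 2) (2 * ((2 ^ J * t : ℕ) : ℤ)) →
      ∃ v ∈ ZR s ((2 ^ J * t : ℕ) : ℤ), Sq2.dl s v + X ^ 2 ∈ BR (s + 1) (2 * ((2 ^ J * t : ℕ) : ℤ))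

end Pool.Agent.Work.MP_701abf_gt.TwT
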