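import Pool.Agent.Work.MP_701abf_gt.TwT.Stmts

/-!
# The two-thirds law, half A: the exact remainder and the words (captain helper14)

Conventions as in `TwT/Stmts.lean`: each `def StXXX : Prop` is one item, the docstring is the complete
proof, file `TwT/I_XXX.lean`, import `Pool.Agent.Work.MP_701abf_gt.TwT.Stmts2`; hypotheses of `pr_XXX`:
any statement of `TwT/Stmts.lean` and EARLIER statements of this file.
-/

open MvPolynomial
open Pool.Agent.Work.MP_701abf_gt.Stab Pool.Agent.Work.MP_701abf_gt.Cob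
open Pool.Agent.Work.MP_701abf_gt.Sq2

namespace Pool.Agent.Work.MP_701abf_gt.TwT

/-! ## 4. The algebra `Lam` -/

/-- El.  On the basis (`Finsupp.linearCombination_single`, `Finsupp.induction_linear`).  (1), (2) clear.  (3):
induction on `r` (the recursion of `el`), (1), (2).  (4): induction on
`r`: `el n r` of a subset of `range r` with `m` elements is a combination of subsets of `range r` with
`m + n` elements (`del r` of a subset of `range r` inserts `r`).  (6): split the support according to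
`r ∈ S`.  (7): the support of `g₀` consists of sets without `r`, the one of `del r g₁` of sets with
`r`, and `del r` is injective on combinations of sets without `r`.  (8) no such sets. -/
def StEl : Prop := (∀ i f, del i (del i f) = 0) ∧ (∀ i j f, del i (del j f) = del j (del i f)) ∧
  (∀ n r i f, el n r (del i f) = del i (el n r f)) ∧
  (∀ n r m, ∀ f ∈ Ho r m, el n r f ∈ Ho r (m + n)) ∧ (∀ r m, ∀ f ∈ Ho r m, del r f ∈ Ho (r + 1) (m + 1)) ∧
  (∀ r m, ∀ f ∈ Ho (r + 1) m, ∃ f₀ ∈ Ho r m, (m = 0 → f = f₀) ∧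
    (1 ≤ m → ∃ f₁ ∈ Ho r (m - 1), f = f₀ + del r f₁)) ∧
  (∀ r m m', ∀ g₀ ∈ Ho r m, ∀ g₁ ∈ Ho r m', g₀ + del r g₁ = 0 → g₀ = 0 ∧ g₁ = 0) ∧
  ∀ r m, r < m → ∀ f ∈ Ho r m, f = 0

/-- Kv (uses StEl).  For a finite set `F` let `es n F` be the multiplication by the elementary symmetric function
of the letters in `F` (recursively: `es 0 = id`, `es (n+1) ∅ = 0`,
`es (n+1) (insert r F) = es (n+1) F + del r ∘ es n F` for `r ∉ F`; e.g. as a sum over `F.powersetCard n`).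
By induction on `KP r m F P`: `P ∈ Ho r m`, `F ⊆ range r`, and `el n r P = es n F P` for all `n`:
`free`: both sides follow the same recursion.  `one`: `el n (r+1) (del r P) = el n r (del r P) +
del r (..del r..) = del r (el n r P)`.  `two`, with `F' = F.erase φ`, `e_n = es n F'`:
`el n (r+1) (del φ P + del r P) = del φ (el n r P) + del r (el n r P) + del r (del φ (el (n-1) r P))`, and
`el n r P = e_n P + del φ e_(n-1) P`, so the sum is `del φ e_n P + del r e_n P + del r del φ e_(n-1) P +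
del r del φ e_(n-1) P = e_n (del φ P + del r P)`.  Since `es n F = 0` for `n > F.card`: the claim. -/
def StKv : Prop := ∀ r m F P, KP r m F P → P ∈ Ho r m ∧ F ⊆ Finset.range r ∧
  ∀ n, F.card < n → el n r P = 0

/-- Kl (uses StEl, StKv).  By linearity for `g = P`, `KP r m F P`, `F.card < j + 1`.  (1): if `F.card < j`, take
`G₀ = 0`: `del r P` (`KP.one`).  If `F.card = j ≥ 1` choose `φ ∈ F`: `G₀ = del φ P ∈ Ho r (m+1)` (as `φ < r`:
`del φ` of a subset of `range r` with `m` elements is such a set with `m + 1` elements or `0`),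
`KP.two`, `(F.erase φ).card = j - 1 < j`.  (2): `KP.free`. -/
def StKl : Prop := (∀ j r m, 1 ≤ j → ∀ g ∈ KS (j + 1) r m, ∃ G₀ ∈ Ho r (m + 1),
    G₀ + del r g ∈ KS j (r + 1) (m + 1)) ∧
  (∀ j r m, ∀ g ∈ KS j r m, g ∈ KS (j + 1) (r + 1) m) ∧
  ∀ j r m, ∀ g ∈ KS j r m, g ∈ Ho r m ∧ ∀ n, j ≤ n → el n r g = 0

/-- Lk (the kernel of the elementary symmetric functions; uses StEl, StKl).  Induction on `r` for all `m`, `j`.
`j = 0`: `el 0 r f = f = 0`.  Let `j ≥ 1`.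
`r = 0`: `m = 0`: `f` is a multiple of `single ∅ 1`, `KP.nil`; `m ≥ 1`: `f = 0` (StEl (8)).
Step: for `n ≥ 1`, `el n (r+1) f = el n r f + del r (el (n-1) r f)`.  `m = 0`: `f = f₀ ∈ Ho r 0`, by StEl (7)
`el n r f₀ = 0` and `el (n-1) r f₀ = 0` for `n ≥ j`, so `el n r f₀ = 0` for `n ≥ j - 1`, `f₀ ∈ KS (j-1) r 0`, StKl (2).
`m ≥ 1`: `f = f₀ + del r f₁`, `el n (r+1) f = el n r f₀ + del r (el n r f₁ + el (n-1) r f₀)` for `n ≥ 1`, so for
`n ≥ j`: `el n r f₀ = 0`, `el n r f₁ = el (n-1) r f₀` (StEl (7)).  Hence `el n r f₁ = 0` for `n ≥ j + 1`,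
`f₁ ∈ KS (j+1) r (m-1)` by induction, and StKl (1) gives `G₀ ∈ Ho r m` with
`G = G₀ + del r f₁ ∈ KS j (r+1) m`.  `f' = f + G = f₀ + G₀ ∈ Ho r m` and `el n (r+1) f' = 0` for `n ≥ j`
(StKl (3)), so (as in the case `m = 0`) `el n r f' = 0` for `n ≥ j - 1`, `f' ∈ KS (j-1) r m` by induction, and
`f' ∈ KS j (r+1) m` by StKl (2). -/
def StLk : Prop := ∀ r m j, ∀ f ∈ Ho r m, (∀ n, j ≤ n → el n r f = 0) → f ∈ KS j r m

/-- The condition on a set `S` of letters: free letters are not in `S`, fixed points of `μ` are in `S`, and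
of two letters exchanged by `μ` exactly one is in `S`. -/
def Cnd (r : ℕ) (F : Finset ℕ) (μ : ℕ → ℕ) (S : Finset ℕ) : Prop :=
  ∀ i, i < r → if i ∈ F then i ∉ S else if μ i = i then i ∈ S else (i ∈ S ↔ μ i ∉ S)

open Classical in
/-- The combination of all sets `S` of letters which satisfy the condition. -/
noncomputable def Inv (r : ℕ) (F : Finset ℕ) (μ : ℕ → ℕ) : Lam :=
  ∑ S ∈ (Finset.range r).powerset.filter (Cnd r F μ), Finsupp.single S 1

/-- Iv (uses StEl).  (1) By induction on `KP r m F P`; in the cases `free`, `one`: the same `μ` with `μ r = r`; `two`: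
`μ` is changed to exchange `φ` and `r` (`φ` was free and fixed).  The sets for `r + 1` are: `S` (`free`),
`insert r S` (`one`), `insert φ S` and `insert r S` (`two`), `S` a set for `r`.  (2) By induction on `r`: if
`r ∈ F`: `free`; if `r ∉ F`, `μ r = r`: `one`; if `μ r = φ < r`: use the hypothesis for `F ∪ {φ}`, `μ` with `φ`
made a fixed point, and `two`. -/
def StIv : Prop := (∀ r m F P, KP r m F P → ∃ μ : ℕ → ℕ, (∀ i, i < r → μ i < r ∧ μ (μ i) = i) ∧
    (∀ i ∈ F, μ i = i) ∧ P = Inv r F μ) ∧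
  ∀ r F (μ : ℕ → ℕ), F ⊆ Finset.range r → (∀ i, i < r → μ i < r ∧ μ (μ i) = i) → (∀ i ∈ F, μ i = i) →
    ∃ m, KP r m F (Inv r F μ)

/-! ## 5. Products of powers of two -/

/-- The image of the sets of letters. -/
def Im {V : Sys} (r : ℕ) (ι : Finset ℕ → V.I) : Set V.I := {p | ∃ S, S ⊆ Finset.range r ∧ ι S = p}

open Classical in
/-- The vector with the coefficients `f S` at `ι S`. -/
noncomputable def push {V : Sys} (r : ℕ) (ι : Finset ℕ → V.I) (f : Lam) : V.I → ZMod 2 := fun p =>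
  ∑ S ∈ (Finset.range r).powerset, if ι S = p then f S else 0

/-- Lq (uses StTn, StOk, StLt).  Induction on `LP r V ι`.  (1) clear.  (2) `ι S = ι (S ∩ range r)`; for `r + 1`:
`r ∈ S` iff `r ∈ S ∩ range (r+1)`.  (3), (4): `S ∩ range (r+1)` is determined by `r ∈ S` and `S ∩ range r`
(`l0 ≠ m0` by degrees); `V.d` of the image: `1` or `2` plus the degree for `S ∩ range r`.
(5) `p = (m, v) ∉ Im (r+1)`: either `m ≠ l0, m0`: StLt (3); or `m = l0`, `v ∉ Im r`: StLt (1) and induction; or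
`m = m0`, `v ∉ Im r`: StLt (2) and induction (operation `0`: `StTn (5)`).  (6) `p = (m, v) ∈ Im (r+1)`: `m = l0` or
`m = m0`, `v ∈ Im r`: the same. -/
def StLq : Prop := ∀ (r : ℕ) (V : Sys) (ι : Finset ℕ → V.I), LP r V ι →
  TP (fun _ => True) r 0 V ∧ (∀ S, ι S = ι (S ∩ Finset.range r)) ∧
  (∀ S T, S ⊆ Finset.range r → T ⊆ Finset.range r → ι S = ι T → S = T) ∧
  (∀ S, S ⊆ Finset.range r → V.d (ι S) = r + S.card) ∧
  (∀ n (y y' : V.I → ZMod 2), (∀ p, p ∉ Im r ι → y p = y' p) → ∀ p, p ∉ Im r ι →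
    V.e n y p = V.e n y' p) ∧
  ∀ n (y y' : V.I → ZMod 2), (∀ p, p ∈ Im r ι → y p = y' p) → ∀ p, p ∈ Im r ι →
    V.e n y p = V.e n y' p

/-- Pu (the operations on the sets of letters; uses StTn, StOk, StLt, StLq, StEl).  (1) For `S ⊆ range r`,
`push f (ι S) = f S` (StLq (3)).  (2) Induction on `LP`, for `f = single S 1`, `S ⊆ range r`, by linearity
(`push` is additive).  For `r + 1` write `f = f₀ + del r f₁` (StEl (6)): the component of
`push (r+1) f` at `l0` is `push r f₀`, at `m0` it is `push r f₁`, the other components are `0`; so by StLt the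
components of `e n (push f)`, `n ≥ 1`, are `e n (push f₀) = push (el n r f₀)` at `l0`,
`e n (push f₁) + e (n-1) (push f₀) = push (el n r f₁ + el (n-1) r f₀)` at `m0`, and `0` at the others (StLt (3) with
`y' = 0`), and `el n (r+1) f = el n r f₀ + del r (el n r f₁ + el (n-1) r f₀)`.  `n = 0`: StTn (5). -/
def StPu : Prop := ∀ (r : ℕ) (V : Sys) (ι : Finset ℕ → V.I), LP r V ι →
  (∀ (f : Lam) (S : Finset ℕ), S ⊆ Finset.range r → push r ι f (ι S) = f S) ∧
  ∀ m, ∀ f ∈ Ho r m, V.Dg (r + m) (push r ι f) ∧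
    ∀ n, V.e n (push r ι f) = push r ι (el n r f)

/-- Nl (uses StTn, StOk, StLt, StLr, StLq).  Induction on `LP` for all `m`, `j`, `K`.  `j = 0`: `e 0 y = y = 0`
(`0 < K`).  Let `j ≥ 1`.  `one`: every `p` is in `Im 0`.  Step: `y` on `Sys.ten V W`, degree `r + 1 + m`,
`2m + j ≤ r + 4`.  For `W.d l ≥ 3`: `y (l, ·) = 0` by strong induction on `W.d l` (StLt (4)): degree
`r + (m + 1 - W.d l)`, or `0` by degrees (StOk), StLr with `c = r`, `m = 0`, `k = j`, `e = m + 1 - W.d l ≤ m - 2`,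
`2 (m - 2) + j ≤ r`.  `y1 = y (l0, ·)` (degree `r + m`), `y2 = y (m0, ·)` (degree `r + (m - 1)`, `0` if `m = 0`):
`e n y1 = 0` and `e n y2 + e (n-1) y1 = 0` for `j ≤ n < K`.  So `e n y2 = 0` for `j + 1 ≤ n < K`, and by induction
for `(m - 1, j + 1)` `y2` vanishes outside `Im r`.  Let `z` be `y1` outside `Im r` and `0` on `Im r`.  `e n z` vanishes
on `Im r` (StLq (6) with `y' = 0`), and outside `Im r` it is `e n y1` (StLq (5)), which for `j - 1 ≤ n`, `n + 1 < K` is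
`e (n+1) y2`, and this is `0` outside `Im r` (StLq (5) with `y' = 0`); for `n = K - 1 ≥ j` it is `0` too.  So
`e n z = 0` for `j - 1 ≤ n < K` and by induction for `(m, j - 1)` `z = 0` outside `Im r`, so `y1` vanishes there.
Every `p ∉ Im (r+1)` is `(l0, v)` or `(m0, v)` with `v ∉ Im r`, or `(l, v)` with `W.d l ≥ 3`. -/
def StNl : Prop := ∀ (r : ℕ) (V : Sys) (ι : Finset ℕ → V.I), LP r V ι →
  ∀ m j K : ℕ, 2 * m + j ≤ r + 3 → m + j < K → ∀ y : V.I → ZMod 2, V.Dg (r + m) y →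
    (∀ n, j ≤ n → n < K → V.e n y = 0) → ∀ p, p ∉ Im r ι → y p = 0

/-! ## 6. Topology of the words -/

/-- Cs (chains of separated letters; uses StRe, StKp, StFa, StLe, StTb, StOb, StOk, StLq).  `J` = the one of StFa
plus `2`, `L` = the one of StFa plus `1`.  Induction on `r ≥ 1`.  `r = 1`: `M = 2^(a 0)`, `W`, `w`, `l0`, `m0`
from StFa, StLe, `LP.sg` over `LP.one`, StOb; `wd a S 1 = kap (a 0) * sh 2 1` or `ha (a 0) * sh 1 1`.
Step: `N = dg a r`, `2^(a r + 1 + L₀) ∣ N` (all `a i`, `i < r`, are at least `a r + L`), `M = 2^(a r) < 2^(a r + 1)`,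
`KU` from StFa, StTb, `LP.sg`; `w l0 = ha (a r)`, `w m0 + kap (a r) ∈ BR`, so
`w l0 * sh 1 (v (ι S)) + ha (a r) * sh 1 (wd a S r) ∈ BR` and
`w m0 * sh 2 (v (ι S)) + kap (a r) * sh 2 (wd a S r) ∈ BR` (`mul_BR_left`, `mul_BR_right`); `wd a S r` and `ι S`
depend only on `S ∩ range r`. -/
def StCs : Prop := ∀ q, Ops q → ∀ n : ℕ, 4 ≤ n → ∃ L J : ℕ, ∀ r, 1 ≤ r → ∀ a : ℕ → ℕ, Sep L J a r →
  ∃ (V : Sys) (ι : Finset ℕ → V.I) (w : V.I → RR Empty), LP r V ι ∧ BQ q n (dg a r : ℤ) V w ∧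
    ∀ S, S ⊆ Finset.range r → wd a S r ∈ ZR (r + S.card) (dg a r : ℤ) ∧
      w (ι S) + wd a S r ∈ BR (r + S.card) (dg a r : ℤ)

/-- Wd (the words; uses StTn, StOk, StTr, StEl, StLq, StPu, StCs).  `n₀ = 4 R + 10`.  If `m > r`, `f = 0` (StEl (8)), all
clear.  Let `m ≤ r`, `y = push r ι f`.  `∑_p y p • w p = ∑_(S ⊆ range r) f S • w (ι S)` and
`Ph a r f = ∑_S f S • wd a S r` (`f` is supported on subsets of `range r` with `m` elements), so
`Ph a r f + ∑_p y p • w p ∈ BR`, and StTr applies: `Ph a r f ∈ BR ↔ y = 0 ↔ f = 0` (StPu (1)); for `n ≤ r + m`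
`q n (Ph a r f) ∈ BR ↔ e n y = 0 ↔ push (el n r f) = 0 ↔ el n r f = 0`; for `n > r + m` the left side is true
(`Ops.top`), and `el n r f ∈ Ho r (m + n)` is `0` (StEl (4), (8)). -/
def StWd : Prop := ∀ q, Ops q → ∀ R : ℕ, ∃ L J : ℕ, ∀ r, 1 ≤ r → r ≤ R → ∀ a : ℕ → ℕ, Sep L J a r →
  ∀ m, ∀ f ∈ Ho r m, Ph a r f ∈ ZR (r + m) (dg a r : ℤ) ∧
    (Ph a r f ∈ BR (r + m) (dg a r : ℤ) ↔ f = 0) ∧
    ∀ n, (q n (r + m) (Ph a r f) ∈ BR (r + m + n) (2 * (dg a r : ℤ)) ↔ el n r f = 0)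

/-- Fr (Frobenius on words).  `ha (b + i) = ha b ^ 2^i`, `kap (b + i) = kap b ^ 2^i` for `b ≥ 1`, `sh` is a ring
homomorphism, and `x ↦ x ^ 2^i` is additive. -/
def StFr : Prop := ∀ (i r : ℕ) (a : ℕ → ℕ) (f : Lam), (∀ k, k < r → 1 ≤ a k) →
  Ph (fun k => a k + i) r f = Ph a r f ^ 2 ^ i

/-- Rm (the exact remainder; uses StTn, StOk, StTr, StEl, StLk, StLq, StPu, StNl, StCs).  `n₀ = 4 R + 10`,
`K = r + m + j + 1`.  `x ≡ ∑ y p • w p` (`BQ.span`), `V.Dg (r + m) y`.  `q n x ∈ BR` for `j ≤ n ≤ r + m` by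
hypothesis and for `r + m < n < K` by `Ops.top`, so `e n y = 0` for `j ≤ n < K` (StTr; `r + m + n ≤ n₀`, because
`r + m + n ≤ 2 r + 2 m + j ≤ 3 r + 3`).  StNl: `y = 0` outside `Im`.  Let `f S = y (ι S)` for `S ⊆ range r`, `S.card = m`, and
`0` otherwise: `f ∈ Ho r m`, `y = push r ι f` (by degrees `y (ι S) = 0` for `S.card ≠ m`).  StPu: `el n r f = 0` for
`j ≤ n < K`, and for `n ≥ K` (`m + n > r`) by StEl (4), (8).  StLk: `f ∈ KS j r m`, and `x + Ph a r f ∈ BR` as in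
StWd.  (If `m > r`: `m ≤ 1` or `r ≤ 3 - m..`: the same proof, `f ∈ Ho r m`.) -/
def StRm : Prop := ∀ q, Ops q → ∀ R : ℕ, ∃ L J : ℕ, ∀ r, 1 ≤ r → r ≤ R → ∀ a : ℕ → ℕ, Sep L J a r →
  ∀ m j : ℕ, 2 * m + j ≤ r + 3 → ∀ x ∈ ZR (r + m) (dg a r : ℤ),
    (∀ n, j ≤ n → n ≤ r + m → q n (r + m) x ∈ BR (r + m + n) (2 * (dg a r : ℤ))) →
      ∃ g ∈ KS j r m, x + Ph a r g ∈ BR (r + m) (dg a r : ℤ)

end Pool.Agent.Work.MP_701abf_gt.TwT
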