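import Pool.Agent.Work.MP_701abf_gt.Cob.OpsDefs

/-!
Definitions for the statement of the theorem on undetected classes.
-/

open MvPolynomial

namespace Pool.Agent.Work.MP_701abf_gt.TwT

open Pool.Agent.Work.MP_701abf_gt.Cob

noncomputable section

/-- The cochain `[ξ_1^(2^l_0) | ... | ξ_1^(2^l_(s-1))]`, a cocycle of the class
`h_(l_0) ... h_(l_(s-1))`. -/
def word (s : ℕ) (l : List ℕ) : Cobar s := ∏ v : Fin s, xi v 1 ^ 2 ^ l.getD v 0

/-- The exponents `a 0, ..., a (r-1)`, where `a i` is replaced by `a i - 1, a i - 1` for `i ∈ S`. -/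
def letters {r : ℕ} (a : ℕ → ℕ) (S : Finset (Fin r)) : List ℕ :=
  (List.finRange r).flatMap fun i => if i ∈ S then [a i - 1, a i - 1] else [a i]

/-- The class of an involution `π` of the `r` exponents: the sum over the sets `S` of `m` exponents
which contain every fixed point and exactly one point of every 2-cycle of `π` of the words
`letters a S`, i.e. the product of the `h_(a_i-1)^2` over the fixed points `i` and of the
`h_(a_i-1)^2 h_(a_j) + h_(a_i) h_(a_j-1)^2 = Sq^1 (h_(a_i-1) h_(a_j-1))` over the 2-cycles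
`(i j)` (it is zero if `π` does not have `2 m - r` fixed points). -/
def und (r m : ℕ) (a : ℕ → ℕ) (π : Equiv.Perm (Fin r)) : Cobar (r + m) :=
  ∑ S : Finset (Fin r) with S.card = m ∧ ∀ i, (i ∈ S ∨ π i ∈ S) ∧ (π i = i ∨ ¬(i ∈ S ∧ π i ∈ S)),
    word (r + m) (letters a S)

end

end Pool.Agent.Work.MP_701abf_gt.TwT
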