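import Pool.Agent.Work.MP_701abf_gt.TwT.Stmts2
import Pool.Agent.Work.MP_701abf_gt.TwT.UDefs
import Pool.Agent.Work.MP_701abf_gt.TwT.Glue

/-!
# Undetected classes: the cobar complex (captain helper14)

Conventions as in `TwT/Stmts.lean`; hypotheses of `pr_XXX`: any statement of `TwT/Stmts.lean`,
`TwT/Stmts2.lean` and EARLIER statements of this file.  From half B (`SN/AllB.lean`, theorems):
`SN.tSqN`, `SN.tSqF`, `SN.tQZ`, `SN.tQB`, `SN.tQ01`, `SN.sqN_BR SN.tSqN` (SN/Fin.lean), and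
`ops_qn : Ops SN.qn` (TwT/Glue.lean).
-/

open MvPolynomial
open Pool.Agent.Work.MP_701abf_gt.Stab Pool.Agent.Work.MP_701abf_gt.Cob
open Pool.Agent.Work.MP_701abf_gt.Sq2

namespace Pool.Agent.Work.MP_701abf_gt.TwT

/-- Wo (words as cochains).  `th (xi v 1) = X (Sum.inl (s - 1 - v, 0))` (`th_xi`), `ha x = X (Sum.inl (0, 0)) ^ 2^x`,
`sh k` shifts the first index by `k`.  Claim by induction on `l` (appending on the right, or for all
lists): `th s (word s l) = ∏ v : Fin s, X (Sum.inl (s - 1 - v, 0)) ^ 2^(l.getD v 0)` for `l.length = s`,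
and `th (s+1) (word (s+1) (l ++ [x])) = ha x * sh 1 (th s (word s l))`.  Then induction on `r`:
`letters` for `r + 1` is `letters` for `r` followed by `[a r - 1, a r - 1]` or `[a r]` (`List.finRange_succ_last`),
`wd a T (r+1) = kap (a r) * sh 2 (wd a T r) = ha (a r - 1) * sh 1 (ha (a r - 1) * sh 1 (wd a T r))` or
`ha (a r) * sh 1 (wd a T r)`, and `(letters a S).length = r + S.card`. -/
def StWo : Prop := ∀ (r : ℕ) (a : ℕ → ℕ) (S : Finset (Fin r)),
  th (r + S.card) (word (r + S.card) (letters a S)) = wd a (S.map Fin.valEmbedding) r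

open Classical in
/-- The class of an involution in `Lam`. -/
noncomputable def InvP (r m : ℕ) (π : Equiv.Perm (Fin r)) : Lam :=
  ∑ S : Finset (Fin r) with S.card = m ∧ ∀ i, (i ∈ S ∨ π i ∈ S) ∧ (π i = i ∨ ¬(i ∈ S ∧ π i ∈ S)),
    Finsupp.single (S.map Fin.valEmbedding) 1

/-- Pb (involutions and products without free letters; uses StEl, StKv, StIv).  `KS 1 r m` is the span of
the `P` with `KP r m ∅ P`.  For an involution `π` let `μ i = π i` (`i < r`), `μ i = i` (`i ≥ r`): `Cnd r ∅ μ (S.map val)`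
iff for all `i`: `i ∈ S ∨ π i ∈ S` and `π i = i ∨ ¬(i ∈ S ∧ π i ∈ S)`; all such `S` have the same
cardinality (by StIv (2) `KP r m' ∅ (Inv r ∅ μ)`, so `Inv r ∅ μ ∈ Ho r m'` by StKv), so `InvP r m π` is
`Inv r ∅ μ` if `m = m'` and `0` otherwise.  (1) follows.  (2): `P = Inv r ∅ μ` (StIv (1)) gives `π` (`μ` restricted to
`i < r`), `P = InvP r m π`, and the set of the sums over finite sets `C` of involutions is closed under
addition (symmetric difference, characteristic two) and contains `0`.  (3): `InvP r m π` is not zero: its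
coefficient at any set `S` of the sum is `1`, and there is such a set with `m` elements if `π` has
`2m - r` fixed points, i.e. `r + (number of fixed points) = 2 m`: choose from each 2-cycle the smaller
element (`i ≤ π i`). -/
def StPb : Prop := (∀ (r m : ℕ) (π : Equiv.Perm (Fin r)), π * π = 1 → InvP r m π ∈ KS 1 r m) ∧
  (∀ (r m : ℕ), ∀ f ∈ KS 1 r m, ∃ C : Finset (Equiv.Perm (Fin r)), (∀ π ∈ C, π * π = 1) ∧
    f = ∑ π ∈ C, InvP r m π) ∧
  ∀ (r m : ℕ) (π : Equiv.Perm (Fin r)), π * π = 1 →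
    r + (Finset.univ.filter fun i => π i = i).card = 2 * m → InvP r m π ≠ 0

/-- Uw (the classes and the words; uses StWo).  `th` is linear; `Ph a r (InvP r m π) = ∑_S wd a (S.map val) r`,
and `th (r+m) (word (r+m) (letters a S)) = wd a (S.map val) r` for `S.card = m` (StWo). -/
def StUw : Prop := ∀ (r m : ℕ) (a : ℕ → ℕ) (π : Equiv.Perm (Fin r)),
  th (r + m) (und r m a π) = Ph a r (InvP r m π)

/-- Ct (chains without other clusters).  Induction on `Ch L c 0 t` (generalize `0`): `sg b`: `c = 1`, `a = fun _ => b`.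
`addsg b`: `a' i = a i` for `i < c`, `a' c = b`: `2^(b+1+L) ∣ dg a c` and `dg a c < 2^(a (c-1) + 1)`-divisibility: the
exact power of two which divides `dg a c` is `2^(a (c-1))` (`c ≥ 1`; all other `a i > a (c-1)`), so
`b + 1 + L ≤ a (c-1)`. -/
def StCt : Prop := ∀ L c t : ℕ, Ch L c 0 t → 1 ≤ c ∧ ∃ a : ℕ → ℕ, Sep (L + 1) 0 a c ∧ t = dg a c

/-- Lc (the law for all operations along chains; uses StOk, StLr, StCh, StTr).  `n = 2 s + 4`, `P = fun _ => True`.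
`x ≡ ∑ a l • w l`, StTr: `e n a = 0` for `1 ≤ n ≤ s`; StLr with `k = 1`, `K = s + 1` (`e + 1 < s + 1`: `e < c ≤ s`; if
`s = 0` there is no chain with `c ≥ 1`). -/
def StLc : Prop := ∀ q, Ops q → ∀ s : ℕ, ∃ J L : ℕ, ∀ b : ℕ, J ≤ b → ∀ c m t : ℕ, Ch L c m t →
  ∀ e, c + 2 * m + e = s → 2 * e + 1 ≤ c → ∀ x ∈ ZR s ((2 ^ b * t : ℕ) : ℤ),
    (∀ n, 1 ≤ n → n ≤ s → q n s x ∈ BR (s + n) (2 * ((2 ^ b * t : ℕ) : ℤ))) →
      x ∈ BR s ((2 ^ b * t : ℕ) : ℤ)

/-- U1 (the exact kernel in separated degrees; uses StEl, StKv, StKl, StIv, StWd, StRm, StPb, StUw).  `L`, `J` = the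
maxima of those of StWd, StRm (for `qn`, `ops_qn`), and `J ≥ 1`.  `x = th p` (`th_mem_ZR`).  (→) `qn n x ∈ BR` for
`n ≥ 1` (`sqN_BR`), StRm with `j = 1` (`2 m + 1 ≤ r + 3`): `x + Ph a r g ∈ BR`, `g ∈ KS 1 r m`; StPb (2), StUw,
`th_mem_BR`.  (←) `g = ∑_(π ∈ C) InvP r m π ∈ KS 1 r m`; StWd and StKl (3): `qn n (Ph a r g) ∈ BR` for `n ≥ 1`; `qn n` of two
cohomologous cocycles (`tQS`).  (2) StWd, StPb (3), StUw. -/
def StU1 : Prop := ∀ R : ℕ, ∃ L J : ℕ, ∀ (r m : ℕ) (a : ℕ → ℕ), 1 ≤ r → r ≤ R → Sep L J a r →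
  (2 * m ≤ r + 2 → ∀ p ∈ Zc (r + m) (dg a r),
    ((∀ n, 1 ≤ n → SN.sqN n (r + m) p ∈ Bc (r + m + n) (2 * dg a r)) ↔
      ∃ C : Finset (Equiv.Perm (Fin r)), (∀ π ∈ C, π * π = 1) ∧
        p + ∑ π ∈ C, und r m a π ∈ Bc (r + m) (dg a r))) ∧
  ∀ π : Equiv.Perm (Fin r), π * π = 1 → (r + (Finset.univ.filter fun i => π i = i).card = 2 * m →
    und r m a π ∉ Bc (r + m) (dg a r)) ∧ und r m a π ∈ Zc (r + m) (dg a r)

/-- Uf (Frobenius on the classes).  `word (s) (l.map (· + j)) = word s l ^ 2^j` and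
`letters (fun i => a i + j) S = (letters a S).map (· + j)` if all `a i ≥ 1` (`a i + j - 1 = (a i - 1) + j`);
`getD` of a list shorter than `s` does not occur because `(letters a S).length = r + S.card = r + m`. -/
def StUf : Prop := ∀ (r m j : ℕ) (a : ℕ → ℕ) (π : Equiv.Perm (Fin r)), (∀ i, i < r → 1 ≤ a i) →
  und r m (fun i => a i + j) π = und r m a π ^ 2 ^ j

/-- U2 (lines divisible by three; uses StHf, StCt, StLc, StU1, StUf).  `s = 3 m`.  `J1`, `L1` from StLc, `L2`, `J2` from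
StU1 with `R = 2 m`, `L = L1 + L2`, `U` from `degrees (3 m) _ L`, `J = J1 + J2 + 1`.  Let `P = p ^ (2^J)`.
(→) Suppose `P ∉ Bc` (otherwise the first alternative by `fr_Bc'`).  `dm (3m) t ≠ 0`, so `c + m' + e' = 3 m`, `m' ≤ e'`,
`Clus U (c + m') t`, `Ch L c m' t`; `Ch L1 c m' t` (weaker gaps).  `ee = e' - m'`.  `Clus` is monotone, so
`2 m - 1 < c + m'`.  If `2 ee + 1 ≤ c`, StLc gives `P ∈ Bc`.  So `c ≤ 2 ee = 2 (3 m - c - 2 m')`, `3 c + 4 m' ≤ 6 m`, with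
`c + m' ≥ 2 m`: `m' = 0`, `c = 2 m`.  StCt: `t = dg a (2 m)`, `Sep (L+1) 0 a (2 m)`.  StU1 for the letters `a i + J`
(`dg (a + J) = 2^J dg a`), `r = 2 m`: `P + ∑_(π ∈ C) und (2 m) m (a + J) π ∈ Bc`; powers: `fr_Bc`, StUf.
(←) first alternative: `tQB`; second alternative: StU1 for the letters `a i + j`. -/
def StU2 : Prop := ∀ m : ℕ, 1 ≤ m → ∃ U J L : ℕ, ∀ t : ℕ, ¬ Few U (2 * m - 1) t →
  ∀ p ∈ Zc (2 * m + m) t,
    ((∀ j, J ≤ j → ∀ n, 1 ≤ n →
      SN.sqN n (2 * m + m) (p ^ 2 ^ j) ∈ Bc (2 * m + m + n) (2 * (2 ^ j * t))) ↔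
      (∀ j, J ≤ j → p ^ 2 ^ j ∈ Bc (2 * m + m) (2 ^ j * t)) ∨
      ∃ a : ℕ → ℕ, (∀ i, i + 1 < 2 * m → a (i + 1) + L ≤ a i) ∧ t = ∑ i ∈ Finset.range (2 * m), 2 ^ a i ∧
        ∃ C : Finset (Equiv.Perm (Fin (2 * m))), (∀ π ∈ C, π * π = 1) ∧ ∀ j, J ≤ j →
          p ^ 2 ^ j + ∑ π ∈ C, und (2 * m) m (fun i => a i + j) π ∈ Bc (2 * m + m) (2 ^ j * t))

end Pool.Agent.Work.MP_701abf_gt.TwT
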