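import Pool.Agent.Work.MP_701abf_gt.TwT.Stmts4

/-!
# The class `esum` as a value of an operation (captain helper14)
-/

open MvPolynomial
open Pool.Agent.Work.MP_701abf_gt.Stab Pool.Agent.Work.MP_701abf_gt.Cob
open Pool.Agent.Work.MP_701abf_gt.Sq2

namespace Pool.Agent.Work.MP_701abf_gt.TwT

/-- Pq (the operations on words; uses StTn, StOk, StTr, StEl, StLq, StPu, StCs).  As item Wd: `n₀ = 4 R + 10`; if
`m > r`, `f = 0` and both terms are in `BR` (`Ops.br`); if `n > r + m` the first term is in `BR` (`Ops.top`) and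
`el n r f = 0` (StEl (4), (8)).  Otherwise `y = push r ι f`, `Ph a r f + ∑_p y p • w p ∈ BR`, StTr:
`q n (Ph a r f) + ∑_p (e n y) p • w p ^ 2 ∈ BR`, `e n y = push r ι (el n r f)` (StPu), and
`∑_p (e n y) p • w p ^ 2 = (∑_p (e n y) p • w p) ^ 2` (coefficients in `ZMod 2`; `sq_add`), which is
congruent to `(Ph a r (el n r f)) ^ 2` (`sq_BR`). -/
def StPq : Prop := ∀ q, Ops q → ∀ R : ℕ, ∃ L J : ℕ, ∀ r, 1 ≤ r → r ≤ R → ∀ a : ℕ → ℕ, Sep L J a r →
  ∀ m, ∀ f ∈ Ho r m, ∀ n, q n (r + m) (Ph a r f) + Ph a r (el n r f) ^ 2 ∈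
    BR (r + m + n) (2 * (dg a r : ℤ))

/-- U5 (`Sq^d` of a product of classes `h`; uses StWo, StWd, StPq, StFr, StMl, StEs).  `J ≥ 1`.
`x = word c (letters a ∅)`: `th x = wd a ∅ c = Ph a c (single ∅ 1)` (StWo with `S = ∅`), `x` is a cocycle (StWd: its
image is in `ZR`; `exists_th`, `th_inj`).  By `tSqN` and StPq (for `qn`, `m = 0`) `th (sqN d c x)` is congruent to
`(Ph a c (el d c (single ∅ 1)))^2 = Ph (a + 1) c (el d c (single ∅ 1))` (StFr with `i = 1`) `= th (esum c d (a + 1))`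
(StEs (1)); `th_mem_BR`. -/
def StU5 : Prop := ∀ c d : ℕ, 1 ≤ c → ∃ L J : ℕ, ∀ a : ℕ → ℕ, Sep L J a c →
  SN.sqN d c (word c (letters a (∅ : Finset (Fin c)))) + esum c d (fun i => a i + 1) ∈
    Bc (c + d) (2 * dg a c)

end Pool.Agent.Work.MP_701abf_gt.TwT
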