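import Pool.Agent.Work.MP_701abf_gt.TwT.Stmts5

/-!
# The number of undetected classes, and all critical lines (captain helper14)

Conventions as in `TwT/Stmts4.lean`; hypotheses of `pr_XXX`: any statement of the files `TwT/Stmts.lean`,
..., `TwT/Stmts5.lean` and EARLIER statements of this file.
-/

open MvPolynomial
open Pool.Agent.Work.MP_701abf_gt.Stab Pool.Agent.Work.MP_701abf_gt.Cob
open Pool.Agent.Work.MP_701abf_gt.Sq2

namespace Pool.Agent.Work.MP_701abf_gt.TwT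

/-- Dm (dimensions; uses StEl, StKl, StLk).  By StLk and StKl (3), `KS j r m` is the set of the `f ∈ Ho r m` with
`el n r f = 0` for all `n ≥ j` (*).  It is finite dimensional (contained in `Ho r m`, the combinations of finitely
many sets).  Induction on `r` for all `m`, `j`.  `j = 0`: no `P` has `F.card < 0`, so `KS 0 r m = ⊥`, clear.  Let `j ≥ 1`.
`r = 0`: `choose 0 (m + j) = 0`; `m = 0`: `KS j 0 0` is the line spanned by `single ∅ 1` (`KP.nil`); `m ≥ 1`: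
`Ho 0 m = ⊥` (StEl (8)).  Step (`r + 1 ≤ 2 m + j`): for `n ≥ 1`, `el n (r+1) f = el n r f + del r (el (n-1) r f)`.
`m = 0`: `Ho (r+1) 0 = Ho r 0`, and by StEl (7) and (*) `KS j (r+1) 0 = KS (j-1) r 0`;
`choose (r+1) j = choose r (j-1) + choose r j`, `choose r j = 0`.  `m = m' + 1`: `f = f₀ + del r f₁` (StEl (6)), `f₁` is
determined by `f` and linear in it (`f₁ S = f (insert r S)` for `r ∉ S`, `0` for `r ∈ S`).  `f ∈ KS j (r+1) (m'+1)` iff for all
`n ≥ j`: `el n r f₀ = 0`, `el n r f₁ = el (n-1) r f₀` (StEl (7)).  So `f ↦ f₁` is a linear map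
`KS j (r+1) (m'+1) → KS (j+1) r m'`, surjective by StKl (1), with kernel `KS (j-1) r (m'+1)`
(`f = f₀` with `el (n-1) r f₀ = 0` for `n ≥ j`).  Rank and nullity (`LinearMap.finrank_range_add_finrank_ker`), the induction
hypotheses (`r ≤ 2 m' + (j + 1)`, `r ≤ 2 (m' + 1) + (j - 1)`) and Pascal's rule for
`choose (r+1) (m'+1)` and `choose (r+1) (m'+1+j)`. -/
def StDm : Prop := ∀ r m j : ℕ, r ≤ 2 * m + j →
  Module.finrank (ZMod 2) (KS j r m) + r.choose (m + j) = r.choose m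

/-- Bs (a basis of involutions; uses StPb).  By StPb (1), (2) `KS 1 r m` is the span of the set `G` of the `InvP r m π`,
`π * π = 1`.  `exists_fun_fin_finrank_span_eq (ZMod 2) G` gives linearly independent elements of `G` with the same
span; linear combinations over `ZMod 2` are sums over subsets.  An element of a linearly independent family is
not zero, so there is `S` with `S.card = m`, `i ∈ S ∨ π i ∈ S` and (`π i = i` or not both), for all `i`: `S` contains the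
fixed points and `π` is a bijection from `S` without the fixed points to the complement of `S`, so
`r + (number of fixed points) = 2 m`. -/
def StBs : Prop := ∀ r m N : ℕ, Module.finrank (ZMod 2) (KS 1 r m) = N →
  ∃ π : Fin N → Equiv.Perm (Fin r),
    (∀ i, π i * π i = 1 ∧ r + (Finset.univ.filter fun x => π i x = x).card = 2 * m) ∧
    (∀ C : Finset (Fin N), C.Nonempty → ∑ i ∈ C, InvP r m (π i) ≠ 0) ∧
    ∀ f ∈ KS 1 r m, ∃ C : Finset (Fin N), f = ∑ i ∈ C, InvP r m (π i)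

/-- Ub (uses StWd, StPb, StUw, StDm, StBs).  `N = choose r m - choose r (m+1)`, StDm with `j = 1`, StBs.  Second claim:
StWd with `R = r` for `f = ∑_(i ∈ C) InvP r m (π i) ∈ KS 1 r m`, not zero (StKl (3) or StKv: `KS 1 r m ≤ Ho r m`; StPb (1));
`th (∑_(i ∈ C) und r m a (π i)) = Ph a r f` (StUw), `th_mem_BR`.  Third claim: `∑_(ρ ∈ D) InvP r m ρ ∈ KS 1 r m`
(StPb (1)), StBs gives `C`, apply `Ph a r` (linear), StUw and `th_inj`. -/
def StUb : Prop := ∀ r m : ℕ, 1 ≤ r → r ≤ 2 * m + 1 →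
  ∃ π : Fin (r.choose m - r.choose (m + 1)) → Equiv.Perm (Fin r),
    (∀ i, π i * π i = 1 ∧ r + (Finset.univ.filter fun x => π i x = x).card = 2 * m) ∧
    (∃ L J : ℕ, ∀ a : ℕ → ℕ, Sep L J a r →
      ∀ C : Finset (Fin (r.choose m - r.choose (m + 1))), C.Nonempty →
        ∑ i ∈ C, und r m a (π i) ∉ Bc (r + m) (dg a r)) ∧
    ∀ D : Finset (Equiv.Perm (Fin r)), (∀ ρ ∈ D, ρ * ρ = 1) →
      ∃ C : Finset (Fin (r.choose m - r.choose (m + 1))), ∀ a : ℕ → ℕ,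
        ∑ ρ ∈ D, und r m a ρ = ∑ i ∈ C, und r m a (π i)

/-- U7 (separated degrees, `r ≤ 2 m ≤ r + 2`, the operations `Sq^(2^i)`, `i < k`, `m < 2^k`; uses StEl, StLk, StU1, StPb,
StUw, StUf, StMl, StRp).  `J1`, `L1` from StRp (for `SN.qn`, `ops_qn`, `d = m`), `L2`, `J2` from StU1 with `R = r`,
`L = L1 + L2`, `J = J1 + J2 + 1`; `t = dg a r`.  (1) `P = p ^ (2^J) ∈ Zc (r + m) (2^J t)`, `dg (a + J) r = 2^J dg a r`, StRp for
`th P` and the letters `a i + J`: `f ∈ Ho r m`, `el (2^i) r f = 0` for `i < k`; StMl (2): `el n r f = 0` for `1 ≤ n < 2^k`, and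
for `n ≥ 2^k` because `m + n ≥ 2 m + 1 > r` (StEl (4), (8)); `f ∈ KS 1 r m` (StLk), StPb (2), StUw, `th_mem_BR`:
`P + ∑_(π ∈ C) und r m (a + J) π ∈ Bc`; then the powers `2^(j - J)` (`fr_Bc`, StUf), exactly as at the end of item U4
(I_U4.lean, copy the code).  (2) StU1, (←), for the letters `a i + j` (`2 m ≤ r + 2`), as in items U2, U4. -/
def StU7 : Prop := ∀ k r m : ℕ, 1 ≤ r → r ≤ 2 * m → 2 * m ≤ r + 2 → m < 2 ^ k → ∃ J L : ℕ,
  ∀ a : ℕ → ℕ, (∀ i, i + 1 < r → a (i + 1) + L ≤ a i) → ∀ t, t = ∑ i ∈ Finset.range r, 2 ^ a i →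
  ∀ p ∈ Zc (r + m) t,
    ((∀ j, J ≤ j → ∀ i, i < k →
      SN.sqN (2 ^ i) (r + m) (p ^ 2 ^ j) ∈ Bc (r + m + 2 ^ i) (2 * (2 ^ j * t))) →
      ∃ C : Finset (Equiv.Perm (Fin r)), (∀ π ∈ C, π * π = 1) ∧ ∀ j, J ≤ j →
        p ^ 2 ^ j + ∑ π ∈ C, und r m (fun i => a i + j) π ∈ Bc (r + m) (2 ^ j * t)) ∧
    ∀ C : Finset (Equiv.Perm (Fin r)), (∀ π ∈ C, π * π = 1) → ∀ j, J ≤ j →
      p ^ 2 ^ j + ∑ π ∈ C, und r m (fun i => a i + j) π ∈ Bc (r + m) (2 ^ j * t) →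
        ∀ n, 1 ≤ n → SN.sqN n (r + m) (p ^ 2 ^ j) ∈ Bc (r + m + n) (2 * (2 ^ j * t))

/-- U8 (separated degrees, `d = 2^k - 1`, `2 d < c`; uses StEl, StMl, StKe, StWd, StRp, StEs).  The last part of item U3
(I_U3.lean, copy the code): `J1`, `L1` the maxima of those of StRp (`r = c`) and StWd (`R = c`), `L = L1`, `J = J1 + 1`,
`t = dg a c`.  (→) `P = p ^ (2^J)`, StRp for the letters `a i + J` (`2 d ≤ c + 2`, `d ≤ 2^k`): `P ≡ f`,
`el (2^i) c f = 0`, StMl (2): `el n c f = 0` for `1 ≤ n < 2^k`, StKe with `j = 1` (`2 d + 1 ≤ c`): `f = 0` (first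
alternative, `fr_Bc`) or `f = el d c 1` (StEs; powers: `fr_Bc`, StEs (2)).  (←) first alternative: `tQB`.  Second:
`qn n (Ph ..) ∈ BR` for `1 ≤ n < 2^k` by StWd and StMl (4), for the letters `a i + j`; `tQS`. -/
def StU8 : Prop := ∀ k c d : ℕ, 1 ≤ k → d + 1 = 2 ^ k → 2 * d < c → ∃ J L : ℕ,
  ∀ a : ℕ → ℕ, (∀ i, i + 1 < c → a (i + 1) + L ≤ a i) → ∀ t, t = ∑ i ∈ Finset.range c, 2 ^ a i →
  ∀ p ∈ Zc (c + d) t,
    ((∀ j, J ≤ j → ∀ i, i < k →
      SN.sqN (2 ^ i) (c + d) (p ^ 2 ^ j) ∈ Bc (c + d + 2 ^ i) (2 * (2 ^ j * t))) ↔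
      (∀ j, J ≤ j → p ^ 2 ^ j ∈ Bc (c + d) (2 ^ j * t)) ∨
        ∀ j, J ≤ j → p ^ 2 ^ j + esum c d (fun i => a i + j) ∈ Bc (c + d) (2 ^ j * t))

end Pool.Agent.Work.MP_701abf_gt.TwT
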