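import Pool.Agent.Work.MP_701abf_gt.TwT.Stmts6
import Pool.Agent.Work.MP_701abf_gt.TwT.I_Li

/-!
# The undetected classes in every degree at the critical level (captain helper14)
-/

open MvPolynomial
open Pool.Agent.Work.MP_701abf_gt.Stab Pool.Agent.Work.MP_701abf_gt.Cob
open Pool.Agent.Work.MP_701abf_gt.Sq2

namespace Pool.Agent.Work.MP_701abf_gt.TwT

/-- Case A: `2 d < c`, `d = 2^k - 1`. -/
def StUA : Prop := ∀ L₀ k c d : ℕ, 1 ≤ k → d + 1 = 2 ^ k → 2 * d < c → ∃ U J L : ℕ, L₀ ≤ L ∧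
  (∀ t : ℕ, ¬ Few U (c - 1) t →
    (¬ ∃ a : ℕ → ℕ, (∀ i, i + 1 < c → a (i + 1) + L ≤ a i) ∧ t = ∑ i ∈ Finset.range c, 2 ^ a i) →
    ∀ b, J ≤ b → ∀ x ∈ Zc (c + d) (2 ^ b * t),
      (∀ i, i < k → SN.sqN (2 ^ i) (c + d) x ∈ Bc (c + d + 2 ^ i) (2 * (2 ^ b * t))) →
        x ∈ Bc (c + d) (2 ^ b * t)) ∧
  ∀ a : ℕ → ℕ, Sep L J a c →
    (esum c d a ∈ Zc (c + d) (dg a c) ∧ esum c d a ∉ Bc (c + d) (dg a c)) ∧
    ∀ x ∈ Zc (c + d) (dg a c),
      ((∀ i, i < k → SN.sqN (2 ^ i) (c + d) x ∈ Bc (c + d + 2 ^ i) (2 * dg a c)) →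
        x ∈ Bc (c + d) (dg a c) ∨ x + esum c d a ∈ Bc (c + d) (dg a c)) ∧
      (x ∈ Bc (c + d) (dg a c) ∨ x + esum c d a ∈ Bc (c + d) (dg a c) →
        ∀ n, 1 ≤ n → n < 2 ^ k → SN.sqN n (c + d) x ∈ Bc (c + d + n) (2 * dg a c))

/-- Case B: `r ≤ 2 m ≤ r + 2`, `m < 2^k`. -/
def StUB : Prop := ∀ L₀ k r m : ℕ, 1 ≤ r → r ≤ 2 * m → 2 * m ≤ r + 2 → m < 2 ^ k →
  ∃ U J L : ℕ, L₀ ≤ L ∧ (2 * m ≤ r + 1 → ∀ t : ℕ, ¬ Few U (r - 1) t →
    (¬ ∃ a : ℕ → ℕ, (∀ i, i + 1 < r → a (i + 1) + L ≤ a i) ∧ t = ∑ i ∈ Finset.range r, 2 ^ a i) →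
    ∀ b, J ≤ b → ∀ x ∈ Zc (r + m) (2 ^ b * t),
      (∀ i, i < k → SN.sqN (2 ^ i) (r + m) x ∈ Bc (r + m + 2 ^ i) (2 * (2 ^ b * t))) →
        x ∈ Bc (r + m) (2 ^ b * t)) ∧
  ∀ a : ℕ → ℕ, Sep L J a r → ∀ x ∈ Zc (r + m) (dg a r),
    ((∀ i, i < k → SN.sqN (2 ^ i) (r + m) x ∈ Bc (r + m + 2 ^ i) (2 * dg a r)) →
      ∃ C : Finset (Equiv.Perm (Fin r)), (∀ π ∈ C, π * π = 1) ∧
        x + ∑ π ∈ C, und r m a π ∈ Bc (r + m) (dg a r)) ∧
    ((∃ C : Finset (Equiv.Perm (Fin r)), (∀ π ∈ C, π * π = 1) ∧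
      x + ∑ π ∈ C, und r m a π ∈ Bc (r + m) (dg a r)) →
        ∀ n, 1 ≤ n → SN.sqN n (r + m) x ∈ Bc (r + m + n) (2 * dg a r))

namespace IUAB

/-- Chains with larger gaps are chains with smaller gaps. -/
lemma ch_mono {L L' c m t : ℕ} (hL : L' ≤ L) (h : Ch L c m t) : Ch L' c m t := by
  induction h with
  | sg a => exact Ch.sg a
  | cl t h0 h => exact Ch.cl t h0 h
  | addsg a _ hd ih => exact Ch.addsg a ih ((pow_dvd_pow 2 (by omega)).trans hd)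
  | addcl a M _ h0 hM h2 hd ih =>
    exact Ch.addcl a M ih h0 hM h2 ((pow_dvd_pow 2 (by omega)).trans hd)

/-- Monotonicity. -/
lemma sep_mono {L L' J J' r : ℕ} {a : ℕ → ℕ} (hL : L' ≤ L) (hJ : J' ≤ J) (h : Sep L J a r) :
    Sep L' J' a r :=
  ⟨fun i hi => by have := h.1 i hi; omega, fun i hi => by have := h.2 i hi; omega⟩

lemma qn_congr {n s : ℕ} {t : ℤ} {F G : RR Empty} (hF : F ∈ ZR s t) (hG : G ∈ ZR s t)
    (h : F + G ∈ BR s t) (hq : SN.qn n s G ∈ BR (s + n) (2 * t)) :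
    SN.qn n s F ∈ BR (s + n) (2 * t) :=
  BR_cancel (SN.tQS.1 n s t F hF G hG h) hq

/-- The numerical inequalities. -/
lemma num {c d c' m' e' : ℕ} (h1 : c' + m' + e' = c + d) (h3 : c - 1 < c' + m') (h2 : m' ≤ e')
    (hd : 2 * d < c) (h4 : ¬ (m' = 0 ∧ c' = c)) :
    2 * (e' - m') + 1 ≤ c' ∧ e' - m' + 1 ≤ d := by
  omega

/-- The numerical inequalities in case B. -/
lemma num2 {r m c m' e' : ℕ} (h1 : c + m' + e' = r + m) (h3 : r ≤ c + m') (h2 : m' ≤ e')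
    (hd : 2 * m ≤ r + 1) (h4 : ¬ (m' = 0 ∧ c = r)) :
    c + 2 * m' + (r + m - c - 2 * m') = r + m ∧ 2 * (r + m - c - 2 * m') + 1 ≤ c + m' ∧
      r + m - c - 2 * m' + 1 ≤ m := by
  rcases Nat.eq_zero_or_pos m' with h0 | h0
  · subst h0
    refine ⟨by omega, by omega, by omega⟩
  · refine ⟨by omega, by omega, by omega⟩

lemma single_mem (r : ℕ) : (Finsupp.single ∅ 1 : Lam) ∈ Ho r 0 := by
  unfold Ho
  rw [Finsupp.mem_supported]
  intro S hS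
  have h1 := Finsupp.support_single_subset hS
  rw [Finset.mem_singleton] at h1
  subst h1
  exact ⟨Finset.empty_subset _, Finset.card_empty⟩

lemma el_ne (hMl : StMl) {c d : ℕ} (h : d ≤ c) : el d c (Finsupp.single ∅ 1) ≠ 0 := by
  intro h0
  have h1 := hMl.2.2.1 c d
  rw [h0] at h1
  have h2 := congrArg (fun f : Lam => f (Finset.range d)) h1
  simp only [Finsupp.coe_zero, Pi.zero_apply, Finsupp.finsetSum_apply, Finsupp.single_apply] at h2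
  rw [Finset.sum_ite_eq', if_pos] at h2
  · exact zero_ne_one h2
  · rw [Finset.mem_powersetCard]
    exact ⟨Finset.range_subset_range.2 h, Finset.card_range d⟩

end IUAB

open IUAB in
/-- Case A. -/
theorem pr_UA (hHf : StHf) (hCt : StCt) (hEl : StEl) (hMl : StMl) (hKe : StKe) (hWd : StWd)
    (hLq2 : StLq2) (hRp : StRp) (hEs : StEs) : StUA := by
  intro L₀ k c d hk hd hdc
  have h2k : 2 ≤ 2 ^ k := by
    calc 2 = 2 ^ 1 := (pow_one 2).symm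
      _ ≤ 2 ^ k := Nat.pow_le_pow_right (by norm_num) hk
  obtain ⟨J1, L1, hlq⟩ := hLq2 SN.qn ops_qn (c + d) k
  obtain ⟨L2, J2, hrp⟩ := hRp SN.qn ops_qn c d k (by omega) (by omega) (by omega)
  obtain ⟨L3, J3, hwd⟩ := hWd SN.qn ops_qn c
  obtain ⟨U', hU⟩ := degrees (c + d) (by omega) (L1 + L2 + L3 + L₀)
  have hf0 : el d c (Finsupp.single ∅ 1) ∈ Ho c d := by
    have := hEl.2.2.2.1 d c 0 _ (single_mem c)
    rwa [zero_add] at this
  refine ⟨(c + d) * U' + U', J1 + J2 + J3 + 1, L1 + L2 + L3 + L₀, by omega, fun t ht hns J hJ P hPZ hAJ => ?_,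
    fun a ha => ⟨?_, fun P hPZ => ⟨fun hAJ => ?_, fun hBC n hn hnk => ?_⟩⟩⟩
  · by_contra hPB
    have hne : dm (c + d) (2 ^ J * t) ≠ 0 := fun h => hPB (dm_zero_iff.1 h hPZ)
    obtain ⟨c', m', e', h1, h2, h3, h4⟩ := hU _ hne
    have hcm : c - 1 < c' + m' := by
      by_contra hcon
      apply ht
      have h5 := hHf.2 U' (c' + m') J t (clus_iff_few.1 h3)
      have h6 : (c' + m') * U' + U' ≤ (c + d) * U' + U' :=
        Nat.add_le_add_right (Nat.mul_le_mul_right _ (by omega)) _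
      exact clus_iff_few.1 ((clus_iff_few.2 h5).mono h6 (not_lt.1 hcon))
    have h9 : Ch (L1 + L2 + L3 + L₀) c' m' t := hHf.1 _ c' m' J _ h4
    have hmc : m' = 0 ∧ c' = c := by
      by_contra h10
      obtain ⟨h11, h12⟩ := num h1 hcm h2 hdc h10
      apply hPB
      refine th_mem_BR.1 (hlq J (by omega) c' m' t (ch_mono (by omega) h9) (e' - m') (by omega)
        h11 (by omega) (th (c + d) P) (th_mem_ZR hPZ) fun i hi => ?_)
      exact (SN.sqN_BR SN.tSqN hPZ).1 (hAJ i hi)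
    obtain ⟨hm', hc⟩ := hmc
    rw [hm', hc] at h9
    obtain ⟨-, a, ha, hta⟩ := hCt _ _ _ h9
    exact hns ⟨a, fun i hi => by
      have := ha.1 i hi
      omega, hta⟩
  · have hS : Sep L3 J3 a c := sep_mono (by omega) (by omega) ha
    obtain ⟨hz, h0, -⟩ := hwd c (by omega) le_rfl a hS d _ hf0
    refine ⟨?_, fun hB => ?_⟩
    · rw [← hEs.1] at hz
      obtain ⟨p, hp, hpe⟩ := exists_th hz
      rw [← th_inj _ hpe]
      exact hp
    · have hB' : th (c + d) (esum c d a) ∈ BR (c + d) ((dg a c : ℕ) : ℤ) := th_mem_BR.2 hB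
      rw [hEs.1] at hB'
      exact el_ne hMl (by omega) (h0.1 hB')
  · obtain ⟨f, hf, hel, hxf⟩ := hrp a (sep_mono (by omega) (by omega) ha)
      (th (c + d) P) (th_mem_ZR hPZ) (fun i hi => (SN.sqN_BR SN.tSqN hPZ).1 (hAJ i hi))
    rcases hKe k c d 1 le_rfl hd (Or.inr (by omega)) f hf (hMl.2.1 c k f hel) with h0 | h0
    · left
      rw [h0, map_zero, add_zero] at hxf
      exact th_mem_BR.1 hxf
    · right
      rw [h0, ← hEs.1 c d, ← map_add] at hxf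
      exact th_mem_BR.1 hxf
  · rcases hBC with hB | hB
    · rw [SN.sqN_BR SN.tSqN hPZ]
      exact SN.tQB _ _ _ _ (th_mem_BR.2 hB)
    · have hS : Sep L3 J3 a c := sep_mono (by omega) (by omega) ha
      obtain ⟨hz, -, hq⟩ := hwd c (by omega) le_rfl _ hS d _ hf0
      rw [← th_mem_BR, map_add, hEs.1] at hB
      have h3 := (hq n).2 (hMl.2.2.2 c k d hd n hn hnk)
      exact (SN.sqN_BR SN.tSqN hPZ).2 (qn_congr (th_mem_ZR hPZ) hz hB h3)

open IUAB in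
/-- Case B. -/
theorem pr_UB (hHf : StHf) (hCt : StCt) (hEl : StEl) (hMl : StMl) (hLk : StLk) (hLq : StLqi)
    (hRp : StRp) (hPb : StPb) (hUw : StUw) (hU1 : StU1) : StUB := by
  intro L₀ k r m hr hrm hmr hmk
  obtain ⟨J1, L1, h1⟩ := hLq SN.qn ops_qn (r + m) k
  obtain ⟨L2, J2, h2⟩ := hRp SN.qn ops_qn r m k hr (by omega) hmk.le
  obtain ⟨L3, J3, h3⟩ := hU1 r
  obtain ⟨U', hU⟩ := degrees (r + m) (by omega) (L1 + L2 + L3 + L₀)
  refine ⟨(r + m) * U' + U', J1 + J2 + J3 + 1, L1 + L2 + L3 + L₀, by omega,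
    fun hrm' t hF hns J hJ P hPZ hsq => ?_,
    fun a ha P hPZ => ⟨fun hsq => ?_, fun hC n hn => ?_⟩⟩
  · by_contra hpB
    have hX : th (r + m) P ∈ ZR (r + m) ((2 ^ J * t : ℕ) : ℤ) := th_mem_ZR hPZ
    have hXq : ∀ i, i < k → SN.qn (2 ^ i) (r + m) (th (r + m) P) ∈
        BR (r + m + 2 ^ i) (2 * ((2 ^ J * t : ℕ) : ℤ)) := fun i hi =>
      (SN.sqN_BR SN.tSqN hPZ).1 (hsq i hi)
    have hne : dm (r + m) (2 ^ J * t) ≠ 0 := fun h => hpB (dm_zero_iff.1 h hPZ)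
    obtain ⟨c, m', e', g1, g2, g3, g4⟩ := hU _ hne
    have g5 : r ≤ c + m' := by
      by_contra hcon
      apply hF
      have h5 := hHf.2 U' (c + m') J t (clus_iff_few.1 g3)
      have h6 : (c + m') * U' + U' ≤ (r + m) * U' + U' :=
        Nat.add_le_add_right (Nat.mul_le_mul_right _ (by omega)) _
      exact clus_iff_few.1 ((clus_iff_few.2 h5).mono h6 (by omega))
    have g6 : Ch (L1 + L2 + L3 + L₀) c m' t := hHf.1 _ c m' J t g4
    obtain ⟨g7, g8⟩ : m' = 0 ∧ c = r := by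
      by_contra hcon
      apply hpB
      rw [← th_mem_BR]
      obtain ⟨n1, n2, n3⟩ := num2 g1 g5 g2 hrm' hcon
      exact h1 J (by omega) c m' t (ch_mono (by omega) g6) (r + m - c - 2 * m') n1
        n2 (by omega) _ hX hXq
    subst g7 g8
    obtain ⟨-, a, ha, hta⟩ := hCt _ c t g6
    exact hns ⟨a, fun i hi => by
      have := ha.1 i hi
      omega, hta⟩
  · obtain ⟨f, hf, hfe, hfB⟩ := h2 a (sep_mono (by omega) (by omega) ha) _ (th_mem_ZR hPZ)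
      (fun i hi => (SN.sqN_BR SN.tSqN hPZ).1 (hsq i hi))
    have hel : ∀ n, 1 ≤ n → el n r f = 0 := by
      intro n hn
      by_cases hnk : n < 2 ^ k
      · exact hMl.2.1 r k f hfe n hn hnk
      · exact hEl.2.2.2.2.2.2.2 r (m + n) (by omega) _ (hEl.2.2.2.1 n r m f hf)
    obtain ⟨C, hC, hfC⟩ := hPb.2.1 r m f (hLk r m 1 f hf hel)
    refine ⟨C, hC, ?_⟩
    rw [← th_mem_BR, map_add, map_sum, Finset.sum_congr rfl fun π _ => hUw r m _ π,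
      ← map_sum, ← hfC]
    exact hfB
  · exact (((h3 r m _ hr le_rfl (sep_mono (by omega) (by omega) ha)).1 hmr P hPZ).2 hC) n hn

end Pool.Agent.Work.MP_701abf_gt.TwT
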